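import Pool.Agent.SDE.TSide

/-!
# SDE/TP4
The sides rule for simple drawings.
-/

open Set

namespace SDE
namespace SimpleDrawing

variable {V : Type*} (D : SimpleDrawing V)

/-- translation from `ZMod 2` to `Bool` -/
private theorem TP4_bool (κ : ZMod 2) (c1 c2 c3 cA cC : Bool) (p1 p2 p3 pA pC : Prop)
    [Decidable p1] [Decidable p2] [Decidable p3] [Decidable pA] [Decidable pC]
    (h : κ + (if pC then 1 else 0) + (if cC = true then 1 else 0) =
      κ + (if pA then 1 else 0) + (if cA = true then 1 else 0) +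
        ((if c1 = true ∧ p1 then 1 else 0) + (if c2 = true ∧ p2 then 1 else 0) +
          (if c3 = true ∧ p3 then 1 else 0))) :
    (((c1 && decide p1) ^^ (c2 && decide p2)) ^^ (c3 && decide p3)) =
      ((decide pA ^^ cA) ^^ (decide pC ^^ cC)) := by
  by_cases q1 : p1 <;> by_cases q2 : p2 <;> by_cases q3 : p3 <;> by_cases qA : pA <;>
    by_cases qC : pC <;> simp only [q1, q2, q3, qA, qC, if_true, if_false, and_true,
      and_false, decide_true, decide_false] at h ⊢ <;>
    revert h <;> revert κ c1 c2 c3 cA cC <;> decide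

/-- a point of the edge `cd` different from `pt d` is not on an edge `uw` which does not cross
`cd` -/
private theorem TP4_off {c d u w : V} (hcd : c ≠ d) (hcu : c ≠ u) (hcw : c ≠ w) (huw : u ≠ w)
    (k : D.cr c d u w = false) {p : ℂ} (hp : p ∈ D.edge c d) (hpd : p ≠ D.pt d) :
    p ∉ D.edge u w := by
  intro hq
  by_cases hdu : d = u
  · subst hdu
    rw [← D.edge_comm hcd] at hp
    exact hpd (D.adj hcd.symm huw hcw hp hq)
  by_cases hdw : d = w
  · subst hdw
    rw [← D.edge_comm hcd] at hp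
    rw [← D.edge_comm huw] at hq
    exact hpd (D.adj hcd.symm huw.symm hcu hp hq)
  exact Set.disjoint_left.1 (D.cr_false hcd hcu hcw hdu hdw huw k) hp hq

/-- **P4.** Proof. The crossing point `p = curve a b (pos a b c d) = curve c d (pos c d a b)`
(`cross_point`) is not on the triangle: it is on `cd`, the edge `cd` does not cross the triangle
edges with four different endpoints (`k1 k2 k3`, `cr_false`), and it meets a triangle edge with
the endpoint `d` only in `pt d ≠ p` (`adj`). `tri_walk` along `cd` (from `c`, `a := c`, `b := d`)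
at `t = pos c d a b`: `par p = par (pt c)` (no crossings). `tri_walk` along `ab` at
`t = pos a b c d`: `par p = par (pt a) + (three terms)`. `side_lemma` for `a` and `c`, translate
to `Bool`. -/
theorem P4 [Finite V] {v x y a b c d : V} (h1 : v ≠ x) (h2 : v ≠ y) (h3 : x ≠ y) (h4 : a ≠ v)
    (h5 : a ≠ x) (h6 : a ≠ y) (h7 : c ≠ v) (h8 : c ≠ x) (h9 : c ≠ y)
    (h : D.cr a b c d = true) (k1 : D.cr c d v x = false) (k2 : D.cr c d v y = false)
    (k3 : D.cr c d x y = false) :
    (((D.cr a b v x && decide (D.pos a b v x < D.pos a b c d)) ^^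
        (D.cr a b v y && decide (D.pos a b v y < D.pos a b c d))) ^^
        (D.cr a b x y && decide (D.pos a b x y < D.pos a b c d))) =
      ((decide ((D.th v x < D.th v a ∧ D.th v a < D.th v y) ∨
            (D.th v y < D.th v a ∧ D.th v a < D.th v x)) ^^ D.cr x y v a) ^^
        (decide ((D.th v x < D.th v c ∧ D.th v c < D.th v y) ∨
            (D.th v y < D.th v c ∧ D.th v c < D.th v x)) ^^ D.cr x y v c)) := by
  obtain ⟨hab, -, -, -, -, hcd, hpos, -⟩ := D.cr_spec h
  have h' : D.cr c d a b = true := by rw [D.cr_comm]; exact h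
  obtain ⟨-, -, -, -, -, -, hpos', hmem', -⟩ := D.cr_spec h'
  have hcp := D.cross_point h
  have hpd : D.curve c d (D.pos c d a b) ≠ D.pt d := by
    intro he
    rw [← D.finish c d hcd] at he
    have := D.inj c d hcd ⟨hpos'.1.le, hpos'.2.le⟩ ⟨zero_le_one, le_rfl⟩ he
    exact absurd this hpos'.2.ne
  have hpe : D.curve c d (D.pos c d a b) ∈ D.edge c d :=
    ⟨_, ⟨hpos'.1.le, hpos'.2.le⟩, rfl⟩
  have hoff : D.curve c d (D.pos c d a b) ∉ supp (D.tri v x y) := by
    rw [D.tri_supp h1 h2 h3]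
    rintro ((hq | hq) | hq)
    · exact D.TP4_off hcd h7 h8 h1 k1 hpe hpd hq
    · exact D.TP4_off hcd h8 h9 h3 k3 hpe hpd hq
    · exact D.TP4_off hcd h7 h9 h2 k2 hpe hpd hq
  have w1 := D.tri_walk h1 h2 h3 h7 h8 h9 hcd ⟨hpos'.1.le, hpos'.2.le⟩ hoff
  have hoff' : D.curve a b (D.pos a b c d) ∉ supp (D.tri v x y) := by
    rw [hcp]; exact hoff
  have w2 := D.tri_walk h1 h2 h3 h4 h5 h6 hab ⟨hpos.1.le, hpos.2.le⟩ hoff'
  obtain ⟨κ, hκ⟩ := D.side_lemma h1 h2 h3
  have ea := hκ a h4 h5 h6
  have ec := hκ c h7 h8 h9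
  rw [hcp, w1, ec, ea] at w2
  simp only [k1, k2, k3, Bool.false_eq_true, false_and, if_false, add_zero] at w2
  exact TP4_bool κ _ _ _ _ _ _ _ _ _ _ w2

end SimpleDrawing
end SDE
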