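import Pool.Agent.SDE.TSide

/-!
# SDE/TP5
The parity rule for simple drawings.
-/

open Set

namespace SDE
namespace SimpleDrawing

variable {V : Type*} (D : SimpleDrawing V)

private theorem TP5_aux : ∀ (κ : ZMod 2) (p q r1 r2 r3 sa sc : Bool),
    κ + (if q = true then 1 else 0) + (if sc = true then 1 else 0) =
      κ + (if p = true then 1 else 0) + (if sa = true then 1 else 0) +
        ((if r2 = true then 1 else 0) + (if r3 = true then 1 else 0) +
          (if r1 = true then 1 else 0)) →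
    ((r1 ^^ r2) ^^ r3) = ((p ^^ sa) ^^ (q ^^ sc)) := by
  decide

/-- **P5.** Proof: `tri_walk` at `t = 1` (`curve a c 1 = pt c`, not on the triangle):
`par (pt c) = par (pt a) + ([cr a c v x] + [cr a c v y] + [cr a c x y])` (positions are `< 1`);
`side_lemma` for `a` and `c`; translate from `ZMod 2` to `Bool` (all quantities are `0` or `1`:
case analysis on the Booleans, `decide`). -/
theorem P5 [Finite V] {v x y a c : V} (h1 : v ≠ x) (h2 : v ≠ y) (h3 : x ≠ y) (h4 : a ≠ v)
    (h5 : a ≠ x) (h6 : a ≠ y) (h7 : c ≠ v) (h8 : c ≠ x) (h9 : c ≠ y) (h10 : a ≠ c) :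
    ((D.cr a c x y ^^ D.cr a c v x) ^^ D.cr a c v y) =
      ((decide ((D.th v x < D.th v a ∧ D.th v a < D.th v y) ∨
            (D.th v y < D.th v a ∧ D.th v a < D.th v x)) ^^ D.cr x y v a) ^^
        (decide ((D.th v x < D.th v c ∧ D.th v c < D.th v y) ∨
            (D.th v y < D.th v c ∧ D.th v c < D.th v x)) ^^ D.cr x y v c)) := by
  obtain ⟨κ, hκ⟩ := D.side_lemma h1 h2 h3
  have ha := hκ a h4 h5 h6
  have hc := hκ c h7 h8 h9
  have hfin : D.curve a c 1 = D.pt c := D.finish a c h10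
  have hq : D.curve a c 1 ∉ supp (D.tri v x y) := by
    rw [hfin, D.tri_supp h1 h2 h3]
    rintro ((h | h) | h)
    · exact D.vertex v x c h1 h7 h8 h
    · exact D.vertex x y c h3 h8 h9 h
    · exact D.vertex v y c h2 h7 h9 h
  have hw := D.tri_walk h1 h2 h3 h4 h5 h6 h10 (t := 1) ⟨zero_le_one, le_rfl⟩ hq
  have hpos : ∀ p q : V, (D.cr a c p q = true ∧ D.pos a c p q < 1) ↔ D.cr a c p q = true := by
    intro p q
    refine ⟨fun h => h.1, fun h => ⟨h, ?_⟩⟩
    obtain ⟨_, _, _, _, _, _, hp, _⟩ := D.cr_spec h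
    exact hp.2
  rw [hfin, ha, hc, if_congr (hpos v x) rfl rfl, if_congr (hpos v y) rfl rfl,
    if_congr (hpos x y) rfl rfl] at hw
  refine TP5_aux κ _ _ _ _ _ _ _ ?_
  simpa only [decide_eq_true_eq] using hw

end SimpleDrawing
end SDE
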