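import Pool.Agent.SDE.TDefs

/-!
# SDE/TCorner
The corner rule at a proper crossing.
-/

open Set Metric

namespace SDE

/-- Monotone direction of a path near a parameter, seen by one coordinate `c` of the chart. -/
private theorem TCorner_dir {g : ℝ → ℂ} (hc : ContinuousOn g (Icc 0 1))
    (hi : InjOn g (Icc 0 1)) {s0 : ℝ} (hs : s0 ∈ Ioo (0 : ℝ) 1)
    (e : OpenPartialHomeomorph ℂ ℂ) (hp : g s0 ∈ e.source) (hp0 : e (g s0) = 0)
    (c : ℂ → ℝ) (hcc : Continuous c) (hc0 : c 0 = 0)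
    (hinj : ∀ z ∈ e.source, ∀ w ∈ e.source, z ∈ g '' Icc 0 1 → w ∈ g '' Icc 0 1 →
      c (e z) = c (e w) → e z = e w) :
    ∃ d : ℝ, 0 < d ∧ 0 ≤ s0 - d ∧ s0 + d ≤ 1 ∧ ∃ σ : ℝ, (σ = 1 ∨ σ = -1) ∧
      (∀ t ∈ Icc (s0 - d) (s0 + d), g t ∈ e.source) ∧
      (∀ t ∈ Icc (s0 - d) s0, σ * c (e (g t)) ≤ 0) ∧
      (∀ t ∈ Ioc s0 (s0 + d), 0 < σ * c (e (g t))) := by
  have hca : ContinuousAt g s0 := hc.continuousAt (Icc_mem_nhds hs.1 hs.2)
  have hnb : g ⁻¹' e.source ∈ nhds s0 := hca.preimage_mem_nhds (e.open_source.mem_nhds hp)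
  obtain ⟨ε, hε, hball⟩ := Metric.mem_nhds_iff.1 hnb
  have h1 := hs.1
  have h2 := hs.2
  obtain ⟨d, hd0, hdε, hd1, hd2⟩ : ∃ d : ℝ, 0 < d ∧ d < ε ∧ d ≤ s0 ∧ d ≤ 1 - s0 := by
    refine ⟨min (ε / 2) (min s0 (1 - s0)), ?_, ?_, ?_, ?_⟩
    · exact lt_min (by linarith) (lt_min h1 (by linarith))
    · exact lt_of_le_of_lt (min_le_left _ _) (by linarith)
    · exact (min_le_right _ _).trans (min_le_left _ _)
    · exact (min_le_right _ _).trans (min_le_right _ _)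
  have hsub : Icc (s0 - d) (s0 + d) ⊆ Icc (0 : ℝ) 1 := by
    intro t ht
    exact ⟨by linarith [ht.1], by linarith [ht.2]⟩
  have hsrc : ∀ t ∈ Icc (s0 - d) (s0 + d), g t ∈ e.source := by
    intro t ht
    have : t ∈ ball s0 ε := by
      rw [mem_ball, Real.dist_eq, abs_lt]
      exact ⟨by linarith [ht.1], by linarith [ht.2]⟩
    exact hball this
  have hxc : ContinuousOn (fun t => c (e (g t))) (Icc (s0 - d) (s0 + d)) :=
    hcc.comp_continuousOn (e.continuousOn.comp (hc.mono hsub) hsrc)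
  have hxi : InjOn (fun t => c (e (g t))) (Icc (s0 - d) (s0 + d)) := by
    intro t ht t' ht' h
    have he : e (g t) = e (g t') := hinj _ (hsrc t ht) _ (hsrc t' ht')
      ⟨t, hsub ht, rfl⟩ ⟨t', hsub ht', rfl⟩ h
    exact hi (hsub ht) (hsub ht') (e.injOn (hsrc t ht) (hsrc t' ht') he)
  have hx0 : c (e (g s0)) = 0 := by rw [hp0, hc0]
  have hm : s0 ∈ Icc (s0 - d) (s0 + d) := ⟨by linarith, by linarith⟩
  refine ⟨d, hd0, by linarith, by linarith, ?_⟩
  rcases hxc.strictMonoOn_of_injOn_Icc' (by linarith) hxi with hmon | hmon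
  · refine ⟨1, Or.inl rfl, hsrc, ?_, ?_⟩
    · intro t ht
      have := hmon.monotoneOn ⟨ht.1, by linarith [ht.2]⟩ hm ht.2
      simp only [hx0] at this
      linarith
    · intro t ht
      have := hmon hm ⟨by linarith [ht.1], ht.2⟩ ht.1
      simp only [hx0] at this
      linarith
  · refine ⟨-1, Or.inr rfl, hsrc, ?_, ?_⟩
    · intro t ht
      have := hmon.antitoneOn ⟨ht.1, by linarith [ht.2]⟩ hm ht.2
      simp only [hx0] at this
      linarith
    · intro t ht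
      have := hmon hm ⟨by linarith [ht.1], ht.2⟩ ht.1
      simp only [hx0] at this
      linarith

/-- The open sector of three quadrants is connected. -/
private theorem TCorner_conn {r σ σ' : ℝ} (hr : 0 < r) (hσ : σ = 1 ∨ σ = -1)
    (hσ' : σ' = 1 ∨ σ' = -1) :
    IsPreconnected {z : ℂ | z ∈ ball (0 : ℂ) r ∧ (0 < σ * z.re ∨ 0 < σ' * z.im)} := by
  have hA : Convex ℝ (ball (0 : ℂ) r ∩ {z : ℂ | 0 < σ * z.re}) := by
    refine (convex_ball _ _).inter ?_
    have : {z : ℂ | 0 < σ * z.re} = {z : ℂ | 0 < (σ • Complex.reLm) z} := by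
      ext z; simp
    rw [this]
    exact convex_halfSpace_gt (σ • Complex.reLm).isLinear 0
  have hB : Convex ℝ (ball (0 : ℂ) r ∩ {z : ℂ | 0 < σ' * z.im}) := by
    refine (convex_ball _ _).inter ?_
    have : {z : ℂ | 0 < σ' * z.im} = {z : ℂ | 0 < (σ' • Complex.imLm) z} := by
      ext z; simp
    rw [this]
    exact convex_halfSpace_gt (σ' • Complex.imLm).isLinear 0
  have hS : {z : ℂ | z ∈ ball (0 : ℂ) r ∧ (0 < σ * z.re ∨ 0 < σ' * z.im)} =
      (ball (0 : ℂ) r ∩ {z : ℂ | 0 < σ * z.re}) ∪ (ball (0 : ℂ) r ∩ {z : ℂ | 0 < σ' * z.im}) := by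
    ext z
    constructor
    · rintro ⟨h1, h2 | h2⟩
      · exact Or.inl ⟨h1, h2⟩
      · exact Or.inr ⟨h1, h2⟩
    · rintro (⟨h1, h2⟩ | ⟨h1, h2⟩)
      · exact ⟨h1, Or.inl h2⟩
      · exact ⟨h1, Or.inr h2⟩
  rw [hS]
  have hσσ : σ * σ = 1 := by rcases hσ with h | h <;> rw [h] <;> norm_num
  have hσσ' : σ' * σ' = 1 := by rcases hσ' with h | h <;> rw [h] <;> norm_num
  have haσ : |σ| = 1 := by rcases hσ with h | h <;> rw [h] <;> norm_num
  have haσ' : |σ'| = 1 := by rcases hσ' with h | h <;> rw [h] <;> norm_num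
  have hw : (⟨σ * (r / 4), σ' * (r / 4)⟩ : ℂ) ∈ ball (0 : ℂ) r := by
    rw [mem_ball_zero_iff]
    refine (Complex.norm_le_abs_re_add_abs_im _).trans_lt ?_
    simp only [abs_mul, haσ, haσ']
    rw [abs_of_pos (by positivity : (0 : ℝ) < r / 4)]
    linarith
  refine IsPreconnected.union (⟨σ * (r / 4), σ' * (r / 4)⟩ : ℂ) ⟨hw, ?_⟩ ⟨hw, ?_⟩
    hA.isPreconnected hB.isPreconnected
  · show 0 < σ * (σ * (r / 4))
    rw [← mul_assoc, hσσ]; linarith
  · show 0 < σ' * (σ' * (r / 4))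
    rw [← mul_assoc, hσσ']; linarith

/-- Small parameters stay in a small disc of the chart. -/
private theorem TCorner_small {g : ℝ → ℂ} (hc : ContinuousOn g (Icc 0 1)) {s0 : ℝ}
    (hs : s0 ∈ Ioo (0 : ℝ) 1) (e : OpenPartialHomeomorph ℂ ℂ) (hp : g s0 ∈ e.source)
    (hp0 : e (g s0) = 0) {r : ℝ} (hr : 0 < r) :
    ∃ δ : ℝ, 0 < δ ∧ ∀ s ∈ Ioo (0 : ℝ) δ, e (g (s0 + s)) ∈ ball (0 : ℂ) r := by
  have hca : ContinuousAt g s0 := hc.continuousAt (Icc_mem_nhds hs.1 hs.2)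
  have hea : ContinuousAt (fun t => e (g t)) s0 :=
    ContinuousAt.comp (f := g) (g := e) (e.continuousAt hp) hca
  have hnb : (fun t => e (g t)) ⁻¹' ball (0 : ℂ) r ∈ nhds s0 := by
    apply hea.preimage_mem_nhds
    rw [hp0]
    exact ball_mem_nhds _ hr
  obtain ⟨ε, hε, hball⟩ := Metric.mem_nhds_iff.1 hnb
  refine ⟨ε, hε, fun s hs' => ?_⟩
  have : s0 + s ∈ ball s0 ε := by
    rw [mem_ball, Real.dist_eq, abs_lt]
    exact ⟨by linarith [hs'.1], by linarith [hs'.2]⟩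
  exact hball this

/-- **Corner rule.** `f`, `h` injective paths crossing properly at `p = f s0 = h t0`; `R` a closed
set not containing `p`. Then for small `s, t > 0` the points `f (s0 + s)` and `h (t0 + t)` lie in
a connected set which misses `f '' [0, s0]`, `h '' [0, t0]` and `R`. Proof. In a chart `e` (`f` =
real axis, `h` = imaginary axis) take a radius `r < 1` such that `e.symm '' (ball 0 r)` misses `R`
and also the parts of `f`, `h` with parameters outside small neighbourhoods of `s0`, `t0` (compact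
sets not containing `p`). Inside this disc `f '' [0,s0]` is a half axis (`{x ≤ 0}` or `{x ≥ 0}` on
the real axis, according to the monotone direction of `f` near `s0`, as in `TJump.chart_cross`),
`h '' [0,t0]` is a half axis of the imaginary axis. The complement of these two half axes in the
disc contains the other two open half axes and is connected: say the removed half axes are `x ≤ 0`
and `i y, y ≤ 0`; take `S' = {z ∈ ball 0 r | 0 < z.re ∨ 0 < z.im}`, the union of two convex sets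
with a common point. `S = e.symm '' S'` (`IsPreconnected.image`). The other cases of signs are
similar (`S' = {z | 0 < σ z.re ∨ 0 < σ' z.im}`). -/
theorem corner {f h : ℝ → ℂ} (hfc : ContinuousOn f (Icc 0 1)) (hfi : InjOn f (Icc 0 1))
    (hhc : ContinuousOn h (Icc 0 1)) (hhi : InjOn h (Icc 0 1)) {s0 t0 : ℝ}
    (hs : s0 ∈ Ioo (0 : ℝ) 1) (ht : t0 ∈ Ioo (0 : ℝ) 1) (hp : f s0 = h t0)
    (hcross : ProperCross (f '' Icc 0 1) (h '' Icc 0 1) (f s0))
    {R : Set ℂ} (hR : IsClosed R) (hpR : f s0 ∉ R) :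
    ∃ δ : ℝ, 0 < δ ∧ ∀ s ∈ Ioo (0 : ℝ) δ, ∀ t ∈ Ioo (0 : ℝ) δ, ∃ S : Set ℂ, IsPreconnected S ∧
      f (s0 + s) ∈ S ∧ h (t0 + t) ∈ S ∧ Disjoint S (f '' Icc 0 s0) ∧ Disjoint S (h '' Icc 0 t0) ∧
      Disjoint S R := by
  obtain ⟨e, hpe, hp0, htar, hAB⟩ := hcross
  have hpe' : h t0 ∈ e.source := hp ▸ hpe
  have hp0' : e (h t0) = 0 := hp ▸ hp0
  obtain ⟨d, hd, hd1, hd2, σ, hσ, hsrc, hneg, hpos⟩ := TCorner_dir hfc hfi hs e hpe hp0
    Complex.re Complex.continuous_re Complex.zero_re (by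
      intro z hz w hw hzA hwA hzw
      exact Complex.ext hzw (((hAB z hz).1.1 hzA).trans ((hAB w hw).1.1 hwA).symm))
  obtain ⟨d', hd', hd1', hd2', σ', hσ', hsrc', hneg', hpos'⟩ := TCorner_dir hhc hhi ht e hpe'
    hp0' Complex.im Complex.continuous_im Complex.zero_im (by
      intro z hz w hw hzA hwA hzw
      exact Complex.ext (((hAB z hz).2.1 hzA).trans ((hAB w hw).2.1 hwA).symm) hzw)
  have hs1 := hs.1
  have hs2 := hs.2
  have ht1 := ht.1
  have ht2 := ht.2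
  -- the closed set to be avoided
  have hK1 : IsClosed (f '' Icc 0 (s0 - d)) :=
    (isCompact_Icc.image_of_continuousOn (hfc.mono (fun t ht' =>
      ⟨ht'.1, by linarith [ht'.2]⟩))).isClosed
  have hK2 : IsClosed (h '' Icc 0 (t0 - d')) :=
    (isCompact_Icc.image_of_continuousOn (hhc.mono (fun t ht' =>
      ⟨ht'.1, by linarith [ht'.2]⟩))).isClosed
  have hp1 : f s0 ∉ f '' Icc 0 (s0 - d) := by
    rintro ⟨t, ht', hteq⟩
    have := hfi ⟨ht'.1, by linarith [ht'.2]⟩ ⟨hs1.le, hs2.le⟩ hteq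
    linarith [ht'.2]
  have hp2 : f s0 ∉ h '' Icc 0 (t0 - d') := by
    rw [hp]
    rintro ⟨t, ht', hteq⟩
    have := hhi ⟨ht'.1, by linarith [ht'.2]⟩ ⟨ht1.le, ht2.le⟩ hteq
    linarith [ht'.2]
  have h0t : (0 : ℂ) ∈ e.target := by rw [htar]; exact mem_ball_self one_pos
  have hsymm0 : e.symm 0 = f s0 := by rw [← hp0, e.left_inv hpe]
  have hopen : (R ∪ f '' Icc 0 (s0 - d) ∪ h '' Icc 0 (t0 - d'))ᶜ ∈ nhds (e.symm 0) := by
    rw [hsymm0]
    refine ((hR.union hK1).union hK2).isOpen_compl.mem_nhds ?_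
    rintro ((h1 | h1) | h1)
    · exact hpR h1
    · exact hp1 h1
    · exact hp2 h1
  have hnb := (e.symm.continuousAt h0t).preimage_mem_nhds hopen
  obtain ⟨r0, hr0, hball⟩ := Metric.mem_nhds_iff.1 hnb
  obtain ⟨r, hr, hrr0, hr1⟩ : ∃ r : ℝ, 0 < r ∧ r ≤ r0 ∧ r ≤ 1 :=
    ⟨min r0 1, lt_min hr0 one_pos, min_le_left _ _, min_le_right _ _⟩
  have htr : ball (0 : ℂ) r ⊆ e.target := by rw [htar]; exact ball_subset_ball hr1
  have havoid : ∀ z ∈ ball (0 : ℂ) r, e.symm z ∉ R ∧ e.symm z ∉ f '' Icc 0 (s0 - d) ∧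
      e.symm z ∉ h '' Icc 0 (t0 - d') := by
    intro z hz
    have := hball (ball_subset_ball hrr0 hz)
    exact ⟨fun h1 => this (Or.inl (Or.inl h1)), fun h1 => this (Or.inl (Or.inr h1)),
      fun h1 => this (Or.inr h1)⟩
  obtain ⟨δ1, hδ1, hsm1⟩ := TCorner_small hfc hs e hpe hp0 hr
  obtain ⟨δ2, hδ2, hsm2⟩ := TCorner_small hhc ht e hpe' hp0' hr
  refine ⟨min (min δ1 δ2) (min d d'), lt_min (lt_min hδ1 hδ2) (lt_min hd hd'), ?_⟩
  intro s hs' t ht'
  have hsδ1 : s < δ1 := hs'.2.trans_le ((min_le_left _ _).trans (min_le_left _ _))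
  have htδ2 : t < δ2 := ht'.2.trans_le ((min_le_left _ _).trans (min_le_right _ _))
  have hsd : s < d := hs'.2.trans_le ((min_le_right _ _).trans (min_le_left _ _))
  have htd : t < d' := ht'.2.trans_le ((min_le_right _ _).trans (min_le_right _ _))
  refine ⟨e.symm '' {z : ℂ | z ∈ ball (0 : ℂ) r ∧ (0 < σ * z.re ∨ 0 < σ' * z.im)},
    ?_, ?_, ?_, ?_, ?_, ?_⟩
  · exact (TCorner_conn hr hσ hσ').image _
      (e.symm.continuousOn.mono (fun z hz => htr hz.1))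
  · refine ⟨e (f (s0 + s)), ⟨hsm1 s ⟨hs'.1, hsδ1⟩, Or.inl ?_⟩, ?_⟩
    · exact hpos _ ⟨by linarith [hs'.1], by linarith⟩
    · exact e.left_inv (hsrc _ ⟨by linarith [hs'.1], by linarith⟩)
  · refine ⟨e (h (t0 + t)), ⟨hsm2 t ⟨ht'.1, htδ2⟩, Or.inr ?_⟩, ?_⟩
    · exact hpos' _ ⟨by linarith [ht'.1], by linarith⟩
    · exact e.left_inv (hsrc' _ ⟨by linarith [ht'.1], by linarith⟩)
  · rw [Set.disjoint_left]
    rintro _ ⟨z, ⟨hz, hor⟩, rfl⟩ ⟨u, hu, huz⟩
    have hav := (havoid z hz).2.1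
    have hud : s0 - d < u := by
      by_contra hcon
      exact hav ⟨u, ⟨hu.1, not_lt.1 hcon⟩, huz⟩
    have hez : e (f u) = z := by rw [huz, e.right_inv (htr hz)]
    have hu1 : f u ∈ f '' Icc 0 1 := ⟨u, ⟨hu.1, by linarith [hu.2]⟩, rfl⟩
    have him : z.im = 0 := by
      rw [← hez]
      exact (hAB _ (hsrc u ⟨hud.le, by linarith [hu.2]⟩)).1.1 hu1
    have hre : σ * z.re ≤ 0 := by
      rw [← hez]
      exact hneg u ⟨hud.le, hu.2⟩
    rcases hor with h1 | h1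
    · linarith
    · rw [him, mul_zero] at h1
      exact lt_irrefl _ h1
  · rw [Set.disjoint_left]
    rintro _ ⟨z, ⟨hz, hor⟩, rfl⟩ ⟨u, hu, huz⟩
    have hav := (havoid z hz).2.2
    have hud : t0 - d' < u := by
      by_contra hcon
      exact hav ⟨u, ⟨hu.1, not_lt.1 hcon⟩, huz⟩
    have hez : e (h u) = z := by rw [huz, e.right_inv (htr hz)]
    have hu1 : h u ∈ h '' Icc 0 1 := ⟨u, ⟨hu.1, by linarith [hu.2]⟩, rfl⟩
    have hre : z.re = 0 := by
      rw [← hez]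
      exact (hAB _ (hsrc' u ⟨hud.le, by linarith [hu.2]⟩)).2.1 hu1
    have him : σ' * z.im ≤ 0 := by
      rw [← hez]
      exact hneg' u ⟨hud.le, hu.2⟩
    rcases hor with h1 | h1
    · rw [hre, mul_zero] at h1
      exact lt_irrefl _ h1
    · linarith
  · rw [Set.disjoint_left]
    rintro _ ⟨z, ⟨hz, _⟩, rfl⟩ hzR
    exact (havoid z hz).1 hzR

end SDE
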