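import Pool.Agent.SDE.TJump

/-!
# SDE/TSingle
A path which meets a closed chain once.
-/

open Set

namespace SDE

/-- A path without common points with the chain: same winding number at both ends. -/
theorem wn_path {l : List (ℝ → ℂ)} (hl : IsLoop l) {h : ℝ → ℂ} {a b : ℝ} (hab : a ≤ b)
    (hc : ContinuousOn h (Icc a b))
    (hd : ∀ t ∈ Icc a b, h t ∉ supp l) : wn l (h a) = wn l (h b) := by
  refine wn_const hl (S := h '' Icc a b) (isPreconnected_Icc.image h hc) ?_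
    ⟨a, left_mem_Icc.2 hab, rfl⟩ ⟨b, right_mem_Icc.2 hab, rfl⟩
  rw [Set.disjoint_left]
  rintro _ ⟨t, ht, rfl⟩
  exact hd t ht

/-- **Single crossing.** A path `h : [0,1] → ℂ` meets the closed chain `l` only at the parameter
`t0`, where it crosses properly the member `f` of the chain: the winding numbers at its ends
differ by an odd number. Proof: `jump` and `wn_path` on `[0, t0 - s]` and `[t0 + s, 1]`. -/
theorem wn_single {l rest : List (ℝ → ℂ)} {f h : ℝ → ℂ} (hl : IsLoop l) (hperm : l.Perm (f :: rest))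
    (hcr : ∀ g ∈ rest, ContinuousOn g (Icc 0 1))
    (hfc : ContinuousOn f (Icc 0 1)) (hfi : InjOn f (Icc 0 1))
    (hhc : ContinuousOn h (Icc 0 1)) (hhi : InjOn h (Icc 0 1)) {s0 t0 : ℝ}
    (hs : s0 ∈ Ioo (0 : ℝ) 1) (ht : t0 ∈ Ioo (0 : ℝ) 1) (hp : f s0 = h t0)
    (hcross : ProperCross (f '' Icc 0 1) (h '' Icc 0 1) (f s0)) (hrest : f s0 ∉ supp rest)
    (honly : ∀ t ∈ Icc (0 : ℝ) 1, t ≠ t0 → h t ∉ supp l) : Odd (wn l (h 1) - wn l (h 0)) := by
  obtain ⟨δ, hδ, hj⟩ := jump hl hperm hcr hfc hfi hhc hhi hs ht hp hcross hrest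
  obtain ⟨s, hs0, hsm⟩ := exists_between (lt_min hδ (lt_min ht.1 (sub_pos.2 ht.2)))
  obtain ⟨hs1, hs2⟩ := lt_min_iff.1 hsm
  obtain ⟨hs2, hs3⟩ := lt_min_iff.1 hs2
  obtain ⟨_, _, hodd⟩ := hj s ⟨hs0, hs1⟩
  have e1 : wn l (h 0) = wn l (h (t0 - s)) := by
    refine wn_path hl (by linarith) (hhc.mono (Icc_subset_Icc_right (by linarith [ht.2]))) ?_
    intro t ht'
    exact honly t ⟨ht'.1, by linarith [ht'.2, ht.2]⟩ (by linarith [ht'.2] : t < t0).ne
  have e2 : wn l (h (t0 + s)) = wn l (h 1) := by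
    refine wn_path hl (by linarith) (hhc.mono (Icc_subset_Icc_left (by linarith [ht.1]))) ?_
    intro t ht'
    exact honly t ⟨by linarith [ht'.1, ht.1], ht'.2⟩ (by linarith [ht'.1] : t0 < t).ne'
  rw [e1, ← e2]
  exact hodd

end SDE
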