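import Pool.Agent.SDE.TBasic
import Pool.Agent.SDE.TSingle
import Pool.Agent.SDE.TCorner

/-!
# SDE/TS2
The K4 rule for simple drawings.
-/

open Set

namespace SDE
namespace SimpleDrawing

variable {V : Type*} (D : SimpleDrawing V)

private theorem S2_mem {f k g : ℝ → ℂ} {s0 t0 : ℝ} (hs : s0 ∈ Ioo (0 : ℝ) 1)
    (ht : t0 ∈ Ioo (0 : ℝ) 1) {z : ℂ} (h : z ∈ supp [sub f 0 s0, sub k t0 0, g]) :
    z ∈ f '' Icc 0 s0 ∨ z ∈ k '' Icc 0 t0 ∨ z ∈ g '' Icc 0 1 := by
  obtain ⟨p, hp, t, htt, rfl⟩ := h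
  simp only [List.mem_cons, List.not_mem_nil, or_false] at hp
  rcases hp with rfl | rfl | rfl
  · refine Or.inl ⟨0 + (s0 - 0) * t, ⟨?_, ?_⟩, rfl⟩
    · nlinarith [mul_nonneg hs.1.le htt.1]
    · nlinarith [mul_nonneg hs.1.le (sub_nonneg.2 htt.2)]
  · refine Or.inr (Or.inl ⟨t0 + (0 - t0) * t, ⟨?_, ?_⟩, rfl⟩)
    · nlinarith [mul_nonneg ht.1.le (sub_nonneg.2 htt.2)]
    · nlinarith [mul_nonneg ht.1.le htt.1]
  · exact Or.inr (Or.inr ⟨t, htt, rfl⟩)

private theorem S2_cont {f : ℝ → ℂ} (hf : ContinuousOn f (Icc 0 1)) {a b : ℝ}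
    (ha : a ∈ Icc (0 : ℝ) 1) (hb : b ∈ Icc (0 : ℝ) 1) : ContinuousOn (sub f a b) (Icc 0 1) := by
  refine hf.comp (by fun_prop) fun t ht => ⟨?_, ?_⟩
  · nlinarith [mul_nonneg ha.1 (sub_nonneg.2 ht.2), mul_nonneg hb.1 ht.1]
  · nlinarith [mul_nonneg (sub_nonneg.2 ha.2) (sub_nonneg.2 ht.2),
      mul_nonneg (sub_nonneg.2 hb.2) ht.1]

/-- **K4 rule.** Proof. `s0 = pos a b c d`, `t0 = pos c d a b`, `p` the crossing point of `ab` and
`cd` (`cross_point`). Suppose `ac` and `bd` cross. Closed chain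
`l = [sub (curve a b) 0 s0, sub (curve c d) t0 0, curve c a]`, `supp l` = parts of `ab`, `cd` up
to `p` and the edge `ca`. `corner` with `f = curve a b`, `h = curve c d`, `R = edge c a` (`p` is
not on it: `adj`, `p` is not a vertex): for small `s, t`:
`wn l (curve a b (s0 + s)) = wn l (curve c d (t0 + t))` (`wn_const`). `wn_path` along `curve a b`
on `[s0 + s, 1]` (it meets `ab` up to `p` not at all (`inj`), `cd` only in `p`, `ca` only in `a`)
gives `wn l (pt b)`; along `curve c d` on `[t0 + t, 1]` gives `wn l (pt d)`. So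
`wn l (pt b) = wn l (pt d)`. The edge `bd` meets `ab` only in `b`, `cd` only in `d` (`adj`), both
not on `supp l`, and `ca` exactly once, in a proper crossing (`cr_spec`): `wn_single` with
`f = curve c a`, `h = curve b d` gives a contradiction. -/
theorem S2 {a b c d : V} (h : D.cr a b c d = true) : D.cr a c b d = false := by
  by_contra hcon
  have h' : D.cr a c b d = true := by
    cases hx : D.cr a c b d
    · exact absurd hx hcon
    · rfl
  obtain ⟨hab, hac, had, hbc, hbd, hcd, hs, hpe, huni, hcross, -⟩ := D.cr_spec h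
  have h2 : D.cr c d a b = true := by rw [D.cr_comm]; exact h
  obtain ⟨-, -, -, -, -, -, ht, -, huni2, -, -⟩ := D.cr_spec h2
  have h3 : D.cr c a b d = true := by rw [D.cr_swap]; exact h'
  obtain ⟨-, -, -, -, -, -, hs1, hqe, -, hcross1, -⟩ := D.cr_spec h3
  have h4 : D.cr b d c a = true := by rw [D.cr_comm]; exact h3
  obtain ⟨-, -, -, -, -, -, ht1, -, huni4, -, -⟩ := D.cr_spec h4
  have hp := D.cross_point h
  have hq := D.cross_point h3
  set s0 := D.pos a b c d with hs0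
  set t0 := D.pos c d a b with ht0
  set s1 := D.pos c a b d with hs1'
  set t1 := D.pos b d c a with ht1'
  have hI : ∀ {x : ℝ}, x ∈ Ioo (0 : ℝ) 1 → x ∈ Icc (0 : ℝ) 1 := fun hx => ⟨hx.1.le, hx.2.le⟩
  have h0I : (0 : ℝ) ∈ Icc (0 : ℝ) 1 := ⟨le_refl _, zero_le_one⟩
  have h1I : (1 : ℝ) ∈ Icc (0 : ℝ) 1 := ⟨zero_le_one, le_refl _⟩
  set f := D.curve a b with hf
  set k := D.curve c d with hk
  have hfc : ContinuousOn f (Icc 0 1) := D.cont a b hab
  have hfi : InjOn f (Icc 0 1) := D.inj a b hab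
  have hkc : ContinuousOn k (Icc 0 1) := D.cont c d hcd
  have hki : InjOn k (Icc 0 1) := D.inj c d hcd
  have hca : c ≠ a := hac.symm
  have hgc : ContinuousOn (D.curve c a) (Icc 0 1) := D.cont c a hca
  have hgi : InjOn (D.curve c a) (Icc 0 1) := D.inj c a hca
  have hf0 : f 0 = D.pt a := D.start a b hab
  have hf1 : f 1 = D.pt b := D.finish a b hab
  have hk0 : k 0 = D.pt c := D.start c d hcd
  have hk1 : k 1 = D.pt d := D.finish c d hcd
  have hg0 : D.curve c a 0 = D.pt c := D.start c a hca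
  have hg1 : D.curve c a 1 = D.pt a := D.finish c a hca
  have hfe : ∀ u ∈ Icc (0 : ℝ) 1, f u ∈ D.edge a b := fun u hu => ⟨u, hu, rfl⟩
  have hke : ∀ u ∈ Icc (0 : ℝ) 1, k u ∈ D.edge c d := fun u hu => ⟨u, hu, rfl⟩
  have hge : ∀ u ∈ Icc (0 : ℝ) 1, D.curve c a u ∈ D.edge c a := fun u hu => ⟨u, hu, rfl⟩
  have hsubf : ∀ z, z ∈ f '' Icc 0 s0 → z ∈ D.edge a b := by
    rintro z ⟨u, hu, rfl⟩
    exact hfe u ⟨hu.1, hu.2.trans hs.2.le⟩
  have hsubk : ∀ z, z ∈ k '' Icc 0 t0 → z ∈ D.edge c d := by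
    rintro z ⟨u, hu, rfl⟩
    exact hke u ⟨hu.1, hu.2.trans ht.2.le⟩
  -- the closed chain
  set l : List (ℝ → ℂ) := [sub f 0 s0, sub k t0 0, D.curve c a] with hl
  have hloop : IsLoop l := by
    refine ⟨D.pt a, S2_cont hfc h0I (hI hs), ?_, S2_cont hkc (hI ht) h0I, ?_, hgc, ?_, ?_⟩
    · change f (0 + (s0 - 0) * 0) = _
      rw [mul_zero, add_zero, hf0]
    · change k (t0 + (0 - t0) * 0) = f (0 + (s0 - 0) * 1)
      rw [mul_zero, add_zero, mul_one, zero_add, sub_zero]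
      exact hp.symm
    · change D.curve c a 0 = k (t0 + (0 - t0) * 1)
      rw [mul_one, zero_sub, add_neg_cancel, hk0, hg0]
    · exact hg1
  have hmem : ∀ z, z ∈ supp l → z ∈ f '' Icc 0 s0 ∨ z ∈ k '' Icc 0 t0 ∨ z ∈ D.edge c a :=
    fun z hz => S2_mem hs ht hz
  -- the three arcs meet the two edges only in vertices
  have hfca : ∀ u ∈ Icc (0 : ℝ) 1, f u ∈ D.edge c a → u = 0 := by
    intro u hu hz
    rw [← D.edge_comm hca] at hz
    have h5 := D.adj hab hac hbc (hfe u hu) hz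
    exact hfi hu h0I (h5.trans hf0.symm)
  have hkca : ∀ u ∈ Icc (0 : ℝ) 1, k u ∈ D.edge c a → u = 0 := by
    intro u hu hz
    have h5 := D.adj hcd hca had.symm (hke u hu) hz
    exact hki hu h0I (h5.trans hk0.symm)
  obtain ⟨δ, hδ, hcor⟩ := corner hfc hfi hkc hki hs ht hp hcross (D.edge_closed hca)
    (fun hz => hs.1.ne' (hfca s0 (hI hs) hz))
  obtain ⟨s, hs2, hs3⟩ : ∃ s, s ∈ Ioo (0 : ℝ) δ ∧ s0 + s ≤ 1 := by
    refine ⟨min (δ / 2) (1 - s0), ⟨lt_min (half_pos hδ) (sub_pos.2 hs.2), ?_⟩, ?_⟩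
    · exact (min_le_left _ _).trans_lt (half_lt_self hδ)
    · linarith [min_le_right (δ / 2) (1 - s0)]
  obtain ⟨t, ht2, ht3⟩ : ∃ t, t ∈ Ioo (0 : ℝ) δ ∧ t0 + t ≤ 1 := by
    refine ⟨min (δ / 2) (1 - t0), ⟨lt_min (half_pos hδ) (sub_pos.2 ht.2), ?_⟩, ?_⟩
    · exact (min_le_left _ _).trans_lt (half_lt_self hδ)
    · linarith [min_le_right (δ / 2) (1 - t0)]
  obtain ⟨S, hS, hSf, hSk, hd1, hd2, hd3⟩ := hcor s hs2 t ht2
  have hdis : Disjoint S (supp l) := by
    rw [Set.disjoint_left] at hd1 hd2 hd3 ⊢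
    intro z hz hz2
    rcases hmem z hz2 with h5 | h5 | h5
    · exact hd1 hz h5
    · exact hd2 hz h5
    · exact hd3 hz h5
  have e1 : wn l (f (s0 + s)) = wn l (k (t0 + t)) := wn_const hloop hS hdis hSf hSk
  have e2 : wn l (f (s0 + s)) = wn l (f 1) := by
    refine wn_path hloop hs3 (hfc.mono fun u hu => ⟨?_, hu.2⟩) fun u hu hz => ?_
    · linarith [hu.1, hs.1, hs2.1]
    · have hu1 : u ∈ Icc (0 : ℝ) 1 := ⟨by linarith [hu.1, hs.1, hs2.1], hu.2⟩
      have hu2 : s0 < u := by linarith [hu.1, hs2.1]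
      rcases hmem _ hz with ⟨w, hw, hw2⟩ | h5 | h5
      · have h6 := hfi ⟨hw.1, hw.2.trans hs.2.le⟩ hu1 hw2
        linarith [hw.2]
      · exact hu2.ne' (huni u hu1 (hsubk _ h5))
      · have h6 := hfca u hu1 h5
        linarith [hs.1]
  have e3 : wn l (k (t0 + t)) = wn l (k 1) := by
    refine wn_path hloop ht3 (hkc.mono fun u hu => ⟨?_, hu.2⟩) fun u hu hz => ?_
    · linarith [hu.1, ht.1, ht2.1]
    · have hu1 : u ∈ Icc (0 : ℝ) 1 := ⟨by linarith [hu.1, ht.1, ht2.1], hu.2⟩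
      have hu2 : t0 < u := by linarith [hu.1, ht2.1]
      rcases hmem _ hz with h5 | ⟨w, hw, hw2⟩ | h5
      · exact hu2.ne' (huni2 u hu1 (hsubf _ h5))
      · have h6 := hki ⟨hw.1, hw.2.trans ht.2.le⟩ hu1 hw2
        linarith [hw.2]
      · have h6 := hkca u hu1 h5
        linarith [ht.1]
  have e4 : wn l (D.pt b) = wn l (D.pt d) := by
    rw [← hf1, ← hk1, ← e2, ← e3, e1]
  -- the edge `bd` meets the chain exactly once
  have hodd : Odd (wn l (D.curve b d 1) - wn l (D.curve b d 0)) := by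
    refine wn_single (rest := [sub f 0 s0, sub k t0 0]) (f := D.curve c a) (s0 := s1) (t0 := t1)
      hloop ?_ ?_ hgc hgi (D.cont b d hbd) (D.inj b d hbd) hs1 ht1 hq hcross1 ?_ ?_
    · exact (List.perm_append_comm (l₁ := [sub f 0 s0, sub k t0 0]) (l₂ := [D.curve c a]))
    · intro g hg
      simp only [List.mem_cons, List.not_mem_nil, or_false] at hg
      rcases hg with rfl | rfl
      · exact S2_cont hfc h0I (hI hs)
      · exact S2_cont hkc (hI ht) h0I
    · rintro ⟨g, hg, hz⟩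
      have hz2 : D.curve c a s1 ∈ supp l := by
        refine ⟨g, ?_, hz⟩
        simp only [List.mem_cons, List.not_mem_nil, or_false] at hg
        rcases hg with rfl | rfl
        · exact List.mem_cons_self
        · exact List.mem_cons_of_mem _ List.mem_cons_self
      have hz3 : D.curve c a s1 ∈ D.edge a b ∨ D.curve c a s1 ∈ D.edge c d := by
        simp only [List.mem_cons, List.not_mem_nil, or_false] at hg
        rcases hg with rfl | rfl
        · left
          obtain ⟨u, hu, hu2⟩ := hz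
          rw [← hu2]
          refine hfe _ ⟨?_, ?_⟩
          · nlinarith [mul_nonneg hs.1.le hu.1]
          · nlinarith [mul_nonneg hs.1.le (sub_nonneg.2 hu.2), hs.2]
        · right
          obtain ⟨u, hu, hu2⟩ := hz
          rw [← hu2]
          refine hke _ ⟨?_, ?_⟩
          · nlinarith [mul_nonneg ht.1.le (sub_nonneg.2 hu.2)]
          · nlinarith [mul_nonneg ht.1.le hu.1, ht.2]
      rcases hz3 with h5 | h5
      · have h6 := hge s1 (hI hs1)
        rw [← D.edge_comm hca] at h6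
        have h7 := D.adj hab hac hbc h5 h6
        have h8 := hgi (hI hs1) h1I (h7.trans hg1.symm)
        exact hs1.2.ne h8
      · have h7 := D.adj hcd hca had.symm h5 (hge s1 (hI hs1))
        have h8 := hgi (hI hs1) h0I (h7.trans hg0.symm)
        exact hs1.1.ne' h8
    · intro u hu hne hz
      have hue : D.curve b d u ∈ D.edge b d := ⟨u, hu, rfl⟩
      rcases hmem _ hz with h5 | h5 | h5
      · have h6 := hsubf _ h5
        rw [← D.edge_comm hab] at h6
        have h7 := D.adj hab.symm hbd had h6 hue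
        obtain ⟨w, hw, hw2⟩ := h5
        have h8 := hfi ⟨hw.1, hw.2.trans hs.2.le⟩ h1I ((hw2.trans h7).trans hf1.symm)
        linarith [hw.2, hs.2]
      · have h6 := hsubk _ h5
        rw [← D.edge_comm hcd] at h6
        have h9 := hue
        rw [← D.edge_comm hbd] at h9
        have h7 := D.adj hcd.symm hbd.symm hbc.symm h6 h9
        obtain ⟨w, hw, hw2⟩ := h5
        have h8 := hki ⟨hw.1, hw.2.trans ht.2.le⟩ h1I ((hw2.trans h7).trans hk1.symm)
        linarith [hw.2, ht.2]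
      · exact hne (huni4 u hu h5)
  rw [D.finish b d hbd, D.start b d hbd, e4, sub_self] at hodd
  exact absurd hodd (by decide)

end SimpleDrawing
end SDE
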