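import Pool.Agent.SDE.TBasic
import Pool.Agent.SDE.TSingle
import Pool.Agent.SDE.TCorner

/-!
# SDE/TS3
The 5-vertex rule for simple drawings.
-/

open Set

namespace SDE
namespace SimpleDrawing

variable {V : Type*} (D : SimpleDrawing V)

private theorem TS3_sub_mem {γ : ℝ → ℂ} {z : ℂ} {b : ℝ} (hb : 0 ≤ b)
    (h : z ∈ sub γ 0 b '' Icc (0 : ℝ) 1) : ∃ t ∈ Icc (0 : ℝ) b, z = γ t := by
  obtain ⟨τ, hτ, rfl⟩ := h
  refine ⟨b * τ, ⟨mul_nonneg hb hτ.1, by nlinarith [hτ.1, hτ.2]⟩, ?_⟩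
  simp [sub]

private theorem TS3_sub_mem' {γ : ℝ → ℂ} {z : ℂ} {b : ℝ} (hb : 0 ≤ b)
    (h : z ∈ sub γ b 0 '' Icc (0 : ℝ) 1) : ∃ t ∈ Icc (0 : ℝ) b, z = γ t := by
  obtain ⟨τ, hτ, rfl⟩ := h
  refine ⟨b + (0 - b) * τ, ⟨by nlinarith [hτ.1, hτ.2], by nlinarith [hτ.1, hτ.2]⟩, ?_⟩
  simp [sub]

private theorem TS3_sub_cont {γ : ℝ → ℂ} (hγ : ContinuousOn γ (Icc 0 1)) {a b : ℝ}
    (ha : a ∈ Icc (0 : ℝ) 1) (hb : b ∈ Icc (0 : ℝ) 1) :
    ContinuousOn (sub γ a b) (Icc 0 1) := by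
  refine hγ.comp (by fun_prop) ?_
  rintro t ⟨ht0, ht1⟩
  obtain ⟨ha0, ha1⟩ := ha
  obtain ⟨hb0, hb1⟩ := hb
  have e1 := mul_nonneg ha0 (sub_nonneg.2 ht1)
  have e2 := mul_nonneg hb0 ht0
  have e3 := mul_nonneg (sub_nonneg.2 ha1) (sub_nonneg.2 ht1)
  have e4 := mul_nonneg (sub_nonneg.2 hb1) ht0
  constructor
  · nlinarith
  · nlinarith

/-- `curve a b t = pt a` only for `t = 0` -/
private theorem TS3_eq_start {a b : V} (hab : a ≠ b) {t : ℝ} (ht : t ∈ Icc (0 : ℝ) 1)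
    (h : D.curve a b t = D.pt a) : t = 0 := by
  rw [← D.start a b hab] at h
  exact D.inj a b hab ht ⟨le_rfl, zero_le_one⟩ h

private theorem TS3_eq_finish {a b : V} (hab : a ≠ b) {t : ℝ} (ht : t ∈ Icc (0 : ℝ) 1)
    (h : D.curve a b t = D.pt b) : t = 1 := by
  rw [← D.finish a b hab] at h
  exact D.inj a b hab ht ⟨zero_le_one, le_rfl⟩ h

private theorem TS3_mem {a b : V} {t : ℝ} (ht : t ∈ Icc (0 : ℝ) 1) :
    D.curve a b t ∈ D.edge a b := ⟨t, ht, rfl⟩

private theorem TS3_aux {v x y u w : V} (h1 : D.cr x y v u = true) (h2 : D.cr x y v w = true)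
    (h3 : D.cr u w v x = true) (h4 : D.cr x y u w = false)
    (hlt : D.pos x y v u < D.pos x y v w) : False := by
  have h1' : D.cr v u x y = true := by rw [D.cr_comm]; exact h1
  have h2' : D.cr v w x y = true := by rw [D.cr_comm]; exact h2
  have h3' : D.cr v x u w = true := by rw [D.cr_comm]; exact h3
  obtain ⟨hxy, hxv, hxu, hyv, hyu, hvu, hsu, -, hsu1, hpc, -⟩ := D.cr_spec h1
  obtain ⟨-, -, hxw, -, hyw, hvw, hsw, -, hsw1, -, -⟩ := D.cr_spec h2
  obtain ⟨-, -, -, -, -, -, htu, -, htu1, -, -⟩ := D.cr_spec h1'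
  obtain ⟨-, -, -, -, -, -, htw, -, htw1, -, -⟩ := D.cr_spec h2'
  obtain ⟨huw, -, -, -, -, -, ht0, -, ht01, -, -⟩ := D.cr_spec h3
  obtain ⟨-, -, -, -, -, -, hs0, -, hs01, hpc0, -⟩ := D.cr_spec h3'
  have hp1 := D.cross_point h1
  have hp2 := D.cross_point h2
  have hp3 := D.cross_point h3'
  set su := D.pos x y v u with hsu_def
  set sw := D.pos x y v w with hsw_def
  set tu := D.pos v u x y with htu_def
  set tw := D.pos v w x y with htw_def
  set t0 := D.pos u w v x with ht0_def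
  set s0 := D.pos v x u w with hs0_def
  have i0 : (0 : ℝ) ∈ Icc (0 : ℝ) 1 := ⟨le_rfl, zero_le_one⟩
  have i1 : (1 : ℝ) ∈ Icc (0 : ℝ) 1 := ⟨zero_le_one, le_rfl⟩
  have isu : su ∈ Icc (0 : ℝ) 1 := ⟨hsu.1.le, hsu.2.le⟩
  have isw : sw ∈ Icc (0 : ℝ) 1 := ⟨hsw.1.le, hsw.2.le⟩
  have itu : tu ∈ Icc (0 : ℝ) 1 := ⟨htu.1.le, htu.2.le⟩
  have itw : tw ∈ Icc (0 : ℝ) 1 := ⟨htw.1.le, htw.2.le⟩
  have cvx := D.cont v x hxv.symm
  have cxy := D.cont x y hxy
  have cvu := D.cont v u hvu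
  have cvw := D.cont v w hvw
  have cuw := D.cont u w huw
  -- the closed chain
  let l : List (ℝ → ℂ) := [D.curve v x, sub (D.curve x y) 0 su, sub (D.curve v u) tu 0]
  have hl : IsLoop l := by
    refine ⟨D.pt v, cvx, D.start v x hxv.symm, TS3_sub_cont cxy i0 isu, ?_,
      TS3_sub_cont cvu itu i0, ?_, ?_⟩
    · simp [sub, D.start x y hxy, D.finish v x hxv.symm]
    · simp only [sub]
      rw [show (0 : ℝ) + (su - 0) * 1 = su by ring, show tu + (0 - tu) * 0 = tu by ring]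
      exact hp1.symm
    · simp only [sub, IsChain]
      rw [show tu + (0 - tu) * 1 = 0 by ring]
      exact D.start v u hvu
  have hsupp : ∀ z ∈ supp l, z ∈ D.edge v x ∨ (∃ t ∈ Icc (0 : ℝ) su, z = D.curve x y t) ∨
      ∃ t ∈ Icc (0 : ℝ) tu, z = D.curve v u t := by
    rintro z ⟨p, hp, hz⟩
    simp only [l, List.mem_cons, List.not_mem_nil, or_false] at hp
    rcases hp with rfl | rfl | rfl
    · exact Or.inl hz
    · exact Or.inr (Or.inl (TS3_sub_mem hsu.1.le hz))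
    · exact Or.inr (Or.inr (TS3_sub_mem' htu.1.le hz))
  -- points of the edge `xy` on `vx`
  have hxyvx : ∀ t ∈ Icc (0 : ℝ) 1, D.curve x y t ∈ D.edge v x → t = 0 := by
    intro t ht hm
    rw [D.edge_comm hxv] at hm
    exact D.TS3_eq_start hxy ht (D.adj hxy hxv hyv (D.TS3_mem ht) hm)
  have hvuvx : ∀ t ∈ Icc (0 : ℝ) 1, D.curve v u t ∈ D.edge v x → t = 0 := by
    intro t ht hm
    exact D.TS3_eq_start hvu ht (D.adj hvu hxv.symm hxu.symm (D.TS3_mem ht) hm)
  have hvwvx : ∀ t ∈ Icc (0 : ℝ) 1, D.curve v w t ∈ D.edge v x → t = 0 := by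
    intro t ht hm
    exact D.TS3_eq_start hvw ht (D.adj hvw hxv.symm hxw.symm (D.TS3_mem ht) hm)
  have hvwvu : ∀ t ∈ Icc (0 : ℝ) 1, D.curve v w t ∈ D.edge v u → t = 0 := by
    intro t ht hm
    exact D.TS3_eq_start hvw ht (D.adj hvw hvu huw.symm (D.TS3_mem ht) hm)
  have hle : ∀ {t s : ℝ}, t ∈ Icc (0 : ℝ) s → s ∈ Ioo (0 : ℝ) 1 → t ∈ Icc (0 : ℝ) 1 :=
    fun ht hs => ⟨ht.1, ht.2.trans hs.2.le⟩
  -- corner rule
  have hpR : D.curve x y su ∉ D.edge v x := fun hm => hsu.1.ne' (hxyvx su isu hm)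
  obtain ⟨δ, hδ, hcor⟩ := corner cxy (D.inj x y hxy) cvu (D.inj v u hvu) hsu htu hp1 hpc
    (D.edge_closed hxv.symm) hpR
  obtain ⟨ε, hε0, hε1⟩ : ∃ ε : ℝ, 0 < ε ∧ ε < min δ (min (sw - su) (1 - tu)) :=
    exists_between (lt_min hδ (lt_min (sub_pos.2 hlt) (sub_pos.2 htu.2)))
  have hεδ : ε < δ := hε1.trans_le (min_le_left _ _)
  have hεs : ε < sw - su := hε1.trans_le ((min_le_right _ _).trans (min_le_left _ _))
  have hεt : ε < 1 - tu := hε1.trans_le ((min_le_right _ _).trans (min_le_right _ _))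
  obtain ⟨S, hS, hf, hh, hd1, hd2, hd3⟩ := hcor ε ⟨hε0, hεδ⟩ ε ⟨hε0, hεδ⟩
  have hSd : Disjoint S (supp l) := by
    rw [Set.disjoint_left]
    intro z hz hzl
    rcases hsupp z hzl with h5 | ⟨t, ht, rfl⟩ | ⟨t, ht, rfl⟩
    · exact Set.disjoint_left.1 hd3 hz h5
    · exact Set.disjoint_left.1 hd1 hz ⟨t, ht, rfl⟩
    · exact Set.disjoint_left.1 hd2 hz ⟨t, ht, rfl⟩
  have e1 : wn l (D.curve x y (su + ε)) = wn l (D.curve v u (tu + ε)) :=
    wn_const hl hS hSd hf hh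
  -- along `vu`
  have e2 : wn l (D.curve v u (tu + ε)) = wn l (D.curve v u 1) := by
    refine wn_path hl (by linarith) (cvu.mono (Icc_subset_Icc (by linarith [htu.1]) le_rfl)) ?_
    intro t ht hm
    have hti : t ∈ Icc (0 : ℝ) 1 := ⟨by linarith [htu.1, ht.1], ht.2⟩
    rcases hsupp _ hm with h5 | ⟨t', ht', h5⟩ | ⟨t', ht', h5⟩
    · have := hvuvx t hti h5
      linarith [htu.1, ht.1]
    · have := htu1 t hti (by rw [h5]; exact D.TS3_mem (hle ht' hsu))
      linarith [ht.1]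
    · have := D.inj v u hvu hti (hle ht' htu) h5
      linarith [ht.1, ht'.2]
  -- along `xy`
  have e3 : wn l (D.curve x y (su + ε)) = wn l (D.curve x y sw) := by
    refine wn_path hl (by linarith) (cxy.mono (Icc_subset_Icc (by linarith [hsu.1]) hsw.2.le)) ?_
    intro t ht hm
    have hti : t ∈ Icc (0 : ℝ) 1 := ⟨by linarith [hsu.1, ht.1], ht.2.trans hsw.2.le⟩
    rcases hsupp _ hm with h5 | ⟨t', ht', h5⟩ | ⟨t', ht', h5⟩
    · have := hxyvx t hti h5
      linarith [hsu.1, ht.1]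
    · have := D.inj x y hxy hti (hle ht' hsu) h5
      linarith [ht.1, ht'.2]
    · have := hsu1 t hti (by rw [h5]; exact D.TS3_mem (hle ht' htu))
      linarith [ht.1]
  -- along `vw`
  have e4 : wn l (D.curve v w tw) = wn l (D.curve v w 1) := by
    refine wn_path hl htw.2.le (cvw.mono (Icc_subset_Icc htw.1.le le_rfl)) ?_
    intro t ht hm
    have hti : t ∈ Icc (0 : ℝ) 1 := ⟨by linarith [htw.1, ht.1], ht.2⟩
    rcases hsupp _ hm with h5 | ⟨t', ht', h5⟩ | ⟨t', ht', h5⟩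
    · have := hvwvx t hti h5
      linarith [htw.1, ht.1]
    · have h6 := htw1 t hti (by rw [h5]; exact D.TS3_mem (hle ht' hsu))
      rw [h6, ← hp2] at h5
      have := D.inj x y hxy isw (hle ht' hsu) h5
      linarith [ht'.2]
    · have := hvwvu t hti (by rw [h5]; exact D.TS3_mem (hle ht' htu))
      linarith [htw.1, ht.1]
  have e5 : wn l (D.pt u) = wn l (D.pt w) := by
    rw [← D.finish v u hvu, ← D.finish v w hvw, ← e2, ← e1, e3, hp2, e4]
  -- the edge `uw`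
  have hcr : ∀ g ∈ [sub (D.curve x y) 0 su, sub (D.curve v u) tu 0],
      ContinuousOn g (Icc 0 1) := by
    intro g hg
    simp only [List.mem_cons, List.not_mem_nil, or_false] at hg
    rcases hg with rfl | rfl
    · exact TS3_sub_cont cxy i0 isu
    · exact TS3_sub_cont cvu itu i0
  have is0 : s0 ∈ Icc (0 : ℝ) 1 := ⟨hs0.1.le, hs0.2.le⟩
  have hrest : D.curve v x s0 ∉ supp [sub (D.curve x y) 0 su, sub (D.curve v u) tu 0] := by
    rintro ⟨p, hp, hz⟩
    simp only [List.mem_cons, List.not_mem_nil, or_false] at hp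
    rcases hp with rfl | rfl
    · obtain ⟨t, ht, h5⟩ := TS3_sub_mem hsu.1.le hz
      have h6 : D.curve x y t ∈ D.edge v x := by rw [← h5]; exact D.TS3_mem is0
      have h7 := hxyvx t (hle ht hsu) h6
      rw [h7, D.start x y hxy] at h5
      have := D.TS3_eq_finish hxv.symm is0 h5
      linarith [hs0.2]
    · obtain ⟨t, ht, h5⟩ := TS3_sub_mem' htu.1.le hz
      have h6 : D.curve v u t ∈ D.edge v x := by rw [← h5]; exact D.TS3_mem is0
      have h7 := hvuvx t (hle ht htu) h6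
      rw [h7, D.start v u hvu] at h5
      have := D.TS3_eq_start hxv.symm is0 h5
      linarith [hs0.1]
  have hdis := D.cr_false hxy hxu hxw hyu hyw huw h4
  have honly : ∀ t ∈ Icc (0 : ℝ) 1, t ≠ t0 → D.curve u w t ∉ supp l := by
    intro t ht hne hm
    rcases hsupp _ hm with h5 | ⟨t', ht', h5⟩ | ⟨t', ht', h5⟩
    · exact hne (ht01 t ht h5)
    · exact Set.disjoint_left.1 hdis (D.TS3_mem (hle ht' hsu)) (h5 ▸ D.TS3_mem ht)
    · have h6 : D.curve u w t ∈ D.edge u v := by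
        rw [D.edge_comm hvu, h5]
        exact D.TS3_mem (hle ht' htu)
      have h7 := D.adj huw hvu.symm hvw.symm (D.TS3_mem ht) h6
      rw [h7] at h5
      have := D.TS3_eq_finish hvu (hle ht' htu) h5.symm
      linarith [ht'.2, htu.2]
  have hodd := wn_single (f := D.curve v x) (h := D.curve u w) hl (List.Perm.refl _) hcr cvx
    (D.inj v x hxv.symm) cuw (D.inj u w huw) hs0 ht0 hp3 hpc0 hrest honly
  rw [D.finish u w huw, D.start u w huw, e5] at hodd
  simp at hodd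

/-- **5-vertex rule.** Proof. Suppose `cr x y u w = false`; `u, w, x, y, v` are different
(`cr_ne`), so the edges `xy` and `uw` are disjoint (`cr_false`). `pos x y v u ≠ pos x y v w`
(`pos_ne`); by symmetry in `u, w` (`cr_swap`) assume `s_u := pos x y v u < s_w := pos x y v w`.
`t_u = pos v u x y`, `t_w = pos v w x y`. Closed chain
`l = [curve v x, sub (curve x y) 0 s_u, sub (curve v u) t_u 0]`. `corner` with `f = curve x y`,
`h = curve v u`, `R = edge v x`: `wn l (curve x y (s_u + s)) = wn l (curve v u (t_u + t))`.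
`wn_path` along `curve v u` on `[t_u + t, 1]`: `= wn l (pt u)`; along `curve x y` on
`[s_u + s, s_w]`: `= wn l (p2)`, `p2 = curve x y s_w = curve v w t_w`; along `curve v w` on
`[t_w, 1]` (it meets `vx`, `vu` only in `v`, `xy` only in `p2`, which is not on `supp l`):
`wn l p2 = wn l (pt w)`. So `wn l (pt u) = wn l (pt w)`. The edge `uw` meets `vu` only in `u` (not
on `supp l`), `xy` not at all, `vx` exactly once, properly (`cr u w v x = true`): `wn_single` with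
`f = curve v x`, `h = curve u w`: contradiction. -/
theorem S3 {v x y u w : V} (h1 : D.cr x y v u = true) (h2 : D.cr x y v w = true)
    (h3 : D.cr u w v x = true) : D.cr x y u w = true := by
  rcases h4 : D.cr x y u w with _ | _
  · exfalso
    have huw := (D.cr_ne h3).1
    rcases lt_or_gt_of_ne (D.pos_ne h1 h2 huw) with hlt | hlt
    · exact D.TS3_aux h1 h2 h3 h4 hlt
    · refine D.TS3_aux h2 h1 (by rw [D.cr_swap]; exact h3) ?_ hlt
      rw [D.cr_comm w u x y, D.cr_swap, D.cr_comm x y u w]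
      exact h4
  · rfl

end SimpleDrawing
end SDE
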