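import Pool.Agent.SDE.Abs
import Pool.Agent.SDE.TP5
import Pool.Agent.SDE.TP4
import Pool.Agent.SDE.TS2
import Pool.Agent.SDE.TS3

/-!
# SDE/TAbs
Every simple drawing gives an abstract drawing.
-/

open Set

namespace SDE
namespace SimpleDrawing

variable {V : Type*} (D : SimpleDrawing V)

/-- the abstract drawing of a simple drawing -/
noncomputable def toAbs [Finite V] : AbsDrawing V where
  cr := D.cr
  pos := D.pos
  th := D.th
  cr_ne := D.cr_ne
  cr_swap := D.cr_swap
  cr_comm := D.cr_comm
  pos_rev := D.pos_rev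
  pos_swap := D.pos_swap
  pos_ne := D.pos_ne
  th_inj := D.th_inj
  S2 := D.S2
  S3 := D.S3
  P5 := D.P5
  P4 := D.P4

end SimpleDrawing
end SDE
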