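import Pool.Agent.SDE.Abs

/-!
# SDE/LemG
The hub lemma G: an application of the sides rule `D.p4`.
-/

namespace SDE
namespace AbsDrawing

variable {V : Type*} (D : AbsDrawing V)

/-- **Lemma G** (hub lemma). Proof. By contradiction assume `cr x y v u = true` (so `x, y, v, u`
are distinct). Real numbers `th v x, th v y, th v w, th v u` are pairwise different (`th_inj`) and
neither `th v w` nor `th v u` lies between `th v x` and `th v y` (`hbw`, `hbu`). By cases on their
order one finds that (A) `btw v y w x ≠ btw v y w u`, or (B) `btw v x w y ≠ btw v x w u`. Case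
(A): `p4` with `(v,x,y) = (v,y,w)`, `a = x`, `b = y`, `c = u`, `d = v`: `g = uv` misses the
triangle (`cr y w v u = false` by `hyw`); the `bef` terms: `cr x y v y`, `cr x y y w` have a
common vertex, `cr x y v w = false` (`hw`). So
`false = side v y w x ^^ side v y w u = btw v y w x ^^ btw v y w u` (both `cr` parts are `false`
by `hyw`): contradiction. Case (B) is the same with `x` and `y` exchanged. -/
theorem lemG {v x y w u : V} {X : Finset V} (hvX : v ∉ X) (hx : x ∈ X) (hy : y ∈ X) (hw : w ∈ X)
    (hu : u ∈ X) (hwx : w ≠ x) (hwy : w ≠ y) (huw : u ≠ w)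
    (hxw : D.Unc v X x w) (hyw : D.Unc v X y w)
    (hbw : D.btw v x y w = false) (hbu : D.btw v x y u = false)
    (hc : D.cr x y v w = false) : D.cr x y v u = false := by
  rcases hcr : D.cr x y v u with _ | _
  · rfl
  exfalso
  obtain ⟨hxy, hxv, hxu, hyv, hyu, hvu⟩ := D.cr_ne hcr
  have hvw : v ≠ w := fun h => hvX (h ▸ hw)
  have hA : D.btw v y w x = D.btw v y w u := by
    have h := D.p4 (v := v) (x := y) (y := w) (a := x) (b := y) (c := u) (d := v) hyv.symm hvw
      hwy.symm hxv hxy hwx.symm hvu.symm hyu.symm huw (by rw [D.cr_swap']; exact hcr)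
      (D.cr_self4 _ _ _) (D.cr_self4 _ _ _)
      (by rw [D.cr_comm, D.cr_swap']; exact hyw u hu)
    have e1 : D.bef x y u v v y = false := by
      unfold bef
      rw [D.cr_self5, Bool.false_and]
    have e2 : D.bef x y u v v w = false := by
      unfold bef
      rw [hc, Bool.false_and]
    have e3 : D.bef x y u v y w = false := by
      unfold bef
      rw [D.cr_self4, Bool.false_and]
    rw [e1, e2, e3] at h
    unfold side at h
    rw [hyw x hx, hyw u hu] at h
    rcases h1 : D.btw v y w x <;> rcases h2 : D.btw v y w u <;> simp [h1, h2] at h ⊢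
  have hB : D.btw v x w y = D.btw v x w u := by
    have h := D.p4 (v := v) (x := x) (y := w) (a := y) (b := x) (c := u) (d := v) hxv.symm hvw
      hwx.symm hyv hxy.symm hwy.symm hvu.symm hxu.symm huw
      (by rw [D.cr_swap', D.cr_swap]; exact hcr)
      (D.cr_self4 _ _ _) (D.cr_self4 _ _ _)
      (by rw [D.cr_comm, D.cr_swap']; exact hxw u hu)
    have e1 : D.bef y x u v v x = false := by
      unfold bef
      rw [D.cr_self5, Bool.false_and]
    have e2 : D.bef y x u v v w = false := by
      unfold bef
      rw [D.cr_swap, hc, Bool.false_and]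
    have e3 : D.bef y x u v x w = false := by
      unfold bef
      rw [D.cr_self4, Bool.false_and]
    rw [e1, e2, e3] at h
    unfold side at h
    rw [hxw y hy, hxw u hu] at h
    rcases h1 : D.btw v x w y <;> rcases h2 : D.btw v x w u <;> simp [h1, h2] at h ⊢
  have n1 : D.th v x ≠ D.th v y := fun h => hxy (D.th_inj hxv hyv h)
  have n2 : D.th v x ≠ D.th v w := fun h => hwx (D.th_inj hxv hvw.symm h).symm
  have n3 : D.th v x ≠ D.th v u := fun h => hxu (D.th_inj hxv hvu.symm h)
  have n4 : D.th v y ≠ D.th v w := fun h => hwy (D.th_inj hyv hvw.symm h).symm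
  have n5 : D.th v y ≠ D.th v u := fun h => hyu (D.th_inj hyv hvu.symm h)
  have n6 : D.th v w ≠ D.th v u := fun h => huw (D.th_inj hvw.symm hvu.symm h).symm
  unfold btw at hA hB hbw hbu
  rw [decide_eq_decide] at hA hB
  rw [decide_eq_false_iff_not] at hbw hbu
  generalize D.th v x = a1 at *
  generalize D.th v y = a2 at *
  generalize D.th v w = a3 at *
  generalize D.th v u = a4 at *
  rcases n1.lt_or_gt with m1 | m1 <;> rcases n2.lt_or_gt with m2 | m2 <;>
    rcases n4.lt_or_gt with m4 | m4 <;> rcases n3.lt_or_gt with m3 | m3 <;>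
    rcases n5.lt_or_gt with m5 | m5 <;> rcases n6.lt_or_gt with m6 | m6 <;>
    simp only [m1, m2, m3, m4, m5, m6, not_lt_of_gt m1, not_lt_of_gt m2, not_lt_of_gt m3,
      not_lt_of_gt m4, not_lt_of_gt m5, not_lt_of_gt m6, and_true, true_and, and_false,
      false_and, or_true, true_or, or_false, false_or, not_true_eq_false, iff_true, iff_false,
      true_iff, false_iff, and_self, or_self] at hA hB hbw hbu

end AbsDrawing
end SDE
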