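import Pool.Agent.SDE.Abs

/-!
# SDE/WBlk
W-blocks.
-/

namespace SDE
namespace AbsDrawing

variable {V : Type*} [DecidableEq V] (D : AbsDrawing V)

/-- A W-block: `G` consecutive elements `z 0, ..., z (G-1)` of `X` in the rotation at `v`, a
common hub `w`, and all edges `z i z j` cross `vw`. -/
structure WBlock (v w : V) (X : Finset V) (G : ℕ) (z : ℕ → V) : Prop where
  vX : v ∉ X
  wX : w ∈ X
  mem : ∀ i, i < G → z i ∈ X
  wz : ∀ i, i < G → w ≠ z i
  mono : ∀ i j, i < j → j < G → D.th v (z i) < D.th v (z j)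
  hub : ∀ i, i < G → D.Unc v X (z i) w
  out : ∀ i j, i < j → j < G → ∀ u ∈ X, (∀ k, k < G → u ≠ z k) → D.btw v (z i) (z j) u = false
  W : ∀ i j, i < j → j < G → D.cr (z i) (z j) v w = true

/-- Basic facts in a W-block for `i < j < k`, written with `a = z i`, `b = z j`, `c = z k`. All
`th v _` are different; `th v a < th v b < th v c`; `th v w` is not between `th v a` and `th v c`
(`out`). -/
theorem WBlock.btwW {D : AbsDrawing V} {v w : V} {X : Finset V} {G : ℕ} {z : ℕ → V}
    (h : D.WBlock v w X G z)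
    {i j : ℕ} (hij : i < j) (hj : j < G) : D.btw v (z i) (z j) w = false :=
  h.out i j hij hj w h.wX (fun k hk => h.wz k hk)

end AbsDrawing
end SDE
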