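import Pool.Agent.SDE.Abs

/-!
# SDE/AltS
Alternating chords: symmetry.
-/

namespace SDE
namespace AbsDrawing

variable {V : Type*} (D : AbsDrawing V)

private theorem altS_real {a b c d : ℝ} (h1 : a ≠ c) (h2 : b ≠ c) (h3 : a ≠ d) (h4 : b ≠ d)
    (h : decide ((a < c ∧ c < b) ∨ (b < c ∧ c < a)) ≠ decide ((a < d ∧ d < b) ∨ (b < d ∧ d < a))) :
    decide ((c < a ∧ a < d) ∨ (d < a ∧ a < c)) ≠ decide ((c < b ∧ b < d) ∨ (d < b ∧ b < c)) := by
  have e1 : (c < a) ↔ ¬ (a < c) :=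
    ⟨fun h => not_lt.2 h.le, fun h => lt_of_le_of_ne (not_lt.1 h) h1.symm⟩
  have e2 : (c < b) ↔ ¬ (b < c) :=
    ⟨fun h => not_lt.2 h.le, fun h => lt_of_le_of_ne (not_lt.1 h) h2.symm⟩
  have e3 : (d < a) ↔ ¬ (a < d) :=
    ⟨fun h => not_lt.2 h.le, fun h => lt_of_le_of_ne (not_lt.1 h) h3.symm⟩
  have e4 : (d < b) ↔ ¬ (b < d) :=
    ⟨fun h => not_lt.2 h.le, fun h => lt_of_le_of_ne (not_lt.1 h) h4.symm⟩
  rw [Ne, decide_eq_decide] at h ⊢
  rw [e1, e2, e3, e4] at h ⊢
  tauto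

/-- `Alt` is symmetric in the two chords (four real numbers: `x, y` separate `z, t` iff `z, t`
separate `x, y`). Proof: unfold, the four numbers `th v x, th v y, th v z, th v t` are pairwise
different (`th_inj`; `z ≠ t` because otherwise the two `btw` would agree, `x ≠ y` because
otherwise both are `false`), then case analysis on the order. -/
theorem Alt.symm {D : AbsDrawing V} {v x y z t : V} (hx : x ≠ v) (hy : y ≠ v) (hz : z ≠ v)
    (ht : t ≠ v) (h : D.Alt v x y z t) : D.Alt v z t x y := by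
  obtain ⟨h1, h2, h3, h4, h5⟩ := h
  refine ⟨h1.symm, h3.symm, h2.symm, h4.symm, ?_⟩
  exact altS_real (fun e => h1 (D.th_inj hx hz e).symm) (fun e => h2 (D.th_inj hy hz e).symm)
    (fun e => h3 (D.th_inj hx ht e).symm) (fun e => h4 (D.th_inj hy ht e).symm) h5

/-- `Alt` does not change if the endpoints of the first chord are exchanged (`btw_comm`). -/
theorem Alt.swap1 {D : AbsDrawing V} {v x y z t : V} (h : D.Alt v x y z t) :
    D.Alt v y x z t := by
  obtain ⟨h1, h2, h3, h4, h5⟩ := h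
  refine ⟨h2, h1, h4, h3, ?_⟩
  rw [D.btw_comm, D.btw_comm v x y t]
  exact h5

/-- `Alt` does not change if the endpoints of the second chord are exchanged. -/
theorem Alt.swap2 {D : AbsDrawing V} {v x y z t : V} (h : D.Alt v x y z t) :
    D.Alt v x y t z := by
  obtain ⟨h1, h2, h3, h4, h5⟩ := h
  exact ⟨h3, h4, h1, h2, h5.symm⟩

end AbsDrawing
end SDE
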