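import Pool.Agent.SDE.Abs

/-!
# SDE/Enm
Enumeration of `X` in the order of the rotation at `v`.
-/

namespace SDE
namespace AbsDrawing

variable {V : Type*} (D : AbsDrawing V)

/-- `z 0, ..., z (N-1)` is the list of the elements of `X` in the order of `th v`. -/
structure Enum (v : V) (X : Finset V) (z : ℕ → V) : Prop where
  mem : ∀ i, i < X.card → z i ∈ X
  mono : ∀ i j, i < j → j < X.card → D.th v (z i) < D.th v (z j)
  surj : ∀ u ∈ X, ∃ i, i < X.card ∧ z i = u

/-- Proof. `th v` is injective on `X` (`th_inj`, `v ∉ X`), so `T = X.image (th v)` has `X.card`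
elements; take `T.orderEmbOfFin` (or `Finset.orderIsoOfFin`) and for each value a preimage in `X`.
If `X = ∅` every `z` works (there is a `z` since `v : V`). -/
theorem exists_enum {v : V} {X : Finset V} (hv : v ∉ X) : ∃ z : ℕ → V, D.Enum v X z := by
  classical
  have hne : ∀ {x : V}, x ∈ X → x ≠ v := fun hx h => hv (h ▸ hx)
  have hinj : Set.InjOn (D.th v) X := fun x hx y hy h => D.th_inj (hne hx) (hne hy) h
  have hc : (X.image (D.th v)).card = X.card := Finset.card_image_of_injOn hinj
  have hex : ∀ i : Fin X.card, ∃ x ∈ X, D.th v x = (X.image (D.th v)).orderEmbOfFin hc i := by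
    intro i
    exact Finset.mem_image.1 (Finset.orderEmbOfFin_mem _ hc i)
  choose f hf1 hf2 using hex
  refine ⟨fun i => if h : i < X.card then f ⟨i, h⟩ else v, ?_, ?_, ?_⟩
  · intro i hi
    rw [dif_pos hi]
    exact hf1 _
  · intro i j hij hj
    rw [dif_pos (hij.trans hj), dif_pos hj, hf2, hf2]
    exact ((X.image (D.th v)).orderEmbOfFin hc).strictMono hij
  · intro u hu
    have h1 : D.th v u ∈ X.image (D.th v) := Finset.mem_image_of_mem _ hu
    have h2 : D.th v u ∈ Set.range ((X.image (D.th v)).orderEmbOfFin hc) := by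
      rw [Finset.range_orderEmbOfFin]
      exact h1
    obtain ⟨i, hi⟩ := h2
    refine ⟨i, i.2, ?_⟩
    rw [dif_pos i.2]
    exact hinj (hf1 _) hu ((hf2 i).trans hi)

/-- Different positions, different elements. -/
theorem Enum.inj {D : AbsDrawing V} {v : V} {X : Finset V} {z : ℕ → V} (h : D.Enum v X z)
    {i j : ℕ} (hi : i < X.card) (hj : j < X.card) (he : z i = z j) : i = j := by
  rcases lt_trichotomy i j with h1 | h1 | h1
  · have := h.mono i j h1 hj
    rw [he] at this
    exact absurd this (lt_irrefl _)
  · exact h1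
  · have := h.mono j i h1 hi
    rw [he] at this
    exact absurd this (lt_irrefl _)

/-- An element outside a block `[a, b)` of positions is not between two elements of the block.
Proof: `u = z l` with `l < a` or `b ≤ l` (`surj`), so `th v u` is smaller or larger than both. -/
theorem Enum.out {D : AbsDrawing V} {v : V} {X : Finset V} {z : ℕ → V} (h : D.Enum v X z)
    {a b i j : ℕ} (hai : a ≤ i) (hij : i < j) (hjb : j < b) (hb : b ≤ X.card) {u : V} (hu : u ∈ X)
    (hout : ∀ k, a ≤ k → k < b → u ≠ z k) : D.btw v (z i) (z j) u = false := by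
  obtain ⟨l, hl, rfl⟩ := h.surj u hu
  have hi : i < X.card := by omega
  have hj : j < X.card := by omega
  have h1 := h.mono i j hij hj
  have h2 : l < a ∨ b ≤ l := by
    by_contra hcon
    push Not at hcon
    exact hout l hcon.1 hcon.2 rfl
  unfold btw
  rw [decide_eq_false_iff_not]
  rcases h2 with h2 | h2
  · have h3 := h.mono l i (by omega) hi
    rintro (⟨h4, h5⟩ | ⟨h4, h5⟩) <;> linarith
  · have h3 := h.mono j l (by omega) hl
    rintro (⟨h4, h5⟩ | ⟨h4, h5⟩) <;> linarith

end AbsDrawing
end SDE
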