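import Mathlib

/-!
# Abstract drawings (package family SDE, problem MP_df6f91_co)

Combinatorial data of a simple drawing of the complete graph on `V`; all combinatorial files
of the family use only this structure. Full paper proof: /team-store/SD_Proof.md.

* `cr a b c d`  : the edges `ab` and `cd` have four different endpoints and cross;
* `pos a b c d` : the position (between `0` and `1`) of the crossing with the edge `cd` on the edge
  from `a` to `b` (only used if `cr a b c d`);
* `th v x`      : the angular position of the edge `vx` around `v` (the rotation at `v`, cut at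
  one place).
-/

namespace SDE

/-- Combinatorial data of a simple drawing of the complete graph with vertex set `V`. -/
structure AbsDrawing (V : Type*) where
  cr : V → V → V → V → Bool
  pos : V → V → V → V → ℝ
  th : V → V → ℝ
  cr_ne : ∀ {a b c d : V}, cr a b c d = true →
    a ≠ b ∧ a ≠ c ∧ a ≠ d ∧ b ≠ c ∧ b ≠ d ∧ c ≠ d
  cr_swap : ∀ a b c d : V, cr b a c d = cr a b c d
  cr_comm : ∀ a b c d : V, cr c d a b = cr a b c d
  pos_rev : ∀ {a b c d : V}, cr a b c d = true → pos b a c d = 1 - pos a b c d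
  pos_swap : ∀ a b c d : V, pos a b d c = pos a b c d
  /-- two edges with a common endpoint cross a third edge at different points -/
  pos_ne : ∀ {a b c d e : V}, cr a b c d = true → cr a b c e = true → d ≠ e →
    pos a b c d ≠ pos a b c e
  th_inj : ∀ {v x y : V}, x ≠ v → y ≠ v → th v x = th v y → x = y
  /-- K4 rule: at most one crossing on four vertices -/
  S2 : ∀ {a b c d : V}, cr a b c d = true → cr a c b d = false
  /-- 5-vertex rule -/
  S3 : ∀ {v x y u w : V}, cr x y v u = true → cr x y v w = true → cr u w v x = true →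
    cr x y u w = true
  /-- parity rule for the edge `ac` and the triangle `vxy` -/
  P5 : ∀ {v x y a c : V}, v ≠ x → v ≠ y → x ≠ y → a ≠ v → a ≠ x → a ≠ y → c ≠ v → c ≠ x → c ≠ y →
    a ≠ c →
    ((cr a c x y ^^ cr a c v x) ^^ cr a c v y) =
      ((decide ((th v x < th v a ∧ th v a < th v y) ∨ (th v y < th v a ∧ th v a < th v x)) ^^
          cr x y v a) ^^
        (decide ((th v x < th v c ∧ th v c < th v y) ∨ (th v y < th v c ∧ th v c < th v x)) ^^
          cr x y v c))
  /-- sides rule: `e = ab` crosses `g = cd`, `g` misses the triangle `vxy` -/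
  P4 : ∀ {v x y a b c d : V}, v ≠ x → v ≠ y → x ≠ y → a ≠ v → a ≠ x → a ≠ y →
    c ≠ v → c ≠ x → c ≠ y → cr a b c d = true →
    cr c d v x = false → cr c d v y = false → cr c d x y = false →
    (((cr a b v x && decide (pos a b v x < pos a b c d)) ^^
        (cr a b v y && decide (pos a b v y < pos a b c d))) ^^
        (cr a b x y && decide (pos a b x y < pos a b c d))) =
      ((decide ((th v x < th v a ∧ th v a < th v y) ∨ (th v y < th v a ∧ th v a < th v x)) ^^
          cr x y v a) ^^
        (decide ((th v x < th v c ∧ th v c < th v y) ∨ (th v y < th v c ∧ th v c < th v x)) ^^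
          cr x y v c))

namespace AbsDrawing

variable {V : Type*} (D : AbsDrawing V)

/-- `c` lies between `x` and `y` in the (linear) rotation at `v`. -/
noncomputable def btw (v x y c : V) : Bool :=
  decide ((D.th v x < D.th v c ∧ D.th v c < D.th v y) ∨
    (D.th v y < D.th v c ∧ D.th v c < D.th v x))

/-- The side of `c` with respect to the triangle `vxy`. -/
noncomputable def side (v x y c : V) : Bool := D.btw v x y c ^^ D.cr x y v c

/-- the edge `xy` crosses the edge `ab`, closer to `a` than the crossing of `ab` with `cd` -/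
noncomputable def bef (a b c d x y : V) : Bool :=
  D.cr a b x y && decide (D.pos a b x y < D.pos a b c d)

theorem p5 {v x y a c : V} (h1 : v ≠ x) (h2 : v ≠ y) (h3 : x ≠ y) (h4 : a ≠ v) (h5 : a ≠ x)
    (h6 : a ≠ y) (h7 : c ≠ v) (h8 : c ≠ x) (h9 : c ≠ y) (h10 : a ≠ c) :
    ((D.cr a c x y ^^ D.cr a c v x) ^^ D.cr a c v y) = (D.side v x y a ^^ D.side v x y c) :=
  D.P5 h1 h2 h3 h4 h5 h6 h7 h8 h9 h10

theorem p4 {v x y a b c d : V} (h1 : v ≠ x) (h2 : v ≠ y) (h3 : x ≠ y) (h4 : a ≠ v) (h5 : a ≠ x)
    (h6 : a ≠ y) (h7 : c ≠ v) (h8 : c ≠ x) (h9 : c ≠ y) (h : D.cr a b c d = true)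
    (k1 : D.cr c d v x = false) (k2 : D.cr c d v y = false) (k3 : D.cr c d x y = false) :
    ((D.bef a b c d v x ^^ D.bef a b c d v y) ^^ D.bef a b c d x y) =
      (D.side v x y a ^^ D.side v x y c) :=
  D.P4 h1 h2 h3 h4 h5 h6 h7 h8 h9 h k1 k2 k3

theorem cr_swap' (a b c d : V) : D.cr a b d c = D.cr a b c d := by
  rw [D.cr_comm c d a b, D.cr_comm d c a b, D.cr_swap c d a b] 

theorem cr_self1 (a c d : V) : D.cr a a c d = false := by
  rcases h : D.cr a a c d with _ | _
  · rfl
  · exact absurd rfl (D.cr_ne h).1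

theorem cr_self2 (a b d : V) : D.cr a b a d = false := by
  rcases h : D.cr a b a d with _ | _
  · rfl
  · exact absurd rfl (D.cr_ne h).2.1

theorem cr_self3 (a b c : V) : D.cr a b c a = false := by
  rcases h : D.cr a b c a with _ | _
  · rfl
  · exact absurd rfl (D.cr_ne h).2.2.1

theorem cr_self4 (a b d : V) : D.cr a b b d = false := by
  rcases h : D.cr a b b d with _ | _
  · rfl
  · exact absurd rfl (D.cr_ne h).2.2.2.1

theorem cr_self5 (a b c : V) : D.cr a b c b = false := by
  rcases h : D.cr a b c b with _ | _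
  · rfl
  · exact absurd rfl (D.cr_ne h).2.2.2.2.1

theorem cr_self6 (a b c : V) : D.cr a b c c = false := by
  rcases h : D.cr a b c c with _ | _
  · rfl
  · exact absurd rfl (D.cr_ne h).2.2.2.2.2

theorem btw_comm (v x y c : V) : D.btw v y x c = D.btw v x y c := by
  unfold btw; congr 1; rw [or_comm]

theorem side_comm (v x y c : V) : D.side v y x c = D.side v x y c := by
  unfold side; rw [D.btw_comm, D.cr_swap]

/-- `xy` is crossed by no edge `vq` with `q ∈ Y`. -/
def Unc (v : V) (Y : Finset V) (x y : V) : Prop := ∀ q ∈ Y, D.cr x y v q = false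

theorem Unc.symm {D : AbsDrawing V} {v : V} {Y : Finset V} {x y : V} (h : D.Unc v Y x y) :
    D.Unc v Y y x := fun q hq => by rw [D.cr_swap]; exact h q hq

/-- `z, z'` are neighbours in the cyclic order of `Y` around `v`: all other elements of `Y` are on
the same side. -/
def Adj (v : V) (Y : Finset V) (z z' : V) : Prop :=
  z ≠ z' ∧ z ∈ Y ∧ z' ∈ Y ∧ ∀ p ∈ Y, ∀ q ∈ Y, p ≠ z → p ≠ z' → q ≠ z → q ≠ z' →
    D.btw v z z' p = D.btw v z z' q

/-- The chords `xy` and `zt` alternate in the rotation at `v`. -/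
def Alt (v x y z t : V) : Prop :=
  z ≠ x ∧ z ≠ y ∧ t ≠ x ∧ t ≠ y ∧ D.btw v x y z ≠ D.btw v x y t

/-- `M` is a set of pairwise disjoint edges with all endpoints in `W`. -/
def IsPM (W : Finset V) (M : Finset (V × V)) : Prop :=
  (∀ p ∈ M, p.1 ∈ W ∧ p.2 ∈ W ∧ p.1 ≠ p.2) ∧
  ∀ p ∈ M, ∀ q ∈ M, p ≠ q → p.1 ≠ q.1 ∧ p.1 ≠ q.2 ∧ p.2 ≠ q.1 ∧ p.2 ≠ q.2 ∧
    D.cr p.1 p.2 q.1 q.2 = false

/-- There are `k` pairwise disjoint edges with endpoints in `W`. -/
def Has (W : Finset V) (k : ℕ) : Prop := ∃ M : Finset (V × V), D.IsPM W M ∧ M.card = k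

/-- A twisted chain `x 0, ..., x (m-1)` at `v`, consecutive with respect to the external set `U`. -/
structure TChain (v : V) (U : Finset V) (m : ℕ) (x : ℕ → V) : Prop where
  inj : ∀ i j, i < m → j < m → x i = x j → i = j
  ne : ∀ i, i < m → x i ≠ v
  notU : ∀ i, i < m → x i ∉ U
  vU : v ∉ U
  btw1 : ∀ i j k, i < j → j < k → k < m → D.btw v (x i) (x k) (x j) = true
  btw2 : ∀ i j k, i < j → j < k → k < m → D.btw v (x i) (x j) (x k) = false
  btw3 : ∀ i j k, i < j → j < k → k < m → D.btw v (x j) (x k) (x i) = false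
  btwU : ∀ i j, i < j → j < m → ∀ u ∈ U, D.btw v (x i) (x j) u = false
  cr1 : ∀ i j k, i < j → j < k → k < m → D.cr (x i) (x j) v (x k) = true
  cr2 : ∀ i j k, i < j → j < k → k < m → D.cr (x i) (x k) v (x j) = false
  cr3 : ∀ i j k, i < j → j < k → k < m → D.cr (x j) (x k) v (x i) = false

end AbsDrawing

end SDE
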