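import Pool.Agent.SDE.Abs

/-!
# SDE/AdjEx
Existence of neighbours in the cyclic order.
-/

namespace SDE
namespace AbsDrawing

variable {V : Type*} (D : AbsDrawing V)

private theorem adjEx_aux {v : V} {Y : Finset V} {z : V} (hz : z ∈ Y) (hY : 3 ≤ Y.card)
    (hinj : ∀ x ∈ Y, ∀ y ∈ Y, D.th v x = D.th v y → x = y)
    (hT : ∀ z' p : V, ((D.th v z < D.th v p ∧ D.th v p < D.th v z') ∨
      (D.th v z' < D.th v p ∧ D.th v p < D.th v z)) → D.btw v z z' p = true)
    (hF : ∀ z' p : V, ¬ ((D.th v z < D.th v p ∧ D.th v p < D.th v z') ∨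
      (D.th v z' < D.th v p ∧ D.th v p < D.th v z)) → D.btw v z z' p = false)
    (h : (∀ u ∈ Y, u ≠ z → D.th v z < D.th v u) ∨ ∀ u ∈ Y, u ≠ z → D.th v u < D.th v z) :
    ∃ z' z'' : V, z' ≠ z'' ∧ D.Adj v Y z z' ∧ D.Adj v Y z z'' := by
  classical
  have hcard : 1 < (Y.erase z).card := by
    rw [Finset.card_erase_of_mem hz]
    omega
  obtain ⟨c, hc, d, hd, hcd⟩ := Finset.one_lt_card.1 hcard
  obtain ⟨a, ha, hamin⟩ := Finset.exists_min_image (Y.erase z) (D.th v) ⟨c, hc⟩
  obtain ⟨b, hb, hbmax⟩ := Finset.exists_max_image (Y.erase z) (D.th v) ⟨c, hc⟩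
  have hab : a ≠ b := by
    rintro rfl
    have h1 := le_antisymm (hamin c hc) (hbmax c hc)
    have h2 := le_antisymm (hamin d hd) (hbmax d hd)
    exact hcd (hinj c (Finset.mem_of_mem_erase hc) d (Finset.mem_of_mem_erase hd)
      (h1.symm.trans h2))
  have haY := Finset.mem_of_mem_erase ha
  have hbY := Finset.mem_of_mem_erase hb
  have haz := Finset.ne_of_mem_erase ha
  have hbz := Finset.ne_of_mem_erase hb
  have hmin : ∀ p ∈ Y, p ≠ z → p ≠ a → D.th v a < D.th v p := by
    intro p hp hpz hpa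
    refine lt_of_le_of_ne (hamin p (Finset.mem_erase.2 ⟨hpz, hp⟩)) fun h => hpa ?_
    exact (hinj a haY p hp h).symm
  have hmax : ∀ p ∈ Y, p ≠ z → p ≠ b → D.th v p < D.th v b := by
    intro p hp hpz hpb
    refine lt_of_le_of_ne (hbmax p (Finset.mem_erase.2 ⟨hpz, hp⟩)) fun h => hpb ?_
    exact hinj p hp b hbY h
  rcases h with h | h
  · have h1 : ∀ p ∈ Y, p ≠ z → p ≠ a → D.btw v z a p = false := by
      intro p hp hpz hpa
      refine hF a p ?_
      rintro (⟨k1, k2⟩ | ⟨k1, k2⟩)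
      · linarith [hmin p hp hpz hpa]
      · linarith [h p hp hpz]
    have h2 : ∀ p ∈ Y, p ≠ z → p ≠ b → D.btw v z b p = true := by
      intro p hp hpz hpb
      exact hT b p (Or.inl ⟨h p hp hpz, hmax p hp hpz hpb⟩)
    refine ⟨a, b, hab, ⟨haz.symm, hz, haY, ?_⟩, ⟨hbz.symm, hz, hbY, ?_⟩⟩
    · intro p hp q hq k1 k2 k3 k4
      rw [h1 p hp k1 k2, h1 q hq k3 k4]
    · intro p hp q hq k1 k2 k3 k4
      rw [h2 p hp k1 k2, h2 q hq k3 k4]
  · have h1 : ∀ p ∈ Y, p ≠ z → p ≠ a → D.btw v z a p = true := by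
      intro p hp hpz hpa
      exact hT a p (Or.inr ⟨hmin p hp hpz hpa, h p hp hpz⟩)
    have h2 : ∀ p ∈ Y, p ≠ z → p ≠ b → D.btw v z b p = false := by
      intro p hp hpz hpb
      refine hF b p ?_
      rintro (⟨k1, k2⟩ | ⟨k1, k2⟩)
      · linarith [h p hp hpz]
      · linarith [hmax p hp hpz hpb]
    refine ⟨a, b, hab, ⟨haz.symm, hz, haY, ?_⟩, ⟨hbz.symm, hz, hbY, ?_⟩⟩
    · intro p hp q hq k1 k2 k3 k4
      rw [h1 p hp k1 k2, h1 q hq k3 k4]
    · intro p hp q hq k1 k2 k3 k4
      rw [h2 p hp k1 k2, h2 q hq k3 k4]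

/-- Every `z ∈ Y` has two different neighbours in the cyclic order of `Y` (`3 ≤ |Y|`). Proof.
`th v` is injective on `Y` (`th_inj`, `v ∉ Y`). Successor `z'`: if some element of `Y` has larger
`th` than `z`, take the one with the smallest such `th` (nothing lies between: all others have
`btw v z z' = false`); otherwise take the element of `Y` with the smallest `th` (then `z` is the
maximum, `z'` the minimum and all others have `btw v z z' = true`). Predecessor `z''`: the same
with the order reversed. They are different because `|Y| ≥ 3`: if `z' = z''`, there is a third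
element `p`; if `z` is neither the maximum nor the minimum then `th z'' < th z < th z'`; if `z` is
the maximum then `z'` = minimum and `z''` = second largest, `th z'' > th z'` because of `|Y| ≥ 3`,
etc. (`Adj` is symmetric in the obvious sense, use `btw_comm` if convenient.) -/
theorem adj_exists {v : V} {Y : Finset V} (hv : v ∉ Y) (hY : 3 ≤ Y.card) {z : V} (hz : z ∈ Y) :
    ∃ z' z'' : V, z' ≠ z'' ∧ D.Adj v Y z z' ∧ D.Adj v Y z z'' := by
  have hinj : ∀ x ∈ Y, ∀ y ∈ Y, D.th v x = D.th v y → x = y := by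
    intro x hx y hy h
    refine D.th_inj ?_ ?_ h
    · rintro rfl
      exact hv hx
    · rintro rfl
      exact hv hy
  have hF : ∀ z' p : V, ¬ ((D.th v z < D.th v p ∧ D.th v p < D.th v z') ∨
      (D.th v z' < D.th v p ∧ D.th v p < D.th v z)) → D.btw v z z' p = false := by
    intro z' p h
    unfold btw
    exact decide_eq_false h
  have hT : ∀ z' p : V, ((D.th v z < D.th v p ∧ D.th v p < D.th v z') ∨
      (D.th v z' < D.th v p ∧ D.th v p < D.th v z)) → D.btw v z z' p = true := by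
    intro z' p h
    unfold btw
    exact decide_eq_true h
  by_cases hU : ∃ u ∈ Y, D.th v z < D.th v u
  · by_cases hL : ∃ u ∈ Y, D.th v u < D.th v z
    · classical
      obtain ⟨u, hu, hzu⟩ := hU
      obtain ⟨l, hl, hzl⟩ := hL
      obtain ⟨a, ha, hamin⟩ := Finset.exists_min_image
        (Y.filter fun u => D.th v z < D.th v u) (D.th v) ⟨u, Finset.mem_filter.2 ⟨hu, hzu⟩⟩
      obtain ⟨b, hb, hbmax⟩ := Finset.exists_max_image
        (Y.filter fun u => D.th v u < D.th v z) (D.th v) ⟨l, Finset.mem_filter.2 ⟨hl, hzl⟩⟩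
      rw [Finset.mem_filter] at ha hb
      have hAF : ∀ p ∈ Y, p ≠ z → p ≠ a → D.btw v z a p = false := by
        intro p hp _ _
        refine hF a p ?_
        rintro (⟨h1, h2⟩ | ⟨h1, h2⟩)
        · exact absurd (hamin p (Finset.mem_filter.2 ⟨hp, h1⟩)) (not_le.2 h2)
        · linarith [ha.2]
      have hBF : ∀ p ∈ Y, p ≠ z → p ≠ b → D.btw v z b p = false := by
        intro p hp _ _
        refine hF b p ?_
        rintro (⟨h1, h2⟩ | ⟨h1, h2⟩)
        · linarith [hb.2]
        · exact absurd (hbmax p (Finset.mem_filter.2 ⟨hp, h2⟩)) (not_le.2 h1)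
      refine ⟨a, b, ?_, ⟨?_, hz, ha.1, ?_⟩, ⟨?_, hz, hb.1, ?_⟩⟩
      · rintro rfl
        linarith [ha.2, hb.2]
      · rintro rfl
        linarith [ha.2]
      · intro p hp q hq h1 h2 h3 h4
        rw [hAF p hp h1 h2, hAF q hq h3 h4]
      · rintro rfl
        linarith [hb.2]
      · intro p hp q hq h1 h2 h3 h4
        rw [hBF p hp h1 h2, hBF q hq h3 h4]
    · have hL' : ∀ u ∈ Y, u ≠ z → D.th v z < D.th v u := by
        intro u hu hne
        refine lt_of_le_of_ne (not_lt.1 fun h => hL ⟨u, hu, h⟩) fun h => hne ?_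
        exact (hinj z hz u hu h).symm
      exact D.adjEx_aux hz hY hinj hT hF (Or.inl hL')
  · have hU' : ∀ u ∈ Y, u ≠ z → D.th v u < D.th v z := by
      intro u hu hne
      refine lt_of_le_of_ne (not_lt.1 fun h => hU ⟨u, hu, h⟩) fun h => hne ?_
      exact hinj u hu z hz h
    exact D.adjEx_aux hz hY hinj hT hF (Or.inr hU')

/-- If `z, z'` are neighbours in `Y` they are neighbours in every subset containing both. -/
theorem Adj.mono {D : AbsDrawing V} {v : V} {Y Y' : Finset V} {z z' : V} (h : D.Adj v Y z z')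
    (hs : Y' ⊆ Y) (hz : z ∈ Y') (hz' : z' ∈ Y') : D.Adj v Y' z z' :=
  ⟨h.1, hz, hz', fun p hp q hq h1 h2 h3 h4 => h.2.2.2 p (hs hp) q (hs hq) h1 h2 h3 h4⟩

end AbsDrawing
end SDE
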