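import Mathlib

/-!
# SDE/AsymB
An exponentially small product.
-/

namespace SDE

/-- Proof. `k L := (⌊c * L⌋₊ - 3) / 2 + 1 ≥ c * L / 2 - 2` (real number), so
`α ^ (k L) ≤ α ^ (c L / 2 - 2)` (`Real.rpow`), which is exponentially small in `L`:
`(L + 1) α ^ (c L / 2 - 2) → 0` (e.g. `tendsto_self_mul_const_pow_of_lt_one`, or compare with a
sequence along `k`: `L + 1 ≤ (2 k + 6)/c + 2`, and `(k + 1) α ^ k → 0` as `k → ∞`). -/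
theorem asymB (α c : ℝ) (h0 : 0 < α) (h1 : α < 1) (hc : 0 < c) : ∀ᶠ L : ℕ in Filter.atTop,
    3 ≤ ⌊c * L⌋₊ ∧ α ^ ((⌊c * L⌋₊ - 3) / 2 + 1) * ((L : ℝ) + 1) ≤ 1 := by
  have hf : Filter.Tendsto (fun L : ℕ => ⌊c * (L : ℝ)⌋₊) Filter.atTop Filter.atTop :=
    tendsto_nat_floor_atTop.comp (tendsto_natCast_atTop_atTop.const_mul_atTop hc)
  have hk : Filter.Tendsto (fun L : ℕ => (⌊c * (L : ℝ)⌋₊ - 3) / 2 + 1) Filter.atTop
      Filter.atTop :=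
    Filter.tendsto_atTop.2 fun b => (hf.eventually_ge_atTop (2 * b + 3)).mono fun L hL => by
      change 2 * b + 3 ≤ ⌊c * (L : ℝ)⌋₊ at hL
      omega
  have hg : Filter.Tendsto (fun k : ℕ => α ^ k * ((2 * (k : ℝ) + 3) / c + 1)) Filter.atTop
      (nhds 0) := by
    have t1 := tendsto_self_mul_const_pow_of_lt_one h0.le h1
    have t2 := tendsto_pow_atTop_nhds_zero_of_lt_one h0.le h1
    have t3 := (t1.const_mul (2 / c)).add (t2.const_mul (3 / c + 1))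
    rw [mul_zero, mul_zero, add_zero] at t3
    refine t3.congr fun k => ?_
    field_simp
    ring
  have hg1 : ∀ᶠ L : ℕ in Filter.atTop,
      α ^ ((⌊c * (L : ℝ)⌋₊ - 3) / 2 + 1) *
        ((2 * (((⌊c * (L : ℝ)⌋₊ - 3) / 2 + 1 : ℕ) : ℝ) + 3) / c + 1) ≤ 1 :=
    hk.eventually (hg.eventually (eventually_le_nhds one_pos))
  filter_upwards [hf.eventually_ge_atTop 3, hg1] with L h3 h4
  refine ⟨h3, le_trans (mul_le_mul_of_nonneg_left ?_ (pow_nonneg h0.le _)) h4⟩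
  have h5 : c * (L : ℝ) < (⌊c * (L : ℝ)⌋₊ : ℝ) + 1 := Nat.lt_floor_add_one _
  have h6 : ⌊c * (L : ℝ)⌋₊ ≤ 2 * ((⌊c * (L : ℝ)⌋₊ - 3) / 2 + 1) + 2 := by
    have : 3 ≤ ⌊c * (L : ℝ)⌋₊ := h3
    omega
  have h7 : (⌊c * (L : ℝ)⌋₊ : ℝ) ≤ 2 * (((⌊c * (L : ℝ)⌋₊ - 3) / 2 + 1 : ℕ) : ℝ) + 2 := by
    exact_mod_cast h6
  have h8 : (L : ℝ) ≤ (2 * (((⌊c * (L : ℝ)⌋₊ - 3) / 2 + 1 : ℕ) : ℝ) + 3) / c := by
    rw [le_div_iff₀ hc]
    linarith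
  linarith

end SDE
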