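import Pool.Agent.SDE.AsymA
import Pool.Agent.SDE.AsymB

/-!
# SDE/Asym
Choice of the parameters of the recursion.
-/

namespace SDE

/-- **Asymptotics.** Choice of the number `r n` of windows. Proof. `β = (1-α)/2`,
`r n = ⌊(β / 22) * Nat.log 2 n⌋₊`, `j n = (r n - 3) / 2`. Then
`4 ^ (11 * r n) = 2 ^ (22 * r n) ≤ 2 ^ (β * Nat.log 2 n) ≤ n ^ β` (`22 * r n ≤ β * Nat.log 2 n`,
`2 ^ Nat.log 2 n ≤ n`). Take the events of `asymA` for `n` and of `asymB` (with `c = β / 22`) for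
`L = Nat.log 2 n` (which tends to infinity), choose `N0`. Then (1) `r n ≥ 3`, so
`2 * j n + 3 ≤ r n`; (2) `4 ^ (11 r) + 2 ≤ n ^ β + 2 ≤ n / 2 ≤ n`; (3)
`((n - 1) / 4 ^ (11 r) / 9 : ℕ) ≥ (n-1)/(9 n^β) - 2` as reals (two floors:
`Nat.div_div_eq_div_mul`, `Nat.lt_floor_add_one`-style estimate `(a / b : ℕ) ≥ a / b - 1`); (4)
`S = n - 1 - 4^(11 r) ≥ n - 1 - n ^ β > 0`, monotonicity of `· ^ α`; (5)
`(1/S) ^ (α ^ (j+1)) ≥ 1/2`: take logarithms: `α ^ (j+1) * log S ≤ log 2`, as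
`log S ≤ log n ≤ (Nat.log 2 n + 1) log 2` and `asymB` (`1 ≤ S ≤ n` by (2)). -/
theorem asym (α : ℝ) (h0 : 0 < α) (h1 : α < 1) :
    ∃ (r j : ℕ → ℕ) (N0 : ℕ), 3 ≤ N0 ∧ ∀ n, N0 ≤ n → 1 ≤ r n ∧ 2 * j n + 3 ≤ r n ∧
      4 ^ (11 * r n) + 2 ≤ n ∧
      (n : ℝ) ^ α ≤ (((n - 1) / 4 ^ (11 * r n) / 9 : ℕ) : ℝ) ∧
      (n : ℝ) ^ α ≤ ((n - 1 - 4 ^ (11 * r n) : ℕ) : ℝ) ^ α + 1 ∧
      (1 : ℝ) / 2 ≤ (1 / ((n - 1 - 4 ^ (11 * r n) : ℕ) : ℝ)) ^ (α ^ (j n + 1)) := by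
  obtain ⟨β, hβ⟩ : ∃ β : ℝ, β = (1 - α) / 2 := ⟨_, rfl⟩
  have hβ0 : 0 < β := by rw [hβ]; linarith
  obtain ⟨L0, hL0⟩ := Filter.eventually_atTop.mp (asymB α (β / 22) h0 h1 (by positivity))
  obtain ⟨N1, hN1⟩ := Filter.eventually_atTop.mp (asymA α h0 h1)
  refine ⟨fun n => ⌊β / 22 * (Nat.log 2 n : ℕ)⌋₊,
    fun n => (⌊β / 22 * (Nat.log 2 n : ℕ)⌋₊ - 3) / 2, max 3 (max N1 (2 ^ L0)),
    le_max_left _ _, fun n hn => ?_⟩
  have hn3 : 3 ≤ n := le_trans (le_max_left _ _) hn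
  have hnN1 : N1 ≤ n := le_trans (le_trans (le_max_left _ _) (le_max_right _ _)) hn
  have hnL : 2 ^ L0 ≤ n := le_trans (le_trans (le_max_right _ _) (le_max_right _ _)) hn
  obtain ⟨k1, k2, k3⟩ := hN1 n hnN1
  rw [← hβ] at k1 k2 k3
  obtain ⟨L, hL⟩ : ∃ L : ℕ, L = Nat.log 2 n := ⟨_, rfl⟩
  have hLL0 : L0 ≤ L := by
    rw [hL]
    exact Nat.le_log_of_pow_le (by norm_num) hnL
  obtain ⟨b1, b2⟩ := hL0 L hLL0
  obtain ⟨r, hr⟩ : ∃ r : ℕ, r = ⌊β / 22 * (L : ℝ)⌋₊ := ⟨_, rfl⟩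
  rw [← hr] at b1 b2
  simp only [← hL, ← hr]
  have hn0 : (0 : ℝ) < n := by
    have : 0 < n := by omega
    exact_mod_cast this
  have hn1 : (1 : ℝ) ≤ n := by
    have : 1 ≤ n := by omega
    exact_mod_cast this
  have hnb1 : 1 ≤ (n : ℝ) ^ β := Real.one_le_rpow hn1 hβ0.le
  have hLn : 2 ^ L ≤ n := by
    rw [hL]
    exact Nat.pow_log_le_self 2 (by omega)
  have hLn' : n < 2 ^ (L + 1) := by
    rw [hL]
    exact Nat.lt_pow_succ_log_self (by norm_num) n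
  obtain ⟨P, hP⟩ : ∃ P : ℕ, P = 4 ^ (11 * r) := ⟨_, rfl⟩
  have hP1 : 1 ≤ P := by
    rw [hP]
    exact Nat.one_le_pow _ _ (by norm_num)
  have hPb : (P : ℝ) ≤ (n : ℝ) ^ β := by
    have e1 : (P : ℝ) = (2 : ℝ) ^ ((22 * r : ℕ) : ℝ) := by
      rw [hP, Real.rpow_natCast]
      push_cast
      rw [show (4 : ℝ) = 2 ^ 2 by norm_num, ← pow_mul]
      congr 1
      ring
    have e2 : ((22 * r : ℕ) : ℝ) ≤ β * L := by
      have : (r : ℝ) ≤ β / 22 * L := by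
        rw [hr]
        exact Nat.floor_le (by positivity)
      push_cast
      linarith
    calc (P : ℝ) = (2 : ℝ) ^ ((22 * r : ℕ) : ℝ) := e1
      _ ≤ (2 : ℝ) ^ (β * L) := Real.rpow_le_rpow_of_exponent_le (by norm_num) e2
      _ = ((2 : ℝ) ^ L) ^ β := by
          rw [← Real.rpow_natCast, ← Real.rpow_mul (by norm_num), mul_comm]
      _ ≤ (n : ℝ) ^ β := by
          refine Real.rpow_le_rpow (by positivity) ?_ hβ0.le
          exact_mod_cast hLn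
  have h2 : P + 2 ≤ n := by
    have : (P : ℝ) + 2 ≤ n := by linarith
    exact_mod_cast this
  rw [← hP]
  have hS : ((n - 1 - P : ℕ) : ℝ) = (n : ℝ) - 1 - P := by
    rw [Nat.cast_sub (by omega), Nat.cast_sub (by omega)]
    simp
  have hP0 : (0 : ℝ) < P := by exact_mod_cast hP1
  refine ⟨by omega, by omega, h2, ?_, ?_, ?_⟩
  · refine k2.trans ?_
    have e1 : ((n : ℝ) - 1) / (9 * (n : ℝ) ^ β) ≤ ((n : ℝ) - 1) / (9 * P) := by
      refine div_le_div_of_nonneg_left (by linarith) (by positivity) ?_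
      linarith
    have e2 : ((n : ℝ) - 1) / (9 * P) < (((n - 1) / P / 9 : ℕ) : ℝ) + 1 := by
      rw [Nat.div_div_eq_div_mul, div_lt_iff₀ (by positivity)]
      have h3 : n - 1 < (P * 9) * ((n - 1) / (P * 9) + 1) := by
        have := Nat.lt_mul_div_succ (n - 1) (show 0 < P * 9 by omega)
        exact this
      have h4 : ((n - 1 : ℕ) : ℝ) < ((P * 9) * ((n - 1) / (P * 9) + 1) : ℕ) := by
        exact_mod_cast h3
      rw [Nat.cast_sub (by omega)] at h4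
      push_cast at h4 ⊢
      linarith
    linarith
  · refine k3.trans ?_
    have : ((n : ℝ) - 1 - (n : ℝ) ^ β) ^ α ≤ ((n - 1 - P : ℕ) : ℝ) ^ α := by
      rw [hS]
      refine Real.rpow_le_rpow (by linarith) (by linarith) h0.le
    linarith
  · have hS1 : 1 ≤ ((n - 1 - P : ℕ) : ℝ) := by
      have : 1 ≤ n - 1 - P := by omega
      exact_mod_cast this
    have hS0 : 0 < ((n - 1 - P : ℕ) : ℝ) := by linarith
    have hSn : ((n - 1 - P : ℕ) : ℝ) ≤ n := by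
      rw [hS]
      linarith
    have hlog : Real.log ((n - 1 - P : ℕ) : ℝ) ≤ ((L : ℝ) + 1) * Real.log 2 := by
      have : Real.log n ≤ Real.log ((2 : ℝ) ^ (L + 1)) := by
        refine Real.log_le_log hn0 ?_
        exact_mod_cast hLn'.le
      rw [Real.log_pow] at this
      push_cast at this
      exact (Real.log_le_log hS0 hSn).trans this
    have hlog0 : 0 ≤ Real.log ((n - 1 - P : ℕ) : ℝ) := Real.log_nonneg hS1
    have hl2 : 0 < Real.log 2 := Real.log_pos (by norm_num)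
    have hα : 0 < α ^ ((r - 3) / 2 + 1) := by positivity
    have hfin : α ^ ((r - 3) / 2 + 1) * Real.log ((n - 1 - P : ℕ) : ℝ) ≤ Real.log 2 := by
      calc α ^ ((r - 3) / 2 + 1) * Real.log ((n - 1 - P : ℕ) : ℝ)
          ≤ α ^ ((r - 3) / 2 + 1) * (((L : ℝ) + 1) * Real.log 2) :=
            mul_le_mul_of_nonneg_left hlog hα.le
        _ = (α ^ ((r - 3) / 2 + 1) * ((L : ℝ) + 1)) * Real.log 2 := by ring
        _ ≤ 1 * Real.log 2 := mul_le_mul_of_nonneg_right b2 hl2.le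
        _ = Real.log 2 := one_mul _
    have e3 : (1 : ℝ) / 2 = Real.exp (-Real.log 2) := by
      rw [Real.exp_neg, Real.exp_log (by norm_num)]
      norm_num
    rw [e3, Real.rpow_def_of_pos (by positivity), one_div, Real.log_inv]
    refine Real.exp_le_exp.mpr ?_
    rw [neg_mul, mul_comm]
    exact neg_le_neg hfin

end SDE
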