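import Mathlib

/-!
# SDE/AsymA
Powers for large `n`.
-/

namespace SDE

private theorem pow_ev (c s t : ℝ) (h : s < t) : ∀ᶠ n : ℕ in Filter.atTop,
    c * (n : ℝ) ^ s ≤ (n : ℝ) ^ t := by
  have h1 : Filter.Tendsto (fun n : ℕ => (n : ℝ) ^ (t - s)) Filter.atTop Filter.atTop :=
    (tendsto_rpow_atTop (by linarith)).comp tendsto_natCast_atTop_atTop
  filter_upwards [h1.eventually_ge_atTop c, Filter.eventually_ge_atTop 1] with n h2 h3
  have hn : (0 : ℝ) < n := by exact_mod_cast h3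
  calc c * (n : ℝ) ^ s ≤ (n : ℝ) ^ (t - s) * (n : ℝ) ^ s :=
        mul_le_mul_of_nonneg_right h2 (Real.rpow_nonneg hn.le _)
    _ = (n : ℝ) ^ t := by
        rw [← Real.rpow_add hn, sub_add_cancel]

/-- With `β = (1 - α) / 2`: three inequalities between powers for large `n`. Proof. `n ^ β = o(n)`
(`isLittleO_rpow_rpow` or `tendsto_rpow_neg_atTop`). Second:
`(n - 1) / (9 n ^ β) ≥ n ^ (1-β) / 18` and `1 - β = (1 + α) / 2 > α`, so
`n ^ (1-β) / 18 - 2 ≥ n ^ α` for large `n`. Third: put `S = n - 1 - n ^ β ≥ n / 2`; by Bernoulli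
(`Real.rpow_one_add_le_one_add_mul_self`)
`n ^ α = S ^ α (1 + (n - S)/S) ^ α ≤ S ^ α + α S ^ (α-1) (n - S)`, and
`S ^ (α-1) ≤ (n/2) ^ (α-1)`, `n - S = n ^ β + 1`, `(n/2) ^ (α-1) (n ^ β + 1) → 0` since
`α - 1 + β = (α-1)/2 < 0`. -/
theorem asymA (α : ℝ) (h0 : 0 < α) (h1 : α < 1) : ∀ᶠ n : ℕ in Filter.atTop,
    (n : ℝ) ^ ((1 - α) / 2) + 2 ≤ n / 2 ∧
    (n : ℝ) ^ α ≤ ((n : ℝ) - 1) / (9 * (n : ℝ) ^ ((1 - α) / 2)) - 2 ∧
    (n : ℝ) ^ α ≤ ((n : ℝ) - 1 - (n : ℝ) ^ ((1 - α) / 2)) ^ α + 1 := by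
  obtain ⟨β, hβ⟩ : ∃ β : ℝ, β = (1 - α) / 2 := ⟨_, rfl⟩
  have hβ0 : 0 < β := by
    rw [hβ]
    linarith
  rw [← hβ]
  filter_upwards [pow_ev 4 β 1 (by linarith), pow_ev 36 α (1 - β) (by linarith),
    pow_ev 72 0 (1 - β) (by linarith), pow_ev 4 β (1 - α) (by linarith),
    Filter.eventually_ge_atTop 8] with n k1 k2 k3 k4 hn
  have hn8 : (8 : ℝ) ≤ n := by exact_mod_cast hn
  have hn0 : (0 : ℝ) < n := by linarith
  rw [Real.rpow_one] at k1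
  rw [Real.rpow_zero, mul_one] at k3
  have hb0 : 0 < (n : ℝ) ^ β := Real.rpow_pos_of_pos hn0 _
  have hb1 : 1 ≤ (n : ℝ) ^ β := Real.one_le_rpow (by linarith) hβ0.le
  have ha0 : 0 < (n : ℝ) ^ α := Real.rpow_pos_of_pos hn0 _
  refine ⟨by linarith, ?_, ?_⟩
  · have e1 : (n : ℝ) ^ (1 - β) * (n : ℝ) ^ β = n := by
      rw [← Real.rpow_add hn0, sub_add_cancel, Real.rpow_one]
    have e2 : (n : ℝ) ^ (1 - β) / 18 ≤ ((n : ℝ) - 1) / (9 * (n : ℝ) ^ β) := by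
      rw [le_div_iff₀ (by positivity)]
      calc (n : ℝ) ^ (1 - β) / 18 * (9 * (n : ℝ) ^ β) = (n : ℝ) ^ (1 - β) * (n : ℝ) ^ β / 2 := by
            ring
        _ ≤ (n : ℝ) - 1 := by
            rw [e1]
            linarith
    linarith
  · obtain ⟨S, hS⟩ : ∃ S : ℝ, S = (n : ℝ) - 1 - (n : ℝ) ^ β := ⟨_, rfl⟩
    rw [← hS]
    have hS1 : (n : ℝ) / 2 ≤ S := by
      rw [hS]
      linarith
    have hS0 : 0 < S := by linarith
    have hx0 : 0 ≤ (n - S) / S := div_nonneg (by rw [hS]; linarith) hS0.le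
    have h2 : (1 + (n - S) / S) ^ α ≤ 1 + α * ((n - S) / S) :=
      rpow_one_add_le_one_add_mul_self (by linarith) h0.le h1.le
    have h3 : (n : ℝ) = S * (1 + (n - S) / S) := by
      field_simp
      ring
    have hSa : 0 < S ^ α := Real.rpow_pos_of_pos hS0 _
    have h4 : (n : ℝ) ^ α ≤ S ^ α + α * (S ^ (α - 1) * (n - S)) := by
      calc (n : ℝ) ^ α = (S * (1 + (n - S) / S)) ^ α := by rw [← h3]
        _ = S ^ α * (1 + (n - S) / S) ^ α := Real.mul_rpow hS0.le (by linarith)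
        _ ≤ S ^ α * (1 + α * ((n - S) / S)) := mul_le_mul_of_nonneg_left h2 hSa.le
        _ = S ^ α + α * (S ^ (α - 1) * (n - S)) := by
            rw [Real.rpow_sub_one hS0.ne']
            field_simp
    have h5 : S ^ (α - 1) ≤ ((n : ℝ) / 2) ^ (α - 1) :=
      Real.rpow_le_rpow_of_nonpos (by positivity) hS1 (by linarith)
    have h6 : ((n : ℝ) / 2) ^ (α - 1) ≤ 2 * (n : ℝ) ^ (α - 1) := by
      rw [Real.div_rpow hn0.le (by norm_num), div_eq_mul_inv, ← Real.rpow_neg (by norm_num),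
        mul_comm]
      refine mul_le_mul_of_nonneg_right ?_ (Real.rpow_nonneg hn0.le _)
      calc (2 : ℝ) ^ (-(α - 1)) ≤ (2 : ℝ) ^ (1 : ℝ) :=
            Real.rpow_le_rpow_of_exponent_le (by norm_num) (by linarith)
        _ = 2 := Real.rpow_one 2
    have h7 : (n : ℝ) - S ≤ 2 * (n : ℝ) ^ β := by
      rw [hS]
      linarith
    have h8 : 0 ≤ (n : ℝ) - S := by
      rw [hS]
      linarith
    have h9 : (n : ℝ) ^ (α - 1) * (n : ℝ) ^ (1 - α) = 1 := by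
      rw [← Real.rpow_add hn0, show α - 1 + (1 - α) = 0 by ring, Real.rpow_zero]
    have hq : 0 < (n : ℝ) ^ (α - 1) := Real.rpow_pos_of_pos hn0 _
    have h10 : S ^ (α - 1) * (n - S) ≤ 1 := by
      calc S ^ (α - 1) * (n - S) ≤ (2 * (n : ℝ) ^ (α - 1)) * (2 * (n : ℝ) ^ β) :=
            mul_le_mul (h5.trans h6) h7 h8 (by positivity)
        _ = (n : ℝ) ^ (α - 1) * (4 * (n : ℝ) ^ β) := by ring
        _ ≤ (n : ℝ) ^ (α - 1) * (n : ℝ) ^ (1 - α) := mul_le_mul_of_nonneg_left k4 hq.le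
        _ = 1 := h9
    have h11 : 0 ≤ S ^ (α - 1) * (n - S) := mul_nonneg (Real.rpow_nonneg hS0.le _) h8
    nlinarith

end SDE
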