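import Mathlib

/-!
# SDE/Few
A sequence without the pattern abab changes rarely.
-/

open Finset

namespace SDE

/-- Few changes. `z : ℕ → β` is a sequence (positions `0..N-1`), `S` a set of exceptional
positions, `h` a map to hubs which on non-exceptional positions takes values in `H` and has no
pattern `a b a b`. Then the number of bad positions (`i` or `i+1` exceptional, or `h` changes) is
at most `2 * S.card + 2 * H.card`. Proof. Positions with `i ∈ S` or `i+1 ∈ S`: at most
`2 * S.card`. For the other bad positions `i` (both `i, i+1 ∉ S`, `h i ≠ h (i+1)`): either no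
`k > i` (`k < N`, `k ∉ S`) has `h k = h i` (then `i` is the last position with value `h i`; at
most `H.card` such `i`, as `i ↦ h i` is injective on them), or no `j < i+1` (`j ∉ S`) has
`h j = h (i+1)` (first occurrence; again at most `H.card`); otherwise there are `j < i < i+1 < k`
(`j ≠ i` because `h i ≠ h (i+1)`, `k ≠ i+1` likewise) with `h j = h (i+1)`, `h k = h i`: pattern
`b a b a`, excluded by `hno`. -/
theorem few_changes {β : Type*} [DecidableEq β] (N : ℕ) (S : Finset ℕ) (H : Finset β) (h : ℕ → β)
    (hH : ∀ i < N, i ∉ S → h i ∈ H)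
    (hno : ∀ i j k l, i < j → j < k → k < l → l < N → i ∉ S → j ∉ S → k ∉ S → l ∉ S →
      h i = h k → h j = h l → h i = h j) :
    ((range (N - 1)).filter (fun i => i ∈ S ∨ i + 1 ∈ S ∨ h i ≠ h (i + 1))).card ≤
      2 * S.card + 2 * H.card := by
  classical
  set L : Finset ℕ := (range N).filter (fun i => i ∉ S ∧
    ∀ k, i < k → k < N → k ∉ S → h k ≠ h i) with hL
  set F : Finset ℕ := (range (N - 1)).filter (fun i => i + 1 ∉ S ∧
    ∀ j, j < i + 1 → j ∉ S → h j ≠ h (i + 1)) with hF
  have hsub : (range (N - 1)).filter (fun i => i ∈ S ∨ i + 1 ∈ S ∨ h i ≠ h (i + 1)) ⊆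
      (S ∪ S.image (fun x => x - 1)) ∪ (L ∪ F) := by
    intro i hi
    rw [mem_filter, mem_range] at hi
    obtain ⟨hiN, hi⟩ := hi
    by_cases h1 : i ∈ S
    · exact mem_union_left _ (mem_union_left _ h1)
    by_cases h2 : i + 1 ∈ S
    · exact mem_union_left _ (mem_union_right _ (mem_image.2 ⟨i + 1, h2, rfl⟩))
    have h3 : h i ≠ h (i + 1) := by
      rcases hi with hi | hi | hi
      · exact absurd hi h1
      · exact absurd hi h2
      · exact hi
    refine mem_union_right _ ?_
    by_contra hc
    rw [mem_union, not_or, hL, hF, mem_filter, mem_filter, mem_range, mem_range] at hc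
    obtain ⟨c1, c2⟩ := hc
    have d1 : ∃ k, i < k ∧ k < N ∧ k ∉ S ∧ h k = h i := by
      by_contra hc
      refine c1 ⟨by omega, h1, fun k k1 k2 k3 k4 => hc ⟨k, k1, k2, k3, k4⟩⟩
    have d2 : ∃ j, j < i + 1 ∧ j ∉ S ∧ h j = h (i + 1) := by
      by_contra hc
      refine c2 ⟨hiN, h2, fun j j1 j2 j3 => hc ⟨j, j1, j2, j3⟩⟩
    obtain ⟨k, k1, k2, k3, k4⟩ := d1
    obtain ⟨j, j1, j2, j3⟩ := d2
    have hji : j ≠ i := by
      rintro rfl
      exact h3 j3
    have hki : k ≠ i + 1 := by
      rintro rfl
      exact h3 k4.symm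
    have := hno j i (i + 1) k (by omega) (by omega) (by omega) k2 j2 h1 h2 k3 j3 k4.symm
    exact h3 (this.symm.trans j3)
  have hLc : L.card ≤ H.card := by
    refine card_le_card_of_injOn h ?_ ?_
    · intro i hi
      have hi' := mem_filter.1 (mem_coe.1 hi)
      exact mem_coe.2 (hH i (mem_range.1 hi'.1) hi'.2.1)
    · intro i hi i' hi' he
      have k1 := mem_filter.1 (mem_coe.1 hi)
      have k2 := mem_filter.1 (mem_coe.1 hi')
      rcases lt_trichotomy i i' with hlt | heq | hlt
      · exact absurd he.symm (k1.2.2 i' hlt (mem_range.1 k2.1) k2.2.1)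
      · exact heq
      · exact absurd he (k2.2.2 i hlt (mem_range.1 k1.1) k1.2.1)
  have hFc : F.card ≤ H.card := by
    refine card_le_card_of_injOn (fun i => h (i + 1)) ?_ ?_
    · intro i hi
      have hi' := mem_filter.1 (mem_coe.1 hi)
      have := mem_range.1 hi'.1
      exact mem_coe.2 (hH (i + 1) (by omega) hi'.2.1)
    · intro i hi i' hi' he
      have k1 := mem_filter.1 (mem_coe.1 hi)
      have k2 := mem_filter.1 (mem_coe.1 hi')
      have he' : h (i + 1) = h (i' + 1) := he
      rcases lt_trichotomy i i' with hlt | heq | hlt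
      · exact absurd he' (k2.2.2 (i + 1) (by omega) k1.2.1)
      · exact heq
      · exact absurd he'.symm (k1.2.2 (i' + 1) (by omega) k2.2.1)
  have e1 := card_le_card hsub
  have e2 := card_union_le (S ∪ S.image (fun x => x - 1)) (L ∪ F)
  have e3 := card_union_le S (S.image (fun x => x - 1))
  have e4 := card_union_le L F
  have e5 : (S.image (fun x => x - 1)).card ≤ S.card := card_image_le
  omega

end SDE
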