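import Mathlib

/-!
# SDE/Good
Blocks without bad positions.
-/

open Finset

namespace SDE

/-- Good blocks. If `bad` is a set of positions, then at least `N / G - bad.card` of the blocks
`[jG, jG+G)`, `j < N / G`, contain no bad position `i` with `jG ≤ i`, `i + 1 < jG + G`. Proof: a
non-good block `j` contains a bad position `i` with `i / G = j`; the map `bad → blocks`,
`i ↦ i / G` covers all non-good blocks. -/
theorem good_blocks (N G : ℕ) (hG : 0 < G) (bad : Finset ℕ) :
    N / G ≤ ((range (N / G)).filter
      (fun j => ∀ i ∈ bad, ¬ (j * G ≤ i ∧ i + 1 < j * G + G))).card + bad.card := by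
  have h1 : range (N / G) ⊆ ((range (N / G)).filter
      (fun j => ∀ i ∈ bad, ¬ (j * G ≤ i ∧ i + 1 < j * G + G))) ∪ bad.image (fun i => i / G) := by
    intro j hj
    by_cases h : ∀ i ∈ bad, ¬ (j * G ≤ i ∧ i + 1 < j * G + G)
    · exact mem_union_left _ (mem_filter.2 ⟨hj, h⟩)
    · push Not at h
      obtain ⟨i, hi, h2, h3⟩ := h
      refine mem_union_right _ (mem_image.2 ⟨i, hi, ?_⟩)
      refine Nat.div_eq_of_lt_le h2 ?_
      rw [Nat.succ_mul]
      omega
  have h2 := card_le_card h1
  have h3 := card_union_le ((range (N / G)).filter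
      (fun j => ∀ i ∈ bad, ¬ (j * G ≤ i ∧ i + 1 < j * G + G))) (bad.image (fun i => i / G))
  have h4 : (bad.image (fun i => i / G)).card ≤ bad.card := card_image_le
  rw [card_range] at h2
  omega

end SDE
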