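import Pool.Agent.SDE.AltS

/-!
# SDE/NoAbab
The hub map has no pattern abab.
-/

namespace SDE
namespace AbsDrawing

variable {V : Type*} (D : AbsDrawing V)

/-- **No abab.** `z1, z2, z3, z4` in the order of `th v`, hubs `a, b, a, b`, `a ≠ b`, none of the
`z`'s is `a` or `b`; the chords `z1 a`, `z3 a`, `z2 b`, `z4 b` do not alternate: impossible.
Proof: real numbers `th v _` of the six different points. If `th v a` is between `th v z2` and
`th v z4` then chord `z1 a` separates `z2` and `z4` (`btw v z1 a z2 = true`,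
`btw v z1 a z4 = false`), and `b` must be on the side of `z2` (`¬ Alt v z1 a z2 b`) and on the
side of `z4`: contradiction. Otherwise (`th v a < th v z2` or `th v z4 < th v a`) the chord `z3 a`
separates `z2` and `z4`. Pure case analysis on the order (`btw` unfolded); `th v` injective on
points `≠ v`. -/
theorem no_abab {v z1 z2 z3 z4 a b : V} (hav : a ≠ v) (hbv : b ≠ v) (h1v : z1 ≠ v) (h2v : z2 ≠ v)
    (h3v : z3 ≠ v) (h4v : z4 ≠ v) (h12 : D.th v z1 < D.th v z2) (h23 : D.th v z2 < D.th v z3)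
    (h34 : D.th v z3 < D.th v z4) (hab : a ≠ b)
    (ha : a ≠ z1 ∧ a ≠ z2 ∧ a ≠ z3 ∧ a ≠ z4) (hb : b ≠ z1 ∧ b ≠ z2 ∧ b ≠ z3 ∧ b ≠ z4)
    (n1 : ¬ D.Alt v z1 a z2 b) (n2 : ¬ D.Alt v z1 a z4 b)
    (n3 : ¬ D.Alt v z3 a z2 b) (n4 : ¬ D.Alt v z3 a z4 b) : False := by
  have hne : ∀ {x y : V}, D.th v x < D.th v y → x ≠ y := fun h e => by
    rw [e] at h
    exact lt_irrefl _ h
  have e1 : D.btw v z1 a z2 = D.btw v z1 a b := by
    by_contra hc
    exact n1 ⟨(hne h12).symm, ha.2.1.symm, hb.1, hab.symm, hc⟩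
  have e2 : D.btw v z1 a z4 = D.btw v z1 a b := by
    by_contra hc
    exact n2 ⟨(hne (h12.trans (h23.trans h34))).symm, ha.2.2.2.symm, hb.1, hab.symm, hc⟩
  have e3 : D.btw v z3 a z2 = D.btw v z3 a b := by
    by_contra hc
    exact n3 ⟨hne h23, ha.2.1.symm, hb.2.2.1, hab.symm, hc⟩
  have e4 : D.btw v z3 a z4 = D.btw v z3 a b := by
    by_contra hc
    exact n4 ⟨(hne h34).symm, ha.2.2.2.symm, hb.2.2.1, hab.symm, hc⟩
  have e5 := e1.trans e2.symm
  have e6 := e3.trans e4.symm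
  unfold btw at e5 e6
  rw [decide_eq_decide] at e5 e6
  have hb' := hbv
  have h1 := h1v
  have h3 := h3v
  have h4 := h4v
  have ha2 : D.th v a ≠ D.th v z2 := fun e => ha.2.1 (D.th_inj hav h2v e)
  have f1 : ¬ D.th v a < D.th v z2 := by
    intro h
    rcases e6.1 (Or.inr ⟨h, h23⟩) with ⟨-, h'⟩ | ⟨-, h'⟩
    · linarith
    · linarith
  have f2 : D.th v z2 < D.th v a := lt_of_le_of_ne (not_lt.1 f1) ha2.symm
  rcases e5.1 (Or.inl ⟨h12, f2⟩) with ⟨-, h'⟩ | ⟨-, h'⟩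
  · rcases e6.2 (Or.inl ⟨h34, h'⟩) with ⟨h'', -⟩ | ⟨h'', -⟩
    · linarith
    · linarith
  · linarith

end AbsDrawing
end SDE
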