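import Pool.Agent.SDE.Enm
import Pool.Agent.SDE.NoAbab
import Pool.Agent.SDE.Few
import Pool.Agent.SDE.Good

/-!
# SDE/BlkA
Most blocks of the enumeration are good.
-/

namespace SDE
namespace AbsDrawing

variable {V : Type*} [DecidableEq V] (D : AbsDrawing V)

/-- **Many good blocks.** `M, H, h` as in `hub`, `z` the enumeration of `X`, `q = X.card / G`. A
block `j < q` is good if all `z i`, `jG ≤ i < jG + G`, are not in `H` and have the same hub.
Proof. `S = {i < N | z i ∈ H}` has `S.card ≤ H.card` (`Enum.inj`) `≤ 2 * M.card`. Apply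
`few_changes` with `N = X.card`, `S`, `H` and `i ↦ h (z i)`: the pattern `a b a b` is excluded by
`no_abab` (hubs are in `H`, so different from the `z i`; `th` increasing by `Enum.mono`; the
hypothesis `hna` in both orders of the chords). So at most `8 * M.card` bad positions. By
`good_blocks` at least `q - 8 * M.card` blocks contain no bad position `i` with `jG ≤ i`,
`i + 1 < jG + G`. In such a block all `z i` are `∉ H` (every position is `i` or `i + 1` for a non
bad `i`, as `2 ≤ G`) and `h (z i)` is constant (induction along the block). -/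
theorem many_good {v : V} {X : Finset V} (hv : v ∉ X) {G : ℕ} (hG : 2 ≤ G) {z : ℕ → V}
    (hz : D.Enum v X z) {m : ℕ} {H : Finset V} {h : V → V} (hHX : H ⊆ X) (hHm : H.card ≤ 2 * m)
    (hh : ∀ y ∈ X, y ∉ H → h y ∈ H)
    (hna : ∀ y ∈ X, y ∉ H → ∀ y' ∈ X, y' ∉ H → ¬ D.Alt v y (h y) y' (h y')) :
    X.card / G ≤ ((Finset.range (X.card / G)).filter (fun j => ∀ i, j * G ≤ i → i < j * G + G →
      z i ∉ H ∧ h (z i) = h (z (j * G)))).card + 8 * m := by
  set S : Finset ℕ := (Finset.range X.card).filter (fun i => z i ∈ H) with hS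
  have hSm : ∀ i, i < X.card → (i ∉ S → z i ∉ H) := by
    intro i hi h1 h2
    exact h1 (Finset.mem_filter.2 ⟨Finset.mem_range.2 hi, h2⟩)
  have hScard : S.card ≤ H.card := by
    refine Finset.card_le_card_of_injOn z (fun i hi => (Finset.mem_filter.1 hi).2) ?_
    intro i hi j hj he
    exact hz.inj (Finset.mem_range.1 (Finset.mem_filter.1 hi).1)
      (Finset.mem_range.1 (Finset.mem_filter.1 hj).1) he
  have hHv : ∀ a ∈ H, a ≠ v := fun a ha hc => hv (hc ▸ hHX ha)
  have hzv : ∀ i, i < X.card → z i ≠ v := fun i hi hc => hv (hc ▸ hz.mem i hi)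
  have hfew := few_changes X.card S H (fun i => h (z i))
    (fun i hi h1 => hh _ (hz.mem i hi) (hSm i hi h1)) (by
      intro i j k l hij hjk hkl hl hiS hjS hkS hlS h1 h2
      by_contra hne
      have li : i < X.card := by omega
      have lj : j < X.card := by omega
      have lk : k < X.card := by omega
      have ni := hSm i li hiS
      have nj := hSm j lj hjS
      have nk := hSm k lk hkS
      have nl := hSm l hl hlS
      have hai : h (z i) ∈ H := hh _ (hz.mem i li) ni
      have hbj : h (z j) ∈ H := hh _ (hz.mem j lj) nj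
      have nn : ∀ a ∈ H, ∀ y, y ∉ H → a ≠ y := fun a ha y hy hc => hy (hc ▸ ha)
      have n1 := hna _ (hz.mem i li) ni _ (hz.mem j lj) nj
      have n2 := hna _ (hz.mem i li) ni _ (hz.mem l hl) nl
      have n3 := hna _ (hz.mem k lk) nk _ (hz.mem j lj) nj
      have n4 := hna _ (hz.mem k lk) nk _ (hz.mem l hl) nl
      rw [← h2] at n2 n4
      rw [← h1] at n3 n4
      exact D.no_abab (hHv _ hai) (hHv _ hbj) (hzv i li) (hzv j lj) (hzv k lk) (hzv l hl)
        (hz.mono i j hij lj) (hz.mono j k hjk lk) (hz.mono k l hkl hl) hne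
        ⟨nn _ hai _ ni, nn _ hai _ nj, nn _ hai _ nk, nn _ hai _ nl⟩
        ⟨nn _ hbj _ ni, nn _ hbj _ nj, nn _ hbj _ nk, nn _ hbj _ nl⟩ n1 n2 n3 n4)
  set bad : Finset ℕ := (Finset.range (X.card - 1)).filter
    (fun i => i ∈ S ∨ i + 1 ∈ S ∨ h (z i) ≠ h (z (i + 1))) with hbad
  have hfew' : bad.card ≤ 2 * S.card + 2 * H.card := hfew
  have hgb := good_blocks X.card G (by omega) bad
  have hsub : ((Finset.range (X.card / G)).filter
      (fun j => ∀ i ∈ bad, ¬ (j * G ≤ i ∧ i + 1 < j * G + G))).card ≤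
      ((Finset.range (X.card / G)).filter (fun j => ∀ i, j * G ≤ i → i < j * G + G →
      z i ∉ H ∧ h (z i) = h (z (j * G)))).card := by
    apply Finset.card_le_card
    intro j hj
    obtain ⟨hj1, hj2⟩ := Finset.mem_filter.1 hj
    refine Finset.mem_filter.2 ⟨hj1, ?_⟩
    have hj3 : j + 1 ≤ X.card / G := Finset.mem_range.1 hj1
    have hj4 : (j + 1) * G ≤ X.card :=
      (Nat.mul_le_mul_right G hj3).trans (Nat.div_mul_le_self _ _)
    rw [add_mul, one_mul] at hj4
    have hstep : ∀ i, j * G ≤ i → i + 1 < j * G + G →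
        i ∉ S ∧ i + 1 ∉ S ∧ h (z i) = h (z (i + 1)) := by
      intro i hi1 hi2
      have h1 : i ∉ bad := fun hc => hj2 i hc ⟨hi1, hi2⟩
      have h2 : i ∈ Finset.range (X.card - 1) := Finset.mem_range.2 (by omega)
      have h3 : ¬ (i ∈ S ∨ i + 1 ∈ S ∨ h (z i) ≠ h (z (i + 1))) := fun hc =>
        h1 (Finset.mem_filter.2 ⟨h2, hc⟩)
      refine ⟨fun hc => h3 (Or.inl hc), fun hc => h3 (Or.inr (Or.inl hc)), ?_⟩
      by_contra hc
      exact h3 (Or.inr (Or.inr hc))
    have key : ∀ t, t < G → z (j * G + t) ∉ H ∧ h (z (j * G + t)) = h (z (j * G)) := by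
      intro t
      induction t with
      | zero =>
        intro _
        exact ⟨hSm _ (by omega) (hstep (j * G) le_rfl (by omega)).1, rfl⟩
      | succ t ih =>
        intro ht
        obtain ⟨-, h2, h3⟩ := hstep (j * G + t) (by omega) (by omega)
        exact ⟨hSm _ (by omega) h2, h3.symm.trans (ih (by omega)).2⟩
    intro i hi1 hi2
    obtain ⟨t, rfl⟩ := Nat.exists_eq_add_of_le hi1
    exact key t (by omega)
  omega

end AbsDrawing
end SDE
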