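import Pool.Agent.SDE.Hub
import Pool.Agent.SDE.BlkA
import Pool.Agent.SDE.BlkB
import Pool.Agent.SDE.LemG
import Pool.Agent.SDE.WBlk

/-!
# SDE/Block
Either linearly many pairwise disjoint edges, or a W-block.
-/

namespace SDE
namespace AbsDrawing

variable {V : Type*} [DecidableEq V] (D : AbsDrawing V)

/-- **Block lemma.** Proof. `q = X.card / G`. `z` from `exists_enum`, `M, H, h` from `hub`. If
`q ≤ 9 * M.card`, then `M` has at least `q / 9` elements and a subset of size exactly `q / 9` is
an `IsPM` (`Finset.exists_subset_card_eq`). Otherwise `9 * M.card < q`. By `many_good` (with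
`m = M.card`) the set `Jg` of good blocks satisfies `q ≤ Jg.card + 8 * M.card`, so
`q ≤ 9 * Jg.card`. For a good block `j` put `w = h (z (j * G)) ∈ H`; `w ∈ X`, `w ≠ z i` for all
`i` in the block (`z i ∉ H`), `Unc v X (z i) w`. If for some good block `j` all pairs `s < t` of
positions of the block satisfy `cr (z s) (z t) v w = true`, then `fun i => z (j * G + i)` is a
`WBlock` (`out`: `Enum.out`). Otherwise choose for every good block `j` positions `s j < t j` in
the block with `cr (z (s j)) (z (t j)) v w = false`. For `u ∈ X` outside the block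
`cr (z (s j)) (z (t j)) v u = false`: if `u = w` this is the choice; else `lemG` with
`x = z (s j)`, `y = z (t j)` (both `btw` are `false` by `Enum.out`). `pairs_pm` with `J = Jg`
gives `Has X Jg.card`, and `q / 9 ≤ Jg.card`; pass to a subset. -/
theorem block {v : V} {X : Finset V} (hv : v ∉ X) (hX : 2 ≤ X.card) (G : ℕ) (hG : 2 ≤ G) :
    D.Has X (X.card / G / 9) ∨ ∃ (w : V) (z : ℕ → V), D.WBlock v w X G z := by
  classical
  obtain ⟨z, hz⟩ := D.exists_enum hv
  obtain ⟨M, H, h, hPM, hHX, hHc, hh, hna⟩ := D.hub hv hX
  have hGq : ∀ j, j < X.card / G → j * G + G ≤ X.card := by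
    intro j hj
    have h1 : (j + 1) * G ≤ X.card / G * G := Nat.mul_le_mul_right _ hj
    have h2 : X.card / G * G ≤ X.card := Nat.div_mul_le_self _ _
    have h3 : (j + 1) * G = j * G + G := by ring
    omega
  have hasLe : ∀ (P : Finset (V × V)) (k : ℕ), D.IsPM X P → k ≤ P.card → D.Has X k := by
    intro P k hP hk
    obtain ⟨Q, hQ, hQc⟩ := Finset.exists_subset_card_eq hk
    exact ⟨Q, ⟨fun p hp => hP.1 p (hQ hp),
      fun p hp r hr hne => hP.2 p (hQ hp) r (hQ hr) hne⟩, hQc⟩
  by_cases hM : X.card / G ≤ 9 * M.card
  · left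
    exact hasLe M _ hPM (by omega)
  · have hmg := D.many_good hv hG hz hHX hHc (fun y hy hyH => (hh y hy hyH).1) hna
    set Jg := ((Finset.range (X.card / G)).filter (fun j => ∀ i, j * G ≤ i → i < j * G + G →
      z i ∉ H ∧ h (z i) = h (z (j * G)))) with hJg
    have hJgc : X.card / G ≤ 9 * Jg.card := by omega
    have good : ∀ j ∈ Jg, j < X.card / G ∧ ∀ i, j * G ≤ i → i < j * G + G →
        z i ∉ H ∧ h (z i) = h (z (j * G)) := by
      intro j hj
      rw [hJg, Finset.mem_filter, Finset.mem_range] at hj
      exact hj
    -- facts about the hub of a good block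
    have memX : ∀ j ∈ Jg, ∀ i, j * G ≤ i → i < j * G + G → z i ∈ X := by
      intro j hj i _ hi2
      exact hz.mem i (lt_of_lt_of_le hi2 (hGq j (good j hj).1))
    have hubH : ∀ j ∈ Jg, h (z (j * G)) ∈ H := by
      intro j hj
      exact (hh _ (memX j hj _ le_rfl (by omega)) ((good j hj).2 _ le_rfl (by omega)).1).1
    have hubU : ∀ j ∈ Jg, ∀ i, j * G ≤ i → i < j * G + G →
        D.Unc v X (z i) (h (z (j * G))) := by
      intro j hj i hi1 hi2
      have h1 := (hh _ (memX j hj i hi1 hi2) ((good j hj).2 i hi1 hi2).1).2
      rw [((good j hj).2 i hi1 hi2).2] at h1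
      exact h1
    have hubne : ∀ j ∈ Jg, ∀ i, j * G ≤ i → i < j * G + G → h (z (j * G)) ≠ z i := by
      intro j hj i hi1 hi2 he
      exact ((good j hj).2 i hi1 hi2).1 (he ▸ hubH j hj)
    by_cases hex : ∃ j ∈ Jg, ∀ s t, j * G ≤ s → s < t → t < j * G + G →
        D.cr (z s) (z t) v (h (z (j * G))) = true
    · right
      obtain ⟨j, hj, hall⟩ := hex
      refine ⟨h (z (j * G)), fun i => z (j * G + i), ?_⟩
      exact
        { vX := hv
          wX := hHX (hubH j hj)
          mem := fun i hi => memX j hj _ (by omega) (by omega)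
          wz := fun i hi => hubne j hj _ (by omega) (by omega)
          mono := fun i k hik hk => hz.mono _ _ (by omega)
            (lt_of_lt_of_le (by omega) (hGq j (good j hj).1))
          hub := fun i hi => hubU j hj _ (by omega) (by omega)
          out := by
            intro i k hik hk u hu hout
            refine hz.out (a := j * G) (b := j * G + G) (by omega) (by omega) (by omega)
              (hGq j (good j hj).1) hu ?_
            intro l hl1 hl2
            have := hout (l - j * G) (by omega)
            rwa [Nat.add_sub_cancel' hl1] at this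
          W := fun i k hik hk => hall _ _ (by omega) (by omega) (by omega) }
    · left
      have hex2 : ∀ j : ℕ, ∃ s t : ℕ, j ∈ Jg → (j * G ≤ s ∧ s < t ∧ t < j * G + G ∧
          D.cr (z s) (z t) v (h (z (j * G))) = false) := by
        intro j
        by_cases hj : j ∈ Jg
        · by_contra hcon
          apply hex
          refine ⟨j, hj, fun s t hs hst ht => ?_⟩
          by_contra hc
          exact hcon ⟨s, t, fun _ => ⟨hs, hst, ht, by simpa using hc⟩⟩
        · exact ⟨0, 0, fun hj' => absurd hj' hj⟩
      choose s t hst using hex2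
      have hHas : D.Has X Jg.card := by
        refine D.pairs_pm hv hz Jg (fun j hj => (good j hj).1) s t
          (fun j hj => ⟨(hst j hj).1, (hst j hj).2.1, (hst j hj).2.2.1⟩) ?_
        intro j hj u hu hout
        obtain ⟨h1, h2, h3, h4⟩ := hst j hj
        by_cases huw : u = h (z (j * G))
        · rw [huw]; exact h4
        · have hwX : h (z (j * G)) ∈ X := hHX (hubH j hj)
          refine D.lemG hv (memX j hj _ h1 (by omega)) (memX j hj _ (by omega) h3) hwX hu
            (hubne j hj _ h1 (by omega)) (hubne j hj _ (by omega) h3) huw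
            (hubU j hj _ h1 (by omega)) (hubU j hj _ (by omega) h3) ?_ ?_ h4
          · exact hz.out (a := j * G) (b := j * G + G) h1 h2 h3 (hGq j (good j hj).1) hwX
              (fun k hk1 hk2 => hubne j hj k hk1 hk2)
          · exact hz.out (a := j * G) (b := j * G + G) h1 h2 h3 (hGq j (good j hj).1) hu hout
      obtain ⟨P, hP, hPc⟩ := hHas
      exact hasLe P _ hP (by omega)

end AbsDrawing
end SDE
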