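import Mathlib

/-!
# SDE/Rams
Ramsey's theorem for pairs with the bound `4 ^ m`.
-/

open Finset

namespace SDE

private theorem rams_aux (c : ℕ → ℕ → Bool) (k : ℕ) : ∀ A : Finset ℕ, 2 ^ k ≤ A.card →
    ∃ S : Finset ℕ, S ⊆ A ∧ S.card = k ∧ ∃ b : ℕ → Bool,
      ∀ i ∈ S, ∀ j ∈ S, i < j → c i j = b i := by
  induction k with
  | zero => exact fun A _ => ⟨∅, by simp, by simp, fun _ => true, by simp⟩
  | succ k ih =>
    intro A hA
    have hpos : 0 < 2 ^ k := Nat.two_pow_pos k
    rw [pow_succ] at hA
    have hne : A.Nonempty := card_pos.1 (by omega)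
    obtain ⟨x, hx⟩ : ∃ x, x = A.min' hne := ⟨_, rfl⟩
    have hxA : x ∈ A := by
      rw [hx]
      exact A.min'_mem hne
    have hmin : ∀ y ∈ A, x ≤ y := by
      intro y hy
      rw [hx]
      exact A.min'_le y hy
    have hcard : (A.erase x).card = A.card - 1 := card_erase_of_mem hxA
    have hsum := card_filter_add_card_filter_not (s := A.erase x) (fun y => c x y = true)
    have hcol : ∃ β : Bool, 2 ^ k ≤ ((A.erase x).filter fun y => c x y = β).card := by
      by_cases h1 : 2 ^ k ≤ ((A.erase x).filter fun y => c x y = true).card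
      · exact ⟨true, h1⟩
      · refine ⟨false, ?_⟩
        have h2 : ((A.erase x).filter fun y => ¬ c x y = true) =
            (A.erase x).filter fun y => c x y = false := by
          refine filter_congr fun y _ => ?_
          rw [Bool.not_eq_true]
        rw [h2] at hsum
        omega
    obtain ⟨β, hβ⟩ := hcol
    obtain ⟨S, hS, hSc, b, hb⟩ := ih _ hβ
    have hS' : ∀ y ∈ S, y ≠ x ∧ y ∈ A ∧ c x y = β := by
      intro y hy
      have h1 := mem_filter.1 (hS hy)
      have h2 := mem_erase.1 h1.1
      exact ⟨h2.1, h2.2, h1.2⟩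
    refine ⟨insert x S, ?_, ?_, fun i => if i = x then β else b i, ?_⟩
    · intro y hy
      rcases mem_insert.1 hy with rfl | hy
      · exact hxA
      · exact (hS' y hy).2.1
    · rw [card_insert_of_notMem fun h => (hS' x h).1 rfl, hSc]
    · intro i hi0 j hj0 hij
      beta_reduce
      rcases mem_insert.1 hi0 with hi | hi
      · rcases mem_insert.1 hj0 with hj | hj
        · rw [hi, hj] at hij
          exact absurd hij (lt_irrefl _)
        · rw [if_pos hi, hi]
          exact (hS' j hj).2.2
      · rw [if_neg (hS' i hi).1]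
        rcases mem_insert.1 hj0 with hj | hj
        · rw [hj] at hij
          exact absurd (hmin i (hS' i hi).2.1) (not_le.2 hij)
        · exact hb i hi j hj hij

/-- Ramsey's theorem for pairs, two colours, with the bound `4 ^ m`. Proof (halving): by induction
on `k` one shows: for every set `A` of natural numbers with `2 ^ k ≤ A.card` there are
`x 0 < ... < x (k-1)` in `A` and colours `b 0, ..., b (k-1)` with `c (x i) (x j) = b i` for all
`i < j < k`: take `x 0 = min A`, the larger colour class of `c (x 0)` in `A \ {x 0}` has at least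
`2 ^ (k-1)` elements if `2 ^ k ≤ A.card` (since `(2^k - 1)/2` rounded up is `2^(k-1)`, `k ≥ 1`).
With `k = 2 m` at least `m` of the `b i` are equal. -/
theorem ramsey_pairs (m : ℕ) (A : Finset ℕ) (hA : 4 ^ m ≤ A.card) (c : ℕ → ℕ → Bool) :
    ∃ (S : Finset ℕ) (β : Bool), S ⊆ A ∧ S.card = m ∧
      ∀ i ∈ S, ∀ j ∈ S, i < j → c i j = β := by
  have h4 : (4 : ℕ) ^ m = 2 ^ (2 * m) := by
    rw [pow_mul]
    norm_num
  rw [h4] at hA
  obtain ⟨S, hS, hSc, b, hb⟩ := rams_aux c (2 * m) A hA
  have hsum := card_filter_add_card_filter_not (s := S) (fun y => b y = true)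
  have hcol : ∃ β : Bool, m ≤ (S.filter fun y => b y = β).card := by
    by_cases h1 : m ≤ (S.filter fun y => b y = true).card
    · exact ⟨true, h1⟩
    · refine ⟨false, ?_⟩
      have h2 : (S.filter fun y => ¬ b y = true) = S.filter fun y => b y = false := by
        refine filter_congr fun y _ => ?_
        rw [Bool.not_eq_true]
      rw [h2] at hsum
      omega
  obtain ⟨β, hβ⟩ := hcol
  obtain ⟨T, hT, hTc⟩ := exists_subset_card_eq hβ
  refine ⟨T, β, fun y hy => hS (mem_filter.1 (hT hy)).1, hTc, fun i hi j hj hij => ?_⟩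
  have h1 := mem_filter.1 (hT hi)
  have h2 := mem_filter.1 (hT hj)
  rw [hb i h1.1 j h2.1 hij]
  exact h1.2

end SDE
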