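import Pool.Agent.SDE.Lab
import Pool.Agent.SDE.Rams

/-!
# SDE/Chain
Extraction of a homogeneous chain.
-/

namespace SDE
namespace AbsDrawing

variable {V : Type*} [DecidableEq V] {D : AbsDrawing V}

omit [DecidableEq V] in
private theorem Chain_btw_of_lt {v a b c : V} (h1 : D.th v a < D.th v b)
    (h2 : D.th v b < D.th v c) : D.btw v a c b = true := by
  unfold btw
  simp only [decide_eq_true_eq]
  exact Or.inl ⟨h1, h2⟩

omit [DecidableEq V] in
private theorem Chain_btw_out {v a b c : V} (h1 : D.th v a < D.th v b)
    (h2 : D.th v b < D.th v c) : D.btw v a b c = false := by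
  unfold btw
  simp only [decide_eq_false_iff_not]
  rintro (⟨_, h⟩ | ⟨_, h⟩) <;> linarith

omit [DecidableEq V] in
private theorem Chain_btw_out' {v a b c : V} (h1 : D.th v a < D.th v b)
    (h2 : D.th v b < D.th v c) : D.btw v b c a = false := by
  unfold btw
  simp only [decide_eq_false_iff_not]
  rintro (⟨h, _⟩ | ⟨h, _⟩) <;> linarith

/-- label equal for all middle elements -/
private theorem Chain_label {v w : V} {X : Finset V} {G : ℕ} {z : ℕ → V}
    (h : D.WBlock v w X G z) {i j k : ℕ} (hij : i < j) (hjk : j < k) (hk : k < G) :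
    D.cr (z i) (z j) v (z k) = D.cr (z i) (z (i + 1)) v (z k) := by
  rcases Nat.lt_or_ge (i + 1) j with h1 | h1
  · exact (h.lab (i := i) (j := i + 1) (j' := j) (k := k) (by omega) h1 hjk hk).symm
  · have : j = i + 1 := by omega
    rw [this]

/-- **Extraction of a homogeneous chain.** Proof. Apply `ramsey_pairs` to `A = range G` and the
colouring `c i k = D.cr (z i) (z (i+1)) v (z k)`: a set `S` of size `m` and a colour `β` with
`c i k = β` for `i < k` in `S`. For `i < j < k` in `S`: `D.cr (z i) (z j) v (z k) = c i k = β` (by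
`lab` if `j > i + 1`). Enumerate `S` increasingly as `s 0 < ... < s (m-1)`
(`Finset.orderEmbOfFin`). If `β = true` (label L) put `x i = z (s i)`; if `β = false` (label F,
i.e. `cr (z j) (z k) v (z i) = true` by `xor`) put `x i = z (s (m - 1 - i))`. All fields of
`TChain v U m x` with `U = X.filter (fun u => ∀ k < G, u ≠ z k)` follow: `btw1, btw2, btw3` from
`mono` (`btw` is symmetric in its two middle arguments, `btw_comm`), `btwU` from `out`,
`cr1, cr2, cr3` from the label, `mid` and `xor` (use `cr_swap`). -/
theorem WBlock.chain {v w : V} {X : Finset V} {G : ℕ} {z : ℕ → V} (h : D.WBlock v w X G z)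
    (m : ℕ) (hm : 4 ^ m ≤ G) :
    ∃ (x : ℕ → V), (∀ i, i < m → x i ∈ X) ∧
      D.TChain v (X.filter (fun u => ∀ k, k < G → u ≠ z k)) m x := by
  obtain ⟨S, β, hS, hSm, hc⟩ := ramsey_pairs m (Finset.range G) (by simpa using hm)
    (fun i k => D.cr (z i) (z (i + 1)) v (z k))
  have hSG : ∀ i ∈ S, i < G := fun i hi => Finset.mem_range.1 (hS hi)
  have hlab : ∀ i ∈ S, ∀ j ∈ S, ∀ k ∈ S, i < j → j < k → D.cr (z i) (z j) v (z k) = β := by
    intro i hi j _ k hk hij hjk
    rw [Chain_label h hij hjk (hSG k hk)]
    exact hc i hi k hk (by omega)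
  -- enumeration
  let e := S.orderEmbOfFin hSm
  let s : ℕ → ℕ := fun i => if hi : i < m then e ⟨i, hi⟩ else 0
  have hsS : ∀ i, i < m → s i ∈ S := by
    intro i hi
    simp only [s, hi, dif_pos]
    exact Finset.orderEmbOfFin_mem S hSm ⟨i, hi⟩
  have hsmono : ∀ i j, i < j → j < m → s i < s j := by
    intro i j hij hj
    have hi : i < m := by omega
    simp only [s, hi, hj, dif_pos]
    exact e.strictMono (by simpa using hij)
  have hsG : ∀ i, i < m → s i < G := fun i hi => hSG _ (hsS i hi)
  have hth : ∀ i j, i < j → j < m → D.th v (z (s i)) < D.th v (z (s j)) :=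
    fun i j hij hj => h.mono _ _ (hsmono i j hij hj) (hsG j hj)
  have hvz : ∀ i, i < G → z i ≠ v := fun i hi he => h.vX (he ▸ h.mem i hi)
  have hinj : ∀ i j, i < m → j < m → z (s i) = z (s j) → i = j := by
    intro i j hi hj he
    rcases lt_trichotomy i j with h1 | h1 | h1
    · have := hth i j h1 hj; rw [he] at this; exact absurd this (lt_irrefl _)
    · exact h1
    · have := hth j i h1 hi; rw [he] at this; exact absurd this (lt_irrefl _)
  have hnotU : ∀ i, i < G → z i ∉ X.filter (fun u => ∀ k, k < G → u ≠ z k) := by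
    intro i hi hmem
    exact (Finset.mem_filter.1 hmem).2 i hi rfl
  have hvU : v ∉ X.filter (fun u => ∀ k, k < G → u ≠ z k) := fun hmem =>
    h.vX (Finset.mem_filter.1 hmem).1
  have hout : ∀ i j, i < j → j < m → ∀ u ∈ X.filter (fun u => ∀ k, k < G → u ≠ z k),
      D.btw v (z (s i)) (z (s j)) u = false := by
    intro i j hij hj u hu
    exact h.out _ _ (hsmono i j hij hj) (hsG j hj) u (Finset.mem_filter.1 hu).1
      (Finset.mem_filter.1 hu).2
  have hL : ∀ i j k, i < j → j < k → k < m →
      D.cr (z (s i)) (z (s j)) v (z (s k)) = β := fun i j k hij hjk hk =>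
    hlab _ (hsS i (by omega)) _ (hsS j (by omega)) _ (hsS k hk) (hsmono i j hij (by omega))
      (hsmono j k hjk hk)
  have hM : ∀ i j k, i < j → j < k → k < m →
      D.cr (z (s i)) (z (s k)) v (z (s j)) = false := fun i j k hij hjk hk =>
    h.mid (hsmono i j hij (by omega)) (hsmono j k hjk hk) (hsG k hk)
  have hX' : ∀ i j k, i < j → j < k → k < m →
      D.cr (z (s j)) (z (s k)) v (z (s i)) = !β := fun i j k hij hjk hk => by
    rw [h.xor (hsmono i j hij (by omega)) (hsmono j k hjk hk) (hsG k hk), hL i j k hij hjk hk]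
  cases β with
  | true =>
    refine ⟨fun i => z (s i), fun i hi => h.mem _ (hsG i hi), ?_⟩
    exact {
      inj := hinj
      ne := fun i hi => hvz _ (hsG i hi)
      notU := fun i hi => hnotU _ (hsG i hi)
      vU := hvU
      btw1 := fun i j k hij hjk hk =>
        Chain_btw_of_lt (hth i j hij (by omega)) (hth j k hjk hk)
      btw2 := fun i j k hij hjk hk => Chain_btw_out (hth i j hij (by omega)) (hth j k hjk hk)
      btw3 := fun i j k hij hjk hk => Chain_btw_out' (hth i j hij (by omega)) (hth j k hjk hk)
      btwU := hout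
      cr1 := hL
      cr2 := hM
      cr3 := fun i j k hij hjk hk => by simpa using hX' i j k hij hjk hk }
  | false =>
    refine ⟨fun i => z (s (m - 1 - i)), fun i hi => h.mem _ (hsG _ (by omega)), ?_⟩
    exact {
      inj := fun i j hi hj he => by
        have := hinj (m - 1 - i) (m - 1 - j) (by omega) (by omega) he
        omega
      ne := fun i hi => hvz _ (hsG _ (by omega))
      notU := fun i hi => hnotU _ (hsG _ (by omega))
      vU := hvU
      btw1 := fun i j k hij hjk hk => by
        rw [D.btw_comm]
        exact Chain_btw_of_lt (hth (m - 1 - k) (m - 1 - j) (by omega) (by omega))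
          (hth (m - 1 - j) (m - 1 - i) (by omega) (by omega))
      btw2 := fun i j k hij hjk hk => by
        rw [D.btw_comm]
        exact Chain_btw_out' (hth (m - 1 - k) (m - 1 - j) (by omega) (by omega))
          (hth (m - 1 - j) (m - 1 - i) (by omega) (by omega))
      btw3 := fun i j k hij hjk hk => by
        rw [D.btw_comm]
        exact Chain_btw_out (hth (m - 1 - k) (m - 1 - j) (by omega) (by omega))
          (hth (m - 1 - j) (m - 1 - i) (by omega) (by omega))
      btwU := fun i j hij hj u hu => by
        rw [D.btw_comm]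
        exact hout (m - 1 - j) (m - 1 - i) (by omega) (by omega) u hu
      cr1 := fun i j k hij hjk hk => by
        rw [D.cr_swap]
        simpa using hX' (m - 1 - k) (m - 1 - j) (m - 1 - i) (by omega) (by omega) (by omega)
      cr2 := fun i j k hij hjk hk => by
        rw [D.cr_swap]
        exact hM (m - 1 - k) (m - 1 - j) (m - 1 - i) (by omega) (by omega) (by omega)
      cr3 := fun i j k hij hjk hk => by
        rw [D.cr_swap]
        exact hL (m - 1 - k) (m - 1 - j) (m - 1 - i) (by omega) (by omega) (by omega) }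

end AbsDrawing
end SDE
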