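import Pool.Agent.SDE.LemE

/-!
# SDE/Hub
A maximal matching inside the covering family, and the hub map.
-/

namespace SDE
namespace AbsDrawing

variable {V : Type*} [DecidableEq V] (D : AbsDrawing V)

/-- **Hub lemma.** Proof. Take `F` from `lemE`. Among all `M ⊆ F` such that different elements of
`M` have disjoint endpoint sets (`p.1 ≠ q.1, p.1 ≠ q.2, p.2 ≠ q.1, p.2 ≠ q.2`) take one of maximal
cardinality; `H = M.image Prod.fst ∪ M.image Prod.snd`. `IsPM`: for `p ≠ q ∈ M`,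
`cr p.1 p.2 q.1 q.2 = false` by `p5` with `(v,x,y) = (v,p.1,p.2)`, `a = q.1`, `c = q.2`:
`cr q.1 q.2 p.1 p.2 ^^ cr q.1 q.2 v p.1 ^^ cr q.1 q.2 v p.2 = side ^^ side`; the two middle terms
are `false` (`q` uncrossed, `p.1, p.2 ∈ X`), the `cr` parts of the sides are `false` (`p`
uncrossed) and the two `btw` agree because `p, q` do not alternate. For `z ∈ X \ H` there is `y`
with `(z,y) ∈ F` or `(y,z) ∈ F`; if `y ∉ H` the pair could be added to `M`; so `y ∈ H`; put
`h z = y`. Non-alternation of `z (h z)` and `z' (h z')`: the corresponding pairs are in `F` up to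
swapping the two entries; `Alt` does not change under swapping the entries of either chord
(`btw_comm`). `H.card ≤ 2 * M.card` is clear. -/
theorem hub {v : V} {X : Finset V} (hv : v ∉ X) (hX : 2 ≤ X.card) :
    ∃ (M : Finset (V × V)) (H : Finset V) (h : V → V), D.IsPM X M ∧ H ⊆ X ∧ H.card ≤ 2 * M.card ∧
      (∀ z ∈ X, z ∉ H → h z ∈ H ∧ D.Unc v X z (h z)) ∧
      (∀ z ∈ X, z ∉ H → ∀ z' ∈ X, z' ∉ H → ¬ D.Alt v z (h z) z' (h z')) := by
  classical
  obtain ⟨F, hF1, hF2, hF3⟩ := D.lemE hv hX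
  obtain ⟨Q, hQ⟩ : ∃ Q : Finset (V × V) → Prop, Q = fun M => ∀ p ∈ M, ∀ q ∈ M, p ≠ q →
    p.1 ≠ q.1 ∧ p.1 ≠ q.2 ∧ p.2 ≠ q.1 ∧ p.2 ≠ q.2 := ⟨_, rfl⟩
  have hne : (F.powerset.filter Q).Nonempty := by
    refine ⟨∅, ?_⟩
    rw [Finset.mem_filter, hQ]
    exact ⟨Finset.empty_mem_powerset F, fun p hp => absurd hp (Finset.notMem_empty p)⟩
  obtain ⟨M, hM, hmax⟩ := Finset.exists_max_image _ Finset.card hne
  rw [Finset.mem_filter, Finset.mem_powerset] at hM
  obtain ⟨hMF, hMQ⟩ := hM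
  have hMQ' : ∀ p ∈ M, ∀ q ∈ M, p ≠ q → p.1 ≠ q.1 ∧ p.1 ≠ q.2 ∧ p.2 ≠ q.1 ∧ p.2 ≠ q.2 := by
    rw [hQ] at hMQ
    exact hMQ
  obtain ⟨H, hH⟩ : ∃ H : Finset V, H = M.image Prod.fst ∪ M.image Prod.snd := ⟨_, rfl⟩
  have hH1 : ∀ p ∈ M, p.1 ∈ H := by
    intro p hp
    rw [hH]
    exact Finset.mem_union_left _ (Finset.mem_image_of_mem _ hp)
  have hH2 : ∀ p ∈ M, p.2 ∈ H := by
    intro p hp
    rw [hH]
    exact Finset.mem_union_right _ (Finset.mem_image_of_mem _ hp)
  have hvX : ∀ x ∈ X, v ≠ x := by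
    rintro x hx rfl
    exact hv hx
  -- a pair outside of `H` could be added
  have hadd : ∀ p ∈ F, p.1 ∉ H → p.2 ∉ H → False := by
    intro p hp h1 h2
    have hpM : p ∉ M := fun h => h1 (hH1 p h)
    have h3 : insert p M ∈ F.powerset.filter Q := by
      rw [Finset.mem_filter, Finset.mem_powerset, hQ]
      refine ⟨Finset.insert_subset hp hMF, ?_⟩
      intro a ha b hb hab
      rcases Finset.mem_insert.1 ha with rfl | ha2
      · rcases Finset.mem_insert.1 hb with rfl | hb2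
        · exact absurd rfl hab
        · refine ⟨?_, ?_, ?_, ?_⟩
          · intro e
            exact h1 (e ▸ hH1 b hb2)
          · intro e
            exact h1 (e ▸ hH2 b hb2)
          · intro e
            exact h2 (e ▸ hH1 b hb2)
          · intro e
            exact h2 (e ▸ hH2 b hb2)
      · rcases Finset.mem_insert.1 hb with rfl | hb2
        · refine ⟨?_, ?_, ?_, ?_⟩
          · intro e
            exact h1 (e ▸ hH1 a ha2)
          · intro e
            exact h2 (e ▸ hH1 a ha2)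
          · intro e
            exact h1 (e ▸ hH2 a ha2)
          · intro e
            exact h2 (e ▸ hH2 a ha2)
        · exact hMQ' a ha2 b hb2 hab
    have h4 := hmax _ h3
    rw [Finset.card_insert_of_notMem hpM] at h4
    omega
  have key : ∀ z, ∃ y, z ∈ X → z ∉ H → y ∈ H ∧ ((z, y) ∈ F ∨ (y, z) ∈ F) := by
    intro z
    by_cases hz : z ∈ X
    · obtain ⟨y, hy⟩ := hF3 z hz
      refine ⟨y, fun _ hzH => ⟨?_, hy⟩⟩
      by_contra hyH
      rcases hy with hy | hy
      · exact hadd _ hy hzH hyH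
      · exact hadd _ hy hyH hzH
    · exact ⟨z, fun h => absurd h hz⟩
  choose h hh using key
  refine ⟨M, H, h, ⟨?_, ?_⟩, ?_, ?_, ?_, ?_⟩
  · intro p hp
    have h1 := hF1 p (hMF hp)
    exact ⟨h1.1, h1.2.1, h1.2.2.1⟩
  · intro p hp q hq hpq
    obtain ⟨d1, d2, d3, d4⟩ := hMQ' p hp q hq hpq
    refine ⟨d1, d2, d3, d4, ?_⟩
    obtain ⟨p1, p2, p3, p4⟩ := hF1 p (hMF hp)
    obtain ⟨q1, q2, q3, q4⟩ := hF1 q (hMF hq)
    have e := D.p5 (hvX _ p1) (hvX _ p2) p3 (hvX _ q1).symm d1.symm d3.symm (hvX _ q2).symm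
      d2.symm d4.symm q3
    have e1 : D.cr q.1 q.2 v p.1 = false := q4 _ p1
    have e2 : D.cr q.1 q.2 v p.2 = false := q4 _ p2
    have e3 : D.cr p.1 p.2 v q.1 = false := p4 _ q1
    have e4 : D.cr p.1 p.2 v q.2 = false := p4 _ q2
    have e5 : D.btw v p.1 p.2 q.1 = D.btw v p.1 p.2 q.2 := by
      by_contra h5
      exact hF2 p (hMF hp) q (hMF hq) ⟨d1.symm, d3.symm, d2.symm, d4.symm, h5⟩
    unfold side at e
    rw [e1, e2, e3, e4, e5] at e
    simp only [Bool.xor_false, Bool.xor_self] at e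
    rw [← D.cr_comm]
    exact e
  · intro x hx
    rw [hH, Finset.mem_union, Finset.mem_image, Finset.mem_image] at hx
    rcases hx with ⟨p, hp, rfl⟩ | ⟨p, hp, rfl⟩
    · exact (hF1 p (hMF hp)).1
    · exact (hF1 p (hMF hp)).2.1
  · rw [hH]
    refine (Finset.card_union_le _ _).trans ?_
    have h1 := Finset.card_image_le (s := M) (f := Prod.fst)
    have h2 := Finset.card_image_le (s := M) (f := Prod.snd)
    omega
  · intro z hz hzH
    obtain ⟨h1, h2⟩ := hh z hz hzH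
    refine ⟨h1, ?_⟩
    rcases h2 with h2 | h2
    · exact (hF1 _ h2).2.2.2
    · exact ((hF1 _ h2).2.2.2).symm
  · intro z hz hzH z' hz' hzH' hA
    obtain ⟨-, h2⟩ := hh z hz hzH
    obtain ⟨-, h2'⟩ := hh z' hz' hzH'
    rcases h2 with h2 | h2
    · rcases h2' with h2' | h2'
      · exact hF2 _ h2 _ h2' hA
      · exact hF2 _ h2 _ h2' hA.swap2
    · rcases h2' with h2' | h2'
      · exact hF2 _ h2 _ h2' hA.swap1
      · exact hF2 _ h2 _ h2' hA.swap1.swap2

end AbsDrawing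
end SDE
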