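import Pool.Agent.SDE.LemT

/-!
# SDE/Lab
The label of a triple depends only on its outer elements.
-/

namespace SDE
namespace AbsDrawing

variable {V : Type*} [DecidableEq V] {D : AbsDrawing V}

theorem Lab_btw_false_right {v x y c : V} (h1 : D.th v x < D.th v y) (h2 : D.th v y < D.th v c) :
    D.btw v x y c = false := by
  unfold btw
  apply decide_eq_false
  rintro (⟨_, h⟩ | ⟨_, h⟩)
  · exact lt_asymm h h2
  · exact lt_asymm h (h1.trans h2)

theorem Lab_btw_false_left {v x y c : V} (h1 : D.th v x < D.th v y) (h2 : D.th v c < D.th v x) :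
    D.btw v x y c = false := by
  unfold btw
  apply decide_eq_false
  rintro (⟨h, _⟩ | ⟨h, _⟩)
  · exact lt_asymm h h2
  · exact lt_asymm h (h2.trans h1)

theorem Lab_btw_true {v x y c : V} (h1 : D.th v x < D.th v c) (h2 : D.th v c < D.th v y) :
    D.btw v x y c = true := by
  unfold btw
  exact decide_eq_true (Or.inl ⟨h1, h2⟩)

theorem WBlock.lab {v w : V} {X : Finset V} {G : ℕ} {z : ℕ → V} (h : D.WBlock v w X G z)
    {i j j' k : ℕ} (hij : i < j) (hjj : j < j') (hjk : j' < k) (hk : k < G) :
    D.cr (z i) (z j) v (z k) = D.cr (z i) (z j') v (z k) := by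
  have hj' : j' < G := hjk.trans hk
  have hj : j < G := hjj.trans hj'
  have hi : i < G := hij.trans hj
  have tij := h.mono i j hij hj
  have tjj := h.mono j j' hjj hj'
  have tjk := h.mono j' k hjk hk
  have vne : ∀ m, m < G → z m ≠ v := fun m hm e => h.vX (e ▸ h.mem m hm)
  have nab : z i ≠ z j := fun e => by rw [e] at tij; exact lt_irrefl _ tij
  have nbb : z j ≠ z j' := fun e => by rw [e] at tjj; exact lt_irrefl _ tjj
  have nbc : z j' ≠ z k := fun e => by rw [e] at tjk; exact lt_irrefl _ tjk
  have nab' : z i ≠ z j' := fun e => by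
    have := tij.trans tjj
    rw [e] at this; exact lt_irrefl _ this
  have nbk : z j ≠ z k := fun e => by
    have := tjj.trans tjk
    rw [e] at this; exact lt_irrefl _ this
  have nac : z i ≠ z k := fun e => by
    have := tij.trans (tjj.trans tjk)
    rw [e] at this; exact lt_irrefl _ this
  -- the data
  have x1 := h.xor hij (hjj.trans hjk) hk
  have x2 := h.xor (hij.trans hjj) hjk hk
  have x3 := h.xor hjj hjk hk
  have m1 := h.mid hjj hjk hk
  have m2 := h.mid hij hjj hj'
  have p1 := D.p5 (vne i hi).symm (vne j' hj').symm nab' (vne j hj) nab.symm nbb (vne k hk)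
    nac.symm nbc.symm nbk
  have p3 := D.p5 (vne i hi).symm (vne j hj).symm nab (vne j' hj') nab'.symm nbb.symm (vne k hk)
    nac.symm nbk.symm nbc
  have b1 : D.btw v (z i) (z j') (z j) = true := Lab_btw_true tij tjj
  have b2 : D.btw v (z i) (z j') (z k) = false := Lab_btw_false_right (tij.trans tjj) tjk
  have b3 : D.btw v (z i) (z j) (z j') = false := Lab_btw_false_right tij tjj
  have b4 : D.btw v (z i) (z j) (z k) = false := Lab_btw_false_right tij (tjj.trans tjk)
  have b5 : D.btw v (z j') (z k) (z i) = false := Lab_btw_false_left tjk (tij.trans tjj)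
  unfold side at p1 p3
  rw [x1, m1, b1, b2, m2] at p1
  rw [x2, b3, b4] at p3
  by_contra hne
  -- step 1
  have s1 : D.cr (z j) (z k) (z i) (z j') = true := by
    revert p1 hne
    cases D.cr (z j) (z k) (z i) (z j') <;> cases D.cr (z i) (z j) v (z k) <;>
      cases D.cr (z i) (z j') v (z k) <;> simp
  -- step 2
  have s2 : D.cr (z i) (z j) (z j') (z k) = false := by
    apply D.S2
    rw [D.cr_comm]
    exact s1
  have s2' : D.cr (z j') (z k) (z i) (z j) = false := by rw [D.cr_comm]; exact s2
  rw [s2'] at p3
  rcases hL : D.cr (z i) (z j) v (z k) with _ | _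
  · -- case (ii)
    have hL' : D.cr (z i) (z j') v (z k) = true := by
      rcases hq : D.cr (z i) (z j') v (z k) with _ | _
      · exact absurd (hL.trans hq.symm) hne
      · rfl
    rcases hM : D.cr (z i) (z j) v (z j') with _ | _
    · have w1 := h.wcr hi hj hj' hij.ne (hij.trans hjj).ne hjj.ne b3
      have w2 := h.wcr hi hj hk hij.ne (hij.trans (hjj.trans hjk)).ne (hjj.trans hjk).ne b4
      have w3 := h.wcr hj' hk hi hjk.ne (hij.trans hjj).ne' (hij.trans (hjj.trans hjk)).ne' b5
      rw [hM] at w1
      rw [hL] at w2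
      rw [x2, hL'] at w3
      have e := D.S3 (v := w) (x := z i) (y := z j) (u := z j') (w := z k)
        (by rw [D.cr_comm]; exact w1) (by rw [D.cr_comm]; exact w2)
        (by rw [D.cr_comm]; exact w3)
      rw [s2] at e
      exact Bool.false_ne_true e
    · have o1 := (h.ordL hij hjj hj' hM).1
      have o2 := (h.ordL (hij.trans hjj) hjk hk hL').1
      have o3 := (h.ordF hij (hjj.trans hjk) hk hL).1
      exact lt_irrefl _ (o1.trans (o2.trans o3))
  · -- case (i)
    have hL' : D.cr (z i) (z j') v (z k) = false := by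
      rcases hq : D.cr (z i) (z j') v (z k) with _ | _
      · rfl
      · exact absurd (hL.trans hq.symm) hne
    rcases hM : D.cr (z i) (z j) v (z j') with _ | _
    · have hN : D.cr (z j) (z j') v (z k) = true := by
        rw [x3, hL, hL', hM] at p3
        revert p3
        cases D.cr (z j) (z j') v (z k) <;> simp
      have o1 := (h.ordL hjj hjk hk hN).2
      have o2 := (h.ordL hij (hjj.trans hjk) hk hL).2
      have o3 := (h.ordF (hij.trans hjj) hjk hk hL').2
      exact lt_irrefl _ (o1.trans (o3.trans o2))
    · have e := D.S3 (v := v) (x := z i) (y := z j) (u := z j') (w := z k) hM hL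
        (by rw [x2, hL']; rfl)
      rw [s2] at e
      exact Bool.false_ne_true e

end AbsDrawing
end SDE
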