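import Pool.Agent.SDE.Abs

/-!
# SDE/LemB
Lemma B and the pocket lemma D: applications of the sides rule `D.p4`.
-/

namespace SDE
namespace AbsDrawing

variable {V : Type*} (D : AbsDrawing V)

private theorem lemB1 {v z z' w q : V} (hqv : q ≠ v) (hqz : q ≠ z) (hqz' : q ≠ z')
    (hb : D.btw v z z' w = D.btw v z z' q)
    (h1 : D.cr z z' v w = true) (h2 : D.cr z z' v q = false) : D.cr z w v q = false := by
  rcases hc : D.cr z w v q with _ | _
  · rfl
  · exfalso
    obtain ⟨hzz', hzv, hzw, hz'v, hz'w, hvw⟩ := D.cr_ne h1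
    have e0 : D.cr w z q v = true := by rw [D.cr_swap, D.cr_swap']; exact hc
    have e1 : D.cr q v z z' = false := by rw [D.cr_comm z z' q v, D.cr_swap']; exact h2
    have e2 : D.cr z w z' v = false := D.S2 (by rw [D.cr_swap']; exact h1)
    have e3 : D.cr w z v z' = false := by rw [D.cr_swap, D.cr_swap']; exact e2
    have h := D.p4 (Ne.symm hzv) (Ne.symm hz'v) hzz' (Ne.symm hvw) (Ne.symm hzw) (Ne.symm hz'w)
      hqv hqz hqz' e0 (D.cr_self4 q v z) (D.cr_self4 q v z') e1
    unfold bef side at h
    rw [D.cr_self5 w z v, e3, D.cr_self4 w z z', h1, h2, hb] at h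
    simp at h

/-- **Lemma B.** Proof. From `cr_ne h1`: `z, z', v, w` are distinct. First conclusion: by
contradiction assume `cr z w v q = true`. Use `p4` with `(v, x, y) = (v, z, z')`, `a = w`,
`b = z`, `c = q`, `d = v`, i.e. `e = wz`, `g = qv`. Needed: `cr w z q v = true` (symmetries
`cr_swap`, `cr_swap'`), `cr q v v z = false`, `cr q v v z' = false` (common vertex, `cr_self4`),
`cr q v z z' = false` (= `h2`, symmetries). The three `bef` terms are `false`:
`cr w z v z = false` (common vertex), `cr w z z z' = false` (common vertex) and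
`cr w z v z' = false` by the K4 rule `S2` applied to `h1` (the pairs `zz' | vw` and `zw | vz'`).
So `p4` says `false = side v z z' w ^^ side v z z' q`, and `side v z z' w = btw.. ^^ true`,
`side v z z' q = btw.. ^^ false` with the same `btw` (`hb`): contradiction. Second conclusion: the
same with `z` and `z'` exchanged (`btw_comm`). -/
theorem lemB {v z z' w q : V} (hqv : q ≠ v) (hqz : q ≠ z) (hqz' : q ≠ z')
    (hqw : q ≠ w) (hb : D.btw v z z' w = D.btw v z z' q)
    (h1 : D.cr z z' v w = true) (h2 : D.cr z z' v q = false) :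
    D.cr z w v q = false ∧ D.cr z' w v q = false := by
  refine ⟨lemB1 D hqv hqz hqz' hb h1 h2, lemB1 D hqv hqz' hqz ?_ ?_ ?_⟩
  · rw [D.btw_comm, D.btw_comm v z z' q]
    exact hb
  · rw [D.cr_swap]
    exact h1
  · rw [D.cr_swap]
    exact h2

/-- **Lemma D** (pocket lemma). Proof. By contradiction assume `cr z y v w = true` (so
`z, y, v, w` are distinct). Use `p4` with `(v, x, y) = (v, p, q)`, `a = z`, `b = y`, `c = w`,
`d = v`, i.e. `e = zy`, `g = wv`. `g` misses the triangle: `cr w v v p = false`,
`cr w v v q = false` (common vertex) and `cr w v p q = cr p q v w = false` (`hw`). The `bef`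
terms: `cr z y v p = false` (`h1`), `cr z y v q = false` (`h2`), and `cr z y p q = false`: if
`y = p` or `y = q` common vertex; otherwise by `p5` with `(v,x,y) = (v,p,q)`, `a = z`, `c = y`:
`cr z y p q ^^ false ^^ false = side z ^^ side y`, where both sides are `btw v p q z ^^ false`
resp. `btw v p q y ^^ false` (`hz`, `hy2`), equal by `hy`. So `p4` gives
`false = side v p q z ^^ side v p q w = btw v p q z ^^ btw v p q w`, contradicting `hb`. -/
theorem lemD {v p q z y w : V} (hpq : p ≠ q) (hvp : v ≠ p) (hvq : v ≠ q) (hzp : z ≠ p) (hzq : z ≠ q)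
    (hwp : w ≠ p) (hwq : w ≠ q)
    (hz : D.cr p q v z = false) (hw : D.cr p q v w = false)
    (hy : y = p ∨ y = q ∨ (D.btw v p q y = D.btw v p q z ∧ D.cr p q v y = false))
    (hb : D.btw v p q z ≠ D.btw v p q w)
    (h1 : D.cr z y v p = false) (h2 : D.cr z y v q = false) :
    D.cr z y v w = false := by
  rcases hc : D.cr z y v w with _ | _
  · rfl
  · exfalso
    obtain ⟨hzy, hzv, hzw, hyv, hyw, hvw⟩ := D.cr_ne hc
    have e0 : D.cr z y w v = true := by rw [D.cr_swap']; exact hc
    have e1 : D.cr w v p q = false := by rw [D.cr_comm p q w v, D.cr_swap']; exact hw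
    have e2 : D.cr z y p q = false := by
      by_cases hyp : y = p
      · rw [hyp]
        exact D.cr_self4 z p q
      by_cases hyq : y = q
      · rw [hyq]
        exact D.cr_self5 z q p
      rcases hy with hy | hy | ⟨hy1, hy2⟩
      · exact absurd hy hyp
      · exact absurd hy hyq
      · have h := D.p5 hvp hvq hpq hzv hzp hzq hyv hyp hyq hzy
        unfold side at h
        rw [h1, h2, hz, hy2, hy1] at h
        simpa using h
    have h := D.p4 hvp hvq hpq hzv hzp hzq (Ne.symm hvw) hwp hwq e0 (D.cr_self4 w v p)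
      (D.cr_self4 w v q) e1
    unfold bef side at h
    rw [h1, h2, e2, hz, hw] at h
    apply hb
    simpa using h

end AbsDrawing
end SDE
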