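import Pool.Agent.SDE.LemB
import Pool.Agent.SDE.AdjEx

/-!
# SDE/LemC
Every element of `Y` is joined to some other element of `Y` by an edge which no edge `vq`,
`q ∈ Y`, crosses.
-/

namespace SDE
namespace AbsDrawing

variable {V : Type*} [DecidableEq V] (D : AbsDrawing V)

/-- **Lemma C.** Proof by strong induction on `|Y|` (for all `z`). If `|Y| = 2`, `Y = {z, w}` and
`cr z w v q = false` for `q = z, w` (common vertex). Let `|Y| ≥ 3` and take `z', z''` from
`adj_exists`. For a neighbour `a` of `z` put `J a = {q ∈ Y | cr z a v q = true}` (it contains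
neither `z` nor `a`). Claim 1: if `J a = ∅` we are done with `w = a`. Claim 2: if `J a ≠ ∅` and
`Y' := insert z (insert a (J a)) ≠ Y` then we are done: `|Y'| < |Y|`, so by induction there is
`w ∈ Y'`, `w ≠ z`, with `Unc v Y' z w`. `w ≠ a` since some `q ∈ J a ⊆ Y'` has `cr z a v q = true`.
So `w ∈ J a`. For `q ∈ Y \ Y'`: `cr z a v q = false`, and `lemB` (with `z' := a`;
`btw v z a w = btw v z a q` by `Adj`) gives `cr z w v q = false`. Hence `Unc v Y z w`. So we are
done unless for both neighbours `a = z', z''`: `J a ≠ ∅` and `insert z (insert a (J a)) = Y`. But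
then `z'' ∈ J z'` (because `z'' ≠ z, z'`), i.e. `cr z z' v z'' = true`, and `z' ∈ J z''`, i.e.
`cr z z'' v z' = true`; this contradicts the K4 rule `S2` (pairs `zz' | vz''` and `zz'' | vz'` of
the four vertices `z, z', z'', v`). -/
theorem lemC {v : V} : ∀ (n : ℕ) (Y : Finset V), Y.card = n → v ∉ Y → 2 ≤ Y.card → ∀ z ∈ Y,
    ∃ w ∈ Y, w ≠ z ∧ D.Unc v Y z w := by
  intro n
  induction n using Nat.strong_induction_on with
  | _ n ih =>
  intro Y hn hv h2 z hz
  rcases Nat.lt_or_ge Y.card 3 with h3 | h3
  · have hc : Y.card = 2 := by omega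
    obtain ⟨a, b, hab, hY⟩ := Finset.card_eq_two.1 hc
    obtain ⟨w, hw, hwz, hYw⟩ : ∃ w ∈ Y, w ≠ z ∧ ∀ q ∈ Y, q = z ∨ q = w := by
      subst hY
      rcases Finset.mem_insert.1 hz with rfl | hz'
      · exact ⟨b, by simp, hab.symm, fun q hq => by simpa using hq⟩
      · rw [Finset.mem_singleton] at hz'
        subst hz'
        refine ⟨a, by simp, hab, fun q hq => ?_⟩
        rcases Finset.mem_insert.1 hq with h | h
        · exact Or.inr h
        · exact Or.inl (Finset.mem_singleton.1 h)
    refine ⟨w, hw, hwz, fun q hq => ?_⟩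
    rcases hYw q hq with rfl | rfl
    · exact D.cr_self3 _ _ _
    · exact D.cr_self5 _ _ _
  · obtain ⟨z', z'', hne, ha', ha''⟩ := D.adj_exists hv h3 hz
    have key : ∀ a, D.Adj v Y z a → (∃ w ∈ Y, w ≠ z ∧ D.Unc v Y z w) ∨
        ∀ q ∈ Y, q ≠ z → q ≠ a → D.cr z a v q = true := by
      intro a ha
      by_cases hall : ∀ q ∈ Y, q ≠ z → q ≠ a → D.cr z a v q = true
      · exact Or.inr hall
      refine Or.inl ?_
      push Not at hall
      obtain ⟨q0, hq0, hq0z, hq0a, hq0c⟩ := hall
      by_cases hJ : ∀ q ∈ Y, D.cr z a v q = false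
      · exact ⟨a, ha.2.2.1, ha.1.symm, hJ⟩
      push Not at hJ
      obtain ⟨q1, hq1, hq1c⟩ := hJ
      have hq1c' : D.cr z a v q1 = true := by
        rcases h : D.cr z a v q1 with _ | _
        · exact absurd h hq1c
        · rfl
      obtain ⟨Y', hY'⟩ : ∃ Y' : Finset V, ∀ q, q ∈ Y' ↔
          q = z ∨ q = a ∨ (q ∈ Y ∧ D.cr z a v q = true) :=
        ⟨insert z (insert a (Y.filter fun q => D.cr z a v q = true)), fun q => by simp⟩
      have hsub : Y' ⊆ Y := by
        intro q hq
        rcases (hY' q).1 hq with rfl | rfl | h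
        · exact hz
        · exact ha.2.2.1
        · exact h.1
      have hlt : Y'.card < Y.card := by
        refine Finset.card_lt_card ⟨hsub, fun h => ?_⟩
        rcases (hY' q0).1 (h hq0) with h | h | h
        · exact hq0z h
        · exact hq0a h
        · exact hq0c h.2
      have hzY' : z ∈ Y' := (hY' z).2 (Or.inl rfl)
      have haY' : a ∈ Y' := (hY' a).2 (Or.inr (Or.inl rfl))
      have h2' : 2 ≤ Y'.card := by
        have h : ({z, a} : Finset V) ⊆ Y' := by
          intro q hq
          rcases Finset.mem_insert.1 hq with rfl | h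
          · exact hzY'
          · rw [Finset.mem_singleton.1 h]
            exact haY'
        have h' := Finset.card_le_card h
        rwa [Finset.card_pair ha.1] at h'
      obtain ⟨w, hw, hwz, hunc⟩ := ih Y'.card (hn ▸ hlt) Y' rfl (fun h => hv (hsub h)) h2' z hzY'
      have hwa : w ≠ a := by
        rintro rfl
        have h := hunc q1 ((hY' q1).2 (Or.inr (Or.inr ⟨hq1, hq1c'⟩)))
        rw [hq1c'] at h
        exact absurd h (by decide)
      have hwc : D.cr z a v w = true := by
        rcases (hY' w).1 hw with h | h | h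
        · exact absurd h hwz
        · exact absurd h hwa
        · exact h.2
      refine ⟨w, hsub hw, hwz, fun q hq => ?_⟩
      by_cases hqY' : q ∈ Y'
      · exact hunc q hqY'
      · have hqz : q ≠ z := fun h => hqY' ((hY' q).2 (Or.inl h))
        have hqa : q ≠ a := fun h => hqY' ((hY' q).2 (Or.inr (Or.inl h)))
        have hqw : q ≠ w := fun h => hqY' (h ▸ hw)
        have hqv : q ≠ v := fun h => hv (h ▸ hq)
        have hqc : D.cr z a v q = false := by
          rcases h : D.cr z a v q with _ | _
          · rfl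
          · exact absurd ((hY' q).2 (Or.inr (Or.inr ⟨hq, h⟩))) hqY'
        exact (D.lemB hqv hqz hqa hqw
          (ha.2.2.2 w (hsub hw) q hq hwz hwa hqz hqa) hwc hqc).1
    rcases key z' ha' with h | h
    · exact h
    rcases key z'' ha'' with h' | h'
    · exact h'
    have h4 := h z'' ha''.2.2.1 ha''.1.symm hne.symm
    have h5 := h' z' ha'.2.2.1 ha'.1.symm hne
    rw [← D.cr_swap'] at h4
    have h6 := D.S2 h4
    rw [D.cr_swap'] at h6
    rw [h6] at h5
    exact absurd h5 (by decide)

end AbsDrawing
end SDE
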