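import Pool.Agent.SDE.AltS

/-!
# SDE/SepMax
The extremal separating chord.
-/

namespace SDE
namespace AbsDrawing

private def SepMax_P (x y c : ℝ) : Prop := (x < c ∧ c < y) ∨ (y < c ∧ c < x)

private theorem SepMax_comm {x y c : ℝ} : SepMax_P x y c ↔ SepMax_P y x c := or_comm

private theorem SepMax_lt {x y c : ℝ} (h : x < y) : SepMax_P x y c ↔ x < c ∧ c < y := by
  unfold SepMax_P
  constructor
  · rintro (h1 | h1)
    · exact h1
    · linarith [h1.1, h1.2]
  · exact Or.inl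

private theorem SepMax_k1 {A B C D Z Q : ℝ} (hCD : C < D)
    (hZC : Z ≠ C) (hZD : Z ≠ D) (hAC : A ≠ C) (hAD : A ≠ D) (hQB : Q ≠ B)
    (h1 : ¬ (SepMax_P C D Z ↔ SepMax_P C D A))
    (h2 : B = C ∨ B = D ∨ (SepMax_P C D A ↔ SepMax_P C D B))
    (h3 : ¬ (SepMax_P A B Q ↔ SepMax_P A B Z)) :
    Q ≠ C ∧ Q ≠ D ∧ ¬ (SepMax_P C D Q ↔ SepMax_P C D Z) := by
  rw [SepMax_lt hCD, SepMax_lt hCD] at *
  by_cases hZ : C < Z ∧ Z < D
  · have hA : ¬ (C < A ∧ A < D) := fun h => h1 ⟨fun _ => h, fun _ => hZ⟩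
    have hB : B ≤ C ∨ D ≤ B := by
      rcases h2 with h | h | h
      · exact Or.inl h.le
      · exact Or.inr h.ge
      · by_contra hc
        push Not at hc
        exact hA (h.2 hc)
    have hA' : A < C ∨ D < A := by
      by_contra hc
      push Not at hc
      exact hA ⟨lt_of_le_of_ne hc.1 hAC.symm, lt_of_le_of_ne hc.2 hAD⟩
    have key : Q < C ∨ D < Q := by
      rcases hA' with h | h <;> rcases hB with h' | h'
      · have h4 : ¬ SepMax_P A B Z := by
          rintro (⟨h5, h6⟩ | ⟨h5, h6⟩) <;> linarith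
        have h5 : SepMax_P A B Q := by
          by_contra hc
          exact h3 ⟨fun h => absurd h hc, fun h => absurd h h4⟩
        rcases h5 with ⟨h6, h7⟩ | ⟨h6, h7⟩
        · left; linarith
        · left; linarith
      · have h4 : SepMax_P A B Z := Or.inl ⟨by linarith [hZ.1], by linarith [hZ.2]⟩
        have h5 : ¬ SepMax_P A B Q := fun h => h3 ⟨fun _ => h4, fun _ => h⟩
        by_contra hc
        push Not at hc
        exact h5 (Or.inl ⟨by linarith, lt_of_le_of_ne (by linarith) hQB⟩)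
      · have h4 : SepMax_P A B Z := Or.inr ⟨by linarith [hZ.1], by linarith [hZ.2]⟩
        have h5 : ¬ SepMax_P A B Q := fun h => h3 ⟨fun _ => h4, fun _ => h⟩
        by_contra hc
        push Not at hc
        exact h5 (Or.inr ⟨lt_of_le_of_ne (by linarith) hQB.symm, by linarith⟩)
      · have h4 : ¬ SepMax_P A B Z := by
          rintro (⟨h5, h6⟩ | ⟨h5, h6⟩) <;> linarith
        have h5 : SepMax_P A B Q := by
          by_contra hc
          exact h3 ⟨fun h => absurd h hc, fun h => absurd h h4⟩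
        rcases h5 with ⟨h6, h7⟩ | ⟨h6, h7⟩
        · right; linarith
        · right; linarith
    refine ⟨?_, ?_, ?_⟩
    · rcases key with h | h <;> intro h' <;> linarith
    · rcases key with h | h <;> intro h' <;> linarith
    · intro h
      have h4 := h.2 hZ
      rcases key with h5 | h5 <;> linarith [h4.1, h4.2]
  · have hA : C < A ∧ A < D := by
      by_contra hc
      exact h1 ⟨fun h => absurd h hZ, fun h => absurd h hc⟩
    have hB : C ≤ B ∧ B ≤ D := by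
      rcases h2 with h | h | h
      · exact ⟨h.ge, by linarith⟩
      · exact ⟨by linarith, h.le⟩
      · exact ⟨(h.1 hA).1.le, (h.1 hA).2.le⟩
    have hZ' : Z < C ∨ D < Z := by
      by_contra hc
      push Not at hc
      exact hZ ⟨lt_of_le_of_ne hc.1 hZC.symm, lt_of_le_of_ne hc.2 hZD⟩
    have h4 : ¬ SepMax_P A B Z := by
      rintro (⟨h5, h6⟩ | ⟨h5, h6⟩) <;> rcases hZ' with h | h <;>
        linarith [hA.1, hA.2, hB.1, hB.2]
    have h5 : SepMax_P A B Q := by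
      by_contra hc
      exact h3 ⟨fun h => absurd h hc, fun h => absurd h h4⟩
    have h6 : C < Q ∧ Q < D := by
      rcases h5 with ⟨h6, h7⟩ | ⟨h6, h7⟩
      · exact ⟨by linarith [hA.1], by linarith [hB.2]⟩
      · exact ⟨by linarith [hB.1], by linarith [hA.2]⟩
    exact ⟨h6.1.ne', h6.2.ne, fun h => hZ (h.1 h6)⟩

private theorem SepMax_k2 {A B C D Z Q : ℝ} (hCD : C ≠ D)
    (hZC : Z ≠ C) (hZD : Z ≠ D) (hAC : A ≠ C) (hAD : A ≠ D) (hQB : Q ≠ B)
    (h1 : ¬ (SepMax_P C D Z ↔ SepMax_P C D A))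
    (h2 : B = C ∨ B = D ∨ (SepMax_P C D A ↔ SepMax_P C D B))
    (h3 : ¬ (SepMax_P A B Q ↔ SepMax_P A B Z)) :
    Q ≠ C ∧ Q ≠ D ∧ ¬ (SepMax_P C D Q ↔ SepMax_P C D Z) := by
  rcases lt_or_gt_of_ne hCD with h | h
  · exact SepMax_k1 h hZC hZD hAC hAD hQB h1 h2 h3
  · simp only [SepMax_comm (x := C) (y := D)] at h1 h2 ⊢
    obtain ⟨k1, k2, k3⟩ := SepMax_k1 h hZD hZC hAD hAC hQB h1
      (by rcases h2 with h2 | h2 | h2
          · exact Or.inr (Or.inl h2)
          · exact Or.inl h2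
          · exact Or.inr (Or.inr h2)) h3
    exact ⟨k2, k1, k3⟩

private theorem SepMax_btw {V : Type*} (D : AbsDrawing V) (v x y c c' : V) :
    D.btw v x y c = D.btw v x y c' ↔
      (SepMax_P (D.th v x) (D.th v y) (D.th v c) ↔
        SepMax_P (D.th v x) (D.th v y) (D.th v c')) := by
  unfold btw
  exact decide_eq_decide

private theorem SepMax_key {V : Type*} (D : AbsDrawing V) {v a b c d z q : V} (ha : a ≠ v)
    (hb : b ≠ v) (hc : c ≠ v) (hd : d ≠ v) (hz : z ≠ v) (hq : q ≠ v) (hcd : c ≠ d)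
    (h1 : D.Alt v c d z a) (h2 : ¬ D.Alt v c d a b) (hqb : q ≠ b)
    (h5 : D.btw v a b q ≠ D.btw v a b z) :
    q ≠ c ∧ q ≠ d ∧ D.btw v c d q ≠ D.btw v c d z := by
  obtain ⟨hzc, hzd, hac, had, h6⟩ := h1
  have hth : ∀ {x y : V}, x ≠ v → y ≠ v → x ≠ y → D.th v x ≠ D.th v y :=
    fun hx hy hxy h => hxy (D.th_inj hx hy h)
  rw [Ne, SepMax_btw] at h6 h5
  have h3 : D.th v b = D.th v c ∨ D.th v b = D.th v d ∨
      (SepMax_P (D.th v c) (D.th v d) (D.th v a) ↔
        SepMax_P (D.th v c) (D.th v d) (D.th v b)) := by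
    by_cases hbc : b = c
    · left; rw [hbc]
    · by_cases hbd : b = d
      · right; left; rw [hbd]
      · right; right
        rw [← SepMax_btw]
        by_contra hne
        exact h2 ⟨hac, had, hbc, hbd, hne⟩
  obtain ⟨k1, k2, k3⟩ := SepMax_k2 (hth hc hd hcd) (hth hz hc hzc) (hth hz hd hzd)
    (hth ha hc hac) (hth ha hd had) (hth hq hb hqb) h6 h3 h5
  refine ⟨fun h => k1 (by rw [h]), fun h => k2 (by rw [h]), ?_⟩
  rw [Ne, SepMax_btw]
  exact k3

variable {V : Type*} [DecidableEq V] (D : AbsDrawing V)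

/-- **Extremal separating chord.** `F` is a family of pairwise non alternating chords of `X`,
`z ∈ X` lies on none of them, `w ∈ X` is separated from `z` by some chord of `F`. Then some
separating chord `p` of `F` has both ends visible from `z`: no chord of `F` alternates with
`z p.1` or `z p.2`. Proof. Among all `p ∈ F` with `Alt v p.1 p.2 z w` choose one for which the
number of points `q ∈ X` on the side of `w`,
`#{q ∈ X | q ≠ p.1, q ≠ p.2, btw v p.1 p.2 q = btw v p.1 p.2 w}`, is maximal. Suppose `r ∈ F` has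
`Alt v r.1 r.2 z p.1`. Since `r` and `p` do not alternate, `p.2` is on the same closed side of `r`
as `p.1` (`p.2 ∈ {r.1, r.2}` or `btw v r.1 r.2 p.2 = btw v r.1 r.2 p.1`), so the whole `w`-side of
`p` and the point `p.1` are on the side of `r` opposite to `z` (the side of `p` which contains `z`
contains also the ends of `r` different from `p.1, p.2`): `r` separates `z` and `w` and has a
strictly larger `w`-side (it contains `p.1`): contradiction to the choice. The same for `p.2`.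
(These are statements about the order of at most six different real numbers `th v _`; a brute
force case analysis works, e.g. first prove a lemma for seven real numbers with `omega`-like case
splitting.) -/
theorem sep_max {v : V} {X : Finset V} (hv : v ∉ X) {F : Finset (V × V)}
    (hF1 : ∀ p ∈ F, p.1 ∈ X ∧ p.2 ∈ X ∧ p.1 ≠ p.2)
    (hF2 : ∀ p ∈ F, ∀ q ∈ F, ¬ D.Alt v p.1 p.2 q.1 q.2)
    {z w : V} (hz : z ∈ X) (hw : w ∈ X) (hzF : ∀ p ∈ F, z ≠ p.1 ∧ z ≠ p.2)
    (hs : ∃ p ∈ F, D.Alt v p.1 p.2 z w) :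
    ∃ p ∈ F, D.Alt v p.1 p.2 z w ∧ (∀ r ∈ F, ¬ D.Alt v r.1 r.2 z p.1) ∧
      ∀ r ∈ F, ¬ D.Alt v r.1 r.2 z p.2 := by
  classical
  have hX : ∀ q ∈ X, q ≠ v := fun q hq h => hv (h ▸ hq)
  have hbool : ∀ x y z : Bool, x ≠ z → y ≠ z → x = y := by decide
  set W : V × V → ℕ := fun p => (X.filter fun q => q ≠ p.1 ∧ q ≠ p.2 ∧
    D.btw v p.1 p.2 q = D.btw v p.1 p.2 w).card with hW
  obtain ⟨p, hp, hmax⟩ := (F.filter fun p => D.Alt v p.1 p.2 z w).exists_max_image W (by
    obtain ⟨p, hp, h⟩ := hs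
    exact ⟨p, Finset.mem_filter.2 ⟨hp, h⟩⟩)
  rw [Finset.mem_filter] at hp
  obtain ⟨hpF, hpA⟩ := hp
  have claim : ∀ a b : V, a ∈ X → b ∈ X → D.Alt v a b z w →
      (∀ q, q ≠ p.1 → q ≠ p.2 → D.btw v p.1 p.2 q = D.btw v p.1 p.2 w →
        q ≠ a ∧ q ≠ b ∧ D.btw v a b q = D.btw v a b w) →
      (∀ r ∈ F, ¬ D.Alt v r.1 r.2 a b) → (a = p.1 ∨ a = p.2) →
      ∀ r ∈ F, ¬ D.Alt v r.1 r.2 z a := by
    intro a b ha hb hab hq hr1 hap r hr hA
    obtain ⟨hc, hd, hcd⟩ := hF1 r hr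
    obtain ⟨hza, hzb, hwa, hwb, h1⟩ := hab
    have key : ∀ q ∈ X, q ≠ b → D.btw v a b q ≠ D.btw v a b z →
        q ≠ r.1 ∧ q ≠ r.2 ∧ D.btw v r.1 r.2 q ≠ D.btw v r.1 r.2 z := fun q hqX h2 h3 =>
      SepMax_key D (hX a ha) (hX b hb) (hX _ hc) (hX _ hd) (hX z hz) (hX q hqX) hcd hA
        (hr1 r hr) h2 h3
    obtain ⟨k1, k2, k3⟩ := key w hw hwb (Ne.symm h1)
    have h2 : r ∈ F.filter fun p => D.Alt v p.1 p.2 z w :=
      Finset.mem_filter.2 ⟨hr, (hzF r hr).1, (hzF r hr).2, k1, k2, Ne.symm k3⟩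
    have h3 := hmax r h2
    refine absurd h3 (not_le.2 (Finset.card_lt_card ?_))
    rw [Finset.ssubset_iff_of_subset]
    · refine ⟨a, Finset.mem_filter.2 ⟨ha, hA.2.2.1, hA.2.2.2.1, ?_⟩, ?_⟩
      · exact hbool _ _ _ (Ne.symm hA.2.2.2.2) k3
      · rw [Finset.mem_filter]
        rintro ⟨_, h4, h5, _⟩
        rcases hap with h6 | h6
        · exact h4 h6
        · exact h5 h6
    · intro q hq'
      rw [Finset.mem_filter] at hq' ⊢
      obtain ⟨h4, h5, h6⟩ := hq q hq'.2.1 hq'.2.2.1 hq'.2.2.2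
      obtain ⟨h7, h8, h9⟩ := key q hq'.1 h5 (by rw [h6]; exact Ne.symm h1)
      exact ⟨hq'.1, h7, h8, hbool _ _ _ h9 k3⟩
  obtain ⟨hpa, hpb, hpab⟩ := hF1 p hpF
  refine ⟨p, hpF, hpA, ?_, ?_⟩
  · exact claim p.1 p.2 hpa hpb hpA (fun q h1 h2 h3 => ⟨h1, h2, h3⟩)
      (fun r hr => hF2 r hr p hpF) (Or.inl rfl)
  · refine claim p.2 p.1 hpb hpa (Alt.swap1 hpA) (fun q h1 h2 h3 => ⟨h2, h1, ?_⟩)
      (fun r hr h => hF2 r hr p hpF (Alt.swap2 h)) (Or.inr rfl)
    rw [D.btw_comm v p.1 p.2 q, D.btw_comm v p.1 p.2 w]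
    exact h3

end AbsDrawing
end SDE
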