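import Pool.Agent.SDE.LemC
import Pool.Agent.SDE.SepMax

/-!
# SDE/LemE
A family of uncrossed, pairwise non alternating chords which covers `X`.
-/

namespace SDE
namespace AbsDrawing

variable {V : Type*} [DecidableEq V] (D : AbsDrawing V)

/-- **Lemma E.** There is a family `F` of chords of `X`, not crossed by the star of `v`, pairwise
non alternating, which covers `X`. Proof: choose a family `F ⊆ X ×ˢ X` with properties (1) and (2)
of maximal cardinality (e.g. among the members of `(X ×ˢ X).powerset`). Suppose `z ∈ X` is on no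
chord of `F`. Put `Y = {y ∈ X | y = z ∨ ∀ p ∈ F, ¬ Alt v p.1 p.2 z y}`. `|Y| ≥ 2`: a neighbour
`z'` of `z` in the cyclic order of `X` (`adj_exists` if `|X| ≥ 3`; if `|X| = 2` the other element,
then no chord alternates with anything in `X`) is in `Y`, because a chord `p` of `F` alternating
with `z z'` would (by `Alt.symm`) have `btw v z z' p.1 ≠ btw v z z' p.2`. By `lemC` there is
`y ∈ Y`, `y ≠ z`, `Unc v Y z y`. Claim: `Unc v X z y`. Let `w ∈ X`, `w ∉ Y`; so `w ≠ z` and some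
`p ∈ F` alternates with `z w`. Take `p` from `sep_max`; then `p.1 ∈ Y` and `p.2 ∈ Y`. Now `lemD`
with `p := p.1, q := p.2` gives `cr z y v w = false`: `cr z y v p.1 = false`,
`cr z y v p.2 = false` because `p.1, p.2 ∈ Y` and `Unc v Y z y`;
`y = p.1 ∨ y = p.2 ∨ (btw v p.1 p.2 y = btw v p.1 p.2 z ∧ ..)` because `y ∈ Y` (`p` does not
alternate with `z y`); the chords of `F` are uncrossed. So `insert (z, y) F` is a larger family
with (1) and (2) (use `Alt.symm`): contradiction. -/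
theorem lemE {v : V} {X : Finset V} (hv : v ∉ X) (hX : 2 ≤ X.card) :
    ∃ F : Finset (V × V),
      (∀ p ∈ F, p.1 ∈ X ∧ p.2 ∈ X ∧ p.1 ≠ p.2 ∧ D.Unc v X p.1 p.2) ∧
      (∀ p ∈ F, ∀ q ∈ F, ¬ D.Alt v p.1 p.2 q.1 q.2) ∧
      (∀ z ∈ X, ∃ y, (z, y) ∈ F ∨ (y, z) ∈ F) := by
  classical
  obtain ⟨F, hF, hmax⟩ := Finset.exists_max_image
    (((X ×ˢ X).powerset).filter fun F : Finset (V × V) =>
      (∀ p ∈ F, p.1 ∈ X ∧ p.2 ∈ X ∧ p.1 ≠ p.2 ∧ D.Unc v X p.1 p.2) ∧
        ∀ p ∈ F, ∀ q ∈ F, ¬ D.Alt v p.1 p.2 q.1 q.2) Finset.card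
    ⟨∅, by simp⟩
  rw [Finset.mem_filter, Finset.mem_powerset] at hF
  obtain ⟨hFX, hF1, hF2⟩ := hF
  refine ⟨F, hF1, hF2, fun z hz => ?_⟩
  by_contra hcov
  push Not at hcov
  have hne : ∀ {x : V}, x ∈ X → x ≠ v := fun hx h => hv (h ▸ hx)
  have hzF : ∀ p ∈ F, z ≠ p.1 ∧ z ≠ p.2 := by
    intro p hp
    refine ⟨fun h => (hcov p.2).1 ?_, fun h => (hcov p.1).2 ?_⟩
    · rw [h]
      exact hp
    · rw [h]
      exact hp
  set Y : Finset V := X.filter fun y => y = z ∨ ∀ p ∈ F, ¬ D.Alt v p.1 p.2 z y with hY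
  have hYX : Y ⊆ X := Finset.filter_subset _ _
  have hzY : z ∈ Y := Finset.mem_filter.2 ⟨hz, Or.inl rfl⟩
  have hY2 : 2 ≤ Y.card := by
    have h1 : ∃ z' ∈ Y, z' ≠ z := by
      rcases Nat.lt_or_ge X.card 3 with h3 | h3
      · obtain ⟨z', hz', hne'⟩ := Finset.exists_mem_ne (s := X) (by omega) z
        refine ⟨z', Finset.mem_filter.2 ⟨hz', Or.inr fun p hp ha => ?_⟩, hne'⟩
        have h4 : 2 < X.card := Finset.two_lt_card.2
          ⟨z, hz, z', hz', p.1, (hF1 p hp).1, hne'.symm, ha.1, ha.2.2.1⟩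
        omega
      · obtain ⟨z', -, -, hadj, -⟩ := D.adj_exists hv h3 hz
        refine ⟨z', Finset.mem_filter.2 ⟨hadj.2.2.1, Or.inr fun p hp ha => ?_⟩, hadj.1.symm⟩
        have h4 := Alt.symm (hne (hF1 p hp).1) (hne (hF1 p hp).2.1) (hne hz) (hne hadj.2.2.1) ha
        exact h4.2.2.2.2 (hadj.2.2.2 p.1 (hF1 p hp).1 p.2 (hF1 p hp).2.1 h4.1 h4.2.1 h4.2.2.1
          h4.2.2.2.1)
    obtain ⟨z', hz', hne'⟩ := h1
    exact Finset.one_lt_card.2 ⟨z', hz', z, hzY, hne'⟩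
  obtain ⟨y, hyY, hyz, hunc⟩ := D.lemC Y.card Y rfl (fun h => hv (hYX h)) hY2 z hzY
  have hyX : y ∈ X := hYX hyY
  have hyA : ∀ p ∈ F, ¬ D.Alt v p.1 p.2 z y := by
    rcases (Finset.mem_filter.1 hyY).2 with h | h
    · exact absurd h hyz
    · exact h
  have huncX : D.Unc v X z y := by
    intro w hw
    by_cases hwY : w ∈ Y
    · exact hunc w hwY
    · have h1 : ∃ p ∈ F, D.Alt v p.1 p.2 z w := by
        by_contra hcon
        push Not at hcon
        exact hwY (Finset.mem_filter.2 ⟨hw, Or.inr hcon⟩)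
      obtain ⟨p, hp, ha, hr1, hr2⟩ := D.sep_max hv
        (fun p hp => ⟨(hF1 p hp).1, (hF1 p hp).2.1, (hF1 p hp).2.2.1⟩) hF2 hz hw hzF h1
      obtain ⟨hp1, hp2, hp12, hpu⟩ := hF1 p hp
      have hp1Y : p.1 ∈ Y := Finset.mem_filter.2 ⟨hp1, Or.inr hr1⟩
      have hp2Y : p.2 ∈ Y := Finset.mem_filter.2 ⟨hp2, Or.inr hr2⟩
      refine D.lemD hp12 (hne hp1).symm (hne hp2).symm ha.1 ha.2.1 ha.2.2.1 ha.2.2.2.1
        (hpu z hz) (hpu w hw) ?_ ha.2.2.2.2 (hunc p.1 hp1Y) (hunc p.2 hp2Y)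
      by_cases h2 : y = p.1
      · exact Or.inl h2
      by_cases h3 : y = p.2
      · exact Or.inr (Or.inl h3)
      refine Or.inr (Or.inr ⟨?_, hpu y hyX⟩)
      by_contra h4
      exact hyA p hp ⟨ha.1, ha.2.1, h2, h3, fun h5 => h4 h5.symm⟩
  have hnew : insert (z, y) F ∈ ((X ×ˢ X).powerset).filter fun F : Finset (V × V) =>
      (∀ p ∈ F, p.1 ∈ X ∧ p.2 ∈ X ∧ p.1 ≠ p.2 ∧ D.Unc v X p.1 p.2) ∧
        ∀ p ∈ F, ∀ q ∈ F, ¬ D.Alt v p.1 p.2 q.1 q.2 := by
    rw [Finset.mem_filter, Finset.mem_powerset]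
    refine ⟨?_, ?_, ?_⟩
    · intro p hp
      rcases Finset.mem_insert.1 hp with rfl | hp
      · exact Finset.mem_product.2 ⟨hz, hyX⟩
      · exact hFX hp
    · intro p hp
      rcases Finset.mem_insert.1 hp with rfl | hp
      · exact ⟨hz, hyX, hyz.symm, huncX⟩
      · exact hF1 p hp
    · intro p hp q hq
      rcases Finset.mem_insert.1 hp with rfl | hp
      · rcases Finset.mem_insert.1 hq with rfl | hq
        · exact fun ha => ha.1 rfl
        · intro ha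
          exact hyA q hq (Alt.symm (hne hz) (hne hyX) (hne (hF1 q hq).1) (hne (hF1 q hq).2.1) ha)
      · rcases Finset.mem_insert.1 hq with rfl | hq
        · exact hyA p hp
        · exact hF2 p hp q hq
  have h1 := hmax _ hnew
  rw [Finset.card_insert_of_notMem (hcov y).1] at h1
  omega

end AbsDrawing
end SDE
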