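import Pool.Agent.SDE.WBlk

/-!
# SDE/LemHa
Labels of triples in a W-block: Lemma H (i).
-/

namespace SDE
namespace AbsDrawing

variable {V : Type*} [DecidableEq V] {D : AbsDrawing V}

/-- **Lemma H (i).** Proof. `a = z i, b = z j, c = z k`. Suppose `cr a c v b = true`. (1) `p4`
with `(v,x,y) = (v,a,w)`, `e = ca` (i.e. `a := c`, `b := a`), `g = bv` (`c := b`, `d := v`): `g`
misses the triangle since `cr b v a w = cr a w v b = false` (`hub`). `bef` terms: `va` and `aw`
have a common endpoint with `ca`; so only `vw` counts and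
`bef c a b v v w = side v a w c ^^ side v a w b = btw v a w c ^^ btw v a w b` (the `cr` parts
`cr a w v c`, `cr a w v b` are `false` by `hub`). (2) the same with triangle `(v,c,w)`, `e = ac`
from `a`: `bef a c b v v w = btw v c w a ^^ btw v c w b`. By the position of `th v w` (either
`> th v c` or `< th v a`): if `th v w > th v c`: `btw v a w c = btw v a w b = true`, and
`btw v c w a = btw v c w b = false`; if `th v w < th v a`: the first two are `false`, the last two
are `true`. So both `bef` are `false`. But `cr a c v w = true` (`W`), so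
`¬ pos c a v w < pos c a b v` and `¬ pos a c v w < pos a c b v`; with `pos_rev` this gives
`pos a c v w = pos a c v b` (use `pos_swap`), contradicting `pos_ne` (`w ≠ b`). -/
theorem WBlock.mid {v w : V} {X : Finset V} {G : ℕ} {z : ℕ → V} (h : D.WBlock v w X G z)
    {i j k : ℕ} (hij : i < j) (hjk : j < k) (hk : k < G) : D.cr (z i) (z k) v (z j) = false := by
  obtain ⟨a, ha⟩ : ∃ a, a = z i := ⟨_, rfl⟩
  obtain ⟨b, hb⟩ : ∃ b, b = z j := ⟨_, rfl⟩
  obtain ⟨c, hc⟩ : ∃ c, c = z k := ⟨_, rfl⟩
  have hjG : j < G := hjk.trans hk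
  have hiG : i < G := hij.trans hjG
  have aX : a ∈ X := ha ▸ h.mem i hiG
  have bX : b ∈ X := hb ▸ h.mem j hjG
  have cX : c ∈ X := hc ▸ h.mem k hk
  have tab : D.th v a < D.th v b := ha ▸ hb ▸ h.mono i j hij hjG
  have tbc : D.th v b < D.th v c := hb ▸ hc ▸ h.mono j k hjk hk
  have ab : a ≠ b := fun e => by rw [e] at tab; exact lt_irrefl _ tab
  have bc : b ≠ c := fun e => by rw [e] at tbc; exact lt_irrefl _ tbc
  have ac : a ≠ c := fun e => by rw [e] at tab; exact lt_irrefl _ (tab.trans tbc)
  have wa : w ≠ a := ha ▸ h.wz i hiG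
  have wb : w ≠ b := hb ▸ h.wz j hjG
  have wc : w ≠ c := hc ▸ h.wz k hk
  have va : v ≠ a := fun e => h.vX (e ▸ aX)
  have vb : v ≠ b := fun e => h.vX (e ▸ bX)
  have vc : v ≠ c := fun e => h.vX (e ▸ cX)
  have vw : v ≠ w := fun e => h.vX (e ▸ h.wX)
  have hua : D.Unc v X a w := ha ▸ h.hub i hiG
  have huc : D.Unc v X c w := hc ▸ h.hub k hk
  have hW : D.cr a c v w = true := by rw [ha, hc]; exact h.W i k (hij.trans hjk) hk
  have hbw : D.btw v a c w = false := by rw [ha, hc]; exact h.btwW (hij.trans hjk) hk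
  rw [← ha, ← hb, ← hc]
  rcases hcr : D.cr a c v b with _ | _
  · rfl
  exfalso
  have hcr' : D.cr a c b v = true := by rw [D.cr_swap']; exact hcr
  have hcr2 : D.cr c a b v = true := by rw [D.cr_swap]; exact hcr'
  have hW2 : D.cr c a v w = true := by rw [D.cr_swap]; exact hW
  -- first triangle
  have e1 := D.p4 (v := v) (x := a) (y := w) (a := c) (b := a) (c := b) (d := v)
    va vw wa.symm vc.symm ac.symm wc.symm vb.symm ab.symm wb.symm hcr2
    (D.cr_self4 b v a) (D.cr_self4 b v w)
    (by rw [D.cr_comm a w b v, D.cr_swap']; exact hua b bX)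
  have e2 := D.p4 (v := v) (x := c) (y := w) (a := a) (b := c) (c := b) (d := v)
    vc vw wc.symm va.symm ac wa.symm vb.symm bc wb.symm hcr'
    (D.cr_self4 b v c) (D.cr_self4 b v w)
    (by rw [D.cr_comm c w b v, D.cr_swap']; exact huc b bX)
  have s1 : D.side v a w c = D.btw v a w c := by
    unfold side; rw [hua c cX, Bool.xor_false]
  have s2 : D.side v a w b = D.btw v a w b := by
    unfold side; rw [hua b bX, Bool.xor_false]
  have s3 : D.side v c w a = D.btw v c w a := by
    unfold side; rw [huc a aX, Bool.xor_false]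
  have s4 : D.side v c w b = D.btw v c w b := by
    unfold side; rw [huc b bX, Bool.xor_false]
  rw [s1, s2] at e1
  rw [s3, s4] at e2
  have b1 : D.bef c a b v v a = false := by
    unfold bef; rw [D.cr_self5, Bool.false_and]
  have b2 : D.bef c a b v a w = false := by
    unfold bef; rw [D.cr_self4, Bool.false_and]
  have b3 : D.bef a c b v v c = false := by
    unfold bef; rw [D.cr_self5, Bool.false_and]
  have b4 : D.bef a c b v c w = false := by
    unfold bef; rw [D.cr_self4, Bool.false_and]
  rw [b1, b2, Bool.false_xor, Bool.xor_false] at e1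
  rw [b3, b4, Bool.false_xor, Bool.xor_false] at e2
  have tw : D.th v w ≠ D.th v c := fun e => wc (D.th_inj vw.symm vc.symm e)
  have tw' : D.th v w ≠ D.th v a := fun e => wa (D.th_inj vw.symm va.symm e)
  have hpos : D.th v c < D.th v w ∨ D.th v w < D.th v a := by
    unfold btw at hbw
    rw [decide_eq_false_iff_not] at hbw
    by_contra hcon
    push Not at hcon
    exact hbw (Or.inl ⟨lt_of_le_of_ne hcon.2 tw'.symm, lt_of_le_of_ne hcon.1 tw⟩)
  have hx1 : (D.btw v a w c ^^ D.btw v a w b) = false := by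
    unfold btw
    rcases hpos with hp | hp
    · rw [decide_eq_true (Or.inl ⟨tab.trans tbc, hp⟩), decide_eq_true (Or.inl ⟨tab, tbc.trans hp⟩)]
      rfl
    · rw [decide_eq_false (by
        rintro (⟨h1, h2⟩ | ⟨h1, h2⟩)
        · exact lt_asymm hp (h1.trans h2)
        · exact lt_asymm h2 (tab.trans tbc)), decide_eq_false (by
        rintro (⟨h1, h2⟩ | ⟨h1, h2⟩)
        · exact lt_asymm hp (h1.trans h2)
        · exact lt_asymm h2 tab)]
      rfl
  have hx2 : (D.btw v c w a ^^ D.btw v c w b) = false := by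
    unfold btw
    rcases hpos with hp | hp
    · rw [decide_eq_false (by
        rintro (⟨h1, h2⟩ | ⟨h1, h2⟩)
        · exact lt_asymm h1 (tab.trans tbc)
        · exact lt_asymm hp (h1.trans h2)), decide_eq_false (by
        rintro (⟨h1, h2⟩ | ⟨h1, h2⟩)
        · exact lt_asymm h1 tbc
        · exact lt_asymm hp (h1.trans h2))]
      rfl
    · rw [decide_eq_true (Or.inr ⟨hp, tab.trans tbc⟩), decide_eq_true (Or.inr ⟨hp.trans tab, tbc⟩)]
      rfl
  rw [hx1] at e1
  rw [hx2] at e2
  unfold bef at e1 e2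
  rw [hW2, Bool.true_and, decide_eq_false_iff_not, not_lt] at e1
  rw [hW, Bool.true_and, decide_eq_false_iff_not, not_lt] at e2
  rw [D.pos_rev hW, D.pos_rev hcr'] at e1
  have e3 : D.pos a c v w = D.pos a c b v := le_antisymm (by linarith) e2
  rw [D.pos_swap a c v b] at e3
  exact D.pos_ne hW hcr wb e3

end AbsDrawing
end SDE
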