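import Pool.Agent.SDE.WBlk

/-!
# SDE/LemHb
Labels of triples in a W-block: Lemma H (ii).
-/

namespace SDE
namespace AbsDrawing

variable {V : Type*} [DecidableEq V] {D : AbsDrawing V}

/-- `cr (wc) (ab) = 1 + b(ab,c)`: `p5` with triangle `v a b` and the edge `w c` (`a, b` any two
elements of the block, `c` a third element of the block not between them). Precisely for pairwise
different `i, j, k < G` with `btw v (z i) (z j) (z k) = false`. Proof:
`cr w c a b ^^ cr w c v a ^^ cr w c v b = side v a b w ^^ side v a b c`; the two middle terms are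
`false` (`hub`), `side v a b w = false ^^ true` (`btwW`, `W`),
`side v a b c = false ^^ cr a b v c`. -/
theorem WBlock.wcr {v w : V} {X : Finset V} {G : ℕ} {z : ℕ → V} (h : D.WBlock v w X G z)
    {i j k : ℕ} (hi : i < G) (hj : j < G) (hk : k < G) (hij : i ≠ j) (hik : i ≠ k) (hjk : j ≠ k)
    (hb : D.btw v (z i) (z j) (z k) = false) :
    D.cr w (z k) (z i) (z j) = !(D.cr (z i) (z j) v (z k)) := by
  have hz : ∀ p q, p < G → q < G → p ≠ q → z p ≠ z q := by
    intro p q hp hq hpq e
    rcases lt_or_gt_of_ne hpq with h1 | h1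
    · have h2 := h.mono p q h1 hq
      rw [e] at h2
      exact lt_irrefl _ h2
    · have h2 := h.mono q p h1 hp
      rw [e] at h2
      exact lt_irrefl _ h2
  have hv : ∀ p, p < G → v ≠ z p := fun p hp e => h.vX (e ▸ h.mem p hp)
  have hwv : w ≠ v := fun e => h.vX (e ▸ h.wX)
  have e := D.p5 (hv i hi) (hv j hj) (hz i j hi hj hij) hwv (h.wz i hi) (h.wz j hj)
    (hv k hk).symm (hz k i hk hi hik.symm) (hz k j hk hj hjk.symm) (h.wz k hk)
  have e1 : D.cr w (z k) v (z i) = false := by
    rw [D.cr_swap]
    exact h.hub k hk _ (h.mem i hi)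
  have e2 : D.cr w (z k) v (z j) = false := by
    rw [D.cr_swap]
    exact h.hub k hk _ (h.mem j hj)
  have e3 : D.side v (z i) (z j) w = true := by
    rcases lt_or_gt_of_ne hij with h1 | h1
    · unfold side
      rw [h.btwW h1 hj, h.W i j h1 hj]
      rfl
    · rw [D.side_comm]
      unfold side
      rw [h.btwW h1 hi, h.W j i h1 hi]
      rfl
  have e4 : D.side v (z i) (z j) (z k) = D.cr (z i) (z j) v (z k) := by
    unfold side
    rw [hb, Bool.false_xor]
  rw [e1, e2, e3, e4] at e
  simpa using e

/-- **Lemma H (ii).** Exactly one of `b(ab,c)`, `b(bc,a)`. Proof. Not both `true`: K4 rule `S2`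
for `v, a, b, c` (`ab | vc` and `bc | va`). Not both `false`: by `wcr`, `cr w c a b = true` and
`cr w a b c = true`, contradicting the K4 rule for `w, a, b, c`. -/
theorem WBlock.xor {v w : V} {X : Finset V} {G : ℕ} {z : ℕ → V} (h : D.WBlock v w X G z)
    {i j k : ℕ} (hij : i < j) (hjk : j < k) (hk : k < G) :
    D.cr (z j) (z k) v (z i) = !(D.cr (z i) (z j) v (z k)) := by
  have hj : j < G := hjk.trans hk
  have hi : i < G := hij.trans hj
  have t1 := h.mono i j hij hj
  have t2 := h.mono j k hjk hk
  have b1 : D.btw v (z i) (z j) (z k) = false := by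
    unfold btw
    refine decide_eq_false ?_
    rintro (⟨h1, h2⟩ | ⟨h1, h2⟩) <;> linarith
  have b2 : D.btw v (z j) (z k) (z i) = false := by
    unfold btw
    refine decide_eq_false ?_
    rintro (⟨h1, h2⟩ | ⟨h1, h2⟩) <;> linarith
  have w1 := h.wcr hi hj hk hij.ne (hij.trans hjk).ne hjk.ne b1
  have w2 := h.wcr hj hk hi hjk.ne hij.ne' (hij.trans hjk).ne' b2
  rcases hp : D.cr (z i) (z j) v (z k) with _ | _
  · rcases hq : D.cr (z j) (z k) v (z i) with _ | _
    · exfalso
      rw [hp] at w1
      rw [hq] at w2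
      have h1 := D.S2 w1
      rw [D.cr_swap', w2] at h1
      exact absurd h1 (by decide)
    · rfl
  · have h1 : D.cr (z j) (z i) (z k) v = true := by
      rw [D.cr_swap, D.cr_swap']
      exact hp
    have h2 := D.S2 h1
    rw [D.cr_swap'] at h2
    rw [h2]
    rfl

end AbsDrawing
end SDE
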