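import Pool.Agent.SDE.Abs

/-!
# SDE/LemI
Monotonicity of the levels of a twisted chain.
-/

namespace SDE
namespace AbsDrawing

variable {V : Type*} {D : AbsDrawing V}

/-- Side of an external point: `side v (x i) (x j) u = cr (x i) (x j) v u` (its `btw` is `false`).
-/
theorem TChain.sideU {v : V} {U : Finset V} {m : ℕ} {x : ℕ → V} (h : D.TChain v U m x)
    {i j : ℕ} (hij : i < j) (hj : j < m) {u : V} (hu : u ∈ U) :
    D.side v (x i) (x j) u = D.cr (x i) (x j) v u := by
  unfold side; rw [h.btwU i j hij hj u hu]; simp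

/-- **Lemma I, first part:** `c_u(i,k) = true → c_u(i,j) = true` for `i < j < k`. Proof: by
contradiction `cr xi xj v u = false`. `p4` with triangle `(v, xi, xj)`, `e = xk xi` (`a = xk`,
`b = xi`), `g = u v` (`c = u`, `d = v`); `e` crosses `g` (hypothesis, symmetries); `g` misses the
triangle (`cr u v xi xj = cr xi xj v u = false`, the others have the common vertex `v`). `bef`
terms: `v xi` and `xi xj` have a common vertex with `e`; `cr xk xi v xj = false` (`cr2`). So
`false = side xk ^^ side u`, with `side v xi xj xk = btw2 ^^ cr1 = false ^^ true`,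
`side v xi xj u = cr xi xj v u = false`: contradiction. -/
theorem TChain.mono1 {v : V} {U : Finset V} {m : ℕ} {x : ℕ → V} (h : D.TChain v U m x)
    {i j k : ℕ} (hij : i < j) (hjk : j < k) (hk : k < m) {u : V} (hu : u ∈ U)
    (hc : D.cr (x i) (x k) v u = true) : D.cr (x i) (x j) v u = true := by
  rcases hf : D.cr (x i) (x j) v u with _ | _
  swap
  · rfl
  exfalso
  have hi : i < m := hij.trans (hjk.trans hk)
  have hj : j < m := hjk.trans hk
  have hne : ∀ a b, a < m → b < m → a ≠ b → x a ≠ x b := fun a b ha hb hab he =>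
    hab (h.inj a b ha hb he)
  have huv : u ≠ v := fun he => h.vU (he ▸ hu)
  have hux : ∀ a, a < m → u ≠ x a := fun a ha he => h.notU a ha (he ▸ hu)
  have hc' : D.cr (x k) (x i) u v = true := by
    rw [D.cr_swap', D.cr_swap]
    exact hc
  have k3 : D.cr u v (x i) (x j) = false := by
    rw [D.cr_comm, D.cr_swap']
    exact hf
  have key := D.p4 (h.ne i hi).symm (h.ne j hj).symm (hne i j hi hj hij.ne) (h.ne k hk)
    (hne k i hk hi (hij.trans hjk).ne') (hne k j hk hj hjk.ne') huv (hux i hi) (hux j hj) hc'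
    (D.cr_self4 _ _ _) (D.cr_self4 _ _ _) k3
  have b2 : D.cr (x k) (x i) v (x j) = false := by
    rw [D.cr_swap]
    exact h.cr2 i j k hij hjk hk
  have s1 : D.side v (x i) (x j) (x k) = true := by
    unfold side
    rw [h.btw2 i j k hij hjk hk, h.cr1 i j k hij hjk hk]
    rfl
  have s2 : D.side v (x i) (x j) u = false := by
    rw [h.sideU hij hj hu]
    exact hf
  rw [s1, s2] at key
  unfold bef at key
  rw [D.cr_self5, b2, D.cr_self4] at key
  simp at key

/-- **Lemma I, second part:** `c_u(j,k) = true → c_u(i,k) = true` for `i < j < k`. Proof: by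
contradiction `cr xi xk v u = false`. `p4` with triangle `(v, xi, xk)`, `e = xj xk` (`a = xj`,
`b = xk`), `g = u v`. `bef` terms: `v xk`, `xi xk` have a common vertex with `e`;
`cr xj xk v xi = false` (`cr3`). So `false = side v xi xk xj ^^ side v xi xk u = (btw1 ^^ cr2) ^^
false = (true ^^ false) ^^ false`: contradiction. -/
theorem TChain.mono2 {v : V} {U : Finset V} {m : ℕ} {x : ℕ → V} (h : D.TChain v U m x)
    {i j k : ℕ} (hij : i < j) (hjk : j < k) (hk : k < m) {u : V} (hu : u ∈ U)
    (hc : D.cr (x j) (x k) v u = true) : D.cr (x i) (x k) v u = true := by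
  rcases hf : D.cr (x i) (x k) v u with _ | _
  swap
  · rfl
  exfalso
  have hi : i < m := hij.trans (hjk.trans hk)
  have hj : j < m := hjk.trans hk
  have hik : i < k := hij.trans hjk
  have hne : ∀ a b, a < m → b < m → a ≠ b → x a ≠ x b := fun a b ha hb hab he =>
    hab (h.inj a b ha hb he)
  have huv : u ≠ v := fun he => h.vU (he ▸ hu)
  have hux : ∀ a, a < m → u ≠ x a := fun a ha he => h.notU a ha (he ▸ hu)
  have hc' : D.cr (x j) (x k) u v = true := by
    rw [D.cr_swap']
    exact hc
  have k3 : D.cr u v (x i) (x k) = false := by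
    rw [D.cr_comm, D.cr_swap']
    exact hf
  have key := D.p4 (h.ne i hi).symm (h.ne k hk).symm (hne i k hi hk hik.ne) (h.ne j hj)
    (hne j i hj hi hij.ne') (hne j k hj hk hjk.ne) huv (hux i hi) (hux k hk) hc'
    (D.cr_self4 _ _ _) (D.cr_self4 _ _ _) k3
  have s1 : D.side v (x i) (x k) (x j) = true := by
    unfold side
    rw [h.btw1 i j k hij hjk hk, h.cr2 i j k hij hjk hk]
    rfl
  have s2 : D.side v (x i) (x k) u = false := by
    rw [h.sideU hik hk hu]
    exact hf
  rw [s1, s2] at key
  unfold bef at key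
  rw [h.cr3 i j k hij hjk hk, D.cr_self5, D.cr_self5] at key
  simp at key

end AbsDrawing
end SDE
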