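import Pool.Agent.SDE.LemI

/-!
# SDE/LemI2
Consequences of the monotonicity.
-/

namespace SDE
namespace AbsDrawing

variable {V : Type*} {D : AbsDrawing V}

/-- Consequence: if the pair `(s, s+1)` at the beginning is not crossed by `vu`, no pair `(i, j)`,
`s ≤ i < j`, is. Proof: `c(i,j) → c(i,i+1)` (`mono1` if `j > i+1`),
`c(i,i+1) → c(i-1,i+1) → c(i-1,i)` (`mono2`, `mono1`), induction down to `s`. -/
theorem TChain.low {v : V} {U : Finset V} {m : ℕ} {x : ℕ → V} (h : D.TChain v U m x)
    {s i j : ℕ} (hsi : s ≤ i) (hij : i < j) (hj : j < m) {u : V} (hu : u ∈ U)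
    (hc : D.cr (x s) (x (s + 1)) v u = false) : D.cr (x i) (x j) v u = false := by
  by_contra hne
  rw [Bool.not_eq_false] at hne
  have key : ∀ n, s + n + 1 < m → D.cr (x (s + n)) (x (s + n + 1)) v u = true → False := by
    intro n
    induction n with
    | zero =>
      intro _ h1
      rw [Nat.add_zero, hc] at h1
      exact Bool.false_ne_true h1
    | succ n ih =>
      intro hm h1
      have h2 := h.mono2 (i := s + n) (j := s + n + 1) (k := s + n + 1 + 1) (by omega) (by omega)
        (by omega) hu h1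
      exact ih (by omega) (h.mono1 (i := s + n) (j := s + n + 1) (k := s + n + 1 + 1) (by omega)
        (by omega) (by omega) hu h2)
  obtain ⟨n, rfl⟩ := Nat.exists_eq_add_of_le hsi
  refine key n (by omega) ?_
  rcases (by omega : s + n + 1 = j ∨ s + n + 1 < j) with h1 | h1
  · rw [h1]
    exact hne
  · exact h.mono1 (by omega) h1 hj hu hne

/-- Consequence: if the pair `(t, t+1)` is crossed by `vu`, every pair `(i, j)`, `i < j ≤ t+1`,
is. Proof: `c(t,t+1) → c(i,t+1)` (`mono2`, if `i < t`) `→ c(i,j)` (`mono1`, if `j < t+1`); if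
`i = t` then `j = t+1`. -/
theorem TChain.high {v : V} {U : Finset V} {m : ℕ} {x : ℕ → V} (h : D.TChain v U m x)
    {t i j : ℕ} (hij : i < j) (hjt : j ≤ t + 1) (ht : t + 1 < m) {u : V} (hu : u ∈ U)
    (hc : D.cr (x t) (x (t + 1)) v u = true) : D.cr (x i) (x j) v u = true := by
  have h1 : D.cr (x i) (x (t + 1)) v u = true := by
    rcases (by omega : i = t ∨ i < t) with h2 | h2
    · rw [h2]
      exact hc
    · exact h.mono2 h2 (by omega) ht hu hc
  rcases (by omega : j = t + 1 ∨ j < t + 1) with h2 | h2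
  · rw [h2]
    exact h1
  · exact h.mono1 hij h2 ht hu h1

end AbsDrawing
end SDE
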