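import Mathlib

/-!
# SDE/Pig
The pigeonhole principle behind the uniformity lemmas.
-/

namespace SDE

/-- Pigeonhole. `b i` : the edge `e` crosses `v x_i`; `f i` : it does so before the point `p`;
`r i j`, `rf i j` : the same for `x_i x_j`. Proof (finite Boolean check): if `b i = b j = false`
(`i < j`) then `f i = f j = false`, `r i j = false`, `rf i j = false`, contradicting `h7`; so at
least three of the four `b i` are `true`; if `b i = b j = true` then `r i j = false`,
`rf i j = false`, so `f i ≠ f j`; impossible for three indices. -/
theorem pigeon (b f : Fin 4 → Bool) (r rf : Fin 4 → Fin 4 → Bool)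
    (h1 : ∀ i, f i = true → b i = true)
    (h4 : ∀ i j, i < j → rf i j = true → r i j = true)
    (h6 : ∀ i j, i < j → r i j = (b i ^^ b j))
    (h7 : ∀ i j, i < j → ((f i ^^ f j) ^^ rf i j) = true)
    : False := by
  have key1 : ∀ i j, i < j → b i = false → b j = true := by
    intro i j hij hi
    by_contra hj
    have hj' : b j = false := by simpa using hj
    have e1 : f i = false := by
      by_contra hc
      have := h1 i (by simpa using hc)
      rw [hi] at this
      exact Bool.false_ne_true this
    have e2 : f j = false := by
      by_contra hc
      have := h1 j (by simpa using hc)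
      rw [hj'] at this
      exact Bool.false_ne_true this
    have e3 : r i j = false := by
      rw [h6 i j hij, hi, hj']
      rfl
    have e4 : rf i j = false := by
      by_contra hc
      have := h4 i j hij (by simpa using hc)
      rw [e3] at this
      exact Bool.false_ne_true this
    have h := h7 i j hij
    rw [e1, e2, e4] at h
    exact Bool.false_ne_true h
  have key2 : ∀ i j, i < j → b i = true → b j = true → f i ≠ f j := by
    intro i j hij hi hj he
    have e3 : r i j = false := by
      rw [h6 i j hij, hi, hj]
      rfl
    have e4 : rf i j = false := by
      by_contra hc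
      have := h4 i j hij (by simpa using hc)
      rw [e3] at this
      exact Bool.false_ne_true this
    have h := h7 i j hij
    rw [he, e4] at h
    cases hf : f j <;> rw [hf] at h <;> exact Bool.false_ne_true h
  have three : ∀ i j k, i < j → j < k → b i = true → b j = true → b k = true → False := by
    intro i j k hij hjk hi hj hk
    have g1 := key2 i j hij hi hj
    have g2 := key2 j k hjk hj hk
    have g3 := key2 i k (hij.trans hjk) hi hk
    cases hfi : f i <;> cases hfj : f j <;> cases hfk : f k <;> simp_all
  cases hb0 : b 0
  · exact three 1 2 3 (by decide) (by decide) (key1 0 1 (by decide) hb0)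
      (key1 0 2 (by decide) hb0) (key1 0 3 (by decide) hb0)
  · cases hb1 : b 1
    · exact three 0 2 3 (by decide) (by decide) hb0 (key1 1 2 (by decide) hb1)
        (key1 1 3 (by decide) hb1)
    · cases hb2 : b 2
      · exact three 0 1 3 (by decide) (by decide) hb0 hb1 (key1 2 3 (by decide) hb2)
      · exact three 0 1 2 (by decide) (by decide) hb0 hb1 hb2

end SDE
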