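import Pool.Agent.SDE.LemI
import Pool.Agent.SDE.Pig

/-!
# SDE/LemJ0
Uniformity lemma J0.
-/

namespace SDE
namespace AbsDrawing

variable {V : Type*} {D : AbsDrawing V}

/-- **Lemma J0.** `e = u w`, `j 0 < j 1 < j 2 < j 3 < k < l < m`, `c_u = c_w = false` on all pairs
of the `j`'s. Then `cr u w (x k) (x l) = false`. Proof: by contradiction, `e` crosses
`g = x_k x_l` in `p`. For `s < t` and `T = (v, x_(j s), x_(j t))`: `g` misses `T`:
`cr x_k x_l v x_(j s) = false`, `cr x_k x_l v x_(j t) = false` (`cr3`), and by `p5` with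
`a = x_k`, `c = x_l`:
`cr x_k x_l x_(j s) x_(j t) ^^ false ^^ false = side x_k ^^ side x_l = true ^^ true`
(`btw2 ^^ cr1`). `p4` with `a = u, b = w, c = x_k, d = x_l`:
`bef.. ^^ bef.. ^^ bef.. = side u ^^ side x_k = false ^^ true`. `p5` (`a = u, c = w`):
`cr u w x_(j s) x_(j t) = cr u w v x_(j s) ^^ cr u w v x_(j t)`. `pigeon` as in `J1`. -/
theorem TChain.J0 {v : V} {U : Finset V} {m : ℕ} {x : ℕ → V} (h : D.TChain v U m x)
    {u w : V} (hu : u ∈ U) (hw : w ∈ U) (huw : u ≠ w) {k l : ℕ} (j : Fin 4 → ℕ)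
    (hj : StrictMono j) (hk : j 3 < k) (hkl : k < l) (hm : l < m)
    (cu : ∀ s t, s < t → D.cr (x (j s)) (x (j t)) v u = false)
    (cw : ∀ s t, s < t → D.cr (x (j s)) (x (j t)) v w = false) :
    D.cr u w (x k) (x l) = false := by
  rcases hc : D.cr u w (x k) (x l) with _ | _
  · rfl
  exfalso
  have jk : ∀ s, j s < k := fun s =>
    lt_of_le_of_lt (hj.monotone (Fin.le_last s)) hk
  have jl : ∀ s, j s < l := fun s => (jk s).trans hkl
  have jm : ∀ s, j s < m := fun s => (jl s).trans hm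
  have km : k < m := hkl.trans hm
  have nev : ∀ s, v ≠ x (j s) := fun s => (h.ne _ (jm s)).symm
  have nes : ∀ s t, s < t → x (j s) ≠ x (j t) := fun s t hst he =>
    (hj hst).ne (h.inj _ _ (jm s) (jm t) he)
  have nek : ∀ s, x k ≠ x (j s) := fun s he => (jk s).ne' (h.inj _ _ km (jm s) he)
  have nel : ∀ s, x l ≠ x (j s) := fun s he => (jl s).ne' (h.inj _ _ hm (jm s) he)
  have nekl : x k ≠ x l := fun he => hkl.ne (h.inj _ _ km hm he)
  have neU : ∀ z ∈ U, ∀ s, z ≠ x (j s) := fun z hz s he => h.notU _ (jm s) (he ▸ hz)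
  have neUv : ∀ z ∈ U, z ≠ v := fun z hz he => h.vU (he ▸ hz)
  have sk : ∀ s t, s < t → D.side v (x (j s)) (x (j t)) (x k) = true := by
    intro s t hst
    unfold side
    rw [h.btw2 _ _ _ (hj hst) (jk t) km, h.cr1 _ _ _ (hj hst) (jk t) km]
    rfl
  have sl : ∀ s t, s < t → D.side v (x (j s)) (x (j t)) (x l) = true := by
    intro s t hst
    unfold side
    rw [h.btw2 _ _ _ (hj hst) (jl t) hm, h.cr1 _ _ _ (hj hst) (jl t) hm]
    rfl
  have c3 : ∀ s, D.cr (x k) (x l) v (x (j s)) = false := fun s => h.cr3 _ _ _ (jk s) hkl hm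
  have miss : ∀ s t, s < t → D.cr (x k) (x l) (x (j s)) (x (j t)) = false := by
    intro s t hst
    have h1 := D.p5 (nev s) (nev t) (nes s t hst) (h.ne _ km) (nek s) (nek t) (h.ne _ hm)
      (nel s) (nel t) nekl
    rw [c3, c3, sk s t hst, sl s t hst] at h1
    simpa using h1
  refine pigeon (fun s => D.cr u w v (x (j s))) (fun s => D.bef u w (x k) (x l) v (x (j s)))
    (fun s t => D.cr u w (x (j s)) (x (j t)))
    (fun s t => D.bef u w (x k) (x l) (x (j s)) (x (j t))) ?_ ?_ ?_ ?_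
  · intro s hs
    exact (Bool.and_eq_true_iff.1 hs).1
  · intro s t _ hs
    exact (Bool.and_eq_true_iff.1 hs).1
  · intro s t hst
    have h1 := D.p5 (nev s) (nev t) (nes s t hst) (neUv u hu) (neU u hu s) (neU u hu t)
      (neUv w hw) (neU w hw s) (neU w hw t) huw
    rw [h.sideU (hj hst) (jm t) hu, h.sideU (hj hst) (jm t) hw, cu s t hst, cw s t hst] at h1
    change D.cr u w (x (j s)) (x (j t)) = (D.cr u w v (x (j s)) ^^ D.cr u w v (x (j t)))
    revert h1
    cases D.cr u w (x (j s)) (x (j t)) <;> cases D.cr u w v (x (j s)) <;>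
      cases D.cr u w v (x (j t)) <;> simp
  · intro s t hst
    have h1 := D.p4 (nev s) (nev t) (nes s t hst) (neUv u hu) (neU u hu s) (neU u hu t)
      (h.ne _ km) (nek s) (nek t) hc (c3 s) (c3 t) (miss s t hst)
    rw [h.sideU (hj hst) (jm t) hu, cu s t hst, sk s t hst] at h1
    exact h1

end AbsDrawing
end SDE
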