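import Pool.Agent.SDE.LemI
import Pool.Agent.SDE.Pig

/-!
# SDE/LemJ1
Uniformity lemma J1.
-/

namespace SDE
namespace AbsDrawing

variable {V : Type*} {D : AbsDrawing V}

/-- **Lemma J1.** `e = u w` (`u, w ∈ U` different), `i < j 0 < j 1 < j 2 < j 3 < m`,
`c_u = c_w = true` on all pairs of the `j`'s. Then `cr u w v (x i) = false`. Proof: by
contradiction, `e` crosses `g = v x_i` in `p`. For `j < k` among the `j`'s, triangle
`T = (v, x_j, x_k)`: `p4` with `a = u`, `b = w`, `c = x_i`, `d = v`: `g = x_i v` misses `T`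
(`cr3`: `cr x_j x_k v x_i = false`; the others have a common vertex).
`side v x_j x_k u = c_u(j,k) = true`, `side v x_j x_k x_i = btw3 ^^ cr3 = false`. So
`bef u w x_i v v x_j ^^ bef u w x_i v v x_k ^^ bef u w x_i v x_j x_k = true`. By `p5`
(`a = u, c = w`): `cr u w x_j x_k = cr u w v x_j ^^ cr u w v x_k` (both sides `true`). Apply
`pigeon` with `b s = cr u w v x_(j s)`, `f s = bef ..`, `r s t = cr u w x_(j s) x_(j t)`,
`rf s t = bef u w x_i v x_(j s) x_(j t)`. -/
theorem TChain.J1 {v : V} {U : Finset V} {m : ℕ} {x : ℕ → V} (h : D.TChain v U m x)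
    {u w : V} (hu : u ∈ U) (hw : w ∈ U) (huw : u ≠ w) {i : ℕ} (j : Fin 4 → ℕ)
    (hi : i < j 0) (hj : StrictMono j) (hm : j 3 < m)
    (cu : ∀ s t, s < t → D.cr (x (j s)) (x (j t)) v u = true)
    (cw : ∀ s t, s < t → D.cr (x (j s)) (x (j t)) v w = true) :
    D.cr u w v (x i) = false := by
  rcases hc : D.cr u w v (x i) with _ | _
  · rfl
  exfalso
  have hji : ∀ s, i < j s := fun s => lt_of_lt_of_le hi (hj.monotone (Fin.zero_le s))
  have hjm : ∀ s, j s < m := fun s => lt_of_le_of_lt (hj.monotone (Fin.le_last s)) hm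
  have him : i < m := (hji 0).trans (hjm 0)
  have hneU : ∀ {k : ℕ} {q : V}, k < m → q ∈ U → q ≠ x k := fun hk hq e =>
    h.notU _ hk (e ▸ hq)
  have hvU : ∀ {q : V}, q ∈ U → q ≠ v := fun hq e => h.vU (e ▸ hq)
  have hx : ∀ {k l : ℕ}, k < l → l < m → x k ≠ x l := fun hkl hl e =>
    absurd (h.inj _ _ (hkl.trans hl) hl e) hkl.ne
  have hcr : D.cr u w (x i) v = true := by
    rw [D.cr_swap']
    exact hc
  refine pigeon (fun s => D.cr u w v (x (j s))) (fun s => D.bef u w (x i) v v (x (j s)))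
    (fun s t => D.cr u w (x (j s)) (x (j t))) (fun s t => D.bef u w (x i) v (x (j s)) (x (j t)))
    ?_ ?_ ?_ ?_
  · intro s hs
    unfold bef at hs
    exact (Bool.and_eq_true _ _ ▸ hs).1
  · intro s t _ hs
    unfold bef at hs
    exact (Bool.and_eq_true _ _ ▸ hs).1
  · intro s t hst
    have h1 := D.p5 (v := v) (x := x (j s)) (y := x (j t)) (a := u) (c := w)
      (h.ne _ (hjm s)).symm (h.ne _ (hjm t)).symm (hx (hj hst) (hjm t)) (hvU hu)
      (hneU (hjm s) hu) (hneU (hjm t) hu) (hvU hw) (hneU (hjm s) hw) (hneU (hjm t) hw) huw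
    rw [h.sideU (hj hst) (hjm t) hu, h.sideU (hj hst) (hjm t) hw, cu s t hst, cw s t hst] at h1
    revert h1
    generalize D.cr u w (x (j s)) (x (j t)) = b1
    generalize D.cr u w v (x (j s)) = b2
    generalize D.cr u w v (x (j t)) = b3
    revert b1 b2 b3
    decide
  · intro s t hst
    have h3 : D.cr (x (j s)) (x (j t)) v (x i) = false := h.cr3 i (j s) (j t) (hji s) (hj hst)
      (hjm t)
    have h1 := D.p4 (v := v) (x := x (j s)) (y := x (j t)) (a := u) (b := w) (c := x i) (d := v)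
      (h.ne _ (hjm s)).symm (h.ne _ (hjm t)).symm (hx (hj hst) (hjm t)) (hvU hu)
      (hneU (hjm s) hu) (hneU (hjm t) hu) (h.ne _ him) (hx (hji s) (hjm s)) (hx (hji t) (hjm t))
      hcr (D.cr_self4 _ _ _) (D.cr_self4 _ _ _) (by
        rw [D.cr_comm, D.cr_swap']
        exact h3)
    rw [h1, h.sideU (hj hst) (hjm t) hu, cu s t hst]
    unfold side
    rw [h.btw3 i (j s) (j t) (hji s) (hj hst) (hjm t), h3]
    rfl

end AbsDrawing
end SDE
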