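import Pool.Agent.SDE.LemHa
import Pool.Agent.SDE.LemHb

/-!
# SDE/LemT
Order of the crossings on the edge to the hub.
-/

namespace SDE
namespace AbsDrawing

variable {V : Type*} [DecidableEq V] {D : AbsDrawing V}

section

set_option linter.unusedSectionVars false

variable {v w : V} {X : Finset V} {G : ℕ} {z : ℕ → V}

private theorem zne (h : D.WBlock v w X G z) {i j : ℕ} (hij : i < j) (hj : j < G) :
    z i ≠ z j := by
  intro e
  have h1 := h.mono i j hij hj
  rw [e] at h1
  exact lt_irrefl _ h1

private theorem zv (h : D.WBlock v w X G z) {i : ℕ} (hi : i < G) : z i ≠ v := by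
  intro e
  have h1 := h.mem i hi
  rw [e] at h1
  exact h.vX h1

private theorem wv (h : D.WBlock v w X G z) : w ≠ v := by
  intro e
  have h1 := h.wX
  rw [e] at h1
  exact h.vX h1

private theorem W1 (h : D.WBlock v w X G z) {i j : ℕ} (hij : i < j) (hj : j < G) :
    D.cr w v (z i) (z j) = true := by
  rw [D.cr_swap, D.cr_comm]
  exact h.W i j hij hj

private theorem W2 (h : D.WBlock v w X G z) {i j : ℕ} (hij : i < j) (hj : j < G) :
    D.cr v w (z i) (z j) = true := by
  rw [D.cr_comm]
  exact h.W i j hij hj

private theorem after (h : D.WBlock v w X G z) {i j k : ℕ} (hij : i < j) (hjk : j < k)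
    (hk : k < G) : D.btw v (z i) (z j) (z k) = false := by
  have h1 := h.mono i j hij (hjk.trans hk)
  have h2 := h.mono j k hjk hk
  unfold btw
  rw [decide_eq_false_iff_not]
  rintro (⟨-, h3⟩ | ⟨-, h3⟩)
  · linarith
  · linarith

private theorem before (h : D.WBlock v w X G z) {i j k : ℕ} (hij : i < j) (hjk : j < k)
    (hk : k < G) : D.btw v (z j) (z k) (z i) = false := by
  have h1 := h.mono i j hij (hjk.trans hk)
  have h2 := h.mono j k hjk hk
  unfold btw
  rw [decide_eq_false_iff_not]
  rintro (⟨h3, -⟩ | ⟨h3, -⟩)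
  · linarith
  · linarith

private theorem keyA (h : D.WBlock v w X G z) {i j k : ℕ} (hij : i < j) (hjk : j < k)
    (hk : k < G) : D.bef w v (z k) (z i) (z i) (z j) = !(D.cr (z i) (z j) v (z k)) := by
  have hj : j < G := hjk.trans hk
  have hik : i < k := hij.trans hjk
  have hc : D.cr w v (z k) (z i) = true := by
    rw [D.cr_swap']
    exact W1 h hik hk
  have h1 := D.p4 (v := v) (x := z i) (y := z j) (a := w) (b := v) (c := z k) (d := z i)
    (zv h (hij.trans hj)).symm (zv h hj).symm (zne h hij hj) (wv h)
    (h.wz i (hij.trans hj)) (h.wz j hj) (zv h hk) (zne h hik hk).symm (zne h hjk hk).symm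
    hc (D.cr_self5 _ _ _) (by rw [D.cr_swap]; exact h.mid hij hjk hk) (D.cr_self4 _ _ _)
  have h2 : D.bef w v (z k) (z i) v (z i) = false := by
    unfold bef
    rw [D.cr_self4, Bool.false_and]
  have h3 : D.bef w v (z k) (z i) v (z j) = false := by
    unfold bef
    rw [D.cr_self4, Bool.false_and]
  rw [h2, h3] at h1
  unfold side at h1
  rw [h.btwW hij hj, h.W i j hij hj, after h hij hjk hk] at h1
  revert h1
  generalize D.bef w v (z k) (z i) (z i) (z j) = p
  generalize D.cr (z i) (z j) v (z k) = q
  revert p q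
  decide

private theorem keyB (h : D.WBlock v w X G z) {i j k : ℕ} (hij : i < j) (hjk : j < k)
    (hk : k < G) : D.bef w v (z i) (z k) (z j) (z k) = D.cr (z i) (z j) v (z k) := by
  have hj : j < G := hjk.trans hk
  have hik : i < k := hij.trans hjk
  have hi : i < G := hij.trans hj
  have h1 := D.p4 (v := v) (x := z j) (y := z k) (a := w) (b := v) (c := z i) (d := z k)
    (zv h hj).symm (zv h hk).symm (zne h hjk hk) (wv h)
    (h.wz j hj) (h.wz k hk) (zv h hi) (zne h hij hj) (zne h hik hk)
    (W1 h hik hk) (h.mid hij hjk hk) (D.cr_self5 _ _ _) (D.cr_self5 _ _ _)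
  have h2 : D.bef w v (z i) (z k) v (z j) = false := by
    unfold bef
    rw [D.cr_self4, Bool.false_and]
  have h3 : D.bef w v (z i) (z k) v (z k) = false := by
    unfold bef
    rw [D.cr_self4, Bool.false_and]
  rw [h2, h3] at h1
  unfold side at h1
  rw [h.btwW hjk hk, h.W j k hjk hk, before h hij hjk hk, h.xor hij hjk hk] at h1
  revert h1
  generalize D.bef w v (z i) (z k) (z j) (z k) = p
  generalize D.cr (z i) (z j) v (z k) = q
  revert p q
  decide

private theorem rev (h : D.WBlock v w X G z) {i j : ℕ} (hij : i < j) (hj : j < G) :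
    D.pos w v (z i) (z j) = 1 - D.pos v w (z i) (z j) := D.pos_rev (W2 h hij hj)

end

/-- **Lemma T.** Order of the crossings on `vw` (positions `pos v w _ _`), label L.
`a = z i, b = z j, c = z k`. Proof. `p4` with triangle `(v,a,b)`, `e = wv` (from `w`), `g = c a`:
`g` misses the triangle because `cr c a v b = false` (`mid`) and `va`, `ab` have a common endpoint
with `g`; `cr w v c a = true` (`W`). `bef` terms: only `ab` counts: `bef w v c a a b = side v a b
w ^^ side v a b c = (false ^^ true) ^^ (false ^^ cr a b v c)`. If `cr a b v c = true` this is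
`false`, so (`cr w v a b = true`) `¬ pos w v a b < pos w v c a`; with `pos_rev`
(`pos v w = 1 - pos w v`) and `pos_ne` (`ab` and `ac` share `a`): `pos v w a b < pos v w a c`. If
`cr a b v c = false`, then `bef = true`, so `pos w v a b < pos w v c a`, i.e.
`pos v w a c < pos v w a b`. Similarly with triangle `(v,b,c)`, `g = a c`:
`bef w v a c b c = side v b c w ^^ side v b c a = true ^^ cr b c v a`; if `cr a b v c = true` then
`cr b c v a = false` (`xor`), so `pos w v b c < pos w v a c`, i.e. `pos v w a c < pos v w b c`. -/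
theorem WBlock.ordL {v w : V} {X : Finset V} {G : ℕ} {z : ℕ → V} (h : D.WBlock v w X G z)
    {i j k : ℕ} (hij : i < j) (hjk : j < k) (hk : k < G)
    (hL : D.cr (z i) (z j) v (z k) = true) :
    D.pos v w (z i) (z j) < D.pos v w (z i) (z k) ∧
      D.pos v w (z i) (z k) < D.pos v w (z j) (z k) := by
  have hj : j < G := hjk.trans hk
  have hik : i < k := hij.trans hjk
  have hA := keyA h hij hjk hk
  have hB := keyB h hij hjk hk
  unfold bef at hA hB
  rw [W1 h hij hj, hL, Bool.true_and, Bool.not_true, decide_eq_false_iff_not,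
    D.pos_swap w v (z i) (z k)] at hA
  rw [W1 h hjk hk, hL, Bool.true_and, decide_eq_true_iff] at hB
  have hne := D.pos_ne (W1 h hij hj) (W1 h hik hk) (zne h hjk hk)
  have h1 := rev h hij hj
  have h2 := rev h hik hk
  have h3 := rev h hjk hk
  have h4 := lt_of_le_of_ne (not_lt.1 hA) hne.symm
  constructor
  · linarith
  · linarith

/-- **Lemma T**, label F (see `ordL`). -/
theorem WBlock.ordF {v w : V} {X : Finset V} {G : ℕ} {z : ℕ → V} (h : D.WBlock v w X G z)
    {i j k : ℕ} (hij : i < j) (hjk : j < k) (hk : k < G)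
    (hF : D.cr (z i) (z j) v (z k) = false) :
    D.pos v w (z i) (z k) < D.pos v w (z i) (z j) ∧
      D.pos v w (z j) (z k) < D.pos v w (z i) (z k) := by
  have hj : j < G := hjk.trans hk
  have hik : i < k := hij.trans hjk
  have hA := keyA h hij hjk hk
  have hB := keyB h hij hjk hk
  unfold bef at hA hB
  rw [W1 h hij hj, hF, Bool.true_and, Bool.not_false, decide_eq_true_iff,
    D.pos_swap w v (z i) (z k)] at hA
  rw [W1 h hjk hk, hF, Bool.true_and, decide_eq_false_iff_not] at hB
  have hne := D.pos_ne (a := w) (b := v) (c := z k) (d := z j) (e := z i)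
    (by rw [D.cr_swap']; exact W1 h hjk hk) (by rw [D.cr_swap']; exact W1 h hik hk)
    (zne h hij hj).symm
  rw [D.pos_swap w v (z j) (z k), D.pos_swap w v (z i) (z k)] at hne
  have h1 := rev h hij hj
  have h2 := rev h hik hk
  have h3 := rev h hjk hk
  have h4 := lt_of_le_of_ne (not_lt.1 hB) hne.symm
  constructor
  · linarith
  · linarith

end AbsDrawing
end SDE
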