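import Mathlib

/-!
# SDE/SeqL
The sequence lemma.
-/

namespace SDE

/-- **Sequence lemma.** Proof. Suppose `a i ^ α + b i ^ α < S ^ α` for all `i < r`. Put
`x i = a i / S`, `y i = b i / S ∈ [0,1]`, so `x i ^ α + y i ^ α < 1` (`Real.div_rpow`). Since
`y ≤ y ^ α` on `[0,1]`: `x i ^ α < 1 - y i ≤ x (i+1)` (`i + 1 < r`, `hstep`), and symmetrically
`y (i+1) ^ α < 1 - x (i+1) ≤ y i`. In particular `x (i+1) ≥ x i`, `y i ≥ y (i+1)` (as
`x ≤ x ^ α`), `x 1 > 0` so `a 1 ≥ 1`, `x 1 ≥ 1 / S`, and `y (r-2) > 0`, `y (r-2) ≥ 1 / S`. By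
induction `x (1 + t) ≥ (1/S) ^ (α ^ t)` and `y (r - 2 - t) ≥ (1/S) ^ (α ^ t)` (`Real.rpow_mul`,
monotonicity of `· ^ α`). With `i = 1 + j` and `i ≤ r - 2 - j` (from `2 j + 3 ≤ r`):
`x i, y i ≥ (1/S) ^ (α ^ j)`, so `x i ^ α + y i ^ α ≥ 2 (1/S) ^ (α ^ (j+1)) ≥ 1` by `hθ`:
contradiction. -/
theorem seq_lemma (α : ℝ) (h0 : 0 < α) (h1 : α < 1) (S r j : ℕ) (hS : 1 ≤ S) (hj : 2 * j + 3 ≤ r)
    (hθ : (1 : ℝ) / 2 ≤ (1 / (S : ℝ)) ^ (α ^ (j + 1))) (a b : ℕ → ℕ)
    (hab : ∀ i < r, a i + b i ≤ S) (hstep : ∀ i, i + 1 < r → S - b i ≤ a (i + 1)) :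
    ∃ i < r, (S : ℝ) ^ α ≤ (a i : ℝ) ^ α + (b i : ℝ) ^ α := by
  by_contra hcon
  push Not at hcon
  have hS0 : (0 : ℝ) < S := by exact_mod_cast hS
  have hSa : (0 : ℝ) < (S : ℝ) ^ α := Real.rpow_pos_of_pos hS0 α
  set x : ℕ → ℝ := fun i => (a i : ℝ) / S with hx
  set y : ℕ → ℝ := fun i => (b i : ℝ) / S with hy
  have hx0 : ∀ i, 0 ≤ x i := fun i => by positivity
  have hy0 : ∀ i, 0 ≤ y i := fun i => by positivity
  have hx1 : ∀ i < r, x i ≤ 1 := fun i hi => by
    have h := hab i hi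
    rw [hx]
    simp only
    rw [div_le_one hS0]
    exact_mod_cast (by omega : a i ≤ S)
  have hy1 : ∀ i < r, y i ≤ 1 := fun i hi => by
    have h := hab i hi
    rw [hy]
    simp only
    rw [div_le_one hS0]
    exact_mod_cast (by omega : b i ≤ S)
  have hxy : ∀ i < r, x i ^ α + y i ^ α < 1 := fun i hi => by
    have h := hcon i hi
    rw [hx, hy]
    simp only
    rw [Real.div_rpow (by positivity) hS0.le, Real.div_rpow (by positivity) hS0.le, ← add_div,
      div_lt_one hSa]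
    exact h
  have hxa : ∀ i < r, x i ≤ x i ^ α := fun i hi => by
    have h := Real.rpow_le_rpow_of_exponent_ge' (hx0 i) (hx1 i hi) h0.le h1.le
    rwa [Real.rpow_one] at h
  have hya : ∀ i < r, y i ≤ y i ^ α := fun i hi => by
    have h := Real.rpow_le_rpow_of_exponent_ge' (hy0 i) (hy1 i hi) h0.le h1.le
    rwa [Real.rpow_one] at h
  have hst : ∀ i, i + 1 < r → 1 - y i ≤ x (i + 1) := fun i hi => by
    have h := hstep i hi
    have h2 := hab i (by omega)
    have h3 : (S : ℝ) ≤ a (i + 1) + b i := by exact_mod_cast (by omega : S ≤ a (i + 1) + b i)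
    rw [hx, hy]
    simp only
    rw [sub_le_iff_le_add, ← add_div, le_div_iff₀ hS0, one_mul]
    exact h3
  have hA : ∀ i, i + 1 < r → x i ^ α ≤ x (i + 1) := fun i hi => by
    have h2 := hxy i (by omega)
    have h3 := hya i (by omega)
    have h4 := hst i hi
    linarith
  have hB : ∀ i, i + 1 < r → y (i + 1) ^ α ≤ y i := fun i hi => by
    have h2 := hxy (i + 1) (by omega)
    have h3 := hxa (i + 1) (by omega)
    have h4 := hst i hi
    linarith
  have hq0 : (0 : ℝ) ≤ 1 / S := by positivity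
  have hq1 : (1 : ℝ) / S ≤ 1 := by
    rw [div_le_one hS0]
    exact_mod_cast hS
  have hx1' : 1 / (S : ℝ) ≤ x 1 := by
    have h2 := hxy 0 (by omega)
    have h3 := hya 0 (by omega)
    have h4 := hst 0 (by omega)
    have h5 : 0 ≤ x 0 ^ α := Real.rpow_nonneg (hx0 0) α
    have h6 : 0 < x 1 := by
      have h7 : (0 : ℕ) + 1 = 1 := rfl
      rw [h7] at h4
      linarith
    have h8 : 0 < a 1 := by
      by_contra h9
      have h10 : a 1 = 0 := by omega
      rw [hx] at h6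
      simp [h10] at h6
    rw [hx]
    simp only
    apply div_le_div_of_nonneg_right _ hS0.le
    exact_mod_cast h8
  have hyr : 1 / (S : ℝ) ≤ y (r - 2) := by
    have h2 := hxy (r - 2 + 1) (by omega)
    have h3 := hxa (r - 2 + 1) (by omega)
    have h4 := hst (r - 2) (by omega)
    have h5 : 0 ≤ y (r - 2 + 1) ^ α := Real.rpow_nonneg (hy0 _) α
    have h6 : 0 < y (r - 2) := by linarith
    have h8 : 0 < b (r - 2) := by
      by_contra h9
      have h10 : b (r - 2) = 0 := by omega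
      rw [hy] at h6
      simp [h10] at h6
    rw [hy]
    simp only
    apply div_le_div_of_nonneg_right _ hS0.le
    exact_mod_cast h8
  have hXi : ∀ t, 1 + t < r → (1 / (S : ℝ)) ^ (α ^ t) ≤ x (1 + t) := by
    intro t
    induction t with
    | zero =>
      intro _
      rw [pow_zero, Real.rpow_one]
      exact hx1'
    | succ t ih =>
      intro ht
      have h2 := ih (by omega)
      have h3 := hA (1 + t) (by omega)
      have h4 : ((1 / (S : ℝ)) ^ (α ^ t)) ^ α ≤ x (1 + t) ^ α :=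
        Real.rpow_le_rpow (Real.rpow_nonneg hq0 _) h2 h0.le
      rw [← Real.rpow_mul hq0, ← pow_succ] at h4
      exact h4.trans h3
  have hYi : ∀ t, t ≤ r - 2 → (1 / (S : ℝ)) ^ (α ^ t) ≤ y (r - 2 - t) := by
    intro t
    induction t with
    | zero =>
      intro _
      rw [pow_zero, Real.rpow_one]
      exact hyr
    | succ t ih =>
      intro ht
      have h2 := ih (by omega)
      have h3 := hB (r - 2 - (t + 1)) (by omega)
      have h5 : r - 2 - (t + 1) + 1 = r - 2 - t := by omega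
      rw [h5] at h3
      have h4 : ((1 / (S : ℝ)) ^ (α ^ t)) ^ α ≤ y (r - 2 - t) ^ α :=
        Real.rpow_le_rpow (Real.rpow_nonneg hq0 _) h2 h0.le
      rw [← Real.rpow_mul hq0, ← pow_succ] at h4
      exact h4.trans h3
  have hpos : 0 < 1 / (S : ℝ) := by positivity
  have hX := hXi j (by omega)
  have hY : (1 / (S : ℝ)) ^ (α ^ j) ≤ y (1 + j) := by
    have h2 := hYi (r - 3 - j) (by omega)
    have h3 : r - 2 - (r - 3 - j) = 1 + j := by omega
    rw [h3] at h2
    refine le_trans ?_ h2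
    apply Real.rpow_le_rpow_of_exponent_ge hpos hq1
    exact pow_le_pow_of_le_one h0.le h1.le (by omega)
  have hend : ∀ z : ℝ, (1 / (S : ℝ)) ^ (α ^ j) ≤ z → (1 : ℝ) / 2 ≤ z ^ α := by
    intro z hz
    have h4 : ((1 / (S : ℝ)) ^ (α ^ j)) ^ α ≤ z ^ α :=
      Real.rpow_le_rpow (Real.rpow_nonneg hq0 _) hz h0.le
    rw [← Real.rpow_mul hq0, ← pow_succ] at h4
    exact hθ.trans h4
  have h5 := hxy (1 + j) (by omega)
  have h6 := hend _ hX
  have h7 := hend _ hY
  linarith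

end SDE
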