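import Pool.Agent.SDE.Step
import Pool.Agent.SDE.SeqL
import Pool.Agent.SDE.Asym

/-!
# SDE/MainAbs
The main theorem for abstract drawings.
-/

namespace SDE
namespace AbsDrawing

/-- **Main theorem, abstract version.** Proof. `r, j, N0` from `asym`, `A = 1 / (2 * N0 ^ α + 2)`
(so `0 < A ≤ 1/2`, `A * N0 ^ α ≤ 1`). Strong induction on `n = W.card`. `n = 0, 1`: `k = 0` (`Has`
with `M = ∅`), `A * (n ^ α - 1) ≤ 0`. `2 ≤ n < N0`: `k = 1` (`M = {(u, v)}` for two different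
elements), `A * (n ^ α - 1) ≤ A * N0 ^ α ≤ 1`. `n ≥ N0`: `step` with `r = r n`. First alternative:
`k = (n-1)/4^(11 r)/9 ≥ n ^ α ≥ A (n ^ α - 1)`. Second alternative: `S = n - 1 - 4 ^ (11 r) ≥ 1`;
`seq_lemma` with `a i = (A i).card`, `b i = (B i).card` gives `i < r` with
`S ^ α ≤ a i ^ α + b i ^ α`. By induction (`a i, b i < n`) there are `k ≥ A (a i ^ α - 1)`,
`l ≥ A (b i ^ α - 1)` with `Has (A i) k`, `Has (B i) l`, so `Has W (k + l + 1)` and `k + l + 1 ≥ A
(a i ^ α + b i ^ α) - 2 A + 1 ≥ A S ^ α - 2 A + 1 ≥ A (n ^ α - 1) - 2 A + 1 ≥ A (n ^ α - 1)` since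
`2 A ≤ 1`. -/
theorem main_abs (α : ℝ) (h0 : 0 < α) (h1 : α < 1) :
    ∃ A : ℝ, 0 < A ∧ ∀ (V : Type) [DecidableEq V] (D : AbsDrawing V) (W : Finset V),
      ∃ k : ℕ, D.Has W k ∧ A * ((W.card : ℝ) ^ α - 1) ≤ k := by
  obtain ⟨r, j, N0, hN0, hasy⟩ := asym α h0 h1
  have hNα : 0 ≤ (N0 : ℝ) ^ α := Real.rpow_nonneg (Nat.cast_nonneg _) _
  obtain ⟨A, hA⟩ : ∃ A : ℝ, A = 1 / (2 * (N0 : ℝ) ^ α + 2) := ⟨_, rfl⟩
  have hden : 0 < 2 * (N0 : ℝ) ^ α + 2 := by linarith
  have hA0 : 0 < A := by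
    rw [hA]
    exact one_div_pos.2 hden
  have hAd : A * (2 * (N0 : ℝ) ^ α + 2) = 1 := by
    rw [hA]
    exact one_div_mul_cancel hden.ne'
  have hAN0 : 0 ≤ A * (N0 : ℝ) ^ α := mul_nonneg hA0.le hNα
  have hA2 : 2 * A ≤ 1 := by nlinarith
  have hAN : A * (N0 : ℝ) ^ α ≤ 1 := by nlinarith
  refine ⟨A, hA0, fun V _ D W => ?_⟩
  generalize hn : W.card = n
  induction n using Nat.strong_induction_on generalizing W with
  | _ n ih =>
    have hn0 : 0 ≤ (n : ℝ) ^ α := Real.rpow_nonneg (Nat.cast_nonneg _) _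
    rcases Nat.lt_or_ge n 2 with h2 | h2
    · refine ⟨0, ⟨∅, ⟨fun p hp => absurd hp (Finset.notMem_empty p),
        fun p hp => absurd hp (Finset.notMem_empty p)⟩, rfl⟩, ?_⟩
      have h3 : (n : ℝ) ^ α ≤ 1 := by
        refine Real.rpow_le_one (Nat.cast_nonneg _) ?_ h0.le
        exact_mod_cast (by omega : n ≤ 1)
      rw [Nat.cast_zero]
      exact mul_nonpos_of_nonneg_of_nonpos hA0.le (by linarith)
    · rcases Nat.lt_or_ge n N0 with h3 | h3
      · obtain ⟨u, hu, v, hv, huv⟩ := Finset.one_lt_card.1 (by omega : 1 < W.card)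
        refine ⟨1, ⟨{(u, v)}, ⟨fun p hp => ?_, fun p hp q hq hpq => ?_⟩,
          Finset.card_singleton _⟩, ?_⟩
        · rw [Finset.mem_singleton] at hp
          rw [hp]
          exact ⟨hu, hv, huv⟩
        · rw [Finset.mem_singleton] at hp hq
          exact absurd (hp.trans hq.symm) hpq
        · have h4 : (n : ℝ) ^ α ≤ (N0 : ℝ) ^ α :=
            Real.rpow_le_rpow (Nat.cast_nonneg _) (by exact_mod_cast h3.le) h0.le
          have h5 : A * (n : ℝ) ^ α ≤ A * (N0 : ℝ) ^ α := mul_le_mul_of_nonneg_left h4 hA0.le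
          rw [Nat.cast_one, mul_sub, mul_one]
          linarith
      · obtain ⟨hr1, hr2, hr3, hr4, hr5, hr6⟩ := hasy n h3
        rcases D.step (r n) hr1 W (by omega) with h4 | ⟨hG, X, Y, hXY, hab, hst, hH⟩
        · rw [hn] at h4
          refine ⟨_, h4, ?_⟩
          have h5 : A * (n : ℝ) ^ α ≤ 1 * (n : ℝ) ^ α :=
            mul_le_mul_of_nonneg_right (by linarith) hn0
          rw [mul_sub, mul_one]
          linarith
        · rw [hn] at hG hab hst
          obtain ⟨i, hi, hi2⟩ := seq_lemma α h0 h1 (n - 1 - 4 ^ (11 * r n)) (r n) (j n) (by omega)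
            hr2 hr6 (fun i => (X i).card) (fun i => (Y i).card) hab hst
          have hlt := (hab i hi).trans (Nat.sub_le (n - 1) (4 ^ (11 * r n)))
          obtain ⟨k, hk, hk2⟩ := ih (X i).card (by omega) (X i) rfl
          obtain ⟨l, hl, hl2⟩ := ih (Y i).card (by omega) (Y i) rfl
          refine ⟨k + l + 1, hH i hi k l hk hl, ?_⟩
          have h5 : A * ((n : ℝ) ^ α - 1) ≤
              A * (((X i).card : ℝ) ^ α + ((Y i).card : ℝ) ^ α) :=
            mul_le_mul_of_nonneg_left (by linarith) hA0.le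
          push_cast
          rw [mul_sub, mul_one] at hk2 hl2
          rw [mul_add] at h5
          linarith

end AbsDrawing
end SDE
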