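import Pool.Agent.SDE.Win

/-!
# SDE/Sep
Separation by a window of 11 consecutive elements of a twisted chain.
-/

namespace SDE
namespace AbsDrawing

variable {V : Type*} {D : AbsDrawing V}

theorem TChain.sep {v : V} {U : Finset V} {m : ℕ} {x : ℕ → V} (h : D.TChain v U m x)
    {t : ℕ} (ht : t + 10 < m) {u w p q : V} (hu : u ∈ U) (hw : w ∈ U) (hp : p ∈ U) (hq : q ∈ U)
    (cu : D.cr (x t) (x (t + 1)) v u = false) (cw : D.cr (x t) (x (t + 1)) v w = false)
    (cp : D.cr (x (t + 9)) (x (t + 10)) v p = true)
    (cq : D.cr (x (t + 9)) (x (t + 10)) v q = true) :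
    D.cr u w p q = false := by
  rcases hc : D.cr u w p q with _ | _
  · rfl
  · exfalso
    obtain ⟨nuw, nup, nuq, nwp, nwq, npq⟩ := D.cr_ne hc
    obtain ⟨H1, H2⟩ := h.winHigh ht hp hq npq cp cq
    have key : ∀ i j, t + 4 ≤ i → i < j → j ≤ t + 6 →
        (D.bef u w p q v (x i) ^^ D.bef u w p q v (x j)) = true := by
      intro i j hi hij hj
      have him : i < m := by omega
      have hjm : j < m := by omega
      have nij : x i ≠ x j := fun e => hij.ne (h.inj i j him hjm e)
      have nU : ∀ a ∈ U, ∀ k, k < m → a ≠ x k := fun a ha k hk e => h.notU k hk (e ▸ ha)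
      have nv : ∀ a ∈ U, a ≠ v := fun a ha e => h.vU (e ▸ ha)
      have e := D.p4 (h.ne i him).symm (h.ne j hjm).symm nij (nv u hu) (nU u hu i him)
        (nU u hu j hjm) (nv p hp) (nU p hp i him) (nU p hp j hjm) hc
        (H1 i (by omega) (by omega)) (H1 j (by omega) (by omega))
        (H2 i j (by omega) hij hj)
      rw [h.sideU hij hjm hu, h.sideU hij hjm hp,
        h.low (s := t) (by omega) hij hjm hu cu,
        h.high (t := t + 9) hij (by omega) (by omega) hp cp] at e
      have b3 : D.bef u w p q (x i) (x j) = false := by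
        unfold bef
        rw [h.winLow ht hu hw nuw cu cw hi hij (by omega)]
        rfl
      rw [b3] at e
      simpa using e
    have k1 := key (t + 4) (t + 5) (by omega) (by omega) (by omega)
    have k2 := key (t + 4) (t + 6) (by omega) (by omega) (by omega)
    have k3 := key (t + 5) (t + 6) (by omega) (by omega) (by omega)
    revert k1 k2 k3
    cases D.bef u w p q v (x (t + 4)) <;> cases D.bef u w p q v (x (t + 5)) <;>
      cases D.bef u w p q v (x (t + 6)) <;> simp

end AbsDrawing
end SDE
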