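import Pool.Agent.SDE.Sep

/-!
# SDE/WinS
The window step.
-/

namespace SDE
namespace AbsDrawing

variable {V : Type*} [DecidableEq V] {D : AbsDrawing V}

omit [DecidableEq V] in
/-- Two edges are disjoint. -/
private def Rel (D : AbsDrawing V) (p q : V × V) : Prop :=
  p.1 ≠ q.1 ∧ p.1 ≠ q.2 ∧ p.2 ≠ q.1 ∧ p.2 ≠ q.2 ∧ D.cr p.1 p.2 q.1 q.2 = false

omit [DecidableEq V] in
private theorem Rel.symm {p q : V × V} (h : Rel D p q) : Rel D q p :=
  ⟨h.1.symm, h.2.2.1.symm, h.2.1.symm, h.2.2.2.1.symm, by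
    rw [D.cr_comm]
    exact h.2.2.2.2⟩

/-- **Window step.** If the low side `V0` has `k` and the high side `V1` has `l` pairwise disjoint
edges then `W ⊇ U ∪ {x (t+4), x (t+5)}` has `k + l + 1`. Proof: union of the two matchings and the
edge `x_(t+4) x_(t+5)`: `V0` and `V1` are disjoint (`high` and `low` exclude each other, e.g.
`cr (x t) (x (t+1)) v u` is `false` on `V0` and `true` on `V1` by `TChain.high`); edges of `V0`
against edges of `V1`: `sep`; the new edge against `V0`: `winLow`, against `V1`: `winHigh`; the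
`x`'s are not in `U` (`notU`). `cr_comm` for symmetry. -/
theorem TChain.step {v : V} {U W : Finset V} {m : ℕ} {x : ℕ → V} (h : D.TChain v U m x)
    {t : ℕ} (ht : t + 10 < m) (hUW : U ⊆ W) (hxW : ∀ i, i < m → x i ∈ W) {k l : ℕ}
    (h0 : D.Has (U.filter (fun u => D.cr (x t) (x (t + 1)) v u = false)) k)
    (h1 : D.Has (U.filter (fun u => D.cr (x (t + 9)) (x (t + 10)) v u = true)) l) :
    D.Has W (k + l + 1) := by
  obtain ⟨M0, hM0, hc0⟩ := h0
  obtain ⟨M1, hM1, hc1⟩ := h1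
  have hxU : ∀ i, i < m → ∀ u ∈ U, u ≠ x i := fun i hi u hu he => h.notU i hi (he ▸ hu)
  have m0 : ∀ p ∈ M0, (p.1 ∈ U ∧ D.cr (x t) (x (t + 1)) v p.1 = false) ∧
      (p.2 ∈ U ∧ D.cr (x t) (x (t + 1)) v p.2 = false) ∧ p.1 ≠ p.2 := fun p hp =>
    ⟨Finset.mem_filter.1 (hM0.1 p hp).1, Finset.mem_filter.1 (hM0.1 p hp).2.1, (hM0.1 p hp).2.2⟩
  have m1 : ∀ p ∈ M1, (p.1 ∈ U ∧ D.cr (x (t + 9)) (x (t + 10)) v p.1 = true) ∧
      (p.2 ∈ U ∧ D.cr (x (t + 9)) (x (t + 10)) v p.2 = true) ∧ p.1 ≠ p.2 := fun p hp =>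
    ⟨Finset.mem_filter.1 (hM1.1 p hp).1, Finset.mem_filter.1 (hM1.1 p hp).2.1, (hM1.1 p hp).2.2⟩
  have hdis : ∀ u u', u ∈ U → u' ∈ U → D.cr (x t) (x (t + 1)) v u = false →
      D.cr (x (t + 9)) (x (t + 10)) v u' = true → u ≠ u' := by
    rintro u u' hu hu' k0 k1 rfl
    have k2 := h.high (t := t + 9) (i := t) (j := t + 1) (by omega) (by omega) (by omega) hu k1
    rw [k0] at k2
    exact Bool.false_ne_true k2
  have r01 : ∀ p ∈ M0, ∀ q ∈ M1, Rel D p q := fun p hp q hq =>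
    ⟨hdis _ _ (m0 p hp).1.1 (m1 q hq).1.1 (m0 p hp).1.2 (m1 q hq).1.2,
      hdis _ _ (m0 p hp).1.1 (m1 q hq).2.1.1 (m0 p hp).1.2 (m1 q hq).2.1.2,
      hdis _ _ (m0 p hp).2.1.1 (m1 q hq).1.1 (m0 p hp).2.1.2 (m1 q hq).1.2,
      hdis _ _ (m0 p hp).2.1.1 (m1 q hq).2.1.1 (m0 p hp).2.1.2 (m1 q hq).2.1.2,
      h.sep ht (m0 p hp).1.1 (m0 p hp).2.1.1 (m1 q hq).1.1 (m1 q hq).2.1.1 (m0 p hp).1.2
        (m0 p hp).2.1.2 (m1 q hq).1.2 (m1 q hq).2.1.2⟩
  have r0e : ∀ p ∈ M0, Rel D p (x (t + 4), x (t + 5)) := fun p hp =>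
    ⟨hxU _ (by omega) _ (m0 p hp).1.1, hxU _ (by omega) _ (m0 p hp).1.1,
      hxU _ (by omega) _ (m0 p hp).2.1.1, hxU _ (by omega) _ (m0 p hp).2.1.1,
      h.winLow ht (m0 p hp).1.1 (m0 p hp).2.1.1 (m0 p hp).2.2 (m0 p hp).1.2 (m0 p hp).2.1.2
        (by omega) (by omega) (by omega)⟩
  have r1e : ∀ p ∈ M1, Rel D p (x (t + 4), x (t + 5)) := fun p hp =>
    ⟨hxU _ (by omega) _ (m1 p hp).1.1, hxU _ (by omega) _ (m1 p hp).1.1,
      hxU _ (by omega) _ (m1 p hp).2.1.1, hxU _ (by omega) _ (m1 p hp).2.1.1,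
      (h.winHigh ht (m1 p hp).1.1 (m1 p hp).2.1.1 (m1 p hp).2.2 (m1 p hp).1.2
        (m1 p hp).2.1.2).2 _ _ (by omega) (by omega) (by omega)⟩
  have he0 : (x (t + 4), x (t + 5)) ∉ M0 ∪ M1 := by
    intro he
    rcases Finset.mem_union.1 he with he | he
    · exact (r0e _ he).1 rfl
    · exact (r1e _ he).1 rfl
  have hdj : Disjoint M0 M1 := Finset.disjoint_left.2 fun p hp hp' => (r01 p hp p hp').1 rfl
  refine ⟨insert (x (t + 4), x (t + 5)) (M0 ∪ M1), ⟨?_, ?_⟩, ?_⟩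
  · intro p hp
    rcases Finset.mem_insert.1 hp with rfl | hp
    · refine ⟨hxW _ (by omega), hxW _ (by omega), fun h2 => ?_⟩
      have := h.inj _ _ (by omega) (by omega) h2
      omega
    · rcases Finset.mem_union.1 hp with hp | hp
      · exact ⟨hUW (m0 p hp).1.1, hUW (m0 p hp).2.1.1, (m0 p hp).2.2⟩
      · exact ⟨hUW (m1 p hp).1.1, hUW (m1 p hp).2.1.1, (m1 p hp).2.2⟩
  · intro p hp q hq hne
    rcases Finset.mem_insert.1 hp with rfl | hp
    · rcases Finset.mem_insert.1 hq with rfl | hq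
      · exact absurd rfl hne
      · rcases Finset.mem_union.1 hq with hq | hq
        · exact (r0e q hq).symm
        · exact (r1e q hq).symm
    · rcases Finset.mem_insert.1 hq with rfl | hq
      · rcases Finset.mem_union.1 hp with hp | hp
        · exact r0e p hp
        · exact r1e p hp
      · rcases Finset.mem_union.1 hp with hp | hp <;> rcases Finset.mem_union.1 hq with hq | hq
        · exact hM0.2 p hp q hq hne
        · exact r01 p hp q hq
        · exact (r01 q hq p hp).symm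
        · exact hM1.2 p hp q hq hne
  · rw [Finset.card_insert_of_notMem he0, Finset.card_union_of_disjoint hdj, hc0, hc1]

end AbsDrawing
end SDE
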