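import Pool.Agent.SDE.Block
import Pool.Agent.SDE.Chain
import Pool.Agent.SDE.WinS

/-!
# SDE/Step
The recursion step.
-/

namespace SDE
namespace AbsDrawing

variable {V : Type*} [DecidableEq V] (D : AbsDrawing V)

/-- `Has` is monotone. -/
theorem Has.mono {D : AbsDrawing V} {W W' : Finset V} (hs : W ⊆ W') {k l : ℕ} (h : D.Has W k)
    (hl : l ≤ k) : D.Has W' l := by
  obtain ⟨M, hM, rfl⟩ := h
  obtain ⟨M', hM', rfl⟩ := Finset.exists_subset_card_eq hl
  exact ⟨M', ⟨fun p hp => ⟨hs (hM.1 p (hM' hp)).1, hs (hM.1 p (hM' hp)).2.1,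
    (hM.1 p (hM' hp)).2.2⟩, fun p hp q hq hpq => hM.2 p (hM' hp) q (hM' hq) hpq⟩, rfl⟩

/-- **Recursion step.** Proof. `W.card = n ≥ 3`, choose `v ∈ W`, `X = W.erase v`,
`X.card = n - 1`. `block` with `G = 4 ^ (11 * r)` (`2 ≤ G` as `r ≥ 1`): the first alternative
gives (a) (`Has.mono` from `X` to `W`). Otherwise a `WBlock` and by `WBlock.chain` with
`m = 11 * r` a `TChain v U m x`, `U = X.filter (fun u => ∀ k < G, u ≠ z k)`, `U.card = n - 1 - G`
(`z` injective on `range G`, `z k ∈ X`; so `G ≤ n - 1`). For `i < r` put `t = 11 * i`,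
`A i = U.filter (cr (x t) (x (t+1)) v u = false)`,
`B i = U.filter (cr (x (t+9)) (x (t+10)) v u = true)`; they are disjoint (`TChain.high`).
`a i = (A i).card`, `b i = (B i).card`, `p i = n - 1 - G - a i - b i`. `a i + p i ≤ a (i+1)`, that
is `U \ B i ⊆ A (i+1)`: if `cr (x (t+9)) (x (t+10)) v u = false` then
`cr (x (t+11)) (x (t+12)) v u = false` (`TChain.low` with `s = t + 9`). (c) is `TChain.step` and
`Has.mono`. -/
theorem step (r : ℕ) (hr : 1 ≤ r) (W : Finset V) (hW : 3 ≤ W.card) :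
    D.Has W ((W.card - 1) / 4 ^ (11 * r) / 9) ∨
    (4 ^ (11 * r) ≤ W.card - 1 ∧ ∃ (A B : ℕ → Finset V), (∀ i < r, A i ⊆ W ∧ B i ⊆ W) ∧
      (∀ i < r, (A i).card + (B i).card ≤ W.card - 1 - 4 ^ (11 * r)) ∧
      (∀ i, i + 1 < r → W.card - 1 - 4 ^ (11 * r) - (B i).card ≤ (A (i + 1)).card) ∧
      ∀ i < r, ∀ k l, D.Has (A i) k → D.Has (B i) l → D.Has W (k + l + 1)) := by
  obtain ⟨v, hv⟩ : W.Nonempty := Finset.card_pos.1 (by omega)
  have hXc : (W.erase v).card = W.card - 1 := Finset.card_erase_of_mem hv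
  have hvX : v ∉ W.erase v := Finset.notMem_erase v W
  have hXW : W.erase v ⊆ W := Finset.erase_subset v W
  have hG : 2 ≤ 4 ^ (11 * r) := by
    calc 2 ≤ 4 ^ 1 := by norm_num
      _ ≤ 4 ^ (11 * r) := Nat.pow_le_pow_right (by norm_num) (by omega)
  rcases D.block hvX (by omega) (4 ^ (11 * r)) hG with h | ⟨w, z, hB⟩
  · left
    rw [hXc] at h
    exact h.mono hXW le_rfl
  right
  obtain ⟨x, hx, hT0⟩ := hB.chain (11 * r) le_rfl
  obtain ⟨U, hU, hT⟩ : ∃ U : Finset V, (∀ u, u ∈ U ↔ u ∈ W.erase v ∧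
      ∀ k, k < 4 ^ (11 * r) → u ≠ z k) ∧ D.TChain v U (11 * r) x :=
    ⟨_, fun u => Finset.mem_filter, hT0⟩
  have hinj : Set.InjOn z (Finset.range (4 ^ (11 * r)) : Set ℕ) := by
    intro i hi j hj hij
    rw [Finset.mem_coe, Finset.mem_range] at hi hj
    rcases lt_trichotomy i j with h | h | h
    · have h1 := hB.mono i j h hj
      rw [hij] at h1
      exact absurd h1 (lt_irrefl _)
    · exact h
    · have h1 := hB.mono j i h hi
      rw [hij] at h1
      exact absurd h1 (lt_irrefl _)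
  have hZc : ((Finset.range (4 ^ (11 * r))).image z).card = 4 ^ (11 * r) := by
    rw [Finset.card_image_of_injOn hinj, Finset.card_range]
  have hZX : (Finset.range (4 ^ (11 * r))).image z ⊆ W.erase v := by
    intro u hu
    obtain ⟨k, hk, rfl⟩ := Finset.mem_image.1 hu
    exact hB.mem k (Finset.mem_range.1 hk)
  have hUe : U = W.erase v \ (Finset.range (4 ^ (11 * r))).image z := by
    ext u
    rw [hU, Finset.mem_sdiff, Finset.mem_image]
    refine and_congr Iff.rfl ⟨?_, ?_⟩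
    · rintro h1 ⟨k, hk, h2⟩
      exact h1 k (Finset.mem_range.1 hk) h2.symm
    · intro h1 k hk h2
      exact h1 ⟨k, Finset.mem_range.2 hk, h2.symm⟩
  have hUc : U.card = W.card - 1 - 4 ^ (11 * r) := by
    rw [hUe, Finset.card_sdiff_of_subset hZX, hXc, hZc]
  have hUW : U ⊆ W := fun u hu => hXW ((hU u).1 hu).1
  refine ⟨?_, fun i => U.filter fun u => D.cr (x (11 * i)) (x (11 * i + 1)) v u = false,
    fun i => U.filter fun u => D.cr (x (11 * i + 9)) (x (11 * i + 10)) v u = true,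
    fun i _ => ⟨(Finset.filter_subset _ _).trans hUW, (Finset.filter_subset _ _).trans hUW⟩,
    ?_, ?_, ?_⟩
  · rw [← hXc, ← hZc]
    exact Finset.card_le_card hZX
  · intro i hi
    rw [← hUc, ← Finset.card_union_of_disjoint]
    · exact Finset.card_le_card (Finset.union_subset (Finset.filter_subset _ _)
        (Finset.filter_subset _ _))
    · rw [Finset.disjoint_left]
      intro u h1 h2
      rw [Finset.mem_filter] at h1 h2
      have h3 := hT.high (t := 11 * i + 9) (i := 11 * i) (j := 11 * i + 1) (by omega) (by omega)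
        (by omega) h1.1 h2.2
      rw [h1.2] at h3
      exact absurd h3 (by decide)
  · intro i hi
    rw [← hUc]
    refine (Finset.le_card_sdiff _ _).trans (Finset.card_le_card fun u hu => ?_)
    rw [Finset.mem_sdiff, Finset.mem_filter] at hu
    rw [Finset.mem_filter]
    refine ⟨hu.1, ?_⟩
    have h1 : D.cr (x (11 * i + 9)) (x (11 * i + 9 + 1)) v u = false := by
      rw [← Bool.not_eq_true]
      exact fun h => hu.2 ⟨hu.1, h⟩
    exact hT.low (s := 11 * i + 9) (i := 11 * (i + 1)) (j := 11 * (i + 1) + 1) (by omega)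
      (by omega) (by omega) hu.1 h1
  · intro i hi k l h1 h2
    exact hT.step (t := 11 * i) (by omega) hUW (fun j hj => hXW (hx j hj)) h1 h2

end AbsDrawing
end SDE
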