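import Pool.Agent.SDE.TBasicA

/-!
# SDE/TBasic
Symmetries of crossings and positions.
-/

open Set

namespace SDE
namespace SimpleDrawing

variable {V : Type*} (D : SimpleDrawing V)

theorem cr_ne {a b c d : V} (h : D.cr a b c d = true) :
    a ≠ b ∧ a ≠ c ∧ a ≠ d ∧ b ≠ c ∧ b ≠ d ∧ c ≠ d := by
  obtain ⟨h1, h2, h3, h4, h5, h6, -⟩ := D.cr_spec h
  exact ⟨h1, h2, h3, h4, h5, h6⟩

theorem cr_swap (a b c d : V) : D.cr b a c d = D.cr a b c d := by
  by_cases hab : a = b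
  · rw [hab]
  · unfold cr
    rw [decide_eq_decide, D.edge_comm hab]
    constructor
    · rintro ⟨-, h2, h3, h4, h5, h6, h7⟩
      exact ⟨hab, h4, h5, h2, h3, h6, h7⟩
    · rintro ⟨-, h2, h3, h4, h5, h6, h7⟩
      exact ⟨fun h => hab h.symm, h4, h5, h2, h3, h6, h7⟩

theorem cr_comm (a b c d : V) : D.cr c d a b = D.cr a b c d := by
  unfold cr
  rw [decide_eq_decide, inter_comm]
  constructor
  · rintro ⟨h1, h2, h3, h4, h5, h6, h7⟩
    exact ⟨h6, h2.symm, h4.symm, h3.symm, h5.symm, h1, h7⟩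
  · rintro ⟨h1, h2, h3, h4, h5, h6, h7⟩
    exact ⟨h6, h2.symm, h4.symm, h3.symm, h5.symm, h1, h7⟩

theorem pos_rev {a b c d : V} (h : D.cr a b c d = true) : D.pos b a c d = 1 - D.pos a b c d := by
  obtain ⟨hab, -, -, -, -, -, -, -, hu, -⟩ := D.cr_spec h
  have h' : D.cr b a c d = true := by
    rw [D.cr_swap]
    exact h
  obtain ⟨-, -, -, -, -, -, ht, he, -⟩ := D.cr_spec h'
  rw [D.rev a b hab _ ⟨ht.1.le, ht.2.le⟩] at he
  have h1 := hu (1 - D.pos b a c d) ⟨by linarith [ht.2], by linarith [ht.1]⟩ he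
  linarith

theorem pos_swap (a b c d : V) : D.pos a b d c = D.pos a b c d := by
  by_cases hcd : c = d
  · rw [hcd]
  · unfold pos
    rw [D.edge_comm hcd]

theorem pos_ne {a b c d e : V} (h1 : D.cr a b c d = true) (h2 : D.cr a b c e = true) (h : d ≠ e) :
    D.pos a b c d ≠ D.pos a b c e := by
  intro he
  obtain ⟨hab, hac, had, hbc, hbd, hcd, ht, hm, -⟩ := D.cr_spec h1
  obtain ⟨-, -, hae, -, hbe, hce, -, hm', -⟩ := D.cr_spec h2
  rw [← he] at hm'
  have hz := D.adj hcd hce h hm hm'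
  exact D.vertex a b c hab hac.symm hbc.symm ⟨_, ⟨ht.1.le, ht.2.le⟩, hz⟩

/-- The crossing point seen from both edges. -/
theorem cross_point {a b c d : V} (h : D.cr a b c d = true) :
    D.curve a b (D.pos a b c d) = D.curve c d (D.pos c d a b) := by
  obtain ⟨-, -, -, -, -, -, ht, hm, -⟩ := D.cr_spec h
  have h' : D.cr c d a b = true := by
    rw [D.cr_comm]
    exact h
  obtain ⟨-, -, -, -, -, -, -, -, hu, -⟩ := D.cr_spec h'
  obtain ⟨s, hs, hsz⟩ := hm
  have h1 : D.curve c d s ∈ D.edge a b := by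
    rw [hsz]
    exact ⟨_, ⟨ht.1.le, ht.2.le⟩, rfl⟩
  rw [← hu s hs h1]
  exact hsz.symm

end SimpleDrawing
end SDE
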