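import Pool.Agent.SDE.TDefs

/-!
# SDE/TBasicA
Elementary facts about a simple drawing: crossings and their positions.
-/

open Set

namespace SDE
namespace SimpleDrawing

variable {V : Type*} (D : SimpleDrawing V)

open Classical in
/-- the edges `ab`, `cd` have four different endpoints and cross -/
noncomputable def cr (a b c d : V) : Bool :=
  decide (a ≠ b ∧ a ≠ c ∧ a ≠ d ∧ b ≠ c ∧ b ≠ d ∧ c ≠ d ∧ (D.edge a b ∩ D.edge c d).Nonempty)

/-- the parameter on the edge from `a` to `b` of the crossing with `cd` -/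
noncomputable def pos (a b c d : V) : ℝ := sInf {t | t ∈ Icc (0 : ℝ) 1 ∧ D.curve a b t ∈ D.edge c d}

theorem edge_comm {a b : V} (h : a ≠ b) : D.edge b a = D.edge a b := by
  ext z
  constructor
  · rintro ⟨t, ht, rfl⟩
    exact ⟨1 - t, ⟨by linarith [ht.2], by linarith [ht.1]⟩, (D.rev a b h t ht).symm⟩
  · rintro ⟨t, ht, rfl⟩
    refine ⟨1 - t, ⟨by linarith [ht.2], by linarith [ht.1]⟩, ?_⟩
    rw [D.rev a b h (1 - t) ⟨by linarith [ht.2], by linarith [ht.1]⟩, sub_sub_cancel]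

theorem edge_closed {a b : V} (h : a ≠ b) : IsClosed (D.edge a b) := by
  exact (isCompact_Icc.image_of_continuousOn (D.cont a b h)).isClosed

/-- Everything about a crossing. Proof: `one` (with `a,b,c,d` different): the intersection is a
single point `p`; `cross`: the first alternative of `cross` is impossible (`vertex`, or `pt_inj`),
so `p` is different from the four vertices and a proper crossing; `p = curve a b t` with a unique
`t` (`inj`), `t ≠ 0, 1` (`start`, `finish`), so `pos a b c d = sInf {t} = t`. -/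
theorem cr_spec {a b c d : V} (h : D.cr a b c d = true) :
    a ≠ b ∧ a ≠ c ∧ a ≠ d ∧ b ≠ c ∧ b ≠ d ∧ c ≠ d ∧
      D.pos a b c d ∈ Ioo (0 : ℝ) 1 ∧ D.curve a b (D.pos a b c d) ∈ D.edge c d ∧
      (∀ t ∈ Icc (0 : ℝ) 1, D.curve a b t ∈ D.edge c d → t = D.pos a b c d) ∧
      ProperCross (D.edge a b) (D.edge c d) (D.curve a b (D.pos a b c d)) ∧
      ProperCross (D.edge c d) (D.edge a b) (D.curve a b (D.pos a b c d)) := by
  have h' : a ≠ b ∧ a ≠ c ∧ a ≠ d ∧ b ≠ c ∧ b ≠ d ∧ c ≠ d ∧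
      (D.edge a b ∩ D.edge c d).Nonempty := by
    unfold cr at h
    simpa only [decide_eq_true_eq] using h
  obtain ⟨hab, hac, had, hbc, hbd, hcd, p, hp1, hp2⟩ := h'
  have hpt : ∀ {x y : V}, x ≠ y → p = D.pt x → p = D.pt y → False := fun hxy h1 h2 =>
    hxy (D.pt_inj (h1.symm.trans h2))
  have hcross := D.cross a b c d hab hcd (fun h => hac h.1) (fun h => had h.1) p ⟨hp1, hp2⟩
  have hcross' := D.cross c d a b hcd hab (fun h => hac h.1.symm) (fun h => hbc h.1.symm) p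
    ⟨hp2, hp1⟩
  have hno : ¬ ((p = D.pt a ∨ p = D.pt b) ∧ (p = D.pt c ∨ p = D.pt d)) := by
    rintro ⟨h1 | h1, h2 | h2⟩
    · exact hpt hac h1 h2
    · exact hpt had h1 h2
    · exact hpt hbc h1 h2
    · exact hpt hbd h1 h2
  obtain ⟨ha, hb, hc, hd, hP⟩ := hcross.resolve_left hno
  obtain ⟨-, -, -, -, hP'⟩ := hcross'.resolve_left fun h => hno ⟨h.2, h.1⟩
  obtain ⟨t, ht, rfl⟩ := hp1
  have huniq : ∀ s ∈ Icc (0 : ℝ) 1, D.curve a b s ∈ D.edge c d → s = t := by
    intro s hs hs'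
    refine D.inj a b hab hs ht ?_
    exact D.one a b c d hab hcd (fun h => hac h.1) (fun h => had h.1) ⟨⟨s, hs, rfl⟩, hs'⟩
      ⟨⟨t, ht, rfl⟩, hp2⟩
  have hset : {t | t ∈ Icc (0 : ℝ) 1 ∧ D.curve a b t ∈ D.edge c d} = {t} := by
    ext s
    exact ⟨fun hs => huniq s hs.1 hs.2, fun hs => by
      rw [mem_singleton_iff] at hs
      rw [hs]
      exact ⟨ht, hp2⟩⟩
  have hpos : D.pos a b c d = t := by
    unfold pos
    rw [hset, csInf_singleton]
  rw [hpos]
  refine ⟨hab, hac, had, hbc, hbd, hcd, ⟨?_, ?_⟩, hp2, huniq, hP, hP'⟩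
  · rcases ht.1.lt_or_eq with h0 | h0
    · exact h0
    · exfalso
      apply ha
      rw [← h0, D.start a b hab]
  · rcases ht.2.lt_or_eq with h0 | h0
    · exact h0
    · exfalso
      apply hb
      rw [h0, D.finish a b hab]

/-- Non crossing edges with four different endpoints are disjoint. -/
theorem cr_false {a b c d : V} (hab : a ≠ b) (hac : a ≠ c) (had : a ≠ d) (hbc : b ≠ c) (hbd : b ≠ d)
    (hcd : c ≠ d) (h : D.cr a b c d = false) : Disjoint (D.edge a b) (D.edge c d) := by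
  have h' : ¬ (a ≠ b ∧ a ≠ c ∧ a ≠ d ∧ b ≠ c ∧ b ≠ d ∧ c ≠ d ∧
      (D.edge a b ∩ D.edge c d).Nonempty) := by
    unfold cr at h
    simpa only [decide_eq_false_iff_not] using h
  rw [disjoint_iff_inter_eq_empty, ← not_nonempty_iff_eq_empty]
  exact fun hne => h' ⟨hab, hac, had, hbc, hbd, hcd, hne⟩

/-- Edges with a common endpoint meet only there. -/
theorem adj {a b c : V} (hab : a ≠ b) (hac : a ≠ c) (hbc : b ≠ c) {z : ℂ} (h1 : z ∈ D.edge a b)
    (h2 : z ∈ D.edge a c) : z = D.pt a := by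
  refine D.one a b a c hab hac (fun h => hbc h.2) (fun h => hac h.1) ⟨h1, h2⟩ ⟨?_, ?_⟩
  · exact ⟨0, ⟨le_rfl, zero_le_one⟩, D.start a b hab⟩
  · exact ⟨0, ⟨le_rfl, zero_le_one⟩, D.start a c hac⟩

end SimpleDrawing
end SDE
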