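import Mathlib

/-!
# SDE/TChartA
A path which is an axis in a chart.
-/

open Set Metric

namespace SDE

/-- Intermediate values on both sides of a zero of a strictly monotone function. -/
private theorem TChartA_ivt {g : ℝ → ℝ} {a s0 b : ℝ} (ha : a < s0) (hb : s0 < b)
    (hc : ContinuousOn g (Icc a b)) (hm : StrictMonoOn g (Icc a b)) (h0 : g s0 = 0) {ε : ℝ}
    (hε : 0 < ε) :
    ∃ s1 s2 ρ : ℝ, a ≤ s1 ∧ s1 < s0 ∧ s0 < s2 ∧ s2 ≤ b ∧ 0 < ρ ∧ ρ < ε ∧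
      (∀ t ∈ Icc s1 s2, |g t| ≤ ρ) ∧ g s1 = -ρ ∧ g s2 = ρ := by
  have ma : a ∈ Icc a b := ⟨le_rfl, (ha.trans hb).le⟩
  have mb : b ∈ Icc a b := ⟨(ha.trans hb).le, le_rfl⟩
  have m0 : s0 ∈ Icc a b := ⟨ha.le, hb.le⟩
  have h1 : g a < 0 := h0 ▸ hm ma m0 ha
  have h2 : 0 < g b := h0 ▸ hm m0 mb hb
  obtain ⟨ρ, hρ0, hρ⟩ : ∃ ρ : ℝ, 0 < ρ ∧ ρ < min (min (-g a) (g b)) ε :=
    exists_between (lt_min (lt_min (neg_pos.2 h1) h2) hε)
  obtain ⟨hρ1, hρ4⟩ := lt_min_iff.1 hρ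
  obtain ⟨hρ2, hρ3⟩ := lt_min_iff.1 hρ1
  obtain ⟨s1, ⟨k1, k2⟩, k3⟩ := intermediate_value_Icc ha.le
    (hc.mono (Icc_subset_Icc_right hb.le)) (show -ρ ∈ Icc (g a) (g s0) from
      ⟨by linarith, by rw [h0]; linarith⟩)
  obtain ⟨s2, ⟨k4, k5⟩, k6⟩ := intermediate_value_Icc hb.le
    (hc.mono (Icc_subset_Icc_left ha.le)) (show ρ ∈ Icc (g s0) (g b) from
      ⟨by rw [h0]; exact hρ0.le, hρ3.le⟩)
  have k7 : s1 < s0 := lt_of_le_of_ne k2 (by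
    rintro rfl
    rw [h0] at k3
    linarith)
  have k8 : s0 < s2 := lt_of_le_of_ne k4 (by
    rintro rfl
    rw [h0] at k6
    linarith)
  have m1 : s1 ∈ Icc a b := ⟨k1, k2.trans hb.le⟩
  have m2 : s2 ∈ Icc a b := ⟨ha.le.trans k4, k5⟩
  refine ⟨s1, s2, ρ, k1, k7, k8, k5, hρ0, hρ4, fun t ht => ?_, k3, k6⟩
  have mt : t ∈ Icc a b := ⟨k1.trans ht.1, ht.2.trans k5⟩
  have q1 := (hm.le_iff_le m1 mt).2 ht.1
  have q2 := (hm.le_iff_le mt m2).2 ht.2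
  rw [k3] at q1
  rw [k6] at q2
  exact abs_le.2 ⟨q1, q2⟩

/-- In the chart, the path `f` runs monotonically along the real axis near `s0`. There are
`s1 < s0 < s2` in `[0,1]` and `ρ ∈ (0,1)`, `σ = ±1` such that `f` maps `[s1, s2]` into the source,
`e (f t)` is real on `[s1,s2]`, `e (f s1) = -σ ρ`, `e (f s2) = σ ρ`, `|e (f t)| ≤ ρ` on `[s1,s2]`.
Proof: the source is open, so `f t ∈ source` for `t` near `s0`; `r t = (e (f t)).re` is
continuous, injective near `s0` (`f` injective, `e` injective, `im = 0`), `r s0 = 0`, so strictly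
monotone near `s0` (`ContinuousOn.strictMonoOn_of_injOn_Icc'`); take `ρ` smaller than `|r|` at
both ends of a small interval and apply the intermediate value theorem on both sides. -/
theorem chart_path {f : ℝ → ℂ} (hc : ContinuousOn f (Icc 0 1)) (hi : InjOn f (Icc 0 1)) {s0 : ℝ}
    (hs : s0 ∈ Ioo (0 : ℝ) 1) (e : OpenPartialHomeomorph ℂ ℂ) (hp : f s0 ∈ e.source)
    (hp0 : e (f s0) = 0) (ht : e.target = ball 0 1)
    (hA : ∀ z ∈ e.source, z ∈ f '' Icc 0 1 → (e z).im = 0) (ε : ℝ) (hε : 0 < ε) :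
    ∃ s1 s2 ρ : ℝ, ∃ σ : ℝ, 0 ≤ s1 ∧ s1 < s0 ∧ s0 < s2 ∧ s2 ≤ 1 ∧ 0 < ρ ∧ ρ < 1 ∧ ρ < ε ∧
      (σ = 1 ∨ σ = -1) ∧
      (∀ t ∈ Icc s1 s2, f t ∈ e.source ∧ (e (f t)).im = 0 ∧ |(e (f t)).re| ≤ ρ) ∧
      e (f s1) = ((-σ * ρ : ℝ) : ℂ) ∧ e (f s2) = ((σ * ρ : ℝ) : ℂ) := by
  have hn : Icc (0 : ℝ) 1 ∈ nhds s0 := Icc_mem_nhds hs.1 hs.2
  have hcs : ContinuousAt f s0 := hc.continuousAt hn
  have h1 : ∀ᶠ t in nhds s0, f t ∈ e.source := hcs.eventually (e.open_source.mem_nhds hp)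
  obtain ⟨δ, hδ, h2⟩ := Metric.eventually_nhds_iff_ball.1 (h1.and hn)
  have ha : s0 - δ / 2 < s0 := by linarith
  have hb : s0 < s0 + δ / 2 := by linarith
  have h3 : ∀ t ∈ Icc (s0 - δ / 2) (s0 + δ / 2), f t ∈ e.source ∧ t ∈ Icc (0 : ℝ) 1 := by
    intro t ht
    refine h2 t ?_
    rw [mem_ball, Real.dist_eq, abs_lt]
    exact ⟨by linarith [ht.1], by linarith [ht.2]⟩
  have him : ∀ t ∈ Icc (s0 - δ / 2) (s0 + δ / 2), (e (f t)).im = 0 := fun t ht =>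
    hA _ (h3 t ht).1 ⟨t, (h3 t ht).2, rfl⟩
  have hcr : ContinuousOn (fun t => (e (f t)).re) (Icc (s0 - δ / 2) (s0 + δ / 2)) := by
    refine Complex.continuous_re.comp_continuousOn ?_
    exact e.continuousOn.comp (hc.mono fun t ht => (h3 t ht).2) fun t ht => (h3 t ht).1
  have hir : InjOn (fun t => (e (f t)).re) (Icc (s0 - δ / 2) (s0 + δ / 2)) := by
    intro t ht t' ht' h
    have h4 : e (f t) = e (f t') := Complex.ext h ((him t ht).trans (him t' ht').symm)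
    exact hi (h3 t ht).2 (h3 t' ht').2 (e.injOn (h3 t ht).1 (h3 t' ht').1 h4)
  have hr0 : (e (f s0)).re = 0 := by rw [hp0, Complex.zero_re]
  obtain ⟨σ, hσ, hmono⟩ : ∃ σ : ℝ, (σ = 1 ∨ σ = -1) ∧
      StrictMonoOn (fun t => σ * (e (f t)).re) (Icc (s0 - δ / 2) (s0 + δ / 2)) := by
    rcases hcr.strictMonoOn_of_injOn_Icc' (ha.trans hb).le hir with h | h
    · refine ⟨1, Or.inl rfl, ?_⟩
      intro t ht t' ht' htt
      have := h ht ht' htt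
      simpa using this
    · refine ⟨-1, Or.inr rfl, ?_⟩
      intro t ht t' ht' htt
      have := h ht ht' htt
      simpa using this
  have hσ2 : σ * σ = 1 := by
    rcases hσ with h | h <;> rw [h] <;> norm_num
  obtain ⟨s1, s2, ρ, q1, q2, q3, q4, q5, q6, q7, q8, q9⟩ := TChartA_ivt ha hb
    (continuousOn_const.mul hcr) hmono (show σ * (e (f s0)).re = 0 by rw [hr0, mul_zero])
    (lt_min hε one_pos)
  obtain ⟨q10, q11⟩ := lt_min_iff.1 q6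
  have m1 : s1 ∈ Icc (s0 - δ / 2) (s0 + δ / 2) := ⟨q1, by linarith⟩
  have m2 : s2 ∈ Icc (s0 - δ / 2) (s0 + δ / 2) := ⟨by linarith, q4⟩
  have hrec : ∀ x y : ℝ, σ * x = y → x = σ * y := by
    intro x y h
    rw [← h, ← mul_assoc, hσ2, one_mul]
  refine ⟨s1, s2, ρ, σ, (h3 s1 m1).2.1, q2, q3, (h3 s2 m2).2.2, q5, q11, q10, hσ, ?_, ?_, ?_⟩
  · intro t ht
    have mt : t ∈ Icc (s0 - δ / 2) (s0 + δ / 2) := ⟨q1.trans ht.1, ht.2.trans q4⟩
    refine ⟨(h3 t mt).1, him t mt, ?_⟩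
    have := q7 t ht
    rcases hσ with h | h
    · simpa [h] using this
    · simpa [h] using this
  · have h5 : (e (f s1)).re = σ * -ρ := hrec _ _ q8
    apply Complex.ext
    · rw [h5, Complex.ofReal_re]
      ring
    · rw [him s1 m1, Complex.ofReal_im]
  · have h5 : (e (f s2)).re = σ * ρ := hrec _ _ q9
    apply Complex.ext
    · rw [h5, Complex.ofReal_re]
    · rw [him s2 m2, Complex.ofReal_im]

end SDE
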