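import Mathlib

/-!
# SDE/TChartB
The crossing path in the chart.
-/

open Set Metric

namespace SDE

/-- In the chart the crossing path `h` runs along the imaginary axis and changes the sign of the
imaginary part at `t0`. Proof: `y t = (e (h t)).im` is continuous and injective near `t0`
(`re = 0`), so strictly monotone, `y t0 = 0`. -/
theorem chart_cross {h : ℝ → ℂ} (hc : ContinuousOn h (Icc 0 1)) (hi : InjOn h (Icc 0 1)) {t0 : ℝ}
    (hs : t0 ∈ Ioo (0 : ℝ) 1) (e : OpenPartialHomeomorph ℂ ℂ) (hp : h t0 ∈ e.source)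
    (hp0 : e (h t0) = 0) (ht : e.target = ball 0 1)
    (hB : ∀ z ∈ e.source, z ∈ h '' Icc 0 1 → (e z).re = 0) (η : ℝ) (hη : 0 < η) :
    ∃ δ : ℝ, 0 < δ ∧ ∃ σ : ℝ, (σ = 1 ∨ σ = -1) ∧ ∀ s ∈ Ioo (0 : ℝ) δ,
      t0 - s ∈ Icc (0 : ℝ) 1 ∧ t0 + s ∈ Icc (0 : ℝ) 1 ∧
      (∃ y : ℝ, 0 < y ∧ y < η ∧ h (t0 + s) = e.symm (σ * y * Complex.I)) ∧
      (∃ y : ℝ, 0 < y ∧ y < η ∧ h (t0 - s) = e.symm (-(σ * y * Complex.I))) := by
  obtain ⟨h0, h1⟩ := hs
  have hcat : ContinuousAt h t0 := hc.continuousAt (Icc_mem_nhds h0 h1)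
  have hsrc : ∀ᶠ t in nhds t0, h t ∈ e.source :=
    hcat.eventually (e.open_source.mem_nhds hp)
  have heat : ContinuousAt (fun t => e (h t)) t0 :=
    ContinuousAt.comp (e.continuousAt hp) hcat
  have hsm : ∀ᶠ t in nhds t0, ‖e (h t)‖ < η := by
    have h2 : ContinuousAt (fun t => ‖e (h t)‖) t0 := heat.norm
    have h3 : ‖e (h t0)‖ < η := by
      rw [hp0, norm_zero]
      exact hη
    exact h2.eventually (gt_mem_nhds h3)
  have hin : ∀ᶠ t in nhds t0, t ∈ Icc (0 : ℝ) 1 := Icc_mem_nhds h0 h1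
  obtain ⟨δ, hδ, hall⟩ := Metric.eventually_nhds_iff.1 (hsrc.and (hsm.and hin))
  have hJ : ∀ t ∈ Ioo (t0 - δ) (t0 + δ), h t ∈ e.source ∧ ‖e (h t)‖ < η ∧ t ∈ Icc (0 : ℝ) 1 := by
    intro t ht
    refine hall ?_
    rw [Real.dist_eq, abs_lt]
    constructor <;> linarith [ht.1, ht.2]
  obtain ⟨y, hy⟩ : ∃ y : ℝ → ℝ, y = fun t => (e (h t)).im := ⟨_, rfl⟩
  have hval : ∀ t ∈ Ioo (t0 - δ) (t0 + δ), e (h t) = y t * Complex.I := by
    intro t ht
    have h2 := hJ t ht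
    have h3 := hB (h t) h2.1 ⟨t, h2.2.2, rfl⟩
    rw [hy]
    apply Complex.ext
    · simp [h3]
    · simp
  have hyc : ContinuousOn y (Ioo (t0 - δ) (t0 + δ)) := by
    rw [hy]
    refine Complex.continuous_im.comp_continuousOn ?_
    exact e.continuousOn.comp (hc.mono fun t ht => (hJ t ht).2.2) fun t ht => (hJ t ht).1
  have hyi : InjOn y (Ioo (t0 - δ) (t0 + δ)) := by
    intro a ha b hb hab
    refine hi (hJ a ha).2.2 (hJ b hb).2.2 (e.injOn (hJ a ha).1 (hJ b hb).1 ?_)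
    rw [hval a ha, hval b hb, hab]
  have ht0 : t0 ∈ Ioo (t0 - δ) (t0 + δ) := ⟨by linarith, by linarith⟩
  have hy0 : y t0 = 0 := by
    rw [hy]
    simp [hp0]
  have hyb : ∀ t ∈ Ioo (t0 - δ) (t0 + δ), |y t| < η := by
    intro t ht
    have h2 := (hJ t ht).2.1
    rw [hval t ht, norm_mul, Complex.norm_I, mul_one, Complex.norm_real, Real.norm_eq_abs] at h2
    exact h2
  have hsymm : ∀ t ∈ Ioo (t0 - δ) (t0 + δ), h t = e.symm (y t * Complex.I) := by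
    intro t ht
    rw [← hval t ht, e.left_inv (hJ t ht).1]
  refine ⟨δ, hδ, ?_⟩
  rcases ContinuousOn.strictMonoOn_of_injOn_Ioo (by linarith) hyc hyi with hm | hm
  · refine ⟨1, Or.inl rfl, fun s hs => ?_⟩
    have a1 : t0 - s ∈ Ioo (t0 - δ) (t0 + δ) := ⟨by linarith [hs.2], by linarith [hs.1]⟩
    have a2 : t0 + s ∈ Ioo (t0 - δ) (t0 + δ) := ⟨by linarith [hs.1], by linarith [hs.2]⟩
    have b1 := hm a1 ht0 (by linarith [hs.1])
    have b2 := hm ht0 a2 (by linarith [hs.1])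
    rw [hy0] at b1 b2
    refine ⟨(hJ _ a1).2.2, (hJ _ a2).2.2, ⟨y (t0 + s), b2, (abs_lt.1 (hyb _ a2)).2, ?_⟩,
      ⟨-y (t0 - s), by linarith, by linarith [(abs_lt.1 (hyb _ a1)).1], ?_⟩⟩
    · rw [hsymm _ a2]
      congr 1
      push_cast
      ring
    · rw [hsymm _ a1]
      congr 1
      push_cast
      ring
  · refine ⟨-1, Or.inr rfl, fun s hs => ?_⟩
    have a1 : t0 - s ∈ Ioo (t0 - δ) (t0 + δ) := ⟨by linarith [hs.2], by linarith [hs.1]⟩
    have a2 : t0 + s ∈ Ioo (t0 - δ) (t0 + δ) := ⟨by linarith [hs.1], by linarith [hs.2]⟩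
    have b1 := hm a1 ht0 (by linarith [hs.1])
    have b2 := hm ht0 a2 (by linarith [hs.1])
    rw [hy0] at b1 b2
    refine ⟨(hJ _ a1).2.2, (hJ _ a2).2.2, ⟨-y (t0 + s), by linarith,
      by linarith [(abs_lt.1 (hyb _ a2)).1], ?_⟩, ⟨y (t0 - s), b1, (abs_lt.1 (hyb _ a1)).2, ?_⟩⟩
    · rw [hsymm _ a2]
      congr 1
      push_cast
      ring
    · rw [hsymm _ a1]
      congr 1
      push_cast
      ring

end SDE
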