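import Pool.Agent.SDE.TPathA

/-!
# SDE/TConv
Paths in a convex subset of a chart.
-/

open Set Metric

namespace SDE

private theorem exists_log {g : ℝ × ℝ → ℂ} (hg : Continuous g) (h0 : ∀ p, g p ≠ 0) :
    ∃ L : ℝ × ℝ → ℂ, Continuous L ∧ ∀ p, Complex.exp (L p) = g p := by
  obtain ⟨F, ⟨-, hF⟩, -⟩ := Complex.isCoveringMap_exp.existsUnique_continuousMap_lifts
    (⟨fun p => ⟨g p, h0 p⟩, hg.subtype_mk _⟩ : C(ℝ × ℝ, {z : ℂ // z ≠ 0})) (0, 0)
    (Complex.log (g (0, 0))) (Subtype.ext (Complex.exp_log (h0 _)))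
  exact ⟨F, F.continuous, fun p => congrArg Subtype.val (congrFun hF p)⟩

private theorem const_lift {w q : ℂ} {L : ℝ → ℂ} (hL : Continuous L)
    (h : ∀ s ∈ Icc (0 : ℝ) 1, Complex.exp (L s) = w - q) : L 1 = L 0 := by
  have h1 : IsLift (fun _ => w) q L := ⟨hL.continuousOn, h⟩
  have h2 : IsLift (fun _ => w) q (fun _ => L 0) :=
    ⟨continuousOn_const, fun t _ => h 0 ⟨le_rfl, zero_le_one⟩⟩
  have h3 := dl_eq h1
  rw [dl_eq h2, sub_self] at h3
  exact sub_eq_zero.1 h3.symm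

/-- Paths in a closed half disc of the chart: the change of the logarithm around a point outside
depends only on the endpoints. Precisely: `K` a convex subset of the unit disc, `q` a point with
`q ∉ e.symm '' K`; for two paths `c, c'` in `K` with the same endpoints
`dl (e.symm ∘ c) q = dl (e.symm ∘ c') q`. Proof: the straight homotopy; or: if `K` is open convex
there is a logarithm of `e.symm z - q` on `K` (`exists_continuousOn_eqOn_exp_comp`), and `L ∘ c`,
`L ∘ c'` are lifts, use `dl_eq`. For a general convex set `K` (closed half disc) use the homotopy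
`H (s, t) = (1-s) c t + s c' t` on the square, i.e. a logarithm of `e.symm (H (s,t)) - q` on
`[0,1]²` (extend to `ℝ × ℝ` by projection, simply connected), which is constant in `s` at
`t = 0, 1`. -/
theorem dl_convex (e : OpenPartialHomeomorph ℂ ℂ) (ht : e.target = ball 0 1) {K : Set ℂ}
    (hK : Convex ℝ K) (hKb : K ⊆ ball 0 1) {q : ℂ} (hq : ∀ z ∈ K, e.symm z ≠ q) {c c' : ℝ → ℂ}
    (hc : ContinuousOn c (Icc 0 1)) (hc' : ContinuousOn c' (Icc 0 1))
    (hcK : ∀ t ∈ Icc (0 : ℝ) 1, c t ∈ K) (hcK' : ∀ t ∈ Icc (0 : ℝ) 1, c' t ∈ K)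
    (h0 : c 0 = c' 0) (h1 : c 1 = c' 1) :
    dl (fun t => e.symm (c t)) q = dl (fun t => e.symm (c' t)) q := by
  obtain ⟨pr, hpr, hprm, hpre⟩ : ∃ pr : ℝ → ℝ, Continuous pr ∧ (∀ s, pr s ∈ Icc (0 : ℝ) 1) ∧
      ∀ s ∈ Icc (0 : ℝ) 1, pr s = s :=
    ⟨fun s => (projIcc (0 : ℝ) 1 zero_le_one s : ℝ), continuous_subtype_val.comp continuous_projIcc,
      fun s => (projIcc (0 : ℝ) 1 zero_le_one s).2, fun s hs =>
        congrArg Subtype.val (projIcc_of_mem zero_le_one hs)⟩
  have hcc : Continuous fun p : ℝ × ℝ => c (pr p.2) :=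
    hc.comp_continuous (hpr.comp continuous_snd) fun p => hprm _
  have hcc' : Continuous fun p : ℝ × ℝ => c' (pr p.2) :=
    hc'.comp_continuous (hpr.comp continuous_snd) fun p => hprm _
  have hp1 : Continuous fun p : ℝ × ℝ => pr p.1 := hpr.comp continuous_fst
  have hH : Continuous fun p : ℝ × ℝ => (1 - pr p.1) • c (pr p.2) + pr p.1 • c' (pr p.2) :=
    ((continuous_const.sub hp1).smul hcc).add (hp1.smul hcc')
  have hHK : ∀ p : ℝ × ℝ, (1 - pr p.1) • c (pr p.2) + pr p.1 • c' (pr p.2) ∈ K := fun p =>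
    hK (hcK _ (hprm _)) (hcK' _ (hprm _)) (sub_nonneg.2 (hprm _).2) (hprm _).1 (by ring)
  have hg : Continuous fun p : ℝ × ℝ =>
      e.symm ((1 - pr p.1) • c (pr p.2) + pr p.1 • c' (pr p.2)) - q :=
    (e.continuousOn_symm.comp_continuous hH fun p => by
      rw [ht]
      exact hKb (hHK p)).sub continuous_const
  obtain ⟨L, hL, hLe⟩ := exists_log hg fun p => sub_ne_zero.2 (hq _ (hHK p))
  have z0 : (0 : ℝ) ∈ Icc (0 : ℝ) 1 := ⟨le_rfl, zero_le_one⟩
  have z1 : (1 : ℝ) ∈ Icc (0 : ℝ) 1 := ⟨zero_le_one, le_rfl⟩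
  have e0 : ∀ t ∈ Icc (0 : ℝ) 1, Complex.exp (L (0, t)) = e.symm (c t) - q := by
    intro t htt
    rw [hLe]
    simp only [hpre 0 z0, hpre t htt, sub_zero, one_smul, zero_smul, add_zero]
  have e1 : ∀ t ∈ Icc (0 : ℝ) 1, Complex.exp (L (1, t)) = e.symm (c' t) - q := by
    intro t htt
    rw [hLe]
    simp only [hpre 1 z1, hpre t htt, sub_self, one_smul, zero_smul, zero_add]
  have l0 : IsLift (fun t => e.symm (c t)) q (fun t => L (0, t)) :=
    ⟨(hL.comp (continuous_const.prodMk continuous_id)).continuousOn, e0⟩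
  have l1 : IsLift (fun t => e.symm (c' t)) q (fun t => L (1, t)) :=
    ⟨(hL.comp (continuous_const.prodMk continuous_id)).continuousOn, e1⟩
  have k : ∀ t ∈ Icc (0 : ℝ) 1, c t = c' t → L (1, t) = L (0, t) := by
    intro t htt hct
    refine const_lift (w := e.symm (c t)) (q := q) (L := fun s => L (s, t))
      (hL.comp (continuous_id.prodMk continuous_const)) fun s hs => ?_
    rw [hLe]
    simp only [hpre s hs, hpre t htt, ← hct]
    rw [← add_smul, sub_add_cancel, one_smul]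
  rw [dl_eq l0, dl_eq l1, k 0 z0 h0, k 1 z1 h1]

end SDE
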