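import Mathlib

/-!
# SDE/TDefs
Topological simple drawings of the complete graph with vertex set `V` in the plane `ℂ = ℝ²`.
-/

open Set

namespace SDE

/-- `p` is a proper crossing of the sets `A` and `B` (two curves): some neighbourhood of `p` is
mapped by a homeomorphism onto the open unit disc, `p` to the centre, the part of `A` to the
horizontal and the part of `B` to the vertical diameter. -/
def ProperCross (A B : Set ℂ) (p : ℂ) : Prop :=
  ∃ e : OpenPartialHomeomorph ℂ ℂ, p ∈ e.source ∧ e p = 0 ∧ e.target = Metric.ball 0 1 ∧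
    ∀ z ∈ e.source, (z ∈ A ↔ (e z).im = 0) ∧ (z ∈ B ↔ (e z).re = 0)

/-- A simple drawing of the complete graph on `V` in the plane. `curve u v : [0,1] → ℂ` is the
edge `uv`, directed from `u` to `v`; `curve v u` is the same curve in the opposite direction. -/
structure SimpleDrawing (V : Type*) where
  pt : V → ℂ
  curve : V → V → ℝ → ℂ
  pt_inj : Function.Injective pt
  cont : ∀ u v : V, u ≠ v → ContinuousOn (curve u v) (Icc 0 1)
  inj : ∀ u v : V, u ≠ v → InjOn (curve u v) (Icc 0 1)
  start : ∀ u v : V, u ≠ v → curve u v 0 = pt u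
  finish : ∀ u v : V, u ≠ v → curve u v 1 = pt v
  rev : ∀ u v : V, u ≠ v → ∀ t ∈ Icc (0 : ℝ) 1, curve v u t = curve u v (1 - t)
  /-- no edge passes through a vertex other than its endpoints -/
  vertex : ∀ u v w : V, u ≠ v → w ≠ u → w ≠ v → pt w ∉ curve u v '' Icc 0 1
  /-- two different edges have at most one common point -/
  one : ∀ a b c d : V, a ≠ b → c ≠ d → ¬ (a = c ∧ b = d) → ¬ (a = d ∧ b = c) →
    (curve a b '' Icc 0 1 ∩ curve c d '' Icc 0 1).Subsingleton
  /-- a common point of two different edges is a common endpoint or a proper crossing -/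
  cross : ∀ a b c d : V, a ≠ b → c ≠ d → ¬ (a = c ∧ b = d) → ¬ (a = d ∧ b = c) →
    ∀ p ∈ curve a b '' Icc 0 1 ∩ curve c d '' Icc 0 1,
      ((p = pt a ∨ p = pt b) ∧ (p = pt c ∨ p = pt d)) ∨
      (p ≠ pt a ∧ p ≠ pt b ∧ p ≠ pt c ∧ p ≠ pt d ∧
        ProperCross (curve a b '' Icc 0 1) (curve c d '' Icc 0 1) p)

namespace SimpleDrawing

variable {V : Type*} (D : SimpleDrawing V)

/-- The edge `uv` as a set of points of the plane. -/
def edge (u v : V) : Set ℂ := D.curve u v '' Icc 0 1

end SimpleDrawing
end SDE
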