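import Pool.Agent.SDE.TDegA

/-!
# SDE/TDeg
A homeomorphism between plane regions has local degree `±1` (with the covering `exp` only).
-/

open Set Metric

namespace SDE

private theorem TDeg_const {S : Set ℂ} (hS : IsPreconnected S) {D : ℂ → ℂ}
    (hD : ContinuousOn D S) (hE : ∀ ω ∈ S, Complex.exp (D ω) = 1) {a b : ℂ} (ha : a ∈ S)
    (hb : b ∈ S) : D a = D b := by
  have h1 : ∀ ω ∈ S, ∃ N : ℤ, D ω = N * (2 * Real.pi * Complex.I) := fun ω hω =>
    Complex.exp_eq_one_iff.1 (hE ω hω)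
  choose! N hN using h1
  set g : ℂ → ℝ := fun ζ => (D ζ / (2 * Real.pi * Complex.I)).re with hg
  have hg1 : ∀ ζ ∈ S, g ζ = N ζ := by
    intro ζ hζ
    simp only [hg]
    rw [hN ζ hζ, mul_div_assoc, div_self Complex.two_pi_I_ne_zero, mul_one]
    exact Complex.intCast_re _
  have hgc : ContinuousOn g S := Complex.continuous_re.comp_continuousOn (hD.div_const _)
  have hlt : ∀ a b : ℂ, a ∈ S → b ∈ S → ¬ N a < N b := by
    intro a b ha hb hab
    have h2 : ((N a : ℝ) + 1 / 2) ∈ Icc (g a) (g b) := by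
      rw [hg1 a ha, hg1 b hb]
      have h3 : (N a : ℝ) + 1 ≤ N b := by exact_mod_cast hab
      exact ⟨by linarith, by linarith⟩
    obtain ⟨c, hc, hc'⟩ := hS.intermediate_value ha hb hgc h2
    rw [hg1 c hc] at hc'
    have h3 : (2 * N c : ℝ) = 2 * N a + 1 := by linarith
    have h4 : 2 * N c = 2 * N a + 1 := by exact_mod_cast h3
    omega
  have h3 : N a = N b := le_antisymm (not_lt.1 (hlt _ _ hb ha)) (not_lt.1 (hlt _ _ ha hb))
  rw [hN a ha, hN b hb, h3]

private theorem TDeg_hp (R : ℝ) : IsPreconnected {ζ : ℂ | ζ.re < R} := by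
  have h : {ζ : ℂ | ζ.re < R} = Complex.reLm ⁻¹' Iio R := rfl
  rw [h]
  exact ((convex_Iio R).linear_preimage Complex.reLm).isPreconnected

private theorem TDeg_re (ζ : ℂ) (k : ℤ) : (ζ + k * (2 * Real.pi * Complex.I)).re = ζ.re := by
  simp

private theorem TDeg_re1 (ζ : ℂ) : (ζ + 2 * Real.pi * Complex.I).re = ζ.re := by
  simp

private theorem TDeg_exp (ζ : ℂ) :
    Complex.exp (ζ + 2 * Real.pi * Complex.I) = Complex.exp ζ := by
  rw [Complex.exp_add, Complex.exp_two_pi_mul_I, mul_one]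

private theorem TDeg_iter {L : ℂ → ℂ} {N : ℤ} (h : ∀ ζ : ℂ, ζ.re < 0 →
    L (ζ + 2 * Real.pi * Complex.I) = L ζ + N * (2 * Real.pi * Complex.I)) (k : ℤ) {ζ : ℂ}
    (hζ : ζ.re < 0) : L (ζ + k * (2 * Real.pi * Complex.I)) =
      L ζ + k * (N * (2 * Real.pi * Complex.I)) := by
  induction k using Int.induction_on with
  | zero => simp
  | succ k ih =>
    have h1 := h (ζ + ((k : ℤ) : ℂ) * (2 * Real.pi * Complex.I)) (by rw [TDeg_re]; exact hζ)
    have h2 : ζ + (((k : ℤ) + 1 : ℤ) : ℂ) * (2 * Real.pi * Complex.I) =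
        ζ + ((k : ℤ) : ℂ) * (2 * Real.pi * Complex.I) + 2 * Real.pi * Complex.I := by
      push_cast
      ring
    rw [h2, h1, ih]
    push_cast
    ring
  | pred k ih =>
    have h1 := h (ζ + ((-(k : ℤ) - 1 : ℤ) : ℂ) * (2 * Real.pi * Complex.I))
      (by rw [TDeg_re]; exact hζ)
    have h2 : ζ + ((-(k : ℤ) - 1 : ℤ) : ℂ) * (2 * Real.pi * Complex.I) +
        2 * Real.pi * Complex.I = ζ + ((-(k : ℤ) : ℤ) : ℂ) * (2 * Real.pi * Complex.I) := by
      push_cast
      ring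
    rw [h2, ih] at h1
    have h3 : L (ζ + ((-(k : ℤ) - 1 : ℤ) : ℂ) * (2 * Real.pi * Complex.I)) =
        L ζ + ((-(k : ℤ) : ℤ) : ℂ) * (N * (2 * Real.pi * Complex.I)) -
          N * (2 * Real.pi * Complex.I) := by
      rw [h1]
      ring
    rw [h3]
    push_cast
    ring

/-- **Degree.** `e` a chart of the plane around `p` onto the unit disc, `e p = 0`, inverse
`g = e.symm`. Then there is a logarithm `L` of `g (exp ζ) - p` on `Re ζ < 0` with period `N = ±1`.
Proof. `F ζ = g (exp ζ) - p` is continuous and `≠ 0` for `Re ζ < 0` (`exp ζ` is in the unit disc,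
`≠ 0`); take `L`, `N` from `half_plane_log`, `half_plane_period`. The source of `e` contains a
ball `ball p ε`, `ε = exp R`. For `Re ω < R`: `p + exp ω` is in the source and `≠ p`,
`e (p + exp ω) ≠ 0`; take `L'` with `exp (L' ω) = e (p + exp ω)` on `Re ω < R`, period `N'`.
`Re (L' ω) < 0` because `‖e (..)‖ < 1`. Then
`exp (L (L' ω)) = g (exp (L' ω)) - p = g (e (p + exp ω)) - p = exp ω`, so `L (L' ω) - ω` is
continuous with values in `2πi ℤ`, hence a constant `c` on the half plane `Re ω < R`. Compare at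
`ω` and `ω + 2πi`: `ω + 2πi + c = L (L' ω + N' 2πi) = L (L' ω) + N' N 2πi = ω + c + N N' 2πi` (use
the period of `L` repeatedly, also for negative `N'`). So `N * N' = 1` and `N = 1` or `N = -1`
(`Int.eq_one_or_neg_one_of_mul_eq_one`). -/
theorem degree (e : OpenPartialHomeomorph ℂ ℂ) {p : ℂ} (hp : p ∈ e.source) (hp0 : e p = 0)
    (ht : e.target = ball 0 1) :
    ∃ (L : ℂ → ℂ) (N : ℤ), (N = 1 ∨ N = -1) ∧ ContinuousOn L {ζ : ℂ | ζ.re < 0} ∧
      (∀ ζ : ℂ, ζ.re < 0 → Complex.exp (L ζ) = e.symm (Complex.exp ζ) - p) ∧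
      ∀ ζ : ℂ, ζ.re < 0 →
        L (ζ + 2 * Real.pi * Complex.I) = L ζ + N * (2 * Real.pi * Complex.I) := by
  have hball : ∀ ζ : ℂ, ζ.re < 0 → Complex.exp ζ ∈ e.target := by
    intro ζ hζ
    rw [ht, mem_ball_zero_iff, Complex.norm_exp]
    exact Real.exp_lt_one_iff.2 hζ
  have hF : ContinuousOn (fun ζ : ℂ => e.symm (Complex.exp ζ) - p) {ζ : ℂ | ζ.re < 0} :=
    (e.continuousOn_symm.comp Complex.continuous_exp.continuousOn hball).sub continuousOn_const
  have hF0 : ∀ ζ : ℂ, ζ.re < 0 → e.symm (Complex.exp ζ) - p ≠ 0 := by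
    intro ζ hζ h
    have h1 : e (e.symm (Complex.exp ζ)) = e p := by rw [sub_eq_zero.1 h]
    rw [e.right_inv (hball ζ hζ), hp0] at h1
    exact Complex.exp_ne_zero ζ h1
  obtain ⟨L, hL, hE⟩ := half_plane_log 0 _ hF hF0
  obtain ⟨N, hN⟩ := half_plane_period 0 _ L hL hE (fun ζ => by rw [TDeg_exp])
  refine ⟨L, N, ?_, hL, hE, hN⟩
  obtain ⟨ε, hε, hεs⟩ := Metric.isOpen_iff.1 e.open_source p hp
  have hsrc : ∀ ω : ℂ, ω.re < Real.log ε → p + Complex.exp ω ∈ e.source := by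
    intro ω hω
    refine hεs ?_
    rw [mem_ball, dist_eq_norm, add_sub_cancel_left, Complex.norm_exp]
    exact (Real.lt_log_iff_exp_lt hε).1 hω
  have hF' : ContinuousOn (fun ω : ℂ => e (p + Complex.exp ω)) {ζ : ℂ | ζ.re < Real.log ε} :=
    e.continuousOn.comp (continuous_const.add Complex.continuous_exp).continuousOn hsrc
  have hF0' : ∀ ω : ℂ, ω.re < Real.log ε → e (p + Complex.exp ω) ≠ 0 := by
    intro ω hω h
    have h1 : p + Complex.exp ω = p := e.injOn (hsrc ω hω) hp (by rw [h, hp0])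
    exact Complex.exp_ne_zero ω (by linear_combination h1)
  obtain ⟨L', hL', hE'⟩ := half_plane_log (Real.log ε) _ hF' hF0'
  obtain ⟨N', hN'⟩ := half_plane_period (Real.log ε) _ L' hL' hE' (fun ζ => by rw [TDeg_exp])
  have hre : ∀ ω : ℂ, ω.re < Real.log ε → (L' ω).re < 0 := by
    intro ω hω
    have h1 : e (p + Complex.exp ω) ∈ e.target := e.map_source (hsrc ω hω)
    rw [ht, mem_ball_zero_iff, ← hE' ω hω, Complex.norm_exp] at h1
    exact Real.exp_lt_one_iff.1 h1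
  have hM : ∀ ω ∈ {ζ : ℂ | ζ.re < Real.log ε}, Complex.exp (L (L' ω) - ω) = 1 := by
    intro ω hω
    rw [Complex.exp_sub, hE _ (hre ω hω), hE' ω hω, e.left_inv (hsrc ω hω),
      add_sub_cancel_left, div_self (Complex.exp_ne_zero ω)]
  have hMc : ContinuousOn (fun ω : ℂ => L (L' ω) - ω) {ζ : ℂ | ζ.re < Real.log ε} :=
    (hL.comp hL' hre).sub continuousOn_id
  obtain ⟨ω, hω⟩ : ∃ ω : ℂ, ω.re < Real.log ε := ⟨((Real.log ε - 1 : ℝ) : ℂ), by
    rw [Complex.ofReal_re]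
    linarith⟩
  have hω1 : (ω + 2 * Real.pi * Complex.I).re < Real.log ε := by rw [TDeg_re1]; exact hω
  have h1 := TDeg_const (TDeg_hp _) hMc hM hω hω1
  rw [hN' ω hω, TDeg_iter hN N' (hre ω hω)] at h1
  have h2 : ((N' * N : ℤ) : ℂ) * (2 * Real.pi * Complex.I) =
      (1 : ℤ) * (2 * Real.pi * Complex.I) := by
    push_cast
    linear_combination -h1
  have h3 : N' * N = 1 := by
    exact_mod_cast mul_right_cancel₀ Complex.two_pi_I_ne_zero h2
  exact Int.eq_one_or_neg_one_of_mul_eq_one (by rw [mul_comm]; exact h3)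

end SDE
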