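import Mathlib

/-!
# SDE/TDegA
Logarithms on a left half plane.
-/

open Set Metric

namespace SDE

private theorem TDegA_conv (R : ℝ) : Convex ℝ {ζ : ℂ | ζ.re < R} := by
  have h : {ζ : ℂ | ζ.re < R} = Complex.reLm ⁻¹' Iio R := rfl
  rw [h]
  exact (convex_Iio R).linear_preimage Complex.reLm

/-- A continuous logarithm on a left half plane. Proof: the open half plane is convex, hence
simply connected; `exists_continuousOn_eqOn_exp_comp`. -/
theorem half_plane_log (R : ℝ) (F : ℂ → ℂ) (hF : ContinuousOn F {ζ : ℂ | ζ.re < R})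
    (h0 : ∀ ζ : ℂ, ζ.re < R → F ζ ≠ 0) :
    ∃ L : ℂ → ℂ, ContinuousOn L {ζ : ℂ | ζ.re < R} ∧
      ∀ ζ : ℂ, ζ.re < R → Complex.exp (L ζ) = F ζ := by
  have hne : ({ζ : ℂ | ζ.re < R}).Nonempty := ⟨((R - 1 : ℝ) : ℂ), by
    change ((R - 1 : ℝ) : ℂ).re < R
    rw [Complex.ofReal_re]
    linarith⟩
  have h1 : ContractibleSpace {ζ : ℂ | ζ.re < R} := (TDegA_conv R).contractibleSpace hne
  have h2 : IsSimplyConnected {ζ : ℂ | ζ.re < R} :=
    SimplyConnectedSpace.ofContractible {ζ : ℂ | ζ.re < R}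
  have hU : IsOpen {ζ : ℂ | ζ.re < R} := isOpen_lt Complex.continuous_re continuous_const
  obtain ⟨L, hL, hE⟩ := Complex.exists_continuousOn_eqOn_exp_comp h2 hU hF (by
    rintro ⟨ζ, hζ, h⟩
    exact h0 ζ hζ h)
  exact ⟨L, hL, fun ζ hζ => hE hζ⟩

/-- If `L` is a logarithm on the half plane of a `2πi`-periodic function, then
`L (ζ + 2πi) - L ζ = 2πi N` with a constant integer `N` (continuous, values in `2πi ℤ`, connected
half plane). -/
theorem half_plane_period (R : ℝ) (F L : ℂ → ℂ) (hL : ContinuousOn L {ζ : ℂ | ζ.re < R})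
    (hE : ∀ ζ : ℂ, ζ.re < R → Complex.exp (L ζ) = F ζ)
    (hp : ∀ ζ : ℂ, F (ζ + 2 * Real.pi * Complex.I) = F ζ) :
    ∃ N : ℤ, ∀ ζ : ℂ, ζ.re < R →
      L (ζ + 2 * Real.pi * Complex.I) = L ζ + N * (2 * Real.pi * Complex.I) := by
  have hre : ∀ ζ : ℂ, (ζ + 2 * Real.pi * Complex.I).re = ζ.re := fun ζ => by simp
  have h1 : ∀ ζ : ℂ, ζ.re < R → ∃ N : ℤ,
      L (ζ + 2 * Real.pi * Complex.I) = L ζ + N * (2 * Real.pi * Complex.I) := by
    intro ζ hζ
    refine Complex.exp_eq_exp_iff_exists_int.1 ?_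
    rw [hE _ (by rw [hre]; exact hζ), hE _ hζ, hp]
  choose! N hN using h1
  set g : ℂ → ℝ := fun ζ => ((L (ζ + 2 * Real.pi * Complex.I) - L ζ) /
    (2 * Real.pi * Complex.I)).re with hg
  have hg1 : ∀ ζ : ℂ, ζ.re < R → g ζ = N ζ := by
    intro ζ hζ
    simp only [hg]
    rw [hN ζ hζ, add_sub_cancel_left, mul_div_assoc, div_self Complex.two_pi_I_ne_zero, mul_one]
    exact Complex.intCast_re _
  have hgc : ContinuousOn g {ζ : ℂ | ζ.re < R} := by
    refine Complex.continuous_re.comp_continuousOn ((ContinuousOn.sub ?_ hL).div_const _)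
    refine hL.comp (by fun_prop) fun ζ hζ => ?_
    change (ζ + 2 * Real.pi * Complex.I).re < R
    rw [hre]
    exact hζ
  have hpre : IsPreconnected {ζ : ℂ | ζ.re < R} := (TDegA_conv R).isPreconnected
  have hlt : ∀ a b : ℂ, a.re < R → b.re < R → ¬ N a < N b := by
    intro a b ha hb hab
    have h2 : ((N a : ℝ) + 1 / 2) ∈ Icc (g a) (g b) := by
      rw [hg1 a ha, hg1 b hb]
      have h3 : (N a : ℝ) + 1 ≤ N b := by exact_mod_cast hab
      exact ⟨by linarith, by linarith⟩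
    obtain ⟨c, hc, hc'⟩ := hpre.intermediate_value ha hb hgc h2
    rw [hg1 c hc] at hc'
    have h3 : (2 * N c : ℝ) = 2 * N a + 1 := by linarith
    have h4 : 2 * N c = 2 * N a + 1 := by exact_mod_cast h3
    omega
  refine ⟨N ((R - 1 : ℝ) : ℂ), fun ζ hζ => ?_⟩
  have h2 : (((R - 1 : ℝ) : ℂ)).re < R := by
    rw [Complex.ofReal_re]
    linarith
  have h3 : N ζ = N ((R - 1 : ℝ) : ℂ) :=
    le_antisymm (not_lt.1 (hlt _ _ h2 hζ)) (not_lt.1 (hlt _ _ hζ h2))
  rw [← h3]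
  exact hN ζ hζ

end SDE
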