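import Pool.Agent.SDE.TPathA
import Pool.Agent.SDE.TDeg

/-!
# SDE/THalf
The two half circles in a chart.
-/

open Set Metric

namespace SDE

/-- the upper half circle of radius `ρ`, from `-ρ` to `ρ` -/
noncomputable def cup (ρ : ℝ) : ℝ → ℂ :=
  fun t => ρ * Complex.exp ((Real.pi * (1 - t) : ℝ) * Complex.I)

/-- the lower half circle of radius `ρ`, from `-ρ` to `ρ` -/
noncomputable def clo (ρ : ℝ) : ℝ → ℂ :=
  fun t => ρ * Complex.exp ((Real.pi * (1 + t) : ℝ) * Complex.I)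

/-- The difference of the two half circles around `p`. Proof: `dl_eq` with the lifts
`t ↦ L (log ρ + π (1 + t) i)` and `t ↦ L (log ρ + π (1 - t) i)` (`exp (L ζ) = e.symm (exp ζ) - p`,
`exp (log ρ + i s) = ρ exp (i s)`, `Re (log ρ + i s) = log ρ < 0`): `dl (e.symm ∘ clo ρ) p - dl
(e.symm ∘ cup ρ) p = (L (log ρ + 2πi) - L (log ρ + πi)) - (L (log ρ) - L (log ρ + πi)) = 2πi N`.
-/
theorem half_circles (e : OpenPartialHomeomorph ℂ ℂ) {p : ℂ} {L : ℂ → ℂ} {N : ℤ}
    (hL : ContinuousOn L {ζ : ℂ | ζ.re < 0})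
    (hE : ∀ ζ : ℂ, ζ.re < 0 → Complex.exp (L ζ) = e.symm (Complex.exp ζ) - p)
    (hN : ∀ ζ : ℂ, ζ.re < 0 → L (ζ + 2 * Real.pi * Complex.I) =
      L ζ + N * (2 * Real.pi * Complex.I))
    {ρ : ℝ} (h0 : 0 < ρ) (h1 : ρ < 1) :
    dl (fun t => e.symm (clo ρ t)) p - dl (fun t => e.symm (cup ρ t)) p =
      N * (2 * Real.pi * Complex.I) := by
  have hlog : Real.log ρ < 0 := Real.log_neg h0 h1
  have hre : ∀ u : ℝ, ((Real.log ρ : ℂ) + (u : ℝ) * Complex.I).re < 0 := by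
    intro u
    simpa using hlog
  have hexp : ∀ u : ℝ, Complex.exp ((Real.log ρ : ℂ) + (u : ℝ) * Complex.I) =
      ρ * Complex.exp ((u : ℝ) * Complex.I) := by
    intro u
    rw [Complex.exp_add, ← Complex.ofReal_exp, Real.exp_log h0]
  have hlift : ∀ f : ℝ → ℝ, Continuous f →
      IsLift (fun t => e.symm (ρ * Complex.exp ((f t : ℝ) * Complex.I))) p
        (fun t => L ((Real.log ρ : ℂ) + (f t : ℝ) * Complex.I)) := by
    intro f hf
    refine ⟨?_, fun t _ => ?_⟩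
    · refine hL.comp (f := fun t : ℝ => (Real.log ρ : ℂ) + (f t : ℝ) * Complex.I) ?_
        fun t _ => hre (f t)
      exact Continuous.continuousOn (by fun_prop)
    · rw [hE _ (hre (f t)), hexp]
  have e1 := dl_eq (hlift (fun t => Real.pi * (1 + t)) (by fun_prop))
  have e2 := dl_eq (hlift (fun t => Real.pi * (1 - t)) (by fun_prop))
  have e3 : dl (fun t => e.symm (clo ρ t)) p =
      dl (fun t => e.symm (ρ * Complex.exp ((Real.pi * (1 + t) : ℝ) * Complex.I))) p := rfl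
  have e4 : dl (fun t => e.symm (cup ρ t)) p =
      dl (fun t => e.symm (ρ * Complex.exp ((Real.pi * (1 - t) : ℝ) * Complex.I))) p := rfl
  rw [e3, e4, e1, e2]
  have e5 := hN (Real.log ρ : ℂ) (by simpa using hlog)
  have e6 : (Real.log ρ : ℂ) + (Real.pi * (1 + 1) : ℝ) * Complex.I =
      (Real.log ρ : ℂ) + 2 * Real.pi * Complex.I := by
    push_cast
    ring
  have e7 : (Real.log ρ : ℂ) + (Real.pi * (1 - 1) : ℝ) * Complex.I = (Real.log ρ : ℂ) := by
    push_cast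
    ring
  have e8 : (Real.pi * (1 + 0) : ℝ) = (Real.pi * (1 - 0) : ℝ) := by ring
  rw [e6, e7, e8, e5]
  ring

end SDE
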