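import Pool.Agent.SDE.TPathB
import Pool.Agent.SDE.TConv
import Pool.Agent.SDE.THalf

/-!
# SDE/TMid
A real path in a chart compared with half circles.
-/

open Set Metric

namespace SDE

private theorem polar (ρ s : ℝ) : ‖(ρ : ℂ) * Complex.exp ((s : ℝ) * Complex.I)‖ = |ρ| ∧
    ((ρ : ℂ) * Complex.exp ((s : ℝ) * Complex.I)).im = ρ * Real.sin s := by
  refine ⟨?_, ?_⟩
  · rw [norm_mul, Complex.norm_exp_ofReal_mul_I, mul_one, Complex.norm_real, Real.norm_eq_abs]
  · rw [Complex.im_ofReal_mul, Complex.exp_ofReal_mul_I_im]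

private theorem cont_polar (ρ : ℝ) {f : ℝ → ℝ} (hf : Continuous f) :
    Continuous fun t => (ρ : ℂ) * Complex.exp ((f t : ℝ) * Complex.I) := by
  fun_prop

/-- A path `g` which is a real path in the chart from `-ρ` to `ρ`, inside `[-ρ, ρ]`: around a
point on the upper imaginary half axis it can be replaced by the lower half circle, and around a
point on the lower half axis by the upper half circle. Proof: `dl_convex` with `K` the closed
lower (upper) half of the closed disc of radius `ρ`, `K = {z | ‖z‖ ≤ ρ ∧ z.im ≤ 0}` (resp.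
`0 ≤ z.im`): convex, contained in the unit disc, contains the real path and the half circle, not
the point `i y` (`-i y`); `g t = e.symm (e (g t))` on `[0,1]`, use `dl_eq`/`dl_congr`; `e.symm` is
injective on the unit disc. -/
theorem mid_real (e : OpenPartialHomeomorph ℂ ℂ) (ht : e.target = ball 0 1) {ρ : ℝ} (h0 : 0 < ρ)
    (h1 : ρ < 1) {g : ℝ → ℂ} (hg : ContinuousOn g (Icc 0 1))
    (hgs : ∀ t ∈ Icc (0 : ℝ) 1, g t ∈ e.source ∧ (e (g t)).im = 0 ∧ |(e (g t)).re| ≤ ρ)
    (hg0 : e (g 0) = ((-ρ : ℝ) : ℂ)) (hg1 : e (g 1) = ((ρ : ℝ) : ℂ)) {y : ℝ} (hy : 0 < y)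
    (hyρ : y < ρ) :
    dl g (e.symm (y * Complex.I)) = dl (fun t => e.symm (clo ρ t)) (e.symm (y * Complex.I)) ∧
    dl g (e.symm (-(y * Complex.I))) =
      dl (fun t => e.symm (cup ρ t)) (e.symm (-(y * Complex.I))) := by
  have hec : ContinuousOn (fun t => e (g t)) (Icc 0 1) :=
    e.continuousOn.comp hg fun t htt => (hgs t htt).1
  have hcongr : EqOn g (fun t => e.symm (e (g t))) (Icc 0 1) := fun t htt =>
    (e.left_inv (hgs t htt).1).symm
  have hn : ∀ t ∈ Icc (0 : ℝ) 1, ‖e (g t)‖ ≤ ρ := by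
    intro t htt
    obtain ⟨-, h2, h3⟩ := hgs t htt
    rwa [← Complex.abs_re_eq_norm.2 h2]
  have hball : ∀ {z : ℂ}, ‖z‖ ≤ ρ → z ∈ ball (0 : ℂ) 1 := fun hz => by
    rw [mem_ball_zero_iff]
    exact hz.trans_lt h1
  have hy1 : ‖(y : ℂ) * Complex.I‖ ≤ ρ := by
    rw [norm_mul, Complex.norm_I, mul_one, Complex.norm_real, Real.norm_eq_abs, abs_of_pos hy]
    exact hyρ.le
  have hinj : ∀ {z w : ℂ}, ‖z‖ ≤ ρ → ‖w‖ ≤ ρ → e.symm z = e.symm w → z = w := by
    intro z w hz hw h
    have hz' : z ∈ e.target := by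
      rw [ht]
      exact hball hz
    have hw' : w ∈ e.target := by
      rw [ht]
      exact hball hw
    rw [← e.right_inv hz', h, e.right_inv hw']
  have hconv : Convex ℝ {z : ℂ | ‖z‖ ≤ ρ} := by
    have : {z : ℂ | ‖z‖ ≤ ρ} = closedBall 0 ρ := by
      ext z
      simp
    rw [this]
    exact convex_closedBall 0 ρ
  have hρ : |ρ| = ρ := abs_of_pos h0
  refine ⟨?_, ?_⟩
  · rw [dl_congr hcongr]
    refine dl_convex e ht (K := {z : ℂ | ‖z‖ ≤ ρ} ∩ {z : ℂ | z.im ≤ 0})
      (hconv.inter (convex_halfSpace_im_le 0)) (fun z hz => hball hz.1) ?_ hec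
      (cont_polar ρ (by fun_prop)).continuousOn (fun t htt => ⟨hn t htt, (hgs t htt).2.1.le⟩)
      (fun t htt => ?_) ?_ ?_
    · intro z hz h
      have h2 := hinj hz.1 hy1 h
      have h3 : z.im ≤ 0 := hz.2
      rw [h2] at h3
      simp at h3
      linarith
    · obtain ⟨k1, k2⟩ := polar ρ (Real.pi * (1 + t))
      refine ⟨(k1.trans hρ).le, ?_⟩
      show (clo ρ t).im ≤ 0
      unfold clo
      rw [k2]
      have h3 : Real.sin (Real.pi * (1 + t)) = -Real.sin (Real.pi * t) := by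
        rw [mul_add, mul_one, add_comm, Real.sin_add_pi]
      rw [h3]
      have h4 : 0 ≤ Real.sin (Real.pi * t) :=
        Real.sin_nonneg_of_nonneg_of_le_pi (mul_nonneg Real.pi_pos.le htt.1)
          (by nlinarith [Real.pi_pos, htt.2])
      nlinarith
    · show e (g 0) = clo ρ 0
      rw [hg0]
      unfold clo
      rw [add_zero, mul_one, Complex.exp_pi_mul_I]
      push_cast
      ring
    · show e (g 1) = clo ρ 1
      rw [hg1]
      unfold clo
      have h3 : (((Real.pi * (1 + 1) : ℝ) : ℂ)) * Complex.I = 2 * Real.pi * Complex.I := by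
        push_cast
        ring
      rw [h3, Complex.exp_two_pi_mul_I, mul_one]
  · rw [dl_congr hcongr]
    refine dl_convex e ht (K := {z : ℂ | ‖z‖ ≤ ρ} ∩ {z : ℂ | 0 ≤ z.im})
      (hconv.inter (convex_halfSpace_im_ge 0)) (fun z hz => hball hz.1) ?_ hec
      (cont_polar ρ (by fun_prop)).continuousOn (fun t htt => ⟨hn t htt, (hgs t htt).2.1.ge⟩)
      (fun t htt => ?_) ?_ ?_
    · intro z hz h
      have h2 := hinj hz.1 (by rw [norm_neg]; exact hy1) h
      have h3 : 0 ≤ z.im := hz.2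
      rw [h2] at h3
      simp at h3
      linarith
    · obtain ⟨k1, k2⟩ := polar ρ (Real.pi * (1 - t))
      refine ⟨(k1.trans hρ).le, ?_⟩
      show 0 ≤ (cup ρ t).im
      unfold cup
      rw [k2]
      have h4 : 0 ≤ Real.sin (Real.pi * (1 - t)) :=
        Real.sin_nonneg_of_nonneg_of_le_pi (mul_nonneg Real.pi_pos.le (sub_nonneg.2 htt.2))
          (by nlinarith [Real.pi_pos, htt.1])
      exact mul_nonneg h0.le h4
    · show e (g 0) = cup ρ 0
      rw [hg0]
      unfold cup
      rw [sub_zero, mul_one, Complex.exp_pi_mul_I]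
      push_cast
      ring
    · show e (g 1) = cup ρ 1
      rw [hg1]
      unfold cup
      rw [sub_self, mul_zero, Complex.ofReal_zero, zero_mul, Complex.exp_zero, mul_one]

end SDE
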