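import Pool.Agent.SDE.TPathC
import Pool.Agent.SDE.TChartA
import Pool.Agent.SDE.TMid

/-!
# SDE/TLocal
The jump of the logarithmic change at an interior point of an arc.
-/

open Set Metric

namespace SDE

private theorem sub_mem {a b t : ℝ} (ha : a ∈ Icc (0 : ℝ) 1) (hb : b ∈ Icc (0 : ℝ) 1)
    (ht : t ∈ Icc (0 : ℝ) 1) : a + (b - a) * t ∈ Icc (0 : ℝ) 1 := by
  obtain ⟨ht0, ht1⟩ := ht
  obtain ⟨ha0, ha1⟩ := ha
  obtain ⟨hb0, hb1⟩ := hb
  have e1 := mul_nonneg ha0 (sub_nonneg.2 ht1)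
  have e2 := mul_nonneg hb0 ht0
  have e3 := mul_nonneg (sub_nonneg.2 ha1) (sub_nonneg.2 ht1)
  have e4 := mul_nonneg (sub_nonneg.2 hb1) ht0
  constructor
  · nlinarith
  · nlinarith

private theorem sub_mem' {a b t : ℝ} (hab : a ≤ b) (ht : t ∈ Icc (0 : ℝ) 1) :
    a + (b - a) * t ∈ Icc a b := by
  obtain ⟨ht0, ht1⟩ := ht
  have e1 := mul_nonneg (sub_nonneg.2 hab) ht0
  have e2 := mul_nonneg (sub_nonneg.2 hab) (sub_nonneg.2 ht1)
  constructor
  · linarith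
  · nlinarith

private theorem sub_cont {f : ℝ → ℂ} (hc : ContinuousOn f (Icc 0 1)) {a b : ℝ}
    (ha : a ∈ Icc (0 : ℝ) 1) (hb : b ∈ Icc (0 : ℝ) 1) : ContinuousOn (sub f a b) (Icc 0 1) :=
  hc.comp (f := fun t => a + (b - a) * t) (by fun_prop) fun _ ht => sub_mem ha hb ht

private theorem norm_half (ρ θ : ℝ) (hρ : 0 < ρ) :
    ‖(ρ : ℂ) * Complex.exp ((θ : ℝ) * Complex.I)‖ = ρ := by
  rw [norm_mul, Complex.norm_exp_ofReal_mul_I, mul_one, Complex.norm_real, Real.norm_eq_abs,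
    abs_of_pos hρ]

private theorem half_ok (e : OpenPartialHomeomorph ℂ ℂ) {p : ℂ}
    (hp0 : e p = 0) (ht : e.target = ball 0 1) {ρ : ℝ} (h0 : 0 < ρ) (h1 : ρ < 1) {c : ℝ → ℂ}
    (hc : Continuous c) (hn : ∀ t, ‖c t‖ = ρ) :
    ContinuousAt (dl fun t => e.symm (c t)) p := by
  have hm : ∀ t, c t ∈ e.target := fun t => by
    rw [ht, mem_ball_zero_iff, hn]
    exact h1
  refine dl_continuousAt ?_ fun t _ h => ?_
  · exact e.continuousOn_symm.comp hc.continuousOn fun t _ => hm t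
  · have h2 := e.right_inv (hm t)
    rw [h, hp0] at h2
    have h3 := hn t
    rw [← h2, norm_zero] at h3
    exact h0.ne h3

private theorem dl_three {f : ℝ → ℂ} (hc : ContinuousOn f (Icc 0 1)) {s1 s2 : ℝ}
    (h1 : s1 ∈ Icc (0 : ℝ) 1) (h2 : s2 ∈ Icc (0 : ℝ) 1) {q : ℂ}
    (hq : ∀ t ∈ Icc (0 : ℝ) 1, f t ≠ q) :
    dl f q = dl (sub f 0 s1) q + dl (sub f s1 s2) q + dl (sub f s2 1) q := by
  have e0 : dl f q = dl (sub f 0 1) q := dl_congr fun t _ => by simp [sub]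
  have m0 : (0 : ℝ) ∈ Icc (0 : ℝ) 1 := ⟨le_rfl, zero_le_one⟩
  have m1 : (1 : ℝ) ∈ Icc (0 : ℝ) 1 := ⟨zero_le_one, le_rfl⟩
  rw [e0, dl_add hc hq m0 h1 m1, dl_add hc hq h1 h2 m1]
  ring

/-- **Local jump.** `A = f '' [0,1]` an arc, `p = f s0` an interior point, `e` a chart at `p` in
which `A` is the real axis. There is `N = ±1` such that
`dl f (e.symm (i y)) - dl f (e.symm (-i y'))` is arbitrarily close to `2πi N` for small
`y, y' > 0`. Proof. `L`, `N` from `degree`; `s1, s2, ρ, σ` from `chart_path` (`ε = 1`). Points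
`q₊ = e.symm (i y)`, `q₋ = e.symm (- i y')`, `y, y' < ρ`, are not on `A`.
`dl f q = dl (sub f 0 s1) q + dl (sub f s1 s2) q + dl (sub f s2 1) q` for `q = q₊, q₋` (`dl_add`;
`sub f 0 1 = f`). The first and third terms are continuous at `p` (`dl_continuousAt`, `p` is not
on these parts as `f` is injective), so their differences at `q₊` and `q₋` tend to `0` as
`y, y' → 0` (`e.symm` is continuous at `0`, `e.symm 0 = p`). Middle term, `σ = 1`: `mid_real` with
`g = sub f s1 s2`: `dl g q₊ = dl (e.symm ∘ clo ρ) q₊`, `dl g q₋ = dl (e.symm ∘ cup ρ) q₋`; as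
`y, y' → 0` these tend to `dl (e.symm ∘ clo ρ) p`, `dl (e.symm ∘ cup ρ) p` (`dl_continuousAt`),
and their difference is `2πi N` (`half_circles`). For `σ = -1` use `g = sub f s2 s1`
(`dl g q = - dl (sub f s1 s2) q` by `dl_rev`); the result is `-2πi N`. -/
theorem local_jump {f : ℝ → ℂ} (hc : ContinuousOn f (Icc 0 1)) (hi : InjOn f (Icc 0 1)) {s0 : ℝ}
    (hs : s0 ∈ Ioo (0 : ℝ) 1) (e : OpenPartialHomeomorph ℂ ℂ) (hp : f s0 ∈ e.source)
    (hp0 : e (f s0) = 0) (ht : e.target = ball 0 1)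
    (hA : ∀ z ∈ e.source, z ∈ f '' Icc 0 1 ↔ (e z).im = 0) :
    ∃ N : ℤ, (N = 1 ∨ N = -1) ∧ ∀ ε : ℝ, 0 < ε → ∃ δ : ℝ, 0 < δ ∧ δ < 1 ∧
      ∀ y y' : ℝ, 0 < y → y < δ →
      0 < y' → y' < δ →
      ‖dl f (e.symm (y * Complex.I)) - dl f (e.symm (-(y' * Complex.I))) -
        N * (2 * Real.pi * Complex.I)‖ < ε := by
  obtain ⟨L, N, hN, hLc, hLE, hLN⟩ := degree e hp hp0 ht
  obtain ⟨s1, s2, ρ, σ, h0s1, hs1, hs2, hs21, hρ0, hρ1, -, hσ, hmid, he1, he2⟩ :=
    chart_path hc hi hs e hp hp0 ht (fun z hz h => (hA z hz).1 h) 1 one_pos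
  have hm1 : s1 ∈ Icc (0 : ℝ) 1 := ⟨h0s1, (hs1.trans hs.2).le⟩
  have hm2 : s2 ∈ Icc (0 : ℝ) 1 := ⟨(hs.1.trans hs2).le, hs21⟩
  have m0 : (0 : ℝ) ∈ Icc (0 : ℝ) 1 := ⟨le_rfl, zero_le_one⟩
  have m1 : (1 : ℝ) ∈ Icc (0 : ℝ) 1 := ⟨zero_le_one, le_rfl⟩
  have ms : s0 ∈ Icc (0 : ℝ) 1 := ⟨hs.1.le, hs.2.le⟩
  have hsy : e.symm 0 = f s0 := by
    rw [← hp0]
    exact e.left_inv hp
  -- the four continuous functions
  have c1 : ContinuousAt (dl (sub f 0 s1)) (f s0) := by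
    refine dl_continuousAt (sub_cont hc m0 hm1) fun t htt h => ?_
    have h1 := sub_mem' h0s1 htt
    have h2 : 0 + (s1 - 0) * t = s0 := hi (sub_mem m0 hm1 htt) ms h
    rw [h2] at h1
    exact absurd h1.2 (not_le.2 hs1)
  have c3 : ContinuousAt (dl (sub f s2 1)) (f s0) := by
    refine dl_continuousAt (sub_cont hc hm2 m1) fun t htt h => ?_
    have h1 := sub_mem' hs21 htt
    have h2 : s2 + (1 - s2) * t = s0 := hi (sub_mem hm2 m1 htt) ms h
    rw [h2] at h1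
    exact absurd h1.1 (not_le.2 hs2)
  have cl : ContinuousAt (dl fun t => e.symm (clo ρ t)) (f s0) := by
    refine half_ok e hp0 ht hρ0 hρ1 ?_ fun t => norm_half ρ _ hρ0
    unfold clo
    fun_prop
  have cu : ContinuousAt (dl fun t => e.symm (cup ρ t)) (f s0) := by
    refine half_ok e hp0 ht hρ0 hρ1 ?_ fun t => norm_half ρ _ hρ0
    unfold cup
    fun_prop
  have hes : ContinuousAt e.symm 0 := by
    refine e.continuousAt_symm ?_
    rw [ht]
    exact mem_ball_self one_pos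
  have hhalf := half_circles e hLc hLE hLN hρ0 hρ1
  have key : ∀ g : ℂ → ℂ, ContinuousAt g (f s0) → ∀ ε : ℝ, 0 < ε →
      ∀ᶠ z in nhds (0 : ℂ), ‖g (e.symm z) - g (f s0)‖ < ε := by
    intro g hg ε hε
    have h1 : Filter.Tendsto (fun z => g (e.symm z)) (nhds 0) (nhds (g (f s0))) := by
      have h2 : Filter.Tendsto e.symm (nhds 0) (nhds (f s0)) := by
        rw [← hsy]
        exact hes
      exact hg.tendsto.comp h2
    have h3 := Metric.tendsto_nhds.1 h1 ε hε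
    filter_upwards [h3] with z hz
    rwa [dist_eq_norm] at hz
  -- the middle part
  have hmidd : ∃ N' : ℤ, (N' = 1 ∨ N' = -1) ∧ ∀ y y' : ℝ, 0 < y → y < ρ → 0 < y' → y' < ρ →
      ‖dl (sub f s1 s2) (e.symm (y * Complex.I)) -
        dl (sub f s1 s2) (e.symm (-(y' * Complex.I))) - N' * (2 * Real.pi * Complex.I)‖ ≤
      ‖dl (fun t => e.symm (clo ρ t)) (e.symm (y * Complex.I)) -
        dl (fun t => e.symm (clo ρ t)) (f s0)‖ +
      ‖dl (fun t => e.symm (cup ρ t)) (e.symm (-(y' * Complex.I))) -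
        dl (fun t => e.symm (cup ρ t)) (f s0)‖ := by
    rcases hσ with hσ | hσ
    · refine ⟨N, hN, fun y y' hy hyρ hy' hyρ' => ?_⟩
      have hg := sub_cont hc hm1 hm2
      have hgs : ∀ t ∈ Icc (0 : ℝ) 1, sub f s1 s2 t ∈ e.source ∧ (e (sub f s1 s2 t)).im = 0 ∧
          |(e (sub f s1 s2 t)).re| ≤ ρ := fun t htt => hmid _ (sub_mem' (hs1.trans hs2).le htt)
      have hg0 : e (sub f s1 s2 0) = ((-ρ : ℝ) : ℂ) := by
        have : sub f s1 s2 0 = f s1 := by simp [sub]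
        rw [this, he1, hσ, neg_one_mul]
      have hg1 : e (sub f s1 s2 1) = ((ρ : ℝ) : ℂ) := by
        have : sub f s1 s2 1 = f s2 := by simp [sub]
        rw [this, he2, hσ, one_mul]
      rw [(mid_real e ht hρ0 hρ1 hg hgs hg0 hg1 hy hyρ).1,
        (mid_real e ht hρ0 hρ1 hg hgs hg0 hg1 hy' hyρ').2, ← hhalf]
      refine le_trans (le_of_eq ?_) (norm_sub_le _ _)
      congr 1
      ring
    · refine ⟨-N, ?_, fun y y' hy hyρ hy' hyρ' => ?_⟩
      · rcases hN with h | h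
        · right
          rw [h]
        · left
          rw [h, neg_neg]
      have hg := sub_cont hc hm2 hm1
      have hgs : ∀ t ∈ Icc (0 : ℝ) 1, sub f s2 s1 t ∈ e.source ∧ (e (sub f s2 s1 t)).im = 0 ∧
          |(e (sub f s2 s1 t)).re| ≤ ρ := fun t htt => by
        have h1 : sub f s2 s1 t = f (s1 + (s2 - s1) * (1 - t)) := by
          unfold sub
          congr 1
          ring
        rw [h1]
        exact hmid _ (sub_mem' (hs1.trans hs2).le ⟨sub_nonneg.2 htt.2, sub_le_self 1 htt.1⟩)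
      have hg0 : e (sub f s2 s1 0) = ((-ρ : ℝ) : ℂ) := by
        have : sub f s2 s1 0 = f s2 := by simp [sub]
        rw [this, he2, hσ, neg_one_mul]
      have hg1 : e (sub f s2 s1 1) = ((ρ : ℝ) : ℂ) := by
        have : sub f s2 s1 1 = f s1 := by simp [sub]
        rw [this, he1, hσ, neg_neg, one_mul]
      have hrev : ∀ q : ℂ, (∀ t ∈ Icc (0 : ℝ) 1, sub f s2 s1 t ≠ q) →
          dl (sub f s1 s2) q = - dl (sub f s2 s1) q := fun q hq =>
        dl_rev hg hq fun t _ => by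
          unfold sub
          congr 1
          ring
      have hne : ∀ z : ℂ, z ∈ ball (0 : ℂ) 1 → z.im ≠ 0 → ∀ t ∈ Icc (0 : ℝ) 1,
          sub f s2 s1 t ≠ e.symm z := fun z hz hzi t htt h => by
        have h1 := (hgs t htt).2.1
        rw [h, e.right_inv (by rw [ht]; exact hz)] at h1
        exact hzi h1
      have hyb : (y * Complex.I : ℂ) ∈ ball (0 : ℂ) 1 := by
        rw [mem_ball_zero_iff]
        simpa [abs_of_pos hy] using hyρ.trans hρ1
      have hyb' : (-(y' * Complex.I) : ℂ) ∈ ball (0 : ℂ) 1 := by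
        rw [mem_ball_zero_iff]
        simpa [abs_of_pos hy'] using hyρ'.trans hρ1
      rw [hrev _ (hne _ hyb (by simpa using hy.ne')), hrev _ (hne _ hyb' (by simpa using hy'.ne')),
        (mid_real e ht hρ0 hρ1 hg hgs hg0 hg1 hy hyρ).1,
        (mid_real e ht hρ0 hρ1 hg hgs hg0 hg1 hy' hyρ').2]
      push_cast
      rw [neg_mul, ← hhalf]
      refine le_trans (le_of_eq ?_) (norm_sub_le _ _)
      rw [← norm_neg]
      congr 1
      ring
  obtain ⟨N', hN', hmm⟩ := hmidd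
  refine ⟨N', hN', fun ε hε => ?_⟩
  have hε6 : 0 < ε / 6 := by positivity
  have hev := (key _ c1 _ hε6).and ((key _ c3 _ hε6).and ((key _ cl _ hε6).and (key _ cu _ hε6)))
  obtain ⟨δ, hδ, hδb⟩ := Metric.eventually_nhds_iff_ball.1 hev
  refine ⟨min δ ρ, lt_min hδ hρ0, (min_le_right _ _).trans_lt hρ1, ?_⟩
  intro y y' hy hyδ hy' hyδ'
  obtain ⟨hyδ1, hyρ⟩ := lt_min_iff.1 hyδ
  obtain ⟨hyδ2, hyρ'⟩ := lt_min_iff.1 hyδ'
  have hb1 : (y * Complex.I : ℂ) ∈ ball (0 : ℂ) δ := by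
    rw [mem_ball_zero_iff]
    simpa [abs_of_pos hy] using hyδ1
  have hb2 : (-(y' * Complex.I) : ℂ) ∈ ball (0 : ℂ) δ := by
    rw [mem_ball_zero_iff]
    simpa [abs_of_pos hy'] using hyδ2
  have ht1 : (y * Complex.I : ℂ) ∈ e.target := by
    rw [ht, mem_ball_zero_iff]
    simpa [abs_of_pos hy] using hyρ.trans hρ1
  have ht2 : (-(y' * Complex.I) : ℂ) ∈ e.target := by
    rw [ht, mem_ball_zero_iff]
    simpa [abs_of_pos hy'] using hyρ'.trans hρ1
  have hne : ∀ z : ℂ, z ∈ e.target → z.im ≠ 0 → ∀ t ∈ Icc (0 : ℝ) 1, f t ≠ e.symm z :=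
    fun z hz hzi t htt h => by
      have h1 := (hA _ (e.map_target hz)).1 (h ▸ mem_image_of_mem f htt)
      rw [e.right_inv hz] at h1
      exact hzi h1
  rw [dl_three hc hm1 hm2 (hne _ ht1 (by simpa using hy.ne')),
    dl_three hc hm1 hm2 (hne _ ht2 (by simpa using hy'.ne'))]
  obtain ⟨a1, a3, al, -⟩ := hδb _ hb1
  obtain ⟨b1, b3, -, bu⟩ := hδb _ hb2
  have hm := hmm y y' hy hyρ hy' hyρ'
  generalize dl (sub f 0 s1) (e.symm (y * Complex.I)) = u1 at *
  generalize dl (sub f 0 s1) (e.symm (-(y' * Complex.I))) = u2 at *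
  generalize dl (sub f s2 1) (e.symm (y * Complex.I)) = v1 at *
  generalize dl (sub f s2 1) (e.symm (-(y' * Complex.I))) = v2 at *
  generalize dl (sub f s1 s2) (e.symm (y * Complex.I)) = w1 at *
  generalize dl (sub f s1 s2) (e.symm (-(y' * Complex.I))) = w2 at *
  generalize dl (sub f 0 s1) (f s0) = u at *
  generalize dl (sub f s2 1) (f s0) = v at *
  have e1 : u1 + w1 + v1 - (u2 + w2 + v2) - N' * (2 * Real.pi * Complex.I) =
      (u1 - u) - (u2 - u) + ((v1 - v) - (v2 - v)) +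
        (w1 - w2 - N' * (2 * Real.pi * Complex.I)) := by ring
  rw [e1]
  have n1 := norm_add_le ((u1 - u) - (u2 - u) + ((v1 - v) - (v2 - v)))
    (w1 - w2 - N' * (2 * Real.pi * Complex.I))
  have n2 := norm_add_le ((u1 - u) - (u2 - u)) ((v1 - v) - (v2 - v))
  have n3 := norm_sub_le (u1 - u) (u2 - u)
  have n4 := norm_sub_le (v1 - v) (v2 - v)
  linarith

end SDE
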