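import Pool.Agent.SDE.TPathA

/-!
# SDE/TPathC
Change of the logarithm: dependence on the point.
-/

open Set

namespace SDE

private theorem slit_aux {w : ℂ} (h : ‖w‖ < 1) : 1 + w ∈ Complex.slitPlane := by
  left
  have h1 := Complex.abs_re_le_norm w
  have h2 := (abs_lt.1 (h1.trans_lt h)).1
  rw [Complex.add_re, Complex.one_re]
  linarith

/-- Comparison of two nearby points. Proof: if `L` is a logarithm of `γ - q` then
`L t + log (1 + (q - q') / (γ t - q))` (principal logarithm, continuous since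
`|(q - q') / (γ t - q)| < 1`) is a logarithm of `γ - q'`, because
`(γ t - q) * (1 + (q - q') / (γ t - q)) = γ t - q'`. -/
theorem dl_near {γ : ℝ → ℂ} {q q' : ℂ} (hc : ContinuousOn γ (Icc 0 1))
    (hq : ∀ t ∈ Icc (0 : ℝ) 1, ‖q - q'‖ < ‖γ t - q‖) :
    dl γ q' = dl γ q + Complex.log (1 + (q - q') / (γ 1 - q)) -
      Complex.log (1 + (q - q') / (γ 0 - q)) := by
  have hne : ∀ t ∈ Icc (0 : ℝ) 1, γ t - q ≠ 0 := fun t ht =>
    norm_pos_iff.1 ((norm_nonneg _).trans_lt (hq t ht))
  obtain ⟨L, hL⟩ := exists_lift hc fun t ht h => hne t ht (by rw [h, sub_self])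
  have hw : ∀ t ∈ Icc (0 : ℝ) 1, ‖(q - q') / (γ t - q)‖ < 1 := by
    intro t ht
    rw [norm_div, div_lt_one (norm_pos_iff.2 (hne t ht))]
    exact hq t ht
  have hL' : IsLift γ q' fun t => L t + Complex.log (1 + (q - q') / (γ t - q)) := by
    refine ⟨?_, fun t ht => ?_⟩
    · refine hL.1.add (ContinuousOn.clog ?_ fun t ht => slit_aux (hw t ht))
      exact continuousOn_const.add (continuousOn_const.div (hc.sub continuousOn_const) hne)
    · have h0 := hne t ht
      simp only
      rw [Complex.exp_add, hL.2 t ht, Complex.exp_log (Complex.slitPlane_ne_zero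
        (slit_aux (hw t ht)))]
      field_simp
      ring
  rw [dl_eq hL', dl_eq hL]
  ring

/-- `dl γ` is continuous outside the path. Proof: `dl_near` and continuity of `log` at `1`; the
distance of `q` to the compact set `γ '' [0,1]` is positive. -/
theorem dl_continuousAt {γ : ℝ → ℂ} {q : ℂ} (hc : ContinuousOn γ (Icc 0 1))
    (hq : ∀ t ∈ Icc (0 : ℝ) 1, γ t ≠ q) : ContinuousAt (dl γ) q := by
  obtain ⟨t0, ht0, hmin⟩ := isCompact_Icc.exists_isMinOn (s := Icc (0 : ℝ) 1)
    ⟨0, left_mem_Icc.2 zero_le_one⟩ (f := fun t => ‖γ t - q‖)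
    (hc.sub continuousOn_const).norm
  have hd : 0 < ‖γ t0 - q‖ := norm_pos_iff.2 (sub_ne_zero.2 (hq t0 ht0))
  have m0 : (0 : ℝ) ∈ Icc (0 : ℝ) 1 := ⟨le_rfl, zero_le_one⟩
  have m1 : (1 : ℝ) ∈ Icc (0 : ℝ) 1 := ⟨zero_le_one, le_rfl⟩
  have hlog : ∀ t : ℝ, ContinuousAt (fun q' => Complex.log (1 + (q - q') / (γ t - q))) q := by
    intro t
    refine ContinuousAt.clog ?_ ?_
    · fun_prop
    · rw [sub_self, zero_div, add_zero]
      exact Complex.one_mem_slitPlane
  have hf : ContinuousAt (fun q' => dl γ q + Complex.log (1 + (q - q') / (γ 1 - q)) -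
      Complex.log (1 + (q - q') / (γ 0 - q))) q :=
    (continuousAt_const.add (hlog 1)).sub (hlog 0)
  refine hf.congr ?_
  filter_upwards [Metric.ball_mem_nhds q hd] with q' hq'
  refine (dl_near hc fun t ht => ?_).symm
  rw [Metric.mem_ball, dist_comm, dist_eq_norm] at hq'
  exact hq'.trans_le (hmin ht)

end SDE
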