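import Pool.Agent.SDE.TLoopA
import Pool.Agent.SDE.TPathC

/-!
# SDE/TLoopB
The winding number is locally constant.
-/

open Set

namespace SDE

private theorem tot_near {b : ℂ} {l : List (ℝ → ℂ)} {q q' : ℂ} : ∀ {a : ℂ}, IsChain b a l →
    (∀ z ∈ supp l, ‖q - q'‖ < ‖z - q‖) →
    tot l q' = tot l q + Complex.log (1 + (q - q') / (b - q)) -
      Complex.log (1 + (q - q') / (a - q)) := by
  induction l with
  | nil =>
    intro a h _
    have h1 : a = b := h
    rw [h1]
    unfold tot
    simp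
  | cons p l ih =>
    intro a h hz
    obtain ⟨h1, h2, h3⟩ := h
    have h4 : ∀ z ∈ supp l, ‖q - q'‖ < ‖z - q‖ := by
      rintro z ⟨r, hr, hzr⟩
      exact hz z ⟨r, List.mem_cons_of_mem _ hr, hzr⟩
    have h5 := ih h3 h4
    have h6 := dl_near (q := q) (q' := q') h1 fun t ht =>
      hz (p t) ⟨p, List.mem_cons_self, ⟨t, ht, rfl⟩⟩
    have e : ∀ w : ℂ, tot (p :: l) w = dl p w + tot l w := fun w => by
      unfold tot
      rw [List.map_cons, List.sum_cons]
    rw [e, e, h5, h6, h2]
    ring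

private theorem wn_near {l : List (ℝ → ℂ)} (h : IsLoop l) {q q' : ℂ} (hq : q ∉ supp l)
    (hz : ∀ z ∈ supp l, ‖q - q'‖ < ‖z - q‖) : q' ∉ supp l ∧ wn l q' = wn l q := by
  have hq' : q' ∉ supp l := by
    intro hc
    have h1 := hz q' hc
    rw [norm_sub_rev] at h1
    exact lt_irrefl _ h1
  refine ⟨hq', ?_⟩
  obtain ⟨a, ha⟩ := h
  have h1 := tot_near ha hz
  rw [add_sub_cancel_right, wn_spec ⟨a, ha⟩ hq', wn_spec ⟨a, ha⟩ hq] at h1
  have h2 : (2 * Real.pi * Complex.I : ℂ) ≠ 0 := Complex.two_pi_I_ne_zero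
  have h3 := mul_right_cancel₀ h2 h1
  exact_mod_cast h3

private theorem wn_ev {l : List (ℝ → ℂ)} (h : IsLoop l) {q : ℂ} (hq : q ∉ supp l) :
    ∀ᶠ q' in nhds q, q' ∉ supp l ∧ wn l q' = wn l q := by
  obtain ⟨ε, hε, hb⟩ := Metric.mem_nhds_iff.1 ((supp_closed h).isOpen_compl.mem_nhds hq)
  refine Filter.mem_of_superset (Metric.ball_mem_nhds q hε) fun q' hq' => ?_
  refine wn_near h hq fun z hz => ?_
  have h1 : ‖q - q'‖ < ε := by
    rw [← dist_eq_norm, dist_comm]
    exact hq'
  refine h1.trans_le ?_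
  by_contra hcon
  have h2 : z ∈ Metric.ball q ε := by
    rw [Metric.mem_ball, dist_eq_norm]
    exact not_le.1 hcon
  exact hb h2 hz

/-- Proof: local constancy. For `q ∉ supp l` and `q'` closer to `q` than `supp l`,
`tot l q' = tot l q`: for a chain from `a` to `b`,
`tot l q' = tot l q + log (1 + (q - q')/(b - q)) - log (1 + (q - q')/(a - q))` by induction with
`dl_near`. So `wn l` is locally constant on the open set `(supp l)ᶜ`, hence constant on
preconnected subsets (`IsPreconnected.constant_of_...` for a continuous integer valued function,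
or `IsPreconnected.image` in a discrete space). -/
theorem wn_const {l : List (ℝ → ℂ)} (h : IsLoop l) {S : Set ℂ} (hS : IsPreconnected S)
    (hd : Disjoint S (supp l)) {q q' : ℂ} (hq : q ∈ S) (hq' : q' ∈ S) : wn l q = wn l q' := by
  refine IsPreconnected.constant hS (f := wn l) (fun x hx => ?_) hq hq'
  have hx' : x ∉ supp l := Set.disjoint_left.1 hd hx
  refine ContinuousAt.continuousWithinAt ?_
  refine continuousAt_const.congr (f := fun _ => wn l x) ?_
  exact (wn_ev h hx').mono fun y hy => hy.2.symm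

/-- Local version of `wn_const`. -/
theorem wn_eventually {l : List (ℝ → ℂ)} (h : IsLoop l) {q : ℂ} (hq : q ∉ supp l) :
    ∀ᶠ q' in nhds q, q' ∉ supp l ∧ wn l q' = wn l q := by
  exact wn_ev h hq

end SDE
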