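import Pool.Agent.SDE.TDefs
import Pool.Agent.SDE.TLoopB
import Pool.Agent.SDE.TLocal
import Pool.Agent.SDE.TChartB

/-!
# SDE/TJump
The winding number changes by an odd number at a proper crossing.
-/

open Set Metric

namespace SDE

private theorem TJump_closed {rest : List (ℝ → ℂ)}
    (hcr : ∀ g ∈ rest, ContinuousOn g (Icc 0 1)) : IsClosed (supp rest) := by
  have h1 : supp rest = ⋃ g ∈ {g | g ∈ rest}, g '' Icc (0 : ℝ) 1 := by
    ext z
    simp only [supp, Set.mem_ofPred_eq, Set.mem_iUnion, exists_prop]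
  rw [h1]
  exact (List.finite_toSet rest).isClosed_biUnion fun g hg =>
    (isCompact_Icc.image_of_continuousOn (hcr g hg)).isClosed

private theorem TJump_cont {rest : List (ℝ → ℂ)} {p : ℂ}
    (hcr : ∀ g ∈ rest, ContinuousOn g (Icc 0 1)) (hp : p ∉ supp rest) :
    ContinuousAt (tot rest) p := by
  induction rest with
  | nil =>
    have h3 : tot [] = fun _ : ℂ => (0 : ℂ) := by
      funext q
      simp [tot]
    rw [h3]
    exact continuousAt_const
  | cons g r ih =>
    have h1 : ContinuousAt (dl g) p := dl_continuousAt (hcr g List.mem_cons_self)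
      fun t ht h => hp ⟨g, List.mem_cons_self, t, ht, h⟩
    have h2 := ih (fun g' hg' => hcr g' (List.mem_cons_of_mem _ hg'))
      (fun ⟨g', hg', h⟩ => hp ⟨g', List.mem_cons_of_mem _ hg', h⟩)
    have h3 : tot (g :: r) = fun q => dl g q + tot r q := by
      funext q
      simp [tot]
    rw [h3]
    exact h1.add h2

private theorem TJump_perm {l rest : List (ℝ → ℂ)} {f : ℝ → ℂ} (hperm : l.Perm (f :: rest))
    (q : ℂ) : tot l q = dl f q + tot rest q := by
  unfold tot
  rw [(hperm.map (fun p => dl p q)).sum_eq]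
  simp

private theorem TJump_off (e : OpenPartialHomeomorph ℂ ℂ) (ht : e.target = ball 0 1)
    {A : Set ℂ} (hA : ∀ z ∈ e.source, z ∈ A ↔ (e z).im = 0) {y : ℝ} (hy : y ≠ 0)
    (hy1 : |y| < 1) : e.symm (y * Complex.I) ∉ A := by
  have h1 : (y * Complex.I : ℂ) ∈ e.target := by
    rw [ht, mem_ball_zero_iff, norm_mul, Complex.norm_I, mul_one, Complex.norm_real]
    exact hy1
  intro h
  have h2 := (hA _ (e.map_target h1)).1 h
  rw [e.right_inv h1] at h2
  simp at h2
  exact hy h2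

private theorem TJump_int {a b c : ℤ} {u v w z : ℂ}
    (hu : u = a * (2 * Real.pi * Complex.I)) (hv : v = b * (2 * Real.pi * Complex.I))
    (h1 : ‖(u - w) - (v - z) - c * (2 * Real.pi * Complex.I)‖ < 1) (h2 : ‖w - z‖ < 2) :
    a - b = c := by
  have h3 : ‖(((a - b - c : ℤ) : ℝ) : ℂ) * (2 * Real.pi * Complex.I)‖ < 3 := by
    have h4 : (((a - b - c : ℤ) : ℝ) : ℂ) * (2 * Real.pi * Complex.I) =
        ((u - w) - (v - z) - c * (2 * Real.pi * Complex.I)) + (w - z) := by
      rw [hu, hv]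
      push_cast
      ring
    rw [h4]
    linarith [norm_add_le ((u - w) - (v - z) - c * (2 * Real.pi * Complex.I)) (w - z)]
  have h5 : ‖(2 * Real.pi * Complex.I : ℂ)‖ = 2 * Real.pi := by
    rw [norm_mul, norm_mul, Complex.norm_I, Complex.norm_real, Real.norm_eq_abs,
      abs_of_pos Real.pi_pos]
    norm_num
  rw [norm_mul, h5, Complex.norm_real, Real.norm_eq_abs] at h3
  have h6 := Real.pi_gt_three
  have h7 : |((a - b - c : ℤ) : ℝ)| < 1 := by
    by_contra hc
    push Not at hc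
    nlinarith [abs_nonneg ((a - b - c : ℤ) : ℝ)]
  have h8 : |a - b - c| < 1 := by exact_mod_cast h7
  have h9 := Int.abs_lt_one_iff.1 h8
  omega

/-- **Jump.** `l` a closed chain containing the injective path `f` (as one member,
`l.Perm (f :: rest)`), `h` an injective path crossing `f` properly at `p = f s0 = h t0`, `p` not
on the other paths. Then for small `s > 0` the winding numbers around `h (t0 + s)` and
`h (t0 - s)` differ by an odd number (in fact `±1`). Proof: `tot l q = dl f q + tot rest q`;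
`tot rest` is continuous at `p` (sum of `dl_continuousAt`); `local_jump` and `chart_cross` (if
`σ = -1` exchange the two points): the difference of `tot l` at the two points is within `1/2`,
say, of `± 2πi`, and equals `2πi (wn - wn)` by `wn_spec`; so the difference of the winding numbers
is `±1`. The points are not on `f` (in the chart `im ≠ 0`) and, for small `s`, not on the other
paths (closed set not containing `p`). -/
theorem jump {l rest : List (ℝ → ℂ)} {f h : ℝ → ℂ} (hl : IsLoop l) (hperm : l.Perm (f :: rest))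
    (hcr : ∀ g ∈ rest, ContinuousOn g (Icc 0 1))
    (hfc : ContinuousOn f (Icc 0 1)) (hfi : InjOn f (Icc 0 1))
    (hhc : ContinuousOn h (Icc 0 1)) (hhi : InjOn h (Icc 0 1)) {s0 t0 : ℝ}
    (hs : s0 ∈ Ioo (0 : ℝ) 1) (ht : t0 ∈ Ioo (0 : ℝ) 1) (hp : f s0 = h t0)
    (hcross : ProperCross (f '' Icc 0 1) (h '' Icc 0 1) (f s0)) (hrest : f s0 ∉ supp rest) :
    ∃ δ : ℝ, 0 < δ ∧ ∀ s ∈ Ioo (0 : ℝ) δ, h (t0 + s) ∉ supp l ∧ h (t0 - s) ∉ supp l ∧
      Odd (wn l (h (t0 + s)) - wn l (h (t0 - s))) := by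
  obtain ⟨e, hpe, hp0, htg, hAB⟩ := hcross
  have hAx : ∀ z ∈ e.source, z ∈ f '' Icc 0 1 ↔ (e z).im = 0 := fun z hz => (hAB z hz).1
  have hBx : ∀ z ∈ e.source, z ∈ h '' Icc 0 1 → (e z).re = 0 := fun z hz => (hAB z hz).2.1
  obtain ⟨N, hN, hlj⟩ := local_jump hfc hfi hs e hpe hp0 htg hAx
  obtain ⟨δ1, hδ1, hδ1', hlj1⟩ := hlj 1 one_pos
  have h0t : (0 : ℂ) ∈ e.target := by
    rw [htg]
    exact mem_ball_self one_pos
  have hs0 : e.symm 0 = f s0 := by
    rw [← hp0]
    exact e.left_inv hpe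
  have hcs : ContinuousAt e.symm 0 := e.continuousAt_symm h0t
  have hT : ∀ᶠ q in nhds (e.symm 0), ‖tot rest q - tot rest (f s0)‖ < 1 ∧ q ∉ supp rest := by
    rw [hs0]
    refine Filter.Eventually.and ?_ ?_
    · have h1 := (Metric.continuousAt_iff'.1 (TJump_cont hcr hrest)) 1 one_pos
      refine h1.mono fun q hq => ?_
      rw [← dist_eq_norm]
      exact hq
    · exact (TJump_closed hcr).isOpen_compl.mem_nhds hrest
  obtain ⟨η, hη, hηT⟩ := Metric.eventually_nhds_iff.1 (hcs.eventually hT)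
  have hpt : h t0 ∈ e.source := hp ▸ hpe
  have hp0' : e (h t0) = 0 := hp ▸ hp0
  obtain ⟨δ, hδ, σ, hσ, hch⟩ := chart_cross hhc hhi ht e hpt hp0' htg hBx (min η δ1)
    (lt_min hη hδ1)
  refine ⟨δ, hδ, fun s hsδ => ?_⟩
  obtain ⟨_, _, ⟨y, hy0, hyη, hy⟩, ⟨y', hy0', hyη', hy'⟩⟩ := hch s hsδ
  have hyη1 := lt_of_lt_of_le hyη (min_le_left _ _)
  have hyδ1 := lt_of_lt_of_le hyη (min_le_right _ _)
  have hyη1' := lt_of_lt_of_le hyη' (min_le_left _ _)
  have hyδ1' := lt_of_lt_of_le hyη' (min_le_right _ _)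
  have hσa : |σ| = 1 := by
    rcases hσ with rfl | rfl <;> simp
  have key : ∀ r : ℝ, r ≠ 0 → |r| < η → |r| < 1 → ∀ w : ℂ, w = r * Complex.I →
      e.symm w ∉ supp l ∧ ‖tot rest (e.symm w) - tot rest (f s0)‖ < 1 := by
    intro r hr hr1 hr2 w hw
    have hd : dist w 0 < η := by
      rw [dist_zero_right, hw, norm_mul, Complex.norm_I, mul_one, Complex.norm_real]
      exact hr1
    obtain ⟨h1, h2⟩ := hηT hd
    refine ⟨?_, h1⟩
    rintro ⟨g, hg, hgz⟩
    rcases List.mem_cons.1 (hperm.mem_iff.1 hg) with h3 | h3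
    · rw [h3, hw] at hgz
      exact TJump_off e htg hAx hr hr2 hgz
    · exact h2 ⟨g, h3, hgz⟩
  have k1 := key (σ * y) (by rw [← abs_pos, abs_mul, hσa, one_mul]; exact abs_pos.2 hy0.ne')
    (by rw [abs_mul, hσa, one_mul, abs_of_pos hy0]; exact hyη1)
    (by rw [abs_mul, hσa, one_mul, abs_of_pos hy0]; exact hyδ1.trans hδ1')
    (σ * y * Complex.I) (by push_cast; ring)
  have k2 := key (-(σ * y'))
    (by rw [← abs_pos, abs_neg, abs_mul, hσa, one_mul]; exact abs_pos.2 hy0'.ne')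
    (by rw [abs_neg, abs_mul, hσa, one_mul, abs_of_pos hy0']; exact hyη1')
    (by rw [abs_neg, abs_mul, hσa, one_mul, abs_of_pos hy0']; exact hyδ1'.trans hδ1')
    (-(σ * y' * Complex.I)) (by push_cast; ring)
  rw [← hy] at k1
  rw [← hy'] at k2
  refine ⟨k1.1, k2.1, ?_⟩
  have w1 := wn_spec hl k1.1
  have w2 := wn_spec hl k2.1
  have hnn : ‖tot rest (h (t0 + s)) - tot rest (h (t0 - s))‖ < 2 := by
    have e1 : tot rest (h (t0 + s)) - tot rest (h (t0 - s)) =
        (tot rest (h (t0 + s)) - tot rest (f s0)) -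
          (tot rest (h (t0 - s)) - tot rest (f s0)) := by ring
    rw [e1]
    linarith [norm_sub_le (tot rest (h (t0 + s)) - tot rest (f s0))
      (tot rest (h (t0 - s)) - tot rest (f s0)), k1.2, k2.2]
  have d1 : tot l (h (t0 + s)) - tot rest (h (t0 + s)) = dl f (h (t0 + s)) := by
    rw [TJump_perm hperm]
    ring
  have d2 : tot l (h (t0 - s)) - tot rest (h (t0 - s)) = dl f (h (t0 - s)) := by
    rw [TJump_perm hperm]
    ring
  have hodd : Odd N := by
    rcases hN with rfl | rfl <;> decide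
  rcases hσ with rfl | rfl
  · have hj := hlj1 y y' hy0 hyδ1 hy0' hyδ1'
    have a1 : ((1 : ℝ) : ℂ) * (y : ℂ) * Complex.I = y * Complex.I := by push_cast; ring
    have a2 : -(((1 : ℝ) : ℂ) * (y' : ℂ) * Complex.I) = -(y' * Complex.I) := by push_cast; ring
    rw [a1] at hy
    rw [a2] at hy'
    rw [← hy, ← hy', ← d1, ← d2] at hj
    rw [TJump_int w1 w2 hj hnn]
    exact hodd
  · have hj := hlj1 y' y hy0' hyδ1' hy0 hyδ1
    have a1 : ((-1 : ℝ) : ℂ) * (y : ℂ) * Complex.I = -(y * Complex.I) := by push_cast; ring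
    have a2 : -(((-1 : ℝ) : ℂ) * (y' : ℂ) * Complex.I) = y' * Complex.I := by push_cast; ring
    rw [a1] at hy
    rw [a2] at hy'
    rw [← hy, ← hy', ← d1, ← d2] at hj
    have hnn' : ‖tot rest (h (t0 - s)) - tot rest (h (t0 + s))‖ < 2 := by
      rw [norm_sub_rev]
      exact hnn
    have h3 := TJump_int w2 w1 hj hnn'
    have h4 : wn l (h (t0 + s)) - wn l (h (t0 - s)) = -N := by
      rw [← h3]
      ring
    rw [h4]
    exact hodd.neg

end SDE
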