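import Pool.Agent.SDE.TPathB

/-!
# SDE/TLoopA
Closed chains of paths and their winding numbers.
-/

open Set

namespace SDE

/-- `l` is a chain of paths from `a` to `b`: each path starts where the previous one ends. -/
def IsChain (b : ℂ) : ℂ → List (ℝ → ℂ) → Prop
  | a, [] => a = b
  | a, p :: l => ContinuousOn p (Icc 0 1) ∧ p 0 = a ∧ IsChain b (p 1) l

/-- closed chain -/
def IsLoop (l : List (ℝ → ℂ)) : Prop := ∃ a, IsChain a a l

/-- the points on the paths of `l` -/
def supp (l : List (ℝ → ℂ)) : Set ℂ := {z | ∃ p ∈ l, z ∈ p '' Icc (0 : ℝ) 1}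

/-- total change of the logarithm -/
noncomputable def tot (l : List (ℝ → ℂ)) (q : ℂ) : ℂ := (l.map (fun p => dl p q)).sum

open Classical in
/-- the winding number of a closed chain around `q` -/
noncomputable def wn (l : List (ℝ → ℂ)) (q : ℂ) : ℤ :=
  if h : ∃ k : ℤ, tot l q = k * (2 * Real.pi * Complex.I) then h.choose else 0

private theorem TLoopA_cont {b : ℂ} : ∀ {l : List (ℝ → ℂ)} {a : ℂ}, IsChain b a l →
    ∀ p ∈ l, ContinuousOn p (Icc 0 1)
  | [], _, _, p, hp => by simp at hp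
  | p :: l, _, h, p', hp => by
    rcases List.mem_cons.1 hp with rfl | hp
    · exact h.1
    · exact TLoopA_cont h.2.2 p' hp

private theorem TLoopA_exp {b q : ℂ} : ∀ {l : List (ℝ → ℂ)} {a : ℂ}, IsChain b a l →
    q ∉ supp l → Complex.exp (tot l q) * (a - q) = b - q
  | [], a, h, _ => by
    have h' : a = b := h
    simp [tot, h']
  | p :: l, a, h, hq => by
    obtain ⟨hc, h0, hl⟩ := h
    have hpq : ∀ t ∈ Icc (0 : ℝ) 1, p t ≠ q := fun t ht e =>
      hq ⟨p, List.mem_cons_self, t, ht, e⟩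
    have hlq : q ∉ supp l := by
      rintro ⟨p', hp', hz⟩
      exact hq ⟨p', List.mem_cons_of_mem _ hp', hz⟩
    have ih := TLoopA_exp hl hlq
    have e1 : Complex.exp (dl p q) = (p 1 - q) / (p 0 - q) := exp_dl hc hpq
    have hne : a - q ≠ 0 := by
      rw [← h0]
      exact sub_ne_zero.2 (hpq 0 ⟨le_refl _, zero_le_one⟩)
    have e2 : tot (p :: l) q = dl p q + tot l q := by simp [tot]
    rw [e2, Complex.exp_add, e1, h0]
    rw [← ih]
    field_simp

theorem supp_closed {l : List (ℝ → ℂ)} (h : IsLoop l) : IsClosed (supp l) := by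
  obtain ⟨a, ha⟩ := h
  have e : supp l = ⋃ p ∈ {p | p ∈ l}, p '' Icc (0 : ℝ) 1 := by
    ext z
    simp [supp]
  rw [e]
  apply Set.Finite.isClosed_biUnion (List.finite_toSet l)
  intro p hp
  exact (isCompact_Icc.image_of_continuousOn (TLoopA_cont ha p hp)).isClosed

/-- Proof: for a chain from `a` to `b`, `exp (tot l q) = (b - q) / (a - q)` by induction
(`exp_dl`); for a closed chain `exp (tot l q) = 1` (`Complex.exp_eq_one_iff`). -/
theorem wn_spec {l : List (ℝ → ℂ)} (h : IsLoop l) {q : ℂ} (hq : q ∉ supp l) :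
    tot l q = wn l q * (2 * Real.pi * Complex.I) := by
  have hex : ∃ k : ℤ, tot l q = k * (2 * Real.pi * Complex.I) := by
    obtain ⟨a, ha⟩ := h
    rcases l with _ | ⟨p, l⟩
    · exact ⟨0, by simp [tot]⟩
    · have hne : a - q ≠ 0 := by
        rw [← ha.2.1]
        refine sub_ne_zero.2 fun e => hq ⟨p, List.mem_cons_self, 0, ⟨le_refl _, zero_le_one⟩, e⟩
      have h1 := TLoopA_exp ha hq
      have h2 : Complex.exp (tot (p :: l) q) = 1 := mul_right_cancel₀ hne (by rw [h1, one_mul])
      exact Complex.exp_eq_one_iff.1 h2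
  unfold wn
  rw [dif_pos hex]
  exact hex.choose_spec

end SDE
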