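import Pool.Agent.SDE.TLoopA

/-!
# SDE/TLoopC
The winding number around a point outside a disc containing the chain.
-/

open Set

namespace SDE

private theorem far_dl {γ : ℝ → ℂ} (hc : ContinuousOn γ (Icc 0 1)) {z : ℂ} {R : ℝ}
    (hR : ∀ t ∈ Icc (0 : ℝ) 1, ‖γ t - z‖ ≤ R) {q : ℂ} (hq : R < ‖q - z‖) :
    dl γ q = Complex.log (1 + (γ 1 - z) / (z - q)) - Complex.log (1 + (γ 0 - z) / (z - q)) := by
  have m0 : (0 : ℝ) ∈ Icc (0 : ℝ) 1 := ⟨le_rfl, zero_le_one⟩
  have hR0 : 0 ≤ R := (norm_nonneg _).trans (hR 0 m0)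
  have hw : z - q ≠ 0 := by
    intro h
    rw [← neg_sub, neg_eq_zero] at h
    rw [h, norm_zero] at hq
    exact absurd hq (not_lt.2 hR0)
  have hwn : R < ‖z - q‖ := by
    rw [norm_sub_rev]
    exact hq
  have hlt : ∀ t ∈ Icc (0 : ℝ) 1, ‖(γ t - z) / (z - q)‖ < 1 := by
    intro t ht
    rw [norm_div, div_lt_one (norm_pos_iff.2 hw)]
    exact (hR t ht).trans_lt hwn
  have hsl : ∀ t ∈ Icc (0 : ℝ) 1, 1 + (γ t - z) / (z - q) ∈ Complex.slitPlane := fun t ht =>
    Complex.mem_slitPlane_of_norm_lt_one (hlt t ht)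
  have hL : IsLift γ q (fun t => Complex.log (z - q) + Complex.log (1 + (γ t - z) / (z - q))) := by
    refine ⟨?_, fun t ht => ?_⟩
    · refine continuousOn_const.add (ContinuousOn.clog ?_ hsl)
      exact continuousOn_const.add ((hc.sub continuousOn_const).div_const _)
    · rw [Complex.exp_add, Complex.exp_log hw,
        Complex.exp_log (Complex.slitPlane_ne_zero (hsl t ht))]
      field_simp
      ring
  rw [dl_eq hL]
  ring

private theorem far_tot {z : ℂ} {R : ℝ} {q : ℂ} (hq : R < ‖q - z‖) {b : ℂ} :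
    ∀ (l : List (ℝ → ℂ)) (a : ℂ), IsChain b a l → supp l ⊆ Metric.closedBall z R →
      tot l q = Complex.log (1 + (b - z) / (z - q)) - Complex.log (1 + (a - z) / (z - q)) := by
  intro l
  induction l with
  | nil =>
    intro a h _
    have h' : a = b := h
    rw [h', sub_self]
    rfl
  | cons p l ih =>
    intro a h hR
    obtain ⟨h1, h2, h3⟩ := h
    have h4 : ∀ t ∈ Icc (0 : ℝ) 1, ‖p t - z‖ ≤ R := by
      intro t ht
      have h5 : p t ∈ Metric.closedBall z R := hR ⟨p, List.mem_cons_self, t, ht, rfl⟩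
      rwa [mem_closedBall_iff_norm] at h5
    have h6 : supp l ⊆ Metric.closedBall z R := fun y ⟨p', hp', hy⟩ =>
      hR ⟨p', List.mem_cons_of_mem _ hp', hy⟩
    have h7 : tot (p :: l) q = dl p q + tot l q := by
      unfold tot
      rw [List.map_cons, List.sum_cons]
    rw [h7, far_dl h1 h4 hq, ih (p 1) h3 h6, h2]
    ring

/-- Far away the winding number is `0`. Proof: for `z' = γ t` on a path of `l`,
`‖z' - z‖ ≤ R < ‖q - z‖`, so `γ t - q = (z - q) * (1 + (γ t - z) / (z - q))` with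
`‖(γ t - z) / (z - q)‖ < 1` has the logarithm `c + log (1 + (γ t - z) / (z - q))` (principal
branch), `exp c = z - q`. So
`dl γ q = log (1 + (γ 1 - z) / (z - q)) - log (1 + (γ 0 - z) / (z - q))` (`dl_eq`), and the total
change around a closed chain telescopes to `0` (induction along the chain). `wn_spec`. -/
theorem wn_far {l : List (ℝ → ℂ)} (h : IsLoop l) {z : ℂ} {R : ℝ}
    (hR : supp l ⊆ Metric.closedBall z R) {q : ℂ} (hq : R < ‖q - z‖) : wn l q = 0 := by
  have hns : q ∉ supp l := fun h' => absurd (mem_closedBall_iff_norm.1 (hR h')) (not_le.2 hq)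
  have h1 := wn_spec h hns
  obtain ⟨a, ha⟩ := h
  rw [far_tot hq l a ha hR, sub_self] at h1
  have h2 := mul_eq_zero.1 h1.symm
  rcases h2 with h2 | h2
  · exact_mod_cast h2
  · exact absurd h2 Complex.two_pi_I_ne_zero

end SDE
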