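import Mathlib

/-!
# SDE/TPathA
Change of the logarithm of `γ t - q` along a path `γ : [0,1] → ℂ`: definition.
-/

open Set

namespace SDE

/-- `L` is a continuous logarithm of `γ - q` on `[0,1]`. -/
def IsLift (γ : ℝ → ℂ) (q : ℂ) (L : ℝ → ℂ) : Prop :=
  ContinuousOn L (Icc 0 1) ∧ ∀ t ∈ Icc (0 : ℝ) 1, Complex.exp (L t) = γ t - q

open Classical in
/-- The change of `log (γ t - q)` along the path `γ`. -/
noncomputable def dl (γ : ℝ → ℂ) (q : ℂ) : ℂ :=
  if h : ∃ L, IsLift γ q L then h.choose 1 - h.choose 0 else 0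

/-- The part of the path `γ` from parameter `a` to parameter `b` (also `a > b`), again with
parameter interval `[0,1]`. -/
def sub (γ : ℝ → ℂ) (a b : ℝ) : ℝ → ℂ := fun t => γ (a + (b - a) * t)

private theorem univ_sc : IsSimplyConnected (Set.univ : Set ℝ) := by
  have h : ContractibleSpace (Set.univ : Set ℝ) :=
    (convex_univ (𝕜 := ℝ) (E := ℝ)).contractibleSpace univ_nonempty
  change SimplyConnectedSpace (Set.univ : Set ℝ)
  infer_instance

/-- Existence of a logarithm. Proof: extend `γ` to a continuous `γ' : ℝ → ℂ` by `γ ∘ projIcc`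
(`ContinuousOn.IccExtend` or `Set.IccExtend`), `q ∉ range γ'`; `ℝ` is simply connected
(contractible) and locally path connected; apply `exists_continuousOn_eqOn_exp_comp`
(Mathlib/Analysis/Complex/BranchLogRoot.lean) with `U = univ`. -/
theorem exists_lift {γ : ℝ → ℂ} {q : ℂ} (hc : ContinuousOn γ (Icc 0 1))
    (hq : ∀ t ∈ Icc (0 : ℝ) 1, γ t ≠ q) : ∃ L, IsLift γ q L := by
  have h1 : Continuous (fun t : ℝ => γ (projIcc (0 : ℝ) 1 zero_le_one t)) :=
    hc.comp_continuous (continuous_subtype_val.comp continuous_projIcc) fun t =>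
      (projIcc (0 : ℝ) 1 zero_le_one t).2
  obtain ⟨L, hL1, hL2⟩ := Complex.exists_continuousOn_eqOn_exp_comp
    (X := ℝ) (U := Set.univ)
    (g := fun t => γ (projIcc (0 : ℝ) 1 zero_le_one t) - q) univ_sc
    isOpen_univ (h1.sub continuous_const).continuousOn (by
      rintro ⟨t, -, ht⟩
      exact hq _ (projIcc (0 : ℝ) 1 zero_le_one t).2 (sub_eq_zero.1 ht))
  refine ⟨L, hL1.mono (subset_univ _), fun t ht => ?_⟩
  have h2 := hL2 (mem_univ t)
  simp only [Function.comp_apply] at h2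
  rw [h2, projIcc_of_mem zero_le_one ht]

/-- Independence of the logarithm. Proof: two logarithms on `[0,1]` differ by a continuous
function with values in `2πi ℤ` (`Complex.exp_eq_exp_iff_exists_int`), which is constant on the
connected set `[0,1]` (e.g. `IsPreconnected.constant`-type argument: the function
`(L - L') / (2πi)` is continuous with values in the integers). -/
theorem dl_eq {γ : ℝ → ℂ} {q : ℂ} {L : ℝ → ℂ} (h : IsLift γ q L) : dl γ q = L 1 - L 0 := by
  have hex : ∃ L, IsLift γ q L := ⟨L, h⟩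
  unfold dl
  rw [dif_pos hex]
  obtain ⟨L', hL'⟩ : ∃ L', L' = hex.choose := ⟨_, rfl⟩
  have h' : IsLift γ q L' := by
    rw [hL']
    exact hex.choose_spec
  rw [← hL']
  obtain ⟨r, hr⟩ : ∃ r : ℝ → ℝ, r = fun t => ((L t - L' t) / (2 * Real.pi * Complex.I)).re :=
    ⟨_, rfl⟩
  have hrc : ContinuousOn r (Icc 0 1) := by
    rw [hr]
    exact Complex.continuous_re.comp_continuousOn ((h.1.sub h'.1).div_const _)
  have hpi : (2 * Real.pi * Complex.I : ℂ) ≠ 0 := Complex.two_pi_I_ne_zero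
  have hint : ∀ t ∈ Icc (0 : ℝ) 1, ∃ n : ℤ, L t - L' t = n * (2 * Real.pi * Complex.I) ∧
      r t = n := by
    intro t ht
    obtain ⟨n, hn⟩ := Complex.exp_eq_exp_iff_exists_int.1 ((h.2 t ht).trans (h'.2 t ht).symm)
    have h1 : L t - L' t = n * (2 * Real.pi * Complex.I) := by
      rw [hn]
      ring
    refine ⟨n, h1, ?_⟩
    rw [hr]
    simp only
    rw [h1, mul_div_cancel_right₀ _ hpi]
    simp
  have m0 : (0 : ℝ) ∈ Icc (0 : ℝ) 1 := ⟨le_rfl, zero_le_one⟩
  have m1 : (1 : ℝ) ∈ Icc (0 : ℝ) 1 := ⟨zero_le_one, le_rfl⟩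
  obtain ⟨n0, a0, b0⟩ := hint 0 m0
  obtain ⟨n1, a1, b1⟩ := hint 1 m1
  have key : n0 = n1 := by
    by_contra hne
    have hhalf : ∀ k : ℤ, ((k : ℝ) + 1 / 2) ∉ r '' Icc 0 1 := by
      rintro k ⟨t, ht, htk⟩
      obtain ⟨n, -, hn⟩ := hint t ht
      rw [hn] at htk
      have h2 : (2 * n : ℝ) = 2 * k + 1 := by linarith
      have h3 : 2 * n = 2 * k + 1 := by exact_mod_cast h2
      omega
    rcases lt_or_gt_of_ne hne with hlt | hlt
    · refine hhalf n0 (intermediate_value_Icc zero_le_one hrc ?_)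
      rw [b0, b1]
      have h2 : (n0 : ℝ) + 1 ≤ n1 := by exact_mod_cast hlt
      constructor <;> linarith
    · refine hhalf n1 (intermediate_value_Icc' zero_le_one hrc ?_)
      rw [b0, b1]
      have h2 : (n1 : ℝ) + 1 ≤ n0 := by exact_mod_cast hlt
      constructor <;> linarith
  rw [← key] at a1
  have h3 := a0.trans a1.symm
  linear_combination h3

end SDE
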