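import Pool.Agent.SDE.TPathA

/-!
# SDE/TPathB
Change of the logarithm: basic rules.
-/

open Set

namespace SDE

/-- Only the values on `[0,1]` matter. -/
theorem dl_congr {γ γ' : ℝ → ℂ} {q : ℂ} (h : EqOn γ γ' (Icc 0 1)) : dl γ q = dl γ' q := by
  have h1 : IsLift γ q = IsLift γ' q := by
    funext L
    exact propext ⟨fun h2 => ⟨h2.1, fun t ht => by rw [h2.2 t ht, h ht]⟩,
      fun h2 => ⟨h2.1, fun t ht => by rw [h2.2 t ht, h ht]⟩⟩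
  unfold dl
  rw [h1]

theorem exp_dl {γ : ℝ → ℂ} {q : ℂ} (hc : ContinuousOn γ (Icc 0 1))
    (hq : ∀ t ∈ Icc (0 : ℝ) 1, γ t ≠ q) : Complex.exp (dl γ q) = (γ 1 - q) / (γ 0 - q) := by
  obtain ⟨L, hL⟩ := exists_lift hc hq
  rw [dl_eq hL, Complex.exp_sub, hL.2 1 ⟨zero_le_one, le_rfl⟩, hL.2 0 ⟨le_rfl, zero_le_one⟩]

/-- Along a part of `γ` the change is the difference of a logarithm of `γ - q`. Proof:
`t ↦ L (a + (b - a) * t)` is a logarithm of `sub γ a b - q`; `dl_eq`. -/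
theorem dl_sub {γ : ℝ → ℂ} {q : ℂ} {L : ℝ → ℂ} (h : IsLift γ q L) {a b : ℝ}
    (ha : a ∈ Icc (0 : ℝ) 1) (hb : b ∈ Icc (0 : ℝ) 1) : dl (sub γ a b) q = L b - L a := by
  have hmem : ∀ t ∈ Icc (0 : ℝ) 1, a + (b - a) * t ∈ Icc (0 : ℝ) 1 := by
    rintro t ⟨ht0, ht1⟩
    obtain ⟨ha0, ha1⟩ := ha
    obtain ⟨hb0, hb1⟩ := hb
    have e1 := mul_nonneg ha0 (sub_nonneg.2 ht1)
    have e2 := mul_nonneg hb0 ht0
    have e3 := mul_nonneg (sub_nonneg.2 ha1) (sub_nonneg.2 ht1)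
    have e4 := mul_nonneg (sub_nonneg.2 hb1) ht0
    constructor
    · nlinarith
    · nlinarith
  have h1 : IsLift (sub γ a b) q (fun t => L (a + (b - a) * t)) := by
    refine ⟨h.1.comp (by fun_prop) hmem, fun t ht => ?_⟩
    exact h.2 _ (hmem t ht)
  rw [dl_eq h1]
  have e1 : a + (b - a) * 1 = b := by ring
  have e2 : a + (b - a) * 0 = a := by ring
  change L (a + (b - a) * 1) - L (a + (b - a) * 0) = L b - L a
  rw [e1, e2]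

/-- Additivity. -/
theorem dl_add {γ : ℝ → ℂ} {q : ℂ} (hc : ContinuousOn γ (Icc 0 1))
    (hq : ∀ t ∈ Icc (0 : ℝ) 1, γ t ≠ q) {a b c : ℝ}
    (ha : a ∈ Icc (0 : ℝ) 1) (hb : b ∈ Icc (0 : ℝ) 1) (hc' : c ∈ Icc (0 : ℝ) 1) :
    dl (sub γ a c) q = dl (sub γ a b) q + dl (sub γ b c) q := by
  obtain ⟨L, hL⟩ := exists_lift hc hq
  rw [dl_sub hL ha hc', dl_sub hL ha hb, dl_sub hL hb hc']
  ring

/-- The opposite path. -/
theorem dl_rev {γ γ' : ℝ → ℂ} {q : ℂ} (hc : ContinuousOn γ (Icc 0 1))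
    (hq : ∀ t ∈ Icc (0 : ℝ) 1, γ t ≠ q) (h : ∀ t ∈ Icc (0 : ℝ) 1, γ' t = γ (1 - t)) :
    dl γ' q = - dl γ q := by
  obtain ⟨L, hL⟩ := exists_lift hc hq
  have hmem : ∀ t ∈ Icc (0 : ℝ) 1, 1 - t ∈ Icc (0 : ℝ) 1 := fun t ht =>
    ⟨sub_nonneg.2 ht.2, sub_le_self 1 ht.1⟩
  have h1 : IsLift γ' q (fun t => L (1 - t)) := by
    refine ⟨hL.1.comp (by fun_prop) hmem, fun t ht => ?_⟩
    rw [h t ht]
    exact hL.2 _ (hmem t ht)
  rw [dl_eq h1, dl_eq hL]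
  change L (1 - 1) - L (1 - 0) = -(L 1 - L 0)
  rw [sub_self, sub_zero, neg_sub]

end SDE
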