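import Pool.Agent.SDE.TRotB

/-!
# SDE/TRotD
The small chain near a vertex.
-/

open Set Metric

namespace SDE

private theorem trotD_exp {α θ : ℝ} {v : ℂ} {ρ : ℝ} (hρ : 0 < ρ)
    (h : v + ρ * Complex.exp (α * Complex.I) = v + ρ * Complex.exp (θ * Complex.I)) :
    ∃ n : ℤ, α = θ + n * (2 * Real.pi) := by
  have hρ' : (ρ : ℂ) ≠ 0 := by exact_mod_cast hρ.ne'
  have h1 : Complex.exp (α * Complex.I) = Complex.exp (θ * Complex.I) :=
    mul_left_cancel₀ hρ' (add_left_cancel h)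
  obtain ⟨n, hn⟩ := Complex.exp_eq_exp_iff_exists_int.1 h1
  refine ⟨n, ?_⟩
  have h2 := congrArg Complex.im hn
  simpa using h2

private theorem trotD_arc (v : ℂ) (ρ a b t : ℝ) :
    arc v ρ a b t = v + ρ * Complex.exp (((a + (b - a) * t : ℝ) : ℂ) * Complex.I) := rfl

private theorem trotD_arc_norm {v : ℂ} {ρ : ℝ} (hρ : 0 < ρ) (a b t : ℝ) :
    ‖arc v ρ a b t - v‖ = ρ := by
  rw [trotD_arc, add_sub_cancel_left, norm_mul, Complex.norm_exp_ofReal_mul_I, mul_one,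
    Complex.norm_real, Real.norm_of_nonneg hρ.le]

private theorem trotD_circ {v : ℂ} {ρ : ℝ} (hρ : 0 < ρ) (a : ℝ) :
    ‖v + ρ * Complex.exp (a * Complex.I) - v‖ = ρ := by
  rw [add_sub_cancel_left, norm_mul, Complex.norm_exp_ofReal_mul_I, mul_one,
    Complex.norm_real, Real.norm_of_nonneg hρ.le]

private theorem trotD_loop {v : ℂ} {γ γ' : ℝ → ℂ} {ρ τ τ' θx θy b : ℝ}
    (hγ : ContinuousOn γ (Icc 0 1)) (hγ0 : γ 0 = v)
    (hγ' : ContinuousOn γ' (Icc 0 1)) (hγ0' : γ' 0 = v)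
    (hτ : 0 < τ ∧ τ < 1) (hτ' : 0 < τ' ∧ τ' < 1)
    (hout : γ τ = v + ρ * Complex.exp (θx * Complex.I))
    (hout' : γ' τ' = v + ρ * Complex.exp (θy * Complex.I))
    (hb : Complex.exp (θy * Complex.I) = Complex.exp (b * Complex.I)) :
    IsLoop [sub γ 0 τ, arc v ρ θx b, sub γ' τ' 0] := by
  refine ⟨v, ?_, ?_, ?_, ?_, ?_, ?_, ?_⟩
  · refine hγ.comp (by fun_prop) fun t ht => ?_
    constructor
    · nlinarith [ht.1, ht.2, hτ.1]
    · nlinarith [ht.1, ht.2, hτ.1, hτ.2]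
  · change γ (0 + (τ - 0) * 0) = v
    rw [mul_zero, add_zero, hγ0]
  · unfold arc
    fun_prop
  · change arc v ρ θx b 0 = γ (0 + (τ - 0) * 1)
    rw [mul_one, zero_add, sub_zero, hout, trotD_arc, mul_zero, add_zero]
  · refine hγ'.comp (by fun_prop) fun t ht => ?_
    constructor
    · nlinarith [ht.1, ht.2, hτ'.1]
    · nlinarith [ht.1, ht.2, hτ'.1, hτ'.2]
  · change γ' (τ' + (0 - τ') * 0) = arc v ρ θx b 1
    rw [mul_zero, add_zero, hout', trotD_arc, mul_one, hb]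
    congr 4
    ring
  · change γ' (τ' + (0 - τ') * 1) = v
    rw [← hγ0']
    congr 1
    ring

/-- **The small chain.** The winding number of `K₁ = [sub γ 0 τ, arc v ρ θx θy, sub γ' τ' 0]`
around a point of a third arc `η` before its exit: `1` if its exit angle `θ` is between `θx` and
`θy`, `0` otherwise. Proof. If `θ ∉ (θx, θy)` the circle point of angle `θ` is not on the arc from
`θx` to `θy` (angles in `(-π, π]`, `exp` is injective there): `wn K₁ q = 0` by `radial` (`τη` for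
`τ`, `θ` for `c`). If `θx < θ < θy`, it is not on the arc from `θx` down to `θy - 2π`:
`wn K₁' q = 0` by `radial`, where `K₁' = [sub γ 0 τ, arc v ρ θx (θy - 2π), sub γ' τ' 0]` (closed,
as `exp` has period `2πi`), and `tot K₁ q - tot K₁' q = 2πi` by `arc_diff`, so `wn K₁ q = 1`
(`wn_spec`; `2πi ≠ 0`). `η t ≠ v` for `t > 0` by injectivity, and so `η t ∉ γ, γ'`. -/
theorem rot_small {v : ℂ} {γ γ' η : ℝ → ℂ} {ρ τ τ' τη θx θy θ : ℝ} (hρ : 0 < ρ)
    (hγ : ContinuousOn γ (Icc 0 1)) (hγ0 : γ 0 = v)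
    (hγ' : ContinuousOn γ' (Icc 0 1)) (hγ0' : γ' 0 = v)
    (hτ : 0 < τ ∧ τ < 1) (hτ' : 0 < τ' ∧ τ' < 1)
    (hin : ∀ t, 0 ≤ t → t < τ → ‖γ t - v‖ < ρ) (hin' : ∀ t, 0 ≤ t → t < τ' → ‖γ' t - v‖ < ρ)
    (hout : γ τ = v + ρ * Complex.exp (θx * Complex.I))
    (hout' : γ' τ' = v + ρ * Complex.exp (θy * Complex.I))
    (hθx : θx ∈ Ioc (-Real.pi) Real.pi) (hθy : θy ∈ Ioc (-Real.pi) Real.pi) (hxy : θx < θy)
    (hη : ContinuousOn η (Icc 0 1)) (hη0 : η 0 = v) (hηi : InjOn η (Icc 0 1))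
    (hm : ∀ z ∈ η '' Icc 0 1 ∩ γ '' Icc 0 1, z = v)
    (hm' : ∀ z ∈ η '' Icc 0 1 ∩ γ' '' Icc 0 1, z = v) (hτη : 0 < τη ∧ τη < 1)
    (hηin : ∀ t, 0 ≤ t → t < τη → ‖η t - v‖ < ρ)
    (hηout : η τη = v + ρ * Complex.exp (θ * Complex.I)) (hθ : θ ∈ Ioc (-Real.pi) Real.pi)
    (hne : θ ≠ θx) (hne' : θ ≠ θy) {t : ℝ} (ht0 : 0 < t) (ht : t < τη) :
    wn [sub γ 0 τ, arc v ρ θx θy, sub γ' τ' 0] (η t) = if θx < θ ∧ θ < θy then 1 else 0 := by
  have hloop : IsLoop [sub γ 0 τ, arc v ρ θx θy, sub γ' τ' 0] :=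
    trotD_loop hγ hγ0 hγ' hγ0' hτ hτ' hout hout' rfl
  have hβ : ∀ s ∈ Icc (0 : ℝ) 1, ‖sub γ 0 τ s - v‖ ≤ ρ ∧
      (‖sub γ 0 τ s - v‖ = ρ → sub γ 0 τ s = v + ρ * Complex.exp (θx * Complex.I)) := by
    intro s hs
    have e : sub γ 0 τ s = γ (τ * s) := by
      change γ (0 + (τ - 0) * s) = _
      congr 1
      ring
    rw [e]
    have h0 : 0 ≤ τ * s := mul_nonneg hτ.1.le hs.1
    rcases lt_or_ge (τ * s) τ with h1 | h1
    · have h2 := hin _ h0 h1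
      exact ⟨h2.le, fun h3 => absurd h3 h2.ne⟩
    · have h3 : τ * s = τ := le_antisymm (by nlinarith [hs.2, hτ.1]) h1
      rw [h3, hout]
      exact ⟨(trotD_circ hρ θx).le, fun _ => rfl⟩
  have hβ' : ∀ s ∈ Icc (0 : ℝ) 1, ‖sub γ' τ' 0 s - v‖ ≤ ρ ∧
      (‖sub γ' τ' 0 s - v‖ = ρ → sub γ' τ' 0 s = v + ρ * Complex.exp (θy * Complex.I)) := by
    intro s hs
    have e : sub γ' τ' 0 s = γ' (τ' * (1 - s)) := by
      change γ' (τ' + (0 - τ') * s) = _
      congr 1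
      ring
    rw [e]
    have h0 : 0 ≤ τ' * (1 - s) := mul_nonneg hτ'.1.le (by linarith [hs.2])
    rcases lt_or_ge (τ' * (1 - s)) τ' with h1 | h1
    · have h2 := hin' _ h0 h1
      exact ⟨h2.le, fun h3 => absurd h3 h2.ne⟩
    · have h3 : τ' * (1 - s) = τ' := le_antisymm (by nlinarith [hs.1, hτ'.1]) h1
      rw [h3, hout']
      exact ⟨(trotD_circ hρ θy).le, fun _ => rfl⟩
  have hβs : ∀ s ∈ Icc (0 : ℝ) 1, sub γ 0 τ s ∈ γ '' Icc 0 1 := by
    intro s hs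
    refine ⟨0 + (τ - 0) * s, ⟨?_, ?_⟩, rfl⟩
    · nlinarith [hs.1, hs.2, hτ.1]
    · nlinarith [hs.1, hs.2, hτ.1, hτ.2]
  have hβs' : ∀ s ∈ Icc (0 : ℝ) 1, sub γ' τ' 0 s ∈ γ' '' Icc 0 1 := by
    intro s hs
    refine ⟨τ' + (0 - τ') * s, ⟨?_, ?_⟩, rfl⟩
    · nlinarith [hs.1, hs.2, hτ'.1]
    · nlinarith [hs.1, hs.2, hτ'.1, hτ'.2]
  have hηne : ∀ s, 0 < s → s ≤ τη → η s ≠ v := by
    intro s h1 h2 h3
    rw [← hη0] at h3
    have := hηi ⟨h1.le, h2.trans hτη.2.le⟩ ⟨le_rfl, zero_le_one⟩ h3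
    exact h1.ne' this
  have hd : ∀ s, 0 < s → s ≤ τη → η s ∉ sub γ 0 τ '' Icc 0 1 ∧
      η s ∉ sub γ' τ' 0 '' Icc 0 1 := by
    intro s h1 h2
    have h3 : η s ∈ η '' Icc 0 1 := ⟨s, ⟨h1.le, h2.trans hτη.2.le⟩, rfl⟩
    constructor
    · rintro ⟨r, hr, hrs⟩
      exact hηne s h1 h2 (hm _ ⟨h3, hrs ▸ hβs r hr⟩)
    · rintro ⟨r, hr, hrs⟩
      exact hηne s h1 h2 (hm' _ ⟨h3, hrs ▸ hβs' r hr⟩)
  have hpi := Real.pi_pos
  by_cases hcase : θx < θ ∧ θ < θy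
  · rw [if_pos hcase]
    have hexp : Complex.exp (θy * Complex.I) =
        Complex.exp (((θy - 2 * Real.pi : ℝ) : ℂ) * Complex.I) := by
      rw [Complex.exp_eq_exp_iff_exists_int]
      refine ⟨1, ?_⟩
      push_cast
      ring
    have hloop' : IsLoop [sub γ 0 τ, arc v ρ θx (θy - 2 * Real.pi), sub γ' τ' 0] :=
      trotD_loop hγ hγ0 hγ' hγ0' hτ hτ' hout hout' hexp
    have hz : wn [sub γ 0 τ, arc v ρ θx (θy - 2 * Real.pi), sub γ' τ' 0] (η t) = 0 := by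
      refine radial hρ hτη.1 hτη.2.le hloop' (fun s hs => (hβ s hs).1)
        (fun s hs => (hβ' s hs).1) (fun s hs => (hβ s hs).2)
        (fun s hs h => ?_) hη hηin hηout hd ?_ ht0 ht.le
      · rw [← hexp]
        exact (hβ' s hs).2 h
      · intro s hs h
        rw [trotD_arc] at h
        obtain ⟨n, hn⟩ := trotD_exp hρ h
        have h1 : θx + (θy - 2 * Real.pi - θx) * s ≤ θx := by
          nlinarith [hs.1, hθy.2, hθx.1]
        have h2 : θy - 2 * Real.pi ≤ θx + (θy - 2 * Real.pi - θx) * s := by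
          nlinarith [hs.2, hθy.2, hθx.1]
        rcases le_or_gt 0 n with h3 | h3
        · have h4 : (0 : ℝ) ≤ n := by exact_mod_cast h3
          nlinarith [hcase.1]
        · have h4 : (n : ℝ) ≤ -1 := by
            have : n ≤ -1 := by omega
            exact_mod_cast this
          nlinarith [hcase.2]
    have hqn : ‖η t - v‖ < ρ := hηin t ht0.le ht
    have hns : ∀ b : ℝ, η t ∉ supp [sub γ 0 τ, arc v ρ θx b, sub γ' τ' 0] := by
      rintro b ⟨p, hp, s, hs, hps⟩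
      simp only [List.mem_cons, List.not_mem_nil, or_false] at hp
      have h2 := hd t ht0 ht.le
      rcases hp with rfl | rfl | rfl
      · exact h2.1 ⟨s, hs, hps⟩
      · rw [← hps, trotD_arc_norm hρ] at hqn
        exact lt_irrefl _ hqn
      · exact h2.2 ⟨s, hs, hps⟩
    have w1 := wn_spec hloop (hns _)
    have w2 := wn_spec hloop' (hns _)
    rw [hz] at w2
    have w3 := arc_diff (a := θx) (b := θy) hρ hqn
    have hne2 : (2 * Real.pi * Complex.I : ℂ) ≠ 0 := Complex.two_pi_I_ne_zero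
    simp only [tot, List.map_cons, List.map_nil, List.sum_cons, List.sum_nil] at w1 w2
    have w4 : ((wn [sub γ 0 τ, arc v ρ θx θy, sub γ' τ' 0] (η t) : ℤ) : ℂ) *
        (2 * Real.pi * Complex.I) = 1 * (2 * Real.pi * Complex.I) := by
      push_cast at w2
      linear_combination w3 - w1 + w2
    have w5 := mul_right_cancel₀ hne2 w4
    exact_mod_cast w5
  · rw [if_neg hcase]
    refine radial hρ hτη.1 hτη.2.le hloop (fun s hs => (hβ s hs).1)
      (fun s hs => (hβ' s hs).1) (fun s hs => (hβ s hs).2)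
      (fun s hs => (hβ' s hs).2) hη hηin hηout hd ?_ ht0 ht.le
    intro s hs h
    rw [trotD_arc] at h
    obtain ⟨n, hn⟩ := trotD_exp hρ h
    have h1 : θx + (θy - θx) * s ≤ θy := by
      nlinarith [hs.2]
    have h2 : θx ≤ θx + (θy - θx) * s := by
      nlinarith [hs.1]
    have h5 : n = 0 := by
      by_contra hn0
      rcases lt_or_gt_of_ne hn0 with h3 | h3
      · have h4 : (n : ℝ) ≤ -1 := by
          have : n ≤ -1 := by omega
          exact_mod_cast this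
        nlinarith [hθ.2, hθx.1]
      · have h4 : (1 : ℝ) ≤ n := by
          have : 1 ≤ n := by omega
          exact_mod_cast this
        nlinarith [hθ.1, hθy.2]
    rw [h5, Int.cast_zero, zero_mul, add_zero] at hn
    rw [hn] at h1 h2
    exact hcase ⟨lt_of_le_of_ne h2 hne.symm, lt_of_le_of_ne h1 hne'⟩

end SDE
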