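import Pool.Agent.SDE.TRotC
import Pool.Agent.SDE.TRotD

/-!
# SDE/TRot
The rotation lemma: three arcs leaving a point.
-/

open Set Metric

namespace SDE

/-- **Rotation lemma.** `l = [γ, δ, ε]` a closed chain: `γ` injective from `v` to `x`, `δ` from
`x` to `y`, `ε` from `y` back to `v`, where `ε t = γ' (1 - t)` for the injective path `γ'` from
`v` to `y`; `γ, γ'` meet only in `v`; `δ` does not contain `v`. `ρ > 0` smaller than the distances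
of `x, y` to `v`; `τ, τ'` the first exit parameters, at angles `θx < θy` in `(-π, π]`. There is a
constant `κ : ZMod 2` such that for every path `η` from `v` which meets `γ, γ'` only in `v`, with
first exit parameter `τη` at the angle `θ ∈ (-π, π]`, `θ ≠ θx, θy`: for all small `t > 0`,
`wn l (η t) ≡ κ + [θx < θ < θy] (mod 2)`. Proof. `rot_decomp`: `wn l q = wn K₁ q + wn K₂ q` for
`q` near `v`, `q ∉ supp l`; `v ∉ supp K₂`, so `wn K₂` is constant near `v` (`wn_eventually`):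
`κ = wn K₂ v`. For `q = η t` with small `t > 0` (`t < τη`; `η` is continuous at `0`, so `q` is
near `v`): `q ∉ γ, γ'` (`hmeet`-type hypotheses, `η t ≠ v`), `q ∉ δ` (closed set without `v`), and
`wn K₁ q` is given by `rot_small`. -/
theorem rotation {v : ℂ} {γ γ' δ ε : ℝ → ℂ} {ρ τ τ' θx θy : ℝ} (hρ : 0 < ρ)
    (hγ : ContinuousOn γ (Icc 0 1)) (hγi : InjOn γ (Icc 0 1)) (hγ0 : γ 0 = v)
    (hγ' : ContinuousOn γ' (Icc 0 1)) (hγi' : InjOn γ' (Icc 0 1)) (hγ0' : γ' 0 = v)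
    (hδ : ContinuousOn δ (Icc 0 1)) (hδ0 : δ 0 = γ 1) (hδ1 : δ 1 = γ' 1)
    (hε : ∀ t ∈ Icc (0 : ℝ) 1, ε t = γ' (1 - t)) (hεc : ContinuousOn ε (Icc 0 1))
    (hmeet : ∀ z ∈ γ '' Icc 0 1 ∩ γ' '' Icc 0 1, z = v) (hvδ : v ∉ δ '' Icc 0 1)
    (hτ : 0 < τ ∧ τ < 1) (hτ' : 0 < τ' ∧ τ' < 1)
    (hin : ∀ t, 0 ≤ t → t < τ → ‖γ t - v‖ < ρ) (hin' : ∀ t, 0 ≤ t → t < τ' → ‖γ' t - v‖ < ρ)
    (hout : γ τ = v + ρ * Complex.exp (θx * Complex.I))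
    (hout' : γ' τ' = v + ρ * Complex.exp (θy * Complex.I))
    (hθx : θx ∈ Ioc (-Real.pi) Real.pi) (hθy : θy ∈ Ioc (-Real.pi) Real.pi) (hxy : θx < θy) :
    ∃ κ : ZMod 2, ∀ (η : ℝ → ℂ) (τη θ : ℝ), ContinuousOn η (Icc 0 1) → η 0 = v →
      InjOn η (Icc 0 1) →
      (∀ z ∈ η '' Icc 0 1 ∩ γ '' Icc 0 1, z = v) → (∀ z ∈ η '' Icc 0 1 ∩ γ' '' Icc 0 1, z = v) →
      0 < τη → τη < 1 → (∀ t, 0 ≤ t → t < τη → ‖η t - v‖ < ρ) →
      η τη = v + ρ * Complex.exp (θ * Complex.I) → θ ∈ Ioc (-Real.pi) Real.pi → θ ≠ θx → θ ≠ θy →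
      ∃ t0 : ℝ, 0 < t0 ∧ ∀ t, 0 < t → t < t0 →
        ((wn [γ, δ, ε] (η t) : ℤ) : ZMod 2) = κ + (if θx < θ ∧ θ < θy then 1 else 0) := by
  obtain ⟨-, -, hL2, hv2, hdec⟩ := rot_decomp hρ hγ hγi hγ0 hγ' hγi' hγ0' hδ hδ0 hδ1 hε hεc hvδ
    hτ hτ' hout hout'
  refine ⟨((wn [sub γ τ 1, δ, sub γ' 1 τ', arc v ρ θy θx] v : ℤ) : ZMod 2), ?_⟩
  intro η τη θ hη hη0 hηi hm hm' hτη0 hτη1 hηin hηout hθ hne hne'
  have hδc : IsClosed (δ '' Icc 0 1) := (isCompact_Icc.image_of_continuousOn hδ).isClosed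
  have hev1 : ∀ᶠ q in nhds v, q ∉ δ '' Icc 0 1 := hδc.isOpen_compl.mem_nhds hvδ
  have hev : ∀ᶠ q in nhds v, q ∉ δ '' Icc 0 1 ∧
      wn [sub γ τ 1, δ, sub γ' 1 τ', arc v ρ θy θx] q =
        wn [sub γ τ 1, δ, sub γ' 1 τ', arc v ρ θy θx] v :=
    hev1.and ((wn_eventually hL2 hv2).mono fun _ h => h.2)
  have hv0 : Filter.Tendsto η (nhdsWithin 0 (Icc 0 1)) (nhds v) := by
    have h1 := hη 0 ⟨le_rfl, zero_le_one⟩
    rwa [ContinuousWithinAt, hη0] at h1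
  have hev2 := hv0.eventually hev
  rw [eventually_nhdsWithin_iff, Metric.eventually_nhds_iff] at hev2
  obtain ⟨e, he, h2⟩ := hev2
  refine ⟨min e τη, lt_min he hτη0, fun t ht0 ht => ?_⟩
  have hte : t < e := lt_of_lt_of_le ht (min_le_left _ _)
  have htτ : t < τη := lt_of_lt_of_le ht (min_le_right _ _)
  have ht1 : t ∈ Icc (0 : ℝ) 1 := ⟨ht0.le, (htτ.trans hτη1).le⟩
  obtain ⟨h3, h4⟩ := h2 (show dist t 0 < e by
    rw [dist_zero_right, Real.norm_of_nonneg ht0.le]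
    exact hte) ht1
  have hηv : η t ≠ v := fun h => ht0.ne' (hηi ht1 ⟨le_rfl, zero_le_one⟩ (h.trans hη0.symm))
  have hq : η t ∉ supp [γ, δ, ε] := by
    rintro ⟨p, hp, s, hs, hps⟩
    simp only [List.mem_cons, List.not_mem_nil, or_false] at hp
    rcases hp with rfl | rfl | rfl
    · exact hηv (hm _ ⟨⟨t, ht1, rfl⟩, ⟨s, hs, hps⟩⟩)
    · exact h3 ⟨s, hs, hps⟩
    · refine hηv (hm' _ ⟨⟨t, ht1, rfl⟩, ⟨1 - s, ⟨sub_nonneg.2 hs.2, sub_le_self 1 hs.1⟩, ?_⟩⟩)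
      rw [← hε s hs]
      exact hps
  rw [hdec _ hq (hηin t ht0.le htτ), rot_small hρ hγ hγ0 hγ' hγ0' hτ hτ' hin hin' hout hout' hθx
    hθy hxy hη hη0 hηi hm hm' ⟨hτη0, hτη1⟩ hηin hηout hθ hne hne' ht0 htτ, h4]
  push_cast
  rw [add_comm]

end SDE
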