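import Pool.Agent.SDE.TLoopB

/-!
# SDE/TRotA
First exit from a disc, circle arcs.
-/

open Set Metric

namespace SDE

/-- First exit of a path from the disc of radius `ρ` around its starting point. Proof:
`τ = sInf {t ∈ [0,1] | ρ ≤ ‖γ t - γ 0‖}` (closed nonempty set), intermediate value theorem. -/
theorem first_exit {γ : ℝ → ℂ} (hc : ContinuousOn γ (Icc 0 1)) {ρ : ℝ} (hρ : 0 < ρ)
    (h1 : ρ < ‖γ 1 - γ 0‖) :
    ∃ τ : ℝ, 0 < τ ∧ τ < 1 ∧ ‖γ τ - γ 0‖ = ρ ∧ ∀ t, 0 ≤ t → t < τ → ‖γ t - γ 0‖ < ρ := by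
  obtain ⟨f, hf⟩ : ∃ f : ℝ → ℝ, f = fun t => ‖γ t - γ 0‖ := ⟨_, rfl⟩
  have hfe : ∀ t, ‖γ t - γ 0‖ = f t := by
    intro t
    rw [hf]
  have hfc : ContinuousOn f (Icc 0 1) := by
    rw [hf]
    exact (hc.sub continuousOn_const).norm
  have hf0 : f 0 = 0 := by
    rw [← hfe, sub_self, norm_zero]
  have hf1 : ρ < f 1 := by
    rw [← hfe]
    exact h1
  have hScl : IsClosed (Icc (0 : ℝ) 1 ∩ f ⁻¹' Ici ρ) :=
    hfc.preimage_isClosed_of_isClosed isClosed_Icc isClosed_Ici
  have hSc : IsCompact (Icc (0 : ℝ) 1 ∩ f ⁻¹' Ici ρ) :=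
    isCompact_Icc.of_isClosed_subset hScl inter_subset_left
  have hSn : (Icc (0 : ℝ) 1 ∩ f ⁻¹' Ici ρ).Nonempty :=
    ⟨1, ⟨zero_le_one, le_rfl⟩, hf1.le⟩
  obtain ⟨τ, ⟨hτI, hτρ⟩, hτmin⟩ := hSc.exists_isLeast hSn
  have hτρ' : ρ ≤ f τ := hτρ
  have hlt : ∀ t, 0 ≤ t → t < τ → f t < ρ := by
    intro t ht0 htτ
    by_contra h
    have := hτmin ⟨⟨ht0, htτ.le.trans hτI.2⟩, not_lt.1 h⟩
    linarith
  have hτ0 : 0 < τ := by
    rcases hτI.1.lt_or_eq with h | h
    · exact h
    · rw [← h, hf0] at hτρ'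
      linarith
  have hτe : f τ = ρ := by
    by_contra hne
    have h2 : ρ < f τ := lt_of_le_of_ne hτρ' (Ne.symm hne)
    obtain ⟨t, ht, hte⟩ := intermediate_value_Icc hτ0.le
      (hfc.mono (Icc_subset_Icc_right hτI.2)) (show ρ ∈ Icc (f 0) (f τ) from
        ⟨by rw [hf0]; exact hρ.le, h2.le⟩)
    rcases ht.2.lt_or_eq with h3 | h3
    · have := hlt t ht.1 h3
      linarith
    · rw [h3] at hte
      linarith
  refine ⟨τ, hτ0, ?_, ?_, ?_⟩
  · rcases hτI.2.lt_or_eq with h | h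
    · exact h
    · rw [h] at hτe
      linarith
  · rw [hfe, hτe]
  · intro t ht0 htτ
    rw [hfe]
    exact hlt t ht0 htτ

/-- the circle arc of radius `ρ` around `v` from angle `a` to angle `b` -/
noncomputable def arc (v : ℂ) (ρ a b : ℝ) : ℝ → ℂ :=
  fun t => v + ρ * Complex.exp ((a + (b - a) * t : ℝ) * Complex.I)

private theorem arc_cont (v : ℂ) (ρ a b : ℝ) : Continuous (arc v ρ a b) := by
  unfold arc
  fun_prop

private theorem arc_ne {v : ℂ} {ρ a b : ℝ} (hρ : 0 < ρ) {q : ℂ} (hq : ‖q - v‖ < ρ) (t : ℝ) :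
    arc v ρ a b t ≠ q := by
  intro h
  have h1 : q - v = ρ * Complex.exp ((a + (b - a) * t : ℝ) * Complex.I) := by
    rw [← h]
    unfold arc
    ring
  rw [h1, norm_mul, Complex.norm_exp_ofReal_mul_I, Complex.norm_real, mul_one,
    Real.norm_of_nonneg hρ.le] at hq
  exact lt_irrefl _ hq

private theorem arc_dl {v : ℂ} {ρ a b : ℝ} (hρ : 0 < ρ) :
    dl (arc v ρ a b) v = (b - a) * Complex.I := by
  have h : IsLift (arc v ρ a b) v
      (fun t => (Real.log ρ : ℝ) + ((a + (b - a) * t : ℝ) : ℂ) * Complex.I) := by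
    refine ⟨by fun_prop, fun t _ => ?_⟩
    rw [Complex.exp_add, ← Complex.ofReal_exp, Real.exp_log hρ]
    unfold arc
    ring
  rw [dl_eq h]
  push_cast
  ring

/-- Inside the disc, `dl` of the arcs from `a` to `b` and from `a` to `b - 2π` differ by `2πi`.
Proof: at `q = v` by the lifts `log ρ + i (a + (b - a) t)`; in general the closed chain
`[arc v ρ a b, arc v ρ (b - 2 π) a]` (closed because `exp` has period `2πi`) has a constant
winding number on the open disc (`wn_const`), and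
`dl (arc v ρ (b-2π) a) = - dl (arc v ρ a (b - 2π))` (`dl_rev`). -/
theorem arc_diff {v : ℂ} {ρ a b : ℝ} (hρ : 0 < ρ) {q : ℂ} (hq : ‖q - v‖ < ρ) :
    dl (arc v ρ a b) q - dl (arc v ρ a (b - 2 * Real.pi)) q = 2 * Real.pi * Complex.I := by
  have hloop : IsLoop [arc v ρ a b, arc v ρ (b - 2 * Real.pi) a] := by
    refine ⟨arc v ρ a b 0, (arc_cont v ρ a b).continuousOn, rfl,
      (arc_cont v ρ _ a).continuousOn, ?_, ?_⟩
    · unfold arc
      congr 2
      have e1 : ((b - 2 * Real.pi + (a - (b - 2 * Real.pi)) * 0 : ℝ) : ℂ) * Complex.I =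
          ((a + (b - a) * 1 : ℝ) : ℂ) * Complex.I - 2 * Real.pi * Complex.I := by
        push_cast
        ring
      rw [e1, Complex.exp_sub, Complex.exp_two_pi_mul_I, div_one]
    · have e : b - 2 * Real.pi + (a - (b - 2 * Real.pi)) * 1 = a + (b - a) * 0 := by ring
      change arc v ρ (b - 2 * Real.pi) a 1 = arc v ρ a b 0
      unfold arc
      rw [e]
  have hd : Disjoint (ball v ρ) (supp [arc v ρ a b, arc v ρ (b - 2 * Real.pi) a]) := by
    rw [Set.disjoint_left]
    rintro z hz ⟨p, hp, t, _, ht⟩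
    rw [mem_ball, dist_eq_norm] at hz
    rcases List.mem_cons.1 hp with rfl | hp
    · exact arc_ne hρ hz t ht
    · rw [List.mem_singleton] at hp
      subst hp
      exact arc_ne hρ hz t ht
  have hqb : q ∈ ball v ρ := by
    rw [mem_ball, dist_eq_norm]
    exact hq
  have hvb : v ∈ ball v ρ := mem_ball_self hρ
  have hw := wn_const hloop (convex_ball v ρ).isPreconnected hd hqb hvb
  have htot : tot [arc v ρ a b, arc v ρ (b - 2 * Real.pi) a] q =
      tot [arc v ρ a b, arc v ρ (b - 2 * Real.pi) a] v := by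
    rw [wn_spec hloop (Set.disjoint_left.1 hd hqb), wn_spec hloop (Set.disjoint_left.1 hd hvb),
      hw]
  have hrev : dl (arc v ρ (b - 2 * Real.pi) a) q = -dl (arc v ρ a (b - 2 * Real.pi)) q := by
    refine dl_rev (arc_cont v ρ a _).continuousOn (fun t _ => arc_ne hρ hq t) fun t _ => ?_
    have e : b - 2 * Real.pi + (a - (b - 2 * Real.pi)) * t =
        a + (b - 2 * Real.pi - a) * (1 - t) := by ring
    unfold arc
    rw [e]
  have e1 : tot [arc v ρ a b, arc v ρ (b - 2 * Real.pi) a] q =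
      dl (arc v ρ a b) q - dl (arc v ρ a (b - 2 * Real.pi)) q := by
    unfold tot
    rw [List.map_cons, List.map_cons, List.map_nil, List.sum_cons, List.sum_cons, List.sum_nil,
      hrev]
    ring
  have e2 : tot [arc v ρ a b, arc v ρ (b - 2 * Real.pi) a] v = 2 * Real.pi * Complex.I := by
    unfold tot
    rw [List.map_cons, List.map_cons, List.map_nil, List.sum_cons, List.sum_cons, List.sum_nil,
      arc_dl hρ, arc_dl hρ]
    push_cast
    ring
  rw [← e1, htot, e2]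

end SDE
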