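import Pool.Agent.SDE.TRotA
import Pool.Agent.SDE.TLoopC

/-!
# SDE/TRotB
The radial lemma.
-/

open Set Metric

namespace SDE

/-- **Radial lemma.** A closed chain `[β, α, β']` with `β` a path from `v` to the circle point
`v + ρ e^{ia}`, `α` an arc of the circle from angle `a` to angle `b` (any real numbers), `β'` a
path back to `v`; `β, β'` are in the open disc except for their endpoints on the circle. `η` is a
path from `v` which meets the circle first at `v + ρ e^{ic}` at its parameter `τ`, `η t ∉ β, β'`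
for `0 < t ≤ τ`, and the circle point `v + ρ e^{ic}` is not on the arc `α`. Then the winding
number of the chain around `η t` is `0` for `0 < t ≤ τ`. Proof: the set
`η '' (0,τ] ∪ {v + r e^{ic} | r ≥ ρ}` is connected (two connected sets with the common point
`v + ρ e^{ic}`) and disjoint from the chain (the chain lies in the closed disc and meets the
circle only on `α`), contains points far away: `wn_const` and `wn_far`. -/
theorem radial {v : ℂ} {ρ a b c τ : ℝ} (hρ : 0 < ρ) (hτ : 0 < τ) (hτ1 : τ ≤ 1) {β β' η : ℝ → ℂ}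
    (hl : IsLoop [β, arc v ρ a b, β'])
    (hβ : ∀ t ∈ Icc (0 : ℝ) 1, ‖β t - v‖ ≤ ρ) (hβ' : ∀ t ∈ Icc (0 : ℝ) 1, ‖β' t - v‖ ≤ ρ)
    (hβ1 : ∀ t ∈ Icc (0 : ℝ) 1, ‖β t - v‖ = ρ → β t = v + ρ * Complex.exp (a * Complex.I))
    (hβ1' : ∀ t ∈ Icc (0 : ℝ) 1, ‖β' t - v‖ = ρ → β' t = v + ρ * Complex.exp (b * Complex.I))
    (hη : ContinuousOn η (Icc 0 1)) (hη0 : ∀ t, 0 ≤ t → t < τ → ‖η t - v‖ < ρ)
    (hη1 : η τ = v + ρ * Complex.exp (c * Complex.I))
    (hd : ∀ t, 0 < t → t ≤ τ → η t ∉ β '' Icc 0 1 ∧ η t ∉ β' '' Icc 0 1)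
    (harc : ∀ t ∈ Icc (0 : ℝ) 1, arc v ρ a b t ≠ v + ρ * Complex.exp (c * Complex.I))
    {t : ℝ} (ht0 : 0 < t) (ht : t ≤ τ) : wn [β, arc v ρ a b, β'] (η t) = 0 := by
  have hE : ‖Complex.exp (c * Complex.I)‖ = 1 := Complex.norm_exp_ofReal_mul_I c
  have hray : ∀ r : ℝ, 0 ≤ r → ‖v + r * Complex.exp (c * Complex.I) - v‖ = r := by
    intro r hr
    rw [add_sub_cancel_left, norm_mul, hE, mul_one, Complex.norm_real, Real.norm_of_nonneg hr]
  have harcn : ∀ t : ℝ, ‖arc v ρ a b t - v‖ = ρ := by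
    intro t
    unfold arc
    rw [add_sub_cancel_left, norm_mul, Complex.norm_exp_ofReal_mul_I, mul_one, Complex.norm_real,
      Real.norm_of_nonneg hρ.le]
  have hsub : supp [β, arc v ρ a b, β'] ⊆ Metric.closedBall v ρ := by
    rintro z ⟨p, hp, s, hs, rfl⟩
    rw [Metric.mem_closedBall, dist_eq_norm]
    simp only [List.mem_cons, List.not_mem_nil, or_false] at hp
    rcases hp with rfl | rfl | rfl
    · exact hβ s hs
    · exact (harcn s).le
    · exact hβ' s hs
  have hS1 : IsPreconnected (η '' Ioc 0 τ) :=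
    isPreconnected_Ioc.image η (hη.mono fun s hs => ⟨hs.1.le, hs.2.trans hτ1⟩)
  have hS2 : IsPreconnected
      ((fun r : ℝ => v + (r : ℂ) * Complex.exp (c * Complex.I)) '' Ici ρ) :=
    isPreconnected_Ici.image _ (by fun_prop)
  have hS : IsPreconnected (η '' Ioc 0 τ ∪
      (fun r : ℝ => v + (r : ℂ) * Complex.exp (c * Complex.I)) '' Ici ρ) :=
    IsPreconnected.union (η τ) ⟨τ, ⟨hτ, le_rfl⟩, rfl⟩
      ⟨ρ, Set.mem_Ici.2 le_rfl, hη1.symm⟩ hS1 hS2
  have hdis : Disjoint (η '' Ioc 0 τ ∪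
      (fun r : ℝ => v + (r : ℂ) * Complex.exp (c * Complex.I)) '' Ici ρ)
      (supp [β, arc v ρ a b, β']) := by
    rw [Set.disjoint_left]
    rintro z hz ⟨p, hp, s, hs, hps⟩
    simp only [List.mem_cons, List.not_mem_nil, or_false] at hp
    have hend : z ≠ v + ρ * Complex.exp (c * Complex.I) := by
      intro h1
      have h2 := hd τ hτ le_rfl
      rw [hη1, ← h1] at h2
      rcases hp with rfl | rfl | rfl
      · exact h2.1 ⟨s, hs, hps⟩
      · exact harc s hs (hps.trans h1)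
      · exact h2.2 ⟨s, hs, hps⟩
    have hle : ‖z - v‖ ≤ ρ := by
      have h1 := hsub ⟨p, by simpa using hp, s, hs, rfl⟩
      rw [hps, Metric.mem_closedBall, dist_eq_norm] at h1
      exact h1
    rcases hz with ⟨u, hu, rfl⟩ | ⟨r, hr, rfl⟩
    · have hut : u < τ := by
        rcases lt_or_eq_of_le hu.2 with h1 | h1
        · exact h1
        · exact absurd (h1 ▸ hη1) hend
      have h2 := hd u hu.1 hu.2
      rcases hp with rfl | rfl | rfl
      · exact h2.1 ⟨s, hs, hps⟩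
      · have h3 := harcn s
        rw [hps] at h3
        exact absurd h3 (hη0 u hu.1.le hut).ne
      · exact h2.2 ⟨s, hs, hps⟩
    · have hr' : ρ ≤ r := hr
      have h1 : r ≤ ρ := by
        have h2 := hray r (hρ.le.trans hr')
        exact h2 ▸ hle
      exact hend (by rw [le_antisymm h1 hr'])
  have h1 : wn [β, arc v ρ a b, β'] (η t) =
      wn [β, arc v ρ a b, β'] (v + ((ρ + 1 : ℝ) : ℂ) * Complex.exp (c * Complex.I)) :=
    wn_const hl hS hdis (Or.inl ⟨t, ⟨ht0, ht⟩, rfl⟩)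
      (Or.inr ⟨ρ + 1, Set.mem_Ici.2 (by linarith), rfl⟩)
  rw [h1]
  refine wn_far hl hsub ?_
  rw [hray (ρ + 1) (by linarith)]
  linarith

end SDE
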