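import Pool.Agent.SDE.TRotA

/-!
# SDE/TRotC
Decomposition of a triangle near a vertex.
-/

open Set Metric

namespace SDE

private theorem TRotC_mem {a b t : ℝ} (ha : a ∈ Icc (0 : ℝ) 1) (hb : b ∈ Icc (0 : ℝ) 1)
    (ht : t ∈ Icc (0 : ℝ) 1) : a + (b - a) * t ∈ Icc (0 : ℝ) 1 := by
  obtain ⟨ha0, ha1⟩ := ha
  obtain ⟨hb0, hb1⟩ := hb
  obtain ⟨ht0, ht1⟩ := ht
  have e1 := mul_nonneg ha0 (sub_nonneg.2 ht1)
  have e2 := mul_nonneg hb0 ht0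
  have e3 := mul_nonneg (sub_nonneg.2 ha1) (sub_nonneg.2 ht1)
  have e4 := mul_nonneg (sub_nonneg.2 hb1) ht0
  constructor
  · nlinarith
  · nlinarith

private theorem TRotC_cont {γ : ℝ → ℂ} (hγ : ContinuousOn γ (Icc 0 1)) {a b : ℝ}
    (ha : a ∈ Icc (0 : ℝ) 1) (hb : b ∈ Icc (0 : ℝ) 1) : ContinuousOn (sub γ a b) (Icc 0 1) :=
  hγ.comp (by fun_prop) fun _ ht => TRotC_mem ha hb ht

private theorem TRotC_arc_cont (v : ℂ) (ρ a b : ℝ) : ContinuousOn (arc v ρ a b) (Icc 0 1) := by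
  apply Continuous.continuousOn
  unfold arc
  fun_prop

private theorem TRotC_arc_norm {v : ℂ} {ρ : ℝ} (hρ : 0 < ρ) (a b t : ℝ) :
    ‖arc v ρ a b t - v‖ = ρ := by
  unfold arc
  rw [add_sub_cancel_left, norm_mul, Complex.norm_exp_ofReal_mul_I, mul_one, Complex.norm_real,
    Real.norm_of_nonneg hρ.le]

private theorem TRotC_sub0 (γ : ℝ → ℂ) (a b : ℝ) : sub γ a b 0 = γ a := by
  unfold sub
  rw [mul_zero, add_zero]

private theorem TRotC_sub1 (γ : ℝ → ℂ) (a b : ℝ) : sub γ a b 1 = γ b := by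
  unfold sub
  rw [mul_one, add_sub_cancel]

private theorem TRotC_arc0 (v : ℂ) (ρ a b : ℝ) :
    arc v ρ a b 0 = v + ρ * Complex.exp (a * Complex.I) := by
  unfold arc
  rw [mul_zero, add_zero]

private theorem TRotC_arc1 (v : ℂ) (ρ a b : ℝ) :
    arc v ρ a b 1 = v + ρ * Complex.exp (b * Complex.I) := by
  unfold arc
  rw [mul_one, add_sub_cancel]

theorem rot_decomp {v : ℂ} {γ γ' δ ε : ℝ → ℂ} {ρ τ τ' θx θy : ℝ} (hρ : 0 < ρ)
    (hγ : ContinuousOn γ (Icc 0 1)) (hγi : InjOn γ (Icc 0 1)) (hγ0 : γ 0 = v)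
    (hγ' : ContinuousOn γ' (Icc 0 1)) (hγi' : InjOn γ' (Icc 0 1)) (hγ0' : γ' 0 = v)
    (hδ : ContinuousOn δ (Icc 0 1)) (hδ0 : δ 0 = γ 1) (hδ1 : δ 1 = γ' 1)
    (hε : ∀ t ∈ Icc (0 : ℝ) 1, ε t = γ' (1 - t)) (hεc : ContinuousOn ε (Icc 0 1))
    (hvδ : v ∉ δ '' Icc 0 1) (hτ : 0 < τ ∧ τ < 1) (hτ' : 0 < τ' ∧ τ' < 1)
    (hout : γ τ = v + ρ * Complex.exp (θx * Complex.I))
    (hout' : γ' τ' = v + ρ * Complex.exp (θy * Complex.I)) :
    IsLoop [γ, δ, ε] ∧ IsLoop [sub γ 0 τ, arc v ρ θx θy, sub γ' τ' 0] ∧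
    IsLoop [sub γ τ 1, δ, sub γ' 1 τ', arc v ρ θy θx] ∧
    v ∉ supp [sub γ τ 1, δ, sub γ' 1 τ', arc v ρ θy θx] ∧
    ∀ q, q ∉ supp [γ, δ, ε] → ‖q - v‖ < ρ →
      wn [γ, δ, ε] q = wn [sub γ 0 τ, arc v ρ θx θy, sub γ' τ' 0] q +
        wn [sub γ τ 1, δ, sub γ' 1 τ', arc v ρ θy θx] q := by
  have m0 : (0 : ℝ) ∈ Icc (0 : ℝ) 1 := ⟨le_rfl, zero_le_one⟩
  have m1 : (1 : ℝ) ∈ Icc (0 : ℝ) 1 := ⟨zero_le_one, le_rfl⟩
  have mτ : τ ∈ Icc (0 : ℝ) 1 := ⟨hτ.1.le, hτ.2.le⟩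
  have mτ' : τ' ∈ Icc (0 : ℝ) 1 := ⟨hτ'.1.le, hτ'.2.le⟩
  have e0 : ε 0 = γ' 1 := by rw [hε 0 m0, sub_zero]
  have e1 : ε 1 = v := by rw [hε 1 m1, sub_self, hγ0']
  have L1 : IsLoop [γ, δ, ε] :=
    ⟨v, hγ, hγ0, hδ, hδ0, hεc, e0.trans hδ1.symm, e1⟩
  have L2 : IsLoop [sub γ 0 τ, arc v ρ θx θy, sub γ' τ' 0] := by
    refine ⟨v, TRotC_cont hγ m0 mτ, (TRotC_sub0 γ 0 τ).trans hγ0, TRotC_arc_cont v ρ θx θy, ?_,
      TRotC_cont hγ' mτ' m0, ?_, ?_⟩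
    · rw [TRotC_arc0, TRotC_sub1, hout]
    · rw [TRotC_arc1, TRotC_sub0, hout']
    · exact (TRotC_sub1 γ' τ' 0).trans hγ0'
  have L3 : IsLoop [sub γ τ 1, δ, sub γ' 1 τ', arc v ρ θy θx] := by
    refine ⟨γ τ, TRotC_cont hγ mτ m1, TRotC_sub0 γ τ 1, hδ, ?_, TRotC_cont hγ' m1 mτ', ?_,
      TRotC_arc_cont v ρ θy θx, ?_, ?_⟩
    · rw [TRotC_sub1, hδ0]
    · rw [TRotC_sub0, hδ1]
    · rw [TRotC_arc0, TRotC_sub1, hout']
    · exact (TRotC_arc1 v ρ θy θx).trans hout.symm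
  refine ⟨L1, L2, L3, ?_, ?_⟩
  · rintro ⟨p, hp, s, hs, hps⟩
    simp only [List.mem_cons, List.not_mem_nil, or_false] at hp
    rcases hp with rfl | rfl | rfl | rfl
    · have h1 : τ + (1 - τ) * s ∈ Icc (0 : ℝ) 1 := TRotC_mem mτ m1 hs
      have h2 : γ (τ + (1 - τ) * s) = γ 0 := by rw [hγ0]; exact hps
      have h3 := hγi h1 m0 h2
      have h4 := mul_nonneg (sub_nonneg.2 hτ.2.le) hs.1
      linarith [hτ.1]
    · exact hvδ ⟨s, hs, hps⟩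
    · have h1 : 1 + (τ' - 1) * s ∈ Icc (0 : ℝ) 1 := TRotC_mem m1 mτ' hs
      have h2 : γ' (1 + (τ' - 1) * s) = γ' 0 := by rw [hγ0']; exact hps
      have h3 := hγi' h1 m0 h2
      have h4 := mul_le_mul_of_nonneg_left hs.2 (sub_nonneg.2 hτ'.2.le)
      nlinarith [hτ'.1]
    · have h1 := TRotC_arc_norm (v := v) hρ θy θx s
      rw [hps, sub_self, norm_zero] at h1
      exact hρ.ne h1
  · intro q hq hqv
    have qγ : ∀ t ∈ Icc (0 : ℝ) 1, γ t ≠ q := fun t ht e => hq ⟨γ, by simp, t, ht, e⟩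
    have qδ : ∀ t ∈ Icc (0 : ℝ) 1, δ t ≠ q := fun t ht e => hq ⟨δ, by simp, t, ht, e⟩
    have qε : ∀ t ∈ Icc (0 : ℝ) 1, ε t ≠ q := fun t ht e => hq ⟨ε, by simp, t, ht, e⟩
    have qγ' : ∀ t ∈ Icc (0 : ℝ) 1, γ' t ≠ q := by
      intro t ht e
      have h1 : 1 - t ∈ Icc (0 : ℝ) 1 := ⟨sub_nonneg.2 ht.2, sub_le_self 1 ht.1⟩
      apply qε (1 - t) h1
      rw [hε _ h1, sub_sub_cancel, e]
    have qarc : ∀ a b t : ℝ, arc v ρ a b t ≠ q := by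
      intro a b t e
      have h1 := TRotC_arc_norm (v := v) hρ a b t
      rw [e] at h1
      exact hqv.ne h1
    have q2 : q ∉ supp [sub γ 0 τ, arc v ρ θx θy, sub γ' τ' 0] := by
      rintro ⟨p, hp, s, hs, hps⟩
      simp only [List.mem_cons, List.not_mem_nil, or_false] at hp
      rcases hp with rfl | rfl | rfl
      · exact qγ _ (TRotC_mem m0 mτ hs) hps
      · exact qarc _ _ _ hps
      · exact qγ' _ (TRotC_mem mτ' m0 hs) hps
    have q3 : q ∉ supp [sub γ τ 1, δ, sub γ' 1 τ', arc v ρ θy θx] := by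
      rintro ⟨p, hp, s, hs, hps⟩
      simp only [List.mem_cons, List.not_mem_nil, or_false] at hp
      rcases hp with rfl | rfl | rfl | rfl
      · exact qγ _ (TRotC_mem mτ m1 hs) hps
      · exact qδ _ hs hps
      · exact qγ' _ (TRotC_mem m1 mτ' hs) hps
      · exact qarc _ _ _ hps
    have w1 := wn_spec L1 hq
    have w2 := wn_spec L2 q2
    have w3 := wn_spec L3 q3
    have d1 : dl γ q = dl (sub γ 0 τ) q + dl (sub γ τ 1) q := by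
      rw [← dl_add hγ qγ m0 mτ m1]
      apply dl_congr
      intro t _
      change γ t = γ (0 + (1 - 0) * t)
      rw [sub_zero, one_mul, zero_add]
    have d2 : dl ε q = dl (sub γ' 1 τ') q + dl (sub γ' τ' 0) q := by
      rw [← dl_add hγ' qγ' m1 mτ' m0]
      apply dl_congr
      intro t ht
      change ε t = γ' (1 + (0 - 1) * t)
      rw [hε t ht]
      congr 1
      ring
    have d3 : dl (arc v ρ θy θx) q = - dl (arc v ρ θx θy) q := by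
      apply dl_rev (TRotC_arc_cont v ρ θx θy) (fun t _ => qarc _ _ _)
      intro t _
      unfold arc
      have h1 : θy + (θx - θy) * t = θx + (θy - θx) * (1 - t) := by ring
      rw [h1]
    have t1 : tot [γ, δ, ε] q = dl γ q + (dl δ q + dl ε q) := by simp [tot]
    have t2 : tot [sub γ 0 τ, arc v ρ θx θy, sub γ' τ' 0] q =
        dl (sub γ 0 τ) q + (dl (arc v ρ θx θy) q + dl (sub γ' τ' 0) q) := by simp [tot]
    have t3 : tot [sub γ τ 1, δ, sub γ' 1 τ', arc v ρ θy θx] q =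
        dl (sub γ τ 1) q + (dl δ q + (dl (sub γ' 1 τ') q + dl (arc v ρ θy θx) q)) := by
      simp [tot]
    rw [t1] at w1
    rw [t2] at w2
    rw [t3] at w3
    have key : (wn [γ, δ, ε] q : ℂ) * (2 * Real.pi * Complex.I) =
        ((wn [sub γ 0 τ, arc v ρ θx θy, sub γ' τ' 0] q : ℂ) +
          (wn [sub γ τ 1, δ, sub γ' 1 τ', arc v ρ θy θx] q : ℂ)) *
            (2 * Real.pi * Complex.I) := by
      rw [add_mul, ← w1, ← w2, ← w3, d1, d2, d3]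
      ring
    have key2 := mul_right_cancel₀ Complex.two_pi_I_ne_zero key
    exact_mod_cast key2

end SDE
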