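import Pool.Agent.SDE.TBasicA
import Pool.Agent.SDE.TRotA

/-!
# SDE/TSideA
Angular positions at a vertex.
-/

open Set

namespace SDE
namespace SimpleDrawing

variable {V : Type*} (D : SimpleDrawing V)

/-- Exit data at the vertex `v`: a radius `ρ` smaller than the distance to all other vertices, for
every `x ≠ v` the first exit parameter `τ x` and the angle `θ x`. -/
structure ExitData (v : V) (ρ : ℝ) (τ θ : V → ℝ) : Prop where
  ρpos : 0 < ρ
  τ01 : ∀ x, x ≠ v → 0 < τ x ∧ τ x < 1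
  inside : ∀ x, x ≠ v → ∀ t, 0 ≤ t → t < τ x → ‖D.curve v x t - D.pt v‖ < ρ
  out : ∀ x, x ≠ v → D.curve v x (τ x) = D.pt v + ρ * Complex.exp (θ x * Complex.I)
  θrange : ∀ x, x ≠ v → θ x ∈ Ioc (-Real.pi) Real.pi

/-- Proof: `ρ` exists because `V` is finite; `τ x` from `first_exit`;
`θ x = Complex.arg (curve v x (τ x) - pt v)`. -/
theorem exitData_exists [Finite V] (v : V) : ∃ (ρ : ℝ) (τ θ : V → ℝ), D.ExitData v ρ τ θ := by
  classical
  have : Nonempty V := ⟨v⟩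
  obtain ⟨x₀, hx₀⟩ := Finite.exists_min fun x : V => if x = v then (1 : ℝ) else ‖D.pt x - D.pt v‖
  have hpos : 0 < if x₀ = v then (1 : ℝ) else ‖D.pt x₀ - D.pt v‖ := by
    split_ifs with h
    · exact one_pos
    · exact norm_pos_iff.2 (sub_ne_zero.2 fun h' => h (D.pt_inj h'))
  obtain ⟨δ, hδ⟩ : ∃ δ : ℝ, δ = if x₀ = v then (1 : ℝ) else ‖D.pt x₀ - D.pt v‖ := ⟨_, rfl⟩
  rw [← hδ] at hpos
  have hmin : ∀ x, x ≠ v → δ ≤ ‖D.pt x - D.pt v‖ := by
    intro x hx
    have h1 := hx₀ x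
    rw [← hδ, if_neg hx] at h1
    exact h1
  have hex : ∀ x, x ≠ v → ∃ τ : ℝ, 0 < τ ∧ τ < 1 ∧ ‖D.curve v x τ - D.curve v x 0‖ = δ / 2 ∧
      ∀ t, 0 ≤ t → t < τ → ‖D.curve v x t - D.curve v x 0‖ < δ / 2 := by
    intro x hx
    refine first_exit (D.cont v x hx.symm) (by linarith) ?_
    rw [D.start v x hx.symm, D.finish v x hx.symm]
    have h1 := hmin x hx
    linarith
  choose! τ hτ using hex
  refine ⟨δ / 2, τ, fun x => Complex.arg (D.curve v x (τ x) - D.pt v), by linarith,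
    fun x hx => ⟨(hτ x hx).1, (hτ x hx).2.1⟩, fun x hx t h0 h1 => ?_, fun x hx => ?_,
    fun x _ => Complex.arg_mem_Ioc _⟩
  · rw [← D.start v x hx.symm]
    exact (hτ x hx).2.2.2 t h0 h1
  · have h1 := (hτ x hx).2.2.1
    rw [D.start v x hx.symm] at h1
    have h2 := Complex.norm_mul_exp_arg_mul_I (D.curve v x (τ x) - D.pt v)
    rw [h1] at h2
    rw [h2, add_sub_cancel]

open Classical in
/-- the angular position of the edge `vx` at `v` -/
noncomputable def th [Finite V] (v x : V) : ℝ :=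
  (D.exitData_exists v).choose_spec.choose_spec.choose x

/-- Proof: equal angles give a common point of the edges `vx` and `vy` at distance `ρ > 0` from
`v`; `adj`. -/
theorem th_inj [Finite V] {v x y : V} (hx : x ≠ v) (hy : y ≠ v)
    (h : D.th v x = D.th v y) : x = y := by
  obtain ⟨ρ, τ, θ, hE, hθ⟩ : ∃ (ρ : ℝ) (τ θ : V → ℝ), D.ExitData v ρ τ θ ∧
      ∀ z, D.th v z = θ z :=
    ⟨_, _, _, (D.exitData_exists v).choose_spec.choose_spec.choose_spec, fun _ => rfl⟩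
  rw [hθ, hθ] at h
  by_contra hxy
  have h1 := hE.out x hx
  have h2 := hE.out y hy
  rw [← h, ← h1] at h2
  have m1 : D.curve v x (τ x) ∈ D.edge v x :=
    ⟨τ x, ⟨(hE.τ01 x hx).1.le, (hE.τ01 x hx).2.le⟩, rfl⟩
  have m2 : D.curve v x (τ x) ∈ D.edge v y := by
    rw [← h2]
    exact ⟨τ y, ⟨(hE.τ01 y hy).1.le, (hE.τ01 y hy).2.le⟩, rfl⟩
  have h3 := D.adj hx.symm hy.symm hxy m1 m2
  rw [h1] at h3
  have h4 : (ρ : ℂ) * Complex.exp (θ x * Complex.I) = 0 := by
    exact add_eq_left.1 h3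
  rcases mul_eq_zero.1 h4 with h5 | h5
  · exact hE.ρpos.ne' (by exact_mod_cast h5)
  · exact Complex.exp_ne_zero _ h5

end SimpleDrawing
end SDE
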