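import Pool.Agent.SDE.TTri
import Pool.Agent.SDE.TSideA
import Pool.Agent.SDE.TRot

/-!
# SDE/TSide
The side of a vertex with respect to a triangle.
-/

open Set

namespace SDE
namespace SimpleDrawing

variable {V : Type*} (D : SimpleDrawing V)

private theorem TSide_aux [Finite V] {v x y : V} (h1 : v ≠ x) (h2 : v ≠ y) (h3 : x ≠ y)
    (hlt : D.th v x < D.th v y) :
    ∃ κ : ZMod 2, ∀ c : V, c ≠ v → c ≠ x → c ≠ y →
      D.par v x y (D.pt c) = κ +
        (if (D.th v x < D.th v c ∧ D.th v c < D.th v y) ∨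
            (D.th v y < D.th v c ∧ D.th v c < D.th v x)
          then 1 else 0) + (if D.cr x y v c = true then 1 else 0) := by
  obtain ⟨ρ, τ, hE⟩ : ∃ (ρ : ℝ) (τ : V → ℝ), D.ExitData v ρ τ (D.th v) :=
    ⟨_, _, (D.exitData_exists v).choose_spec.choose_spec.choose_spec⟩
  obtain ⟨κ, hκ⟩ := rotation hE.ρpos (D.cont v x h1) (D.inj v x h1) (D.start v x h1)
    (D.cont v y h2) (D.inj v y h2) (D.start v y h2) (D.cont x y h3)
    ((D.start x y h3).trans (D.finish v x h1).symm)
    ((D.finish x y h3).trans (D.finish v y h2).symm) (D.rev v y h2) (D.cont y v h2.symm)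
    (fun z hz => D.adj h1 h2 h3 hz.1 hz.2) (D.vertex x y v h3 h1 h2) (hE.τ01 x h1.symm)
    (hE.τ01 y h2.symm) (hE.inside x h1.symm) (hE.inside y h2.symm) (hE.out x h1.symm)
    (hE.out y h2.symm) (hE.θrange x h1.symm) (hE.θrange y h2.symm) hlt
  refine ⟨κ, fun c hcv hcx hcy => ?_⟩
  obtain ⟨t0, ht0, hw⟩ := hκ (D.curve v c) (τ c) (D.th v c) (D.cont v c hcv.symm)
    (D.start v c hcv.symm) (D.inj v c hcv.symm)
    (fun z hz => D.adj hcv.symm h1 hcx hz.1 hz.2) (fun z hz => D.adj hcv.symm h2 hcy hz.1 hz.2)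
    (hE.τ01 c hcv).1 (hE.τ01 c hcv).2 (hE.inside c hcv) (hE.out c hcv) (hE.θrange c hcv)
    (fun h => hcx (D.th_inj hcv h1.symm h)) (fun h => hcy (D.th_inj hcv h2.symm h))
  obtain ⟨t, htp, htt0, ht1, htc⟩ : ∃ t : ℝ, 0 < t ∧ t < t0 ∧ t < 1 ∧
      (D.cr v c x y = true → t < D.pos v c x y) := by
    by_cases hcr : D.cr v c x y = true
    · obtain ⟨_, _, _, _, _, _, hpos, _⟩ := D.cr_spec hcr
      have hm : 0 < min (min t0 1) (D.pos v c x y) := lt_min (lt_min ht0 one_pos) hpos.1
      exact ⟨min (min t0 1) (D.pos v c x y) / 2, half_pos hm,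
        lt_of_lt_of_le (half_lt_self hm) ((min_le_left _ _).trans (min_le_left _ _)),
        lt_of_lt_of_le (half_lt_self hm) ((min_le_left _ _).trans (min_le_right _ _)),
        fun _ => lt_of_lt_of_le (half_lt_self hm) (min_le_right _ _)⟩
    · have hm : 0 < min t0 1 := lt_min ht0 one_pos
      exact ⟨min t0 1 / 2, half_pos hm, lt_of_lt_of_le (half_lt_self hm) (min_le_left _ _),
        lt_of_lt_of_le (half_lt_self hm) (min_le_right _ _), fun h => absurd h hcr⟩
  have htI : t ∈ Icc (0 : ℝ) 1 := ⟨htp.le, ht1.le⟩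
  have htI' : 1 - t ∈ Icc (0 : ℝ) 1 := ⟨by linarith, by linarith⟩
  have hmem : D.curve v c t ∈ D.edge v c := ⟨t, htI, rfl⟩
  have hnv : D.curve v c t ≠ D.pt v := by
    intro h
    rw [← D.start v c hcv.symm] at h
    exact htp.ne' (D.inj v c hcv.symm htI ⟨le_rfl, zero_le_one⟩ h)
  have hq0 : D.curve v c t ∉ supp (D.tri v x y) := by
    rw [D.tri_supp h1 h2 h3]
    rintro ((h | h) | h)
    · exact hnv (D.adj hcv.symm h1 hcx hmem h)
    · by_cases hcr : D.cr v c x y = true
      · obtain ⟨_, _, _, _, _, _, _, _, hu, _⟩ := D.cr_spec hcr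
        exact (htc hcr).ne (hu t htI h)
      · exact Set.disjoint_left.1 (D.cr_false hcv.symm h1 h2 hcx hcy h3 (by simpa using hcr))
          hmem h
    · exact hnv (D.adj hcv.symm h2 hcy hmem h)
  have hcurve : D.curve c v (1 - t) = D.curve v c t := by
    rw [D.rev v c hcv.symm (1 - t) htI', sub_sub_cancel]
  have hwalk := D.tri_walk h1 h2 h3 hcv hcx hcy hcv htI' (by rw [hcurve]; exact hq0)
  rw [hcurve] at hwalk
  have z1 : ¬ (D.cr c v v x = true ∧ D.pos c v v x < 1 - t) :=
    fun h => (D.cr_ne h.1).2.2.2.1 rfl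
  have z2 : ¬ (D.cr c v v y = true ∧ D.pos c v v y < 1 - t) :=
    fun h => (D.cr_ne h.1).2.2.2.1 rfl
  have z3 : (D.cr c v x y = true ∧ D.pos c v x y < 1 - t) ↔ D.cr x y v c = true := by
    rw [D.cr_swap v c x y, D.cr_comm v c x y]
    refine ⟨fun h => h.1, fun h => ⟨h, ?_⟩⟩
    rw [D.pos_rev h]
    linarith [htc h]
  rw [if_neg z1, if_neg z2, if_congr z3 rfl rfl] at hwalk
  have hp : D.par v x y (D.curve v c t) = κ +
      (if D.th v x < D.th v c ∧ D.th v c < D.th v y then 1 else 0) := hw t htp htt0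
  rw [hp] at hwalk
  have hA : ((D.th v x < D.th v c ∧ D.th v c < D.th v y) ∨
      (D.th v y < D.th v c ∧ D.th v c < D.th v x)) ↔
      (D.th v x < D.th v c ∧ D.th v c < D.th v y) :=
    or_iff_left fun h => absurd (h.1.trans h.2) (not_lt.2 hlt.le)
  rw [if_congr hA rfl rfl]
  have h4 := CharTwo.add_self_eq_zero (if D.cr x y v c = true then (1 : ZMod 2) else 0)
  linear_combination -hwalk - h4

/-- **Side lemma.** There is a constant `κ` (depending on `v, x, y`) such that for every other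
vertex `c` the side of `c` with respect to the triangle `vxy` is
`κ + [c between x and y in the rotation at v] + [xy crosses vc]`. Proof. Because of `par_comm`
(and the symmetry of the right-hand side in `x, y`) we may assume `th v x < th v y`. `κ` from
`rotation` with `γ = curve v x`, `γ' = curve v y`, `δ = curve x y`, `ε = curve y v`,
`η = curve v c`. Let `t > 0` be small (smaller than `t0` and than the position of the crossing of
`vc` with `xy`, if it exists). `curve v c t = curve c v (1 - t)`; `tri_walk` with `a = c`, `b = v`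
at the parameter `1 - t`: `par (curve v c t) = par (pt c) + (0 + 0 + [cr c v x y])` (the position
of the crossing on `cv` is `< 1 - t`; `cr c v v x = false` etc., common vertex). And `rotation`
says `par (curve v c t) = κ + [th v x < th v c < th v y]`. (`th v y < th v c < th v x` is
impossible.) -/
theorem side_lemma [Finite V] {v x y : V} (h1 : v ≠ x) (h2 : v ≠ y) (h3 : x ≠ y) :
    ∃ κ : ZMod 2, ∀ c : V, c ≠ v → c ≠ x → c ≠ y →
      D.par v x y (D.pt c) = κ +
        (if (D.th v x < D.th v c ∧ D.th v c < D.th v y) ∨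
            (D.th v y < D.th v c ∧ D.th v c < D.th v x)
          then 1 else 0) + (if D.cr x y v c = true then 1 else 0) := by
  rcases lt_trichotomy (D.th v x) (D.th v y) with hlt | heq | hlt
  · exact D.TSide_aux h1 h2 h3 hlt
  · exact absurd (D.th_inj h1.symm h2.symm heq) h3
  · obtain ⟨κ, hκ⟩ := D.TSide_aux h2 h1 h3.symm hlt
    refine ⟨κ, fun c hcv hcx hcy => ?_⟩
    have hq : D.pt c ∉ supp (D.tri v x y) := by
      rw [D.tri_supp h1 h2 h3]
      rintro ((h | h) | h)
      · exact D.vertex v x c h1 hcv hcx h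
      · exact D.vertex x y c h3 hcx hcy h
      · exact D.vertex v y c h2 hcv hcy h
    rw [← D.par_comm h1 h2 h3 hq, hκ c hcv hcy hcx, D.cr_swap x y v c,
      if_congr (or_comm (a := D.th v y < D.th v c ∧ D.th v c < D.th v x)) rfl rfl]

end SimpleDrawing
end SDE
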