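import Pool.Agent.SDE.TBasicA
import Pool.Agent.SDE.TLoopA

/-!
# SDE/TTriA
The triangle `vxy` as a closed chain.
-/

open Set

namespace SDE
namespace SimpleDrawing

variable {V : Type*} (D : SimpleDrawing V)

/-- the triangle `vxy` -/
def tri (v x y : V) : List (ℝ → ℂ) := [D.curve v x, D.curve x y, D.curve y v]

theorem tri_loop {v x y : V} (h1 : v ≠ x) (h2 : v ≠ y) (h3 : x ≠ y) : IsLoop (D.tri v x y) := by
  exact ⟨D.pt v, D.cont v x h1, D.start v x h1, D.cont x y h3,
    (D.start x y h3).trans (D.finish v x h1).symm, D.cont y v h2.symm,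
    (D.start y v h2.symm).trans (D.finish x y h3).symm, D.finish y v h2.symm⟩

theorem tri_supp {v x y : V} (h1 : v ≠ x) (h2 : v ≠ y) (h3 : x ≠ y) :
    supp (D.tri v x y) = D.edge v x ∪ D.edge x y ∪ D.edge v y := by
  rw [← D.edge_comm h2]
  ext z
  constructor
  · rintro ⟨p, hp, hz⟩
    have h4 : p = D.curve v x ∨ p = D.curve x y ∨ p = D.curve y v := by
      simpa [tri] using hp
    rcases h4 with rfl | rfl | rfl
    · exact Or.inl (Or.inl hz)
    · exact Or.inl (Or.inr hz)
    · exact Or.inr hz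
  · rintro ((hz | hz) | hz)
    · exact ⟨D.curve v x, by simp [tri], hz⟩
    · exact ⟨D.curve x y, by simp [tri], hz⟩
    · exact ⟨D.curve y v, by simp [tri], hz⟩

/-- the side of a point with respect to the triangle, mod 2 -/
noncomputable def par (v x y : V) (q : ℂ) : ZMod 2 := ((wn (D.tri v x y) q : ℤ) : ZMod 2)

/-- The triangle in the other direction. Proof: `tot (tri v y x) q = - tot (tri v x y) q`
(`dl_rev`, `rev`) for `q` off the triangle, `wn_spec`; `-1 = 1` in `ZMod 2`. -/
theorem par_comm {v x y : V} (h1 : v ≠ x) (h2 : v ≠ y) (h3 : x ≠ y) {q : ℂ}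
    (hq : q ∉ supp (D.tri v x y)) : D.par v y x q = D.par v x y q := by
  have hq' : q ∉ supp (D.tri v y x) := by
    rw [tri_supp D h2 h1 h3.symm, D.edge_comm h3]
    rw [tri_supp D h1 h2 h3] at hq
    rintro ((hz | hz) | hz)
    · exact hq (Or.inr hz)
    · exact hq (Or.inl (Or.inr hz))
    · exact hq (Or.inl (Or.inl hz))
  have e1 : dl (D.curve v y) q = - dl (D.curve y v) q :=
    dl_rev (D.cont y v h2.symm) (fun t ht e => hq ⟨D.curve y v, by simp [tri], t, ht, e⟩)
      (D.rev y v h2.symm)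
  have e2 : dl (D.curve y x) q = - dl (D.curve x y) q :=
    dl_rev (D.cont x y h3) (fun t ht e => hq ⟨D.curve x y, by simp [tri], t, ht, e⟩)
      (D.rev x y h3)
  have e3 : dl (D.curve x v) q = - dl (D.curve v x) q :=
    dl_rev (D.cont v x h1) (fun t ht e => hq ⟨D.curve v x, by simp [tri], t, ht, e⟩)
      (D.rev v x h1)
  have e4 : tot (D.tri v y x) q = - tot (D.tri v x y) q := by
    simp only [tot, tri, List.map_cons, List.map_nil, List.sum_cons, List.sum_nil]
    rw [e1, e2, e3]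
    ring
  rw [wn_spec (D.tri_loop h2 h1 h3.symm) hq', wn_spec (D.tri_loop h1 h2 h3) hq, ← neg_mul] at e4
  have h5 : (2 * Real.pi * Complex.I : ℂ) ≠ 0 := by simp [Real.pi_ne_zero]
  have h6 : ((wn (D.tri v y x) q : ℤ) : ℂ) = ((-(wn (D.tri v x y) q) : ℤ) : ℂ) := by
    rw [Int.cast_neg]
    exact mul_right_cancel₀ h5 e4
  have h7 : wn (D.tri v y x) q = -(wn (D.tri v x y) q) := Int.cast_injective h6
  unfold par
  rw [h7, Int.cast_neg, CharTwo.neg_eq]

end SimpleDrawing
end SDE
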