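import Mathlib

/-!
# SDE/TWalk
A locally constant function with finitely many flips.
-/

open Set

namespace SDE

private theorem const_int {b : ℝ} (g : ℝ → ZMod 2) (S : Finset ℝ)
    (hloc : ∀ t, 0 ≤ t → t < b → t ∉ S → ∃ δ : ℝ, 0 < δ ∧
      ∀ t', 0 ≤ t' → t' < b → |t' - t| < δ → g t' = g t)
    {x y : ℝ} (hx : 0 ≤ x) (hxy : x ≤ y) (hy : y < b) (h : ∀ s ∈ S, s < x ∨ y < s) :
    g y = g x := by
  let _ : TopologicalSpace (ZMod 2) := ⊥
  have _ : DiscreteTopology (ZMod 2) := ⟨rfl⟩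
  have hc : ContinuousOn g (Icc x y) := by
    intro t ht
    have htS : t ∉ S := by
      intro hs
      rcases h t hs with h1 | h1
      · exact absurd ht.1 (not_le.2 h1)
      · exact absurd ht.2 (not_le.2 h1)
    obtain ⟨δ, hδ, hd⟩ := hloc t (hx.trans ht.1) (lt_of_le_of_lt ht.2 hy) htS
    have hev : ∀ᶠ t' in nhdsWithin t (Icc x y), g t' = g t := by
      filter_upwards [self_mem_nhdsWithin,
        mem_nhdsWithin_of_mem_nhds (Metric.ball_mem_nhds t hδ)] with t' h1 h2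
      rw [Metric.mem_ball, Real.dist_eq] at h2
      exact hd t' (hx.trans h1.1) (lt_of_le_of_lt h1.2 hy) h2
    exact tendsto_const_nhds.congr' (hev.mono fun _ h => h.symm)
  exact isPreconnected_Icc.constant hc ⟨hxy, le_rfl⟩ ⟨le_rfl, hxy⟩

private theorem walk_aux {b : ℝ} (g : ℝ → ZMod 2) (S : Finset ℝ) (hS : ∀ s ∈ S, 0 < s ∧ s < b)
    (hloc : ∀ t, 0 ≤ t → t < b → t ∉ S → ∃ δ : ℝ, 0 < δ ∧
      ∀ t', 0 ≤ t' → t' < b → |t' - t| < δ → g t' = g t)
    (hflip : ∀ s ∈ S, ∃ δ : ℝ, 0 < δ ∧ ∀ x ∈ Ioo (0 : ℝ) δ, g (s + x) = g (s - x) + 1) (N : ℕ) :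
    ∀ t : ℝ, 0 ≤ t → t < b → t ∉ S → (S.filter (fun s => s < t)).card = N →
      g t = g 0 + (N : ZMod 2) := by
  induction N with
  | zero =>
    intro t ht0 htb htS hN
    rw [Finset.card_eq_zero] at hN
    rw [Nat.cast_zero, add_zero]
    refine const_int g S hloc le_rfl ht0 htb fun s hs => Or.inr ?_
    have h1 : ¬ s < t := fun h => by
      have h2 : s ∈ S.filter (fun s => s < t) := Finset.mem_filter.2 ⟨hs, h⟩
      rw [hN] at h2
      exact absurd h2 (Finset.notMem_empty s)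
    exact lt_of_le_of_ne (not_lt.1 h1) fun e => htS (e ▸ hs)
  | succ N ih =>
    intro t ht0 htb htS hN
    have hne : (S.filter (fun s => s < t)).Nonempty := by
      rw [← Finset.card_pos, hN]
      exact Nat.succ_pos N
    obtain ⟨s, hs, hmax⟩ := (S.filter (fun s => s < t)).exists_max_image id hne
    obtain ⟨hsS, hst⟩ := Finset.mem_filter.1 hs
    obtain ⟨δ, hδ, hd⟩ := hflip s hsS
    have hs0 := (hS s hsS).1
    have e1 : ∀ᶠ x in nhdsWithin (0 : ℝ) (Ioi 0), x ∈ Ioo (0 : ℝ) δ := Ioo_mem_nhdsGT hδ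
    have e2 : ∀ᶠ x in nhdsWithin (0 : ℝ) (Ioi 0), x ∈ Ioo (0 : ℝ) (t - s) :=
      Ioo_mem_nhdsGT (sub_pos.2 hst)
    have e3 : ∀ᶠ x in nhdsWithin (0 : ℝ) (Ioi 0), x ∈ Ioo (0 : ℝ) s := Ioo_mem_nhdsGT hs0
    have e4 : ∀ᶠ x in nhdsWithin (0 : ℝ) (Ioi 0), ∀ s' ∈ S, s' < s → s' < s - x := by
      refine (Finset.eventually_all S).2 fun s' _ => ?_
      by_cases h1 : s' < s
      · have h2 : ∀ᶠ x in nhdsWithin (0 : ℝ) (Ioi 0), x ∈ Ioo (0 : ℝ) (s - s') :=
          Ioo_mem_nhdsGT (sub_pos.2 h1)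
        filter_upwards [h2] with x hx _
        linarith [hx.2]
      · exact Filter.Eventually.of_forall fun x h => absurd h h1
    obtain ⟨x, hx1, hx2, hx3, hx4⟩ := (e1.and (e2.and (e3.and e4))).exists
    have hx0 := hx1.1
    have hmax' : ∀ s' ∈ S, s' < t → s' ≤ s := fun s' h1 h2 =>
      hmax s' (Finset.mem_filter.2 ⟨h1, h2⟩)
    have h1 : g t = g (s + x) := by
      refine const_int g S hloc (by linarith) (by linarith [hx2.2]) htb fun s' hs' => ?_
      by_cases h2 : s' < t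
      · exact Or.inl (by linarith [hmax' s' hs' h2])
      · exact Or.inr (lt_of_le_of_ne (not_lt.1 h2) fun e => htS (e ▸ hs'))
    have h2 : s - x ∉ S := fun h => by
      have h3 := hx4 (s - x) h (by linarith)
      exact lt_irrefl _ h3
    have h3 : (S.filter (fun s' => s' < s - x)).card = N := by
      have h4 : S.filter (fun s' => s' < s - x) = (S.filter (fun s' => s' < t)).erase s := by
        ext s'
        rw [Finset.mem_erase, Finset.mem_filter, Finset.mem_filter]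
        constructor
        · rintro ⟨h5, h6⟩
          exact ⟨by intro e; linarith, h5, by linarith⟩
        · rintro ⟨h5, h6, h7⟩
          exact ⟨h6, hx4 s' h6 (lt_of_le_of_ne (hmax' s' h6 h7) h5)⟩
      rw [h4, Finset.card_erase_of_mem hs, hN]
      rfl
    have h4 := ih (s - x) (by linarith [hx3.2]) (by linarith) h2 h3
    rw [h1, hd x hx1, h4, Nat.cast_succ, add_assoc]

/-- **Walk lemma.** `g : ℝ → ZMod 2` on `[0,b)`, `S` a finite set of flip points in `(0,b)`:
outside `S`, `g` is locally constant (within `[0,b)`); at a flip point `s` the values at `s - δ`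
and `s + δ'` differ by `1` for small `δ, δ' > 0` in the sense `hflip`. Then
`g t = g 0 + #{s ∈ S | s < t}` for `t ∈ [0,b) \ S`. Proof. Put `g' t = g t - #{s ∈ S | s < t}` for
`t ∉ S`. Near a point `t ∉ S`, `g'` is constant. At `s ∈ S`: for small `δ > 0`,
`g (s + δ) = g (s - δ) + 1` and `#{..}` increases by `1`, and `g'` is constant on `(s - δ, s)` and
on `(s, s + δ)` (connected, locally constant), so `g'` takes the same value on both sides; define
`g' s` as this value. Then `g'` is locally constant on the connected set `[0,b)`, so constant.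
(Alternatively: induction on the number of flip points, using the largest one.) -/
theorem walk {b : ℝ} (hb : 0 < b) (g : ℝ → ZMod 2) (S : Finset ℝ) (hS : ∀ s ∈ S, 0 < s ∧ s < b)
    (hloc : ∀ t, 0 ≤ t → t < b → t ∉ S → ∃ δ : ℝ, 0 < δ ∧
      ∀ t', 0 ≤ t' → t' < b → |t' - t| < δ → g t' = g t)
    (hflip : ∀ s ∈ S, ∃ δ : ℝ, 0 < δ ∧ ∀ x ∈ Ioo (0 : ℝ) δ, g (s + x) = g (s - x) + 1)
    {t : ℝ} (ht0 : 0 ≤ t) (htb : t < b) (htS : t ∉ S) :
    g t = g 0 + ((S.filter (fun s => s < t)).card : ZMod 2) := by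
  have _ := hb
  exact walk_aux g S hS hloc hflip _ t ht0 htb htS rfl

end SDE
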