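import Pool.Agent.SDE.TBasic
import Pool.Agent.SDE.TTriA
import Pool.Agent.SDE.TJump
import Pool.Agent.SDE.TWalk

/-!
# SDE/TTri
The side of a triangle changes exactly at the crossings.
-/

open Set

namespace SDE
namespace SimpleDrawing

variable {V : Type*} (D : SimpleDrawing V)

private theorem card_part (P : Prop) [Decidable P] (p t : ℝ) :
    ((if P then ({p} : Finset ℝ) else ∅).filter (fun s => s < t)).card =
      if P ∧ p < t then 1 else 0 := by
  by_cases hP : P
  · by_cases hp : p < t
    · simp [hP, hp, Finset.filter_singleton]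
    · simp [hP, hp, Finset.filter_singleton]
  · simp [hP]

private theorem card_aux (P1 P2 P3 : Prop) [Decidable P1] [Decidable P2] [Decidable P3]
    (p1 p2 p3 t : ℝ) (h12 : P1 → P2 → p1 ≠ p2) (h13 : P1 → P3 → p1 ≠ p3)
    (h23 : P2 → P3 → p2 ≠ p3) :
    ((((if P1 then ({p1} : Finset ℝ) else ∅) ∪ (if P2 then {p2} else ∅)) ∪
      (if P3 then {p3} else ∅)).filter (fun s => s < t)).card =
      (if P1 ∧ p1 < t then 1 else 0) + (if P2 ∧ p2 < t then 1 else 0) +
        (if P3 ∧ p3 < t then 1 else 0) := by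
  have mem : ∀ (P : Prop) [Decidable P] (p x : ℝ),
      x ∈ (if P then ({p} : Finset ℝ) else ∅).filter (fun s => s < t) → P ∧ x = p := by
    intro P _ p x hx
    rw [Finset.mem_filter] at hx
    by_cases hP : P
    · rw [if_pos hP, Finset.mem_singleton] at hx
      exact ⟨hP, hx.1⟩
    · rw [if_neg hP] at hx
      exact absurd hx.1 (Finset.notMem_empty x)
  rw [Finset.filter_union, Finset.filter_union, Finset.card_union_of_disjoint,
    Finset.card_union_of_disjoint, card_part, card_part, card_part]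
  · rw [Finset.disjoint_left]
    intro x hx hx'
    obtain ⟨a1, a2⟩ := mem _ _ _ hx
    obtain ⟨b1, b2⟩ := mem _ _ _ hx'
    exact h12 a1 b1 (a2 ▸ b2)
  · rw [Finset.disjoint_left]
    intro x hx hx'
    obtain ⟨b1, b2⟩ := mem _ _ _ hx'
    rcases Finset.mem_union.1 hx with hx | hx
    · obtain ⟨a1, a2⟩ := mem _ _ _ hx
      exact h13 a1 b1 (a2 ▸ b2)
    · obtain ⟨a1, a2⟩ := mem _ _ _ hx
      exact h23 a1 b1 (a2 ▸ b2)

private theorem cr_swap' (a b c d : V) : D.cr a b d c = D.cr a b c d := by
  rw [← D.cr_comm a b d c, D.cr_swap, D.cr_comm]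

private theorem flip_aux {p q r a b : V} (hpq : p ≠ q) (hpr : p ≠ r) (hqr : q ≠ r)
    (h : D.cr a b p q = true) {l : List (ℝ → ℂ)} (hl : IsLoop l)
    (hperm : l.Perm [D.curve p q, D.curve q r, D.curve r p]) :
    ∃ δ : ℝ, 0 < δ ∧ ∀ s ∈ Ioo (0 : ℝ) δ, Odd (wn l (D.curve a b (D.pos a b p q + s)) -
      wn l (D.curve a b (D.pos a b p q - s))) := by
  have h' : D.cr p q a b = true := by rw [D.cr_comm]; exact h
  obtain ⟨hab, -, -, -, -, -, ht, -, -, -, hX⟩ := D.cr_spec h
  obtain ⟨-, -, -, -, -, -, hs, -, -, -, -⟩ := D.cr_spec h'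
  have hpt := D.cross_point h
  have hmem : D.curve p q (D.pos p q a b) ∈ D.edge p q :=
    ⟨_, Ioo_subset_Icc_self hs, rfl⟩
  obtain ⟨δ, h1, h2⟩ := jump (l := l) (rest := [D.curve q r, D.curve r p]) (f := D.curve p q)
    (h := D.curve a b) hl hperm
    (by
      intro g hg
      rcases List.mem_cons.1 hg with rfl | hg
      · exact D.cont q r hqr
      · rw [List.mem_singleton.1 hg]
        exact D.cont r p hpr.symm)
    (D.cont p q hpq) (D.inj p q hpq) (D.cont a b hab) (D.inj a b hab) hs ht hpt.symm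
    (by rw [← hpt]; exact hX)
    (by
      rintro ⟨g, hg, hz⟩
      rcases List.mem_cons.1 hg with rfl | hg
      · have h3 : D.curve p q (D.pos p q a b) = D.pt q :=
          D.adj hpq.symm hqr hpr (by rw [D.edge_comm hpq]; exact hmem) hz
        have h4 := D.inj p q hpq (Ioo_subset_Icc_self hs) (right_mem_Icc.2 zero_le_one)
          (h3.trans (D.finish p q hpq).symm)
        exact absurd h4 hs.2.ne
      · rw [List.mem_singleton.1 hg] at hz
        have hz' : D.curve p q (D.pos p q a b) ∈ D.edge p r := by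
          rw [← D.edge_comm hpr]
          exact hz
        have h3 : D.curve p q (D.pos p q a b) = D.pt p := D.adj hpq hpr hqr hmem hz'
        have h4 := D.inj p q hpq (Ioo_subset_Icc_self hs) (left_mem_Icc.2 zero_le_one)
          (h3.trans (D.start p q hpq).symm)
        exact absurd h4 hs.1.ne')
  exact ⟨δ, h1, fun s hs => (h2 s hs).2.2⟩

private theorem odd_cast {k n : ℤ} (h : Odd (k - n)) : (k : ZMod 2) = (n : ZMod 2) + 1 := by
  obtain ⟨j, hj⟩ := h
  have h1 : k = n + 1 + 2 * j := by omega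
  rw [h1]
  push_cast
  have h2 : (2 : ZMod 2) = 0 := rfl
  rw [h2]
  ring

/-- **Walk along an edge.** `a` not a vertex of the triangle, `b ≠ a` arbitrary; `t ∈ [0,1]` with
`curve a b t` not on the triangle. The side at `curve a b t` is the side at `a` plus the number of
triangle edges which cross `ab` before `t`. Proof. `walk` with `g t = par (curve a b t)` (for
`t ≤ 1`, constant afterwards; if `b` is a vertex of the triangle use the interval `[0,1)` only),
`S` = the set of positions `pos a b e` of the triangle edges `e` which cross `ab`. The positions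
are different: two triangle edges have a common vertex (`pos_ne`). Outside `S` the point
`curve a b t` is not on the triangle (`cr_spec`, `cr_false`, `adj`: an edge of the triangle which
has `b` as an endpoint meets `ab` only in `pt b`; `t = 1`), so `par` is locally constant
(`wn_eventually` and continuity of `curve a b`). At a position in `S`: `jump` with
`l = tri v x y`, `f` = the crossed triangle edge, `h = curve a b`; the crossing point is not on
the other two triangle edges because it is not a vertex (`adj`). `Odd (..)` in `ℤ` gives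
difference `1` in `ZMod 2`. -/
theorem tri_walk {v x y a b : V} (h1 : v ≠ x) (h2 : v ≠ y) (h3 : x ≠ y) (hav : a ≠ v) (hax : a ≠ x)
    (hay : a ≠ y) (hab : a ≠ b) {t : ℝ} (ht : t ∈ Icc (0 : ℝ) 1)
    (hq : D.curve a b t ∉ supp (D.tri v x y)) :
    D.par v x y (D.curve a b t) = D.par v x y (D.pt a) +
      ((if D.cr a b v x = true ∧ D.pos a b v x < t then 1 else 0) +
       (if D.cr a b v y = true ∧ D.pos a b v y < t then 1 else 0) +
       (if D.cr a b x y = true ∧ D.pos a b x y < t then 1 else 0)) := by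
  have hD := D.tri_loop h1 h2 h3
  have hsupp := D.tri_supp h1 h2 h3
  have hI := D.cont a b hab
  -- the symmetric forms of the data
  have cyx : D.cr a b x v = D.cr a b v x := D.cr_swap' a b v x
  have cyv : D.cr a b y v = D.cr a b v y := D.cr_swap' a b v y
  have cxy : D.cr a b y x = D.cr a b x y := D.cr_swap' a b x y
  set c : ℝ → ℂ := fun t => D.curve a b (max 0 (min 1 t)) with hc
  have hcc : Continuous c := hI.comp_continuous (by fun_prop)
    fun t => ⟨le_max_left _ _, max_le zero_le_one (min_le_left _ _)⟩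
  have hcI : ∀ t ∈ Icc (0 : ℝ) 1, c t = D.curve a b t := by
    intro t ht
    simp only [hc]
    rw [min_eq_right ht.2, max_eq_right ht.1]
  set S : Finset ℝ := ((if D.cr a b v x = true then ({D.pos a b v x} : Finset ℝ) else ∅) ∪
    (if D.cr a b v y = true then {D.pos a b v y} else ∅)) ∪
      (if D.cr a b x y = true then {D.pos a b x y} else ∅) with hSdef
  have hSmem : ∀ s, s ∈ S ↔ (D.cr a b v x = true ∧ s = D.pos a b v x) ∨
      (D.cr a b v y = true ∧ s = D.pos a b v y) ∨ (D.cr a b x y = true ∧ s = D.pos a b x y) := by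
    intro s
    rw [hSdef, Finset.mem_union, Finset.mem_union, or_assoc]
    have key : ∀ (P : Prop) [Decidable P] (p : ℝ),
        s ∈ (if P then ({p} : Finset ℝ) else ∅) ↔ P ∧ s = p := by
      intro P _ p
      by_cases hP : P
      · simp [hP]
      · simp [hP]
    rw [key, key, key]
  -- crossing edges
  have hedge : ∀ p q : V, a ≠ p → a ≠ q → p ≠ q → ∀ τ ∈ Icc (0 : ℝ) 1,
      D.curve a b τ ∈ D.edge p q → ((b = p ∨ b = q) ∧ τ = 1) ∨
        (D.cr a b p q = true ∧ τ = D.pos a b p q) := by
    intro p q hap haq hpq τ hτ hmem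
    have hmem' : D.curve a b τ ∈ D.edge a b := ⟨τ, hτ, rfl⟩
    by_cases hbp : b = p
    · left
      refine ⟨Or.inl hbp, ?_⟩
      subst hbp
      have h5 : D.curve a b τ = D.pt b :=
        D.adj hab.symm hpq haq (by rw [D.edge_comm hab]; exact hmem') hmem
      exact D.inj a b hab hτ (right_mem_Icc.2 zero_le_one) (h5.trans (D.finish a b hab).symm)
    · by_cases hbq : b = q
      · left
        refine ⟨Or.inr hbq, ?_⟩
        subst hbq
        have h5 : D.curve a b τ = D.pt b :=
          D.adj hab.symm hpq.symm hap (by rw [D.edge_comm hab]; exact hmem')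
            (by rw [D.edge_comm hpq]; exact hmem)
        exact D.inj a b hab hτ (right_mem_Icc.2 zero_le_one) (h5.trans (D.finish a b hab).symm)
      · right
        have hcr : D.cr a b p q = true := by
          by_contra hne
          have hf : D.cr a b p q = false := by
            cases hh : D.cr a b p q
            · rfl
            · exact absurd hh hne
          exact Set.disjoint_left.1 (D.cr_false hab hap haq hbp hbq hpq hf) hmem' hmem
        exact ⟨hcr, (D.cr_spec hcr).2.2.2.2.2.2.2.2.1 τ hτ hmem⟩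
  -- a point on the triangle is the end point or a crossing
  have hon : ∀ τ ∈ Icc (0 : ℝ) 1, D.curve a b τ ∈ supp (D.tri v x y) →
      ((b = v ∨ b = x ∨ b = y) ∧ τ = 1) ∨ τ ∈ S := by
    intro τ hτ hmem
    rw [hsupp] at hmem
    rcases hmem with (hm | hm) | hm
    · rcases hedge v x hav hax h1 τ hτ hm with ⟨h5, h6⟩ | h5
      · exact Or.inl ⟨h5.elim Or.inl fun h => Or.inr (Or.inl h), h6⟩
      · exact Or.inr ((hSmem τ).2 (Or.inl h5))
    · rcases hedge x y hax hay h3 τ hτ hm with ⟨h5, h6⟩ | h5
      · exact Or.inl ⟨Or.inr h5, h6⟩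
      · exact Or.inr ((hSmem τ).2 (Or.inr (Or.inr h5)))
    · rcases hedge v y hav hay h2 τ hτ hm with ⟨h5, h6⟩ | h5
      · exact Or.inl ⟨h5.elim Or.inl fun h => Or.inr (Or.inr h), h6⟩
      · exact Or.inr ((hSmem τ).2 (Or.inr (Or.inl h5)))
  have hSI : ∀ s ∈ S, s ∈ Ioo (0 : ℝ) 1 ∧ D.curve a b s ∈ supp (D.tri v x y) := by
    intro s hs
    rw [hsupp]
    rcases (hSmem s).1 hs with ⟨h5, rfl⟩ | ⟨h5, rfl⟩ | ⟨h5, rfl⟩
    · obtain ⟨-, -, -, -, -, -, i1, i2, -⟩ := D.cr_spec h5
      exact ⟨i1, Or.inl (Or.inl i2)⟩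
    · obtain ⟨-, -, -, -, -, -, i1, i2, -⟩ := D.cr_spec h5
      exact ⟨i1, Or.inr i2⟩
    · obtain ⟨-, -, -, -, -, -, i1, i2, -⟩ := D.cr_spec h5
      exact ⟨i1, Or.inl (Or.inr i2)⟩
  have htS : t ∉ S := fun h => hq (hSI t h).2
  -- flips
  have hfl : ∀ s ∈ S, ∃ δ : ℝ, 0 < δ ∧ ∀ r ∈ Ioo (0 : ℝ) δ,
      Odd (wn (D.tri v x y) (D.curve a b (s + r)) - wn (D.tri v x y) (D.curve a b (s - r))) := by
    intro s hs
    rcases (hSmem s).1 hs with ⟨h5, rfl⟩ | ⟨h5, rfl⟩ | ⟨h5, rfl⟩
    · exact D.flip_aux h1 h2 h3 h5 hD (List.Perm.refl _)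
    · rw [← D.pos_swap a b v y]
      exact D.flip_aux h2.symm h3.symm h1 (cyv.trans h5) hD
        (List.perm_append_comm (l₁ := [D.curve v x, D.curve x y]) (l₂ := [D.curve y v]))
    · exact D.flip_aux h3 h1.symm h2.symm h5 hD
        (List.perm_append_comm (l₁ := [D.curve v x]) (l₂ := [D.curve x y, D.curve y v]))
  set g : ℝ → ZMod 2 := fun t => D.par v x y (c t) with hg
  obtain ⟨B, hB1, htB, hBend⟩ : ∃ B : ℝ, 1 ≤ B ∧ t < B ∧
      ((b = v ∨ b = x ∨ b = y) → B = 1) := by
    by_cases hb : b = v ∨ b = x ∨ b = y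
    · refine ⟨1, le_rfl, lt_of_le_of_ne ht.2 ?_, fun _ => rfl⟩
      rintro rfl
      apply hq
      rw [D.finish a b hab, hsupp]
      have hR : (1 : ℝ) ∈ Icc (0 : ℝ) 1 := right_mem_Icc.2 zero_le_one
      have hL : (0 : ℝ) ∈ Icc (0 : ℝ) 1 := left_mem_Icc.2 zero_le_one
      rcases hb with rfl | rfl | rfl
      · exact Or.inl (Or.inl ⟨0, hL, D.start _ _ h1⟩)
      · exact Or.inl (Or.inl ⟨1, hR, D.finish _ _ h1⟩)
      · exact Or.inl (Or.inr ⟨1, hR, D.finish _ _ h3⟩)
    · exact ⟨2, by norm_num, lt_of_le_of_lt ht.2 (by norm_num), fun h => absurd h hb⟩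
  have hwalk := walk (b := B) (by linarith) g S
    (fun s hs => ⟨(hSI s hs).1.1, lt_of_lt_of_le (hSI s hs).1.2 hB1⟩)
    (by
      intro t' ht0 htB' htS'
      have hoff : c t' ∉ supp (D.tri v x y) := by
        intro hmem
        have hτ : max 0 (min 1 t') ∈ Icc (0 : ℝ) 1 :=
          ⟨le_max_left _ _, max_le zero_le_one (min_le_left _ _)⟩
        rcases hon _ hτ hmem with ⟨h5, h6⟩ | h5
        · have h7 := hBend h5
          rw [h7] at htB'
          rw [min_eq_right htB'.le, max_eq_right ht0] at h6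
          exact absurd h6 htB'.ne
        · have h7 := (hSI _ h5).1
          rcases le_total 1 t' with h8 | h8
          · rw [min_eq_left h8, max_eq_right zero_le_one] at h7
            exact absurd h7.2 (lt_irrefl _)
          · rw [min_eq_right h8, max_eq_right ht0] at h5
            exact htS' h5
      have hev := hcc.continuousAt.eventually (wn_eventually hD hoff)
      obtain ⟨δ, hδ, hδ'⟩ := Metric.eventually_nhds_iff.1 hev
      refine ⟨δ, hδ, fun t'' _ _ hd => ?_⟩
      have := (hδ' (y := t'') (by rw [Real.dist_eq]; exact hd)).2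
      simp only [hg, par, this])
    (by
      intro s hs
      obtain ⟨δ, hδ, hδ'⟩ := hfl s hs
      have hsI := (hSI s hs).1
      refine ⟨min δ (min s (1 - s)), lt_min hδ (lt_min hsI.1 (by linarith [hsI.2])), ?_⟩
      intro r hr
      have hr1 : r < δ := lt_of_lt_of_le hr.2 (min_le_left _ _)
      have hr2 : r < s := lt_of_lt_of_le hr.2 ((min_le_right _ _).trans (min_le_left _ _))
      have hr3 : r < 1 - s := lt_of_lt_of_le hr.2 ((min_le_right _ _).trans (min_le_right _ _))
      have hr0 := hr.1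
      have e1 := hcI (s + r) ⟨by linarith, by linarith⟩
      have e2 := hcI (s - r) ⟨by linarith, by linarith⟩
      simp only [hg, par]
      rw [e1, e2]
      exact odd_cast (hδ' r ⟨hr0, hr1⟩))
    ht.1 htB htS
  have e1 : g t = D.par v x y (D.curve a b t) := by
    simp only [hg]
    rw [hcI t ht]
  have e2 : g 0 = D.par v x y (D.pt a) := by
    simp only [hg]
    rw [hcI 0 (left_mem_Icc.2 zero_le_one), D.start a b hab]
  rw [e1, e2] at hwalk
  rw [hwalk, hSdef, card_aux]
  · push_cast
    rfl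
  · intro i1 i2
    exact D.pos_ne i1 i2 h3
  · intro i1 i2
    rw [← D.pos_swap a b v x]
    exact D.pos_ne (cyx.trans i1) i2 h2
  · intro i1 i2
    rw [← D.pos_swap a b v y, ← D.pos_swap a b x y]
    exact D.pos_ne (cyv.trans i1) (cxy.trans i2) h1

end SimpleDrawing
end SDE
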