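import Pool.Agent.SDE.LemI2
import Pool.Agent.SDE.LemJ1
import Pool.Agent.SDE.LemJ0

/-!
# SDE/Win
The window lemma.
-/

namespace SDE
namespace AbsDrawing

variable {V : Type*} {D : AbsDrawing V}

/-- The window lemma, low part. `u, w ∈ U` are on the low side of the window `t, ..., t+10`
(`cr (x t) (x (t+1)) v u = false`): the edge `uw` misses `x i x j` for `t+4 ≤ i < j ≤ t+10`.
Proof: `TChain.low` gives `c_u = c_w = false` on all pairs of the window; `J0` with `j s = t + s`.
-/
theorem TChain.winLow {v : V} {U : Finset V} {m : ℕ} {x : ℕ → V} (h : D.TChain v U m x)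
    {t : ℕ} (ht : t + 10 < m) {u w : V} (hu : u ∈ U) (hw : w ∈ U) (huw : u ≠ w)
    (cu : D.cr (x t) (x (t + 1)) v u = false) (cw : D.cr (x t) (x (t + 1)) v w = false)
    {i j : ℕ} (hi : t + 4 ≤ i) (hij : i < j) (hj : j ≤ t + 10) :
    D.cr u w (x i) (x j) = false := by
  have h3 : ((3 : Fin 4) : ℕ) = 3 := rfl
  have hlt : ∀ s : Fin 4, (s : ℕ) < 4 := fun s => s.isLt
  refine h.J0 hu hw huw (fun s : Fin 4 => t + (s : ℕ)) ?_ ?_ hij (by omega) ?_ ?_
  · intro a b hab
    exact Nat.add_lt_add_left (Fin.lt_def.1 hab) t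
  · omega
  · intro a b hab
    have h1 := Fin.lt_def.1 hab
    have h2 := hlt b
    exact h.low (s := t) (by omega) (by omega) (by omega) hu cu
  · intro a b hab
    have h1 := Fin.lt_def.1 hab
    have h2 := hlt b
    exact h.low (s := t) (by omega) (by omega) (by omega) hw cw

/-- The window lemma, high part. `u, w ∈ U` are on the high side
(`cr (x (t+9)) (x (t+10)) v u = true`): the edge `uw` misses `v x_i` for `t ≤ i ≤ t+6` and misses
`x_i x_j` for `t ≤ i < j ≤ t+6`. Proof: `TChain.high` gives `c_u = c_w = true` on all pairs of the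
window; `J1` with `j s = t + 7 + s`; the second statement by `p5` with triangle `(v, x_i, x_j)`,
`a = u`, `c = w`: both sides are `true` (`sideU`). -/
theorem TChain.winHigh {v : V} {U : Finset V} {m : ℕ} {x : ℕ → V} (h : D.TChain v U m x)
    {t : ℕ} (ht : t + 10 < m) {u w : V} (hu : u ∈ U) (hw : w ∈ U) (huw : u ≠ w)
    (cu : D.cr (x (t + 9)) (x (t + 10)) v u = true)
    (cw : D.cr (x (t + 9)) (x (t + 10)) v w = true) :
    (∀ i, t ≤ i → i ≤ t + 6 → D.cr u w v (x i) = false) ∧
    (∀ i j, t ≤ i → i < j → j ≤ t + 6 → D.cr u w (x i) (x j) = false) := by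
  have h3 : ((3 : Fin 4) : ℕ) = 3 := rfl
  have h0 : ((0 : Fin 4) : ℕ) = 0 := rfl
  have hlt : ∀ s : Fin 4, (s : ℕ) < 4 := fun s => s.isLt
  have first : ∀ i, t ≤ i → i ≤ t + 6 → D.cr u w v (x i) = false := by
    intro i _ hi
    refine h.J1 hu hw huw (fun s : Fin 4 => t + 7 + (s : ℕ)) ?_ ?_ ?_ ?_ ?_
    · omega
    · intro a b hab
      exact Nat.add_lt_add_left (Fin.lt_def.1 hab) (t + 7)
    · omega
    · intro a b hab
      have h1 := Fin.lt_def.1 hab
      have h2 := hlt b
      exact h.high (t := t + 9) (by omega) (by omega) (by omega) hu cu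
    · intro a b hab
      have h1 := Fin.lt_def.1 hab
      have h2 := hlt b
      exact h.high (t := t + 9) (by omega) (by omega) (by omega) hw cw
  refine ⟨first, fun i j hi hij hj => ?_⟩
  have hxU : ∀ k, k < m → ∀ y ∈ U, y ≠ x k := fun k hk y hy e => h.notU k hk (e ▸ hy)
  have hvU : ∀ y ∈ U, y ≠ v := fun y hy e => h.vU (e ▸ hy)
  have him : i < m := by omega
  have hjm : j < m := by omega
  have hne : x i ≠ x j := fun e => by
    have h1 := h.inj i j him hjm e
    omega
  have h5 := D.p5 (h.ne i him).symm (h.ne j hjm).symm hne (hvU u hu) (hxU i him u hu)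
    (hxU j hjm u hu) (hvU w hw) (hxU i him w hw) (hxU j hjm w hw) huw
  rw [h.sideU hij hjm hu, h.sideU hij hjm hw,
    h.high (t := t + 9) hij (by omega) (by omega) hu cu,
    h.high (t := t + 9) hij (by omega) (by omega) hw cw,
    first i hi (by omega), first j (by omega) hj] at h5
  simpa using h5

end AbsDrawing
end SDE
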